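import Pool.Agent.Q22.GO.Stm

set_option autoImplicit false

/-!
Noether normalisation for the coordinate ring of a prime ideal of `ℂ[x]`, lifted to polynomials.
-/

namespace Pool.Agent.Q22.GO

open H113G Metric Set Topology

namespace ALG1

/-- evaluation commutes with the quotient map -/
lemma mk_ev2 {m k : ℕ} (I : Ideal (MvPolynomial (Fin m) ℂ)) (z : Fin k → MvPolynomial (Fin m) ℂ)
    (g : MvPolynomial (Fin k) ℂ →ₐ[ℂ] (MvPolynomial (Fin m) ℂ ⧸ I))
    (hg : (Ideal.Quotient.mkₐ ℂ I).comp (MvPolynomial.aeval z) = g)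
    (θ : MvPolynomial (Fin m) ℂ) (P : Polynomial (MvPolynomial (Fin k) ℂ)) :
    Ideal.Quotient.mk I (ev2 z θ P) = P.eval₂ g.toRingHom (Ideal.Quotient.mk I θ) := by
  unfold ev2
  rw [Polynomial.hom_eval₂]
  congr 1
  rw [← hg]
  rfl

end ALG1

theorem t_ALG1 : S_ALG1 := by
  intro m I hI
  obtain ⟨k, _, g, hinj, hint⟩ := exists_integral_inj_algHom_of_quotient I hI.ne_top
  have hz : ∀ i : Fin k, ∃ p : MvPolynomial (Fin m) ℂ,
      Ideal.Quotient.mk I p = g (MvPolynomial.X i) := fun i => Ideal.Quotient.mk_surjective _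
  choose z hz using hz
  have hg : (Ideal.Quotient.mkₐ ℂ I).comp (MvPolynomial.aeval z) = g := by
    apply MvPolynomial.algHom_ext
    intro i
    rw [AlgHom.comp_apply, MvPolynomial.aeval_X, Ideal.Quotient.mkₐ_eq_mk]
    exact hz i
  refine ⟨k, z, ?_, ?_⟩
  · intro D hD
    apply hinj
    rw [map_zero, ← hg, AlgHom.comp_apply, Ideal.Quotient.mkₐ_eq_mk]
    exact Ideal.Quotient.eq_zero_iff_mem.mpr hD
  · intro j
    obtain ⟨P, hP, hP0⟩ := hint (Ideal.Quotient.mk I (MvPolynomial.X j))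
    refine ⟨P, hP, ?_⟩
    rw [← Ideal.Quotient.eq_zero_iff_mem, ALG1.mk_ev2 I z g hg]
    exact hP0

end Pool.Agent.Q22.GO
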