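import Pool.Agent.Q22.GO.Stm

/-!
Project GO (helper22), job ALG2: primitive element, minimal polynomial, clearing denominators.
-/

set_option autoImplicit false

namespace Pool.Agent.Q22.GO

open H113G Metric Set Topology

namespace ALG2

open Polynomial nonZeroDivisors

/-- common denominators of finitely many polynomials -/
theorem common_den {A₀ K : Type} [CommRing A₀] [IsDomain A₀] [Field K] [Algebra A₀ K] [IsFractionRing A₀ K]
    {ι : Type} [Fintype ι] (q : ι → K[X]) :
    ∃ d : A₀, d ≠ 0 ∧ ∃ Q : ι → A₀[X], ∀ i, (Q i).map (algebraMap A₀ K) = C (algebraMap A₀ K d) * q i := by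
  classical
  have h : ∀ i, ∃ (b : A₀) (Q : A₀[X]), b ≠ 0 ∧ Q.map (algebraMap A₀ K) = C (algebraMap A₀ K b) * q i := by
    intro i
    obtain ⟨b, hb0, hb⟩ := IsLocalization.integerNormalization_spec A₀⁰ (q i)
    refine ⟨b, IsLocalization.integerNormalization A₀⁰ (q i), nonZeroDivisors.ne_zero hb0, ?_⟩
    rw [hb, Algebra.smul_def]
    rfl
  choose b Q hb hQ using h
  refine ⟨∏ i, b i, Finset.prod_ne_zero_iff.2 fun i _ => hb i, fun i => C (∏ j ∈ Finset.univ.erase i, b j) * Q i,
    fun i => ?_⟩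
  rw [Polynomial.map_mul, Polynomial.map_C, hQ, ← Finset.mul_prod_erase Finset.univ b (Finset.mem_univ i),
    map_mul, C_mul]
  ring

theorem core (A₀ R : Type) [CommRing A₀] [IsDomain A₀] [IsIntegrallyClosed A₀] [CharZero A₀] [CommRing R]
    [IsDomain R] [Algebra A₀ R] [FaithfulSMul A₀ R] [Module.Finite A₀ R] (m : ℕ) (x : Fin m → R) :
    ∃ (θ : R) (G A B : A₀[X]) (d : A₀) (Q : Fin m → A₀[X]), G.Monic ∧ aeval θ G = 0 ∧
      (∀ P : A₀[X], aeval θ P = 0 → G ∣ P) ∧ d ≠ 0 ∧
      (∀ j, algebraMap A₀ R d * x j = aeval θ (Q j)) ∧ A * G + B * derivative G = C d := by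
  classical
  let K := FractionRing A₀
  let L := FractionRing R
  let : Algebra K L := FractionRing.liftAlgebra A₀ L
  have : IsScalarTower A₀ K L := FractionRing.isScalarTower_liftAlgebra A₀ L
  have : FiniteDimensional K L := Module.Finite.of_isLocalization A₀ R A₀⁰
  have : CharZero K := charZero_of_injective_algebraMap (IsFractionRing.injective A₀ K)
  obtain ⟨α, hα⟩ := Field.exists_primitive_element K L
  obtain ⟨r, s, hs, hrs⟩ := IsFractionRing.div_surjective (A := R) α
  obtain ⟨θ, a, ha, hθ⟩ := (Algebra.IsAlgebraic.isAlgebraic (R := A₀) s).exists_smul_eq_mul r hs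
  have hsL : algebraMap R L s ≠ 0 := IsFractionRing.to_map_ne_zero_of_mem_nonZeroDivisors hs
  have haL : algebraMap A₀ L a ≠ 0 := by
    rw [Ne, FaithfulSMul.algebraMap_eq_zero_iff]
    exact ha
  have h1 : α = (algebraMap A₀ L a)⁻¹ * algebraMap R L θ := by
    rw [← hrs, div_eq_iff hsL, mul_assoc, eq_inv_mul_iff_mul_eq₀ haL, mul_comm (algebraMap R L θ), ← map_mul, ← hθ,
      Algebra.smul_def, map_mul, ← IsScalarTower.algebraMap_apply]
  have h2 : IntermediateField.adjoin K {algebraMap R L θ} = ⊤ := by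
    rw [eq_top_iff, ← hα, IntermediateField.adjoin_simple_le_iff, h1]
    refine mul_mem (inv_mem ?_) (IntermediateField.mem_adjoin_simple_self K _)
    rw [IsScalarTower.algebraMap_apply A₀ K L]
    exact IntermediateField.algebraMap_mem _ _
  have h3 : ∀ y : L, ∃ q : K[X], y = aeval (algebraMap R L θ) q := by
    intro y
    have hy : y ∈ IntermediateField.adjoin K {algebraMap R L θ} := by
      rw [h2]
      exact IntermediateField.mem_top
    have hint : IsIntegral K (algebraMap R L θ) := Algebra.IsIntegral.isIntegral _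
    rw [← IntermediateField.mem_toSubalgebra, IntermediateField.adjoin_simple_toSubalgebra_of_isAlgebraic hint.isAlgebraic,
      Algebra.adjoin_singleton_eq_range_aeval] at hy
    obtain ⟨q, hq⟩ := hy
    exact ⟨q, hq.symm⟩
  have hint : IsIntegral A₀ θ := Algebra.IsIntegral.isIntegral θ
  have h4 : minpoly K (algebraMap R L θ) = (minpoly A₀ θ).map (algebraMap A₀ K) :=
    minpoly.isIntegrallyClosed_eq_field_fractions K L hint
  have h5 : (minpoly K (algebraMap R L θ)).Separable := Algebra.IsSeparable.isSeparable K _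
  obtain ⟨A', B', hAB⟩ := h5
  choose q hq using fun j => h3 (algebraMap R L (x j))
  obtain ⟨d, hd, Q, hQ⟩ := common_den (A₀ := A₀) (K := K) (Sum.elim q ![A', B'])
  refine ⟨θ, minpoly A₀ θ, Q (Sum.inr 0), Q (Sum.inr 1), d, fun j => Q (Sum.inl j), minpoly.monic hint,
    minpoly.aeval A₀ θ, fun P hP => minpoly.isIntegrallyClosed_dvd hint hP, hd, fun j => ?_, ?_⟩
  · apply IsFractionRing.injective R L
    have h6 := hQ (Sum.inl j)
    have h7 := congrArg (aeval (algebraMap R L θ)) h6
    rw [Sum.elim_inl, map_mul, ← hq j, aeval_C, aeval_map_algebraMap, aeval_algebraMap_apply] at h7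
    rw [h7, map_mul, ← IsScalarTower.algebraMap_apply, ← IsScalarTower.algebraMap_apply]
  · apply Polynomial.map_injective (algebraMap A₀ K) (IsFractionRing.injective A₀ K)
    have e1 := hQ (Sum.inr 0)
    have e2 := hQ (Sum.inr 1)
    simp only [Sum.elim_inr, Matrix.cons_val_zero, Matrix.cons_val_one] at e1 e2
    rw [Polynomial.map_add, Polynomial.map_mul, Polynomial.map_mul, e1, e2, Polynomial.map_C, ← derivative_map, ← h4]
    linear_combination C (algebraMap A₀ K d) * hAB

end ALG2

open ALG2 in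
theorem t_ALG2 : S_ALG2 := by
  intro m I hI k z hinj hint
  have := hI
  let R := MvPolynomial (Fin m) ℂ ⧸ I
  let A₀ := MvPolynomial (Fin k) ℂ
  let φ : A₀ →+* R := (Ideal.Quotient.mk I).comp
    (MvPolynomial.aeval z : MvPolynomial (Fin k) ℂ →ₐ[ℂ] MvPolynomial (Fin m) ℂ).toRingHom
  let : Algebra A₀ R := φ.toAlgebra
  have hφ : ∀ D : A₀, algebraMap A₀ R D = Ideal.Quotient.mk I (MvPolynomial.aeval z D) := fun _ => rfl
  have : FaithfulSMul A₀ R := by
    rw [faithfulSMul_iff_algebraMap_injective, injective_iff_map_eq_zero]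
    intro D hD
    rw [hφ, Ideal.Quotient.eq_zero_iff_mem] at hD
    exact hinj D hD
  have key : ∀ (θ : MvPolynomial (Fin m) ℂ) (P : Polynomial A₀),
      Ideal.Quotient.mk I (ev2 z θ P) = Polynomial.aeval (Ideal.Quotient.mk I θ : R) P := by
    intro θ P
    rw [ev2, Polynomial.hom_eval₂, Polynomial.aeval_def]
    rfl
  have hX : ∀ j, IsIntegral A₀ (Ideal.Quotient.mk I (MvPolynomial.X j) : R) := by
    intro j
    obtain ⟨P, hP, hP2⟩ := hint j
    refine ⟨P, hP, ?_⟩
    rw [← Polynomial.aeval_def, ← key, Ideal.Quotient.eq_zero_iff_mem]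
    exact hP2
  have : Module.Finite A₀ R := by
    have h1 : Algebra.adjoin A₀ (Set.range fun j => (Ideal.Quotient.mk I (MvPolynomial.X j) : R)) = ⊤ := by
      rw [eq_top_iff]
      intro y _
      obtain ⟨y, rfl⟩ := Ideal.Quotient.mk_surjective y
      induction y using MvPolynomial.induction_on with
      | C a =>
        have : (Ideal.Quotient.mk I (MvPolynomial.C a) : R) = algebraMap A₀ R (MvPolynomial.C a) := by
          rw [hφ, MvPolynomial.aeval_C]
          rfl
        rw [this]
        exact Subalgebra.algebraMap_mem _ _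
      | add p q hp hq =>
        rw [map_add]
        exact add_mem (hp trivial) (hq trivial)
      | mul_X p n hp =>
        rw [map_mul]
        exact mul_mem (hp trivial) (Algebra.subset_adjoin ⟨n, rfl⟩)
    have h2 : (Algebra.adjoin A₀ (Set.range fun j => (Ideal.Quotient.mk I (MvPolynomial.X j) : R))).toSubmodule.FG :=
      fg_adjoin_of_finite (Set.finite_range _) (by
        rintro _ ⟨j, rfl⟩
        exact hX j)
    rw [h1, Algebra.top_toSubmodule] at h2
    exact ⟨h2⟩
  obtain ⟨θ, G, A, B, d, Q, h1, h2, h3, h4, h5, h6⟩ := core A₀ R m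
    (fun j => Ideal.Quotient.mk I (MvPolynomial.X j))
  obtain ⟨θ, rfl⟩ := Ideal.Quotient.mk_surjective θ
  refine ⟨θ, G, A, B, d, Q, h1, ?_, fun P hP => h3 P ?_, h4, fun j => ?_, h6⟩
  · rw [← Ideal.Quotient.eq_zero_iff_mem, key]
    exact h2
  · rw [← key, Ideal.Quotient.eq_zero_iff_mem]
    exact hP
  · rw [← Ideal.Quotient.eq_zero_iff_mem, map_sub, map_mul, key, sub_eq_zero, ← hφ]
    exact h5 j

end Pool.Agent.Q22.GO
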