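import Pool.Agent.Q22.GO.Stm

/-!
Project GO, job BALL: zero sets of holomorphic functions in a ball are thin.
-/

set_option autoImplicit false

namespace Pool.Agent.Q22.GO

namespace BALL

open H113G Metric Set Topology Filter

/-- the complex line through `x` and `y` -/
def ln {n : ℕ} (x y : Fin n → ℂ) (l : ℂ) : Fin n → ℂ := x + l • (y - x)

lemma ln_zero {n : ℕ} (x y : Fin n → ℂ) : ln x y 0 = x := by simp [ln]

lemma ln_one {n : ℕ} (x y : Fin n → ℂ) : ln x y 1 = y := by simp [ln]

lemma ln_cont {n : ℕ} (x y : Fin n → ℂ) : Continuous (ln x y) := by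
  unfold ln
  fun_prop

lemma ln_diff {n : ℕ} (x y : Fin n → ℂ) : Differentiable ℂ (ln x y) := by
  unfold ln
  fun_prop

/-- the part of the line in the ball -/
def La {n : ℕ} (p : Fin n → ℂ) (r : ℝ) (x y : Fin n → ℂ) : Set ℂ := (ln x y) ⁻¹' ball p r

lemma la_open {n : ℕ} (p : Fin n → ℂ) (r : ℝ) (x y : Fin n → ℂ) : IsOpen (La p r x y) :=
  isOpen_ball.preimage (ln_cont x y)

lemma la_convex {n : ℕ} (p : Fin n → ℂ) (r : ℝ) (x y : Fin n → ℂ) :
    Convex ℝ (La p r x y) := by
  intro l hl m hm a b ha hb hab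
  have h1 := (convex_ball p r) hl hm ha hb hab
  have h2 : ln x y (a • l + b • m) = a • ln x y l + b • ln x y m := by
    funext i
    simp only [ln, Pi.add_apply, Pi.smul_apply, Pi.sub_apply, smul_eq_mul, Complex.real_smul]
    have h3 : (a : ℂ) + b = 1 := by exact_mod_cast hab
    linear_combination (-(x i)) * h3
  change ln x y (a • l + b • m) ∈ ball p r
  rw [h2]
  exact h1

lemma isolated {n : ℕ} {f : (Fin n → ℂ) → ℂ} {r : ℝ} {p x y : Fin n → ℂ}
    (hf : DifferentiableOn ℂ f (ball p r)) (hy : y ∈ ball p r) (hfy : f y ≠ 0) :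
    ∀ l ∈ La p r x y, ∀ᶠ m in 𝓝[≠] l, f (ln x y m) ≠ 0 := by
  intro l hl
  have hd : DifferentiableOn ℂ (fun m => f (ln x y m)) (La p r x y) :=
    hf.comp (ln_diff x y).differentiableOn (fun m hm => hm)
  have ha : AnalyticOnNhd ℂ (fun m => f (ln x y m)) (La p r x y) :=
    hd.analyticOnNhd (la_open p r x y)
  rcases (ha l hl).eventually_eq_zero_or_eventually_ne_zero with h | h
  · exfalso
    have h1 := ha.eqOn_zero_of_preconnected_of_eventuallyEq_zero
      (la_convex p r x y).isPreconnected hl h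
    have h2 : (1 : ℂ) ∈ La p r x y := by
      change ln x y 1 ∈ ball p r
      rw [ln_one]
      exact hy
    have h3 := h1 h2
    simp only [ln_one, Pi.zero_apply] at h3
    exact hfy h3
  · exact h

lemma zeros_countable {n : ℕ} {f : (Fin n → ℂ) → ℂ} {r : ℝ} {p x y : Fin n → ℂ}
    (hf : DifferentiableOn ℂ f (ball p r)) (hy : y ∈ ball p r) (hfy : f y ≠ 0) :
    {l | l ∈ La p r x y ∧ f (ln x y l) = 0}.Countable := by
  have hdisc : DiscreteTopology {l | l ∈ La p r x y ∧ f (ln x y l) = 0} := by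
    rw [discreteTopology_subtype_iff]
    intro l hl
    rw [Filter.inf_principal_eq_bot]
    filter_upwards [isolated hf hy hfy l hl.1] with m hm hm'
    exact hm hm'.2
  exact Set.countable_coe_iff.mp countable_of_Lindelof_of_discrete

/-- two points of a convex open set can be joined outside of a countable set -/
lemma joined_aux {U Z : Set ℂ} (hU : IsOpen U) (hc : Convex ℝ U) (hZ : Z.Countable)
    (h0 : (0 : ℂ) ∈ U) (h1 : (1 : ℂ) ∈ U) (h0' : (0 : ℂ) ∉ Z) (h1' : (1 : ℂ) ∉ Z)
    (c x : ℂ) (e0 : c - x = 0) (e1 : c + x = 1) (hcU : c ∈ U)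
    (hy : LinearIndependent ℝ ![x, Complex.I]) :
    JoinedIn (U \ Z) 0 1 := by
  have A : Set.Countable {t : ℝ | (segment ℝ (c + x) (c + t • Complex.I) ∩ Z).Nonempty} := by
    apply countable_ofPred_nonempty_of_disjoint _ (fun t ↦ inter_subset_right) hZ
    intro t t' htt'
    apply disjoint_iff_inter_eq_empty.2
    have N : {c + x} ∩ Z = ∅ := by
      rw [e1]
      simpa only [singleton_inter_eq_empty] using h1'
    rw [inter_assoc, inter_comm Z, inter_assoc, inter_self, ← inter_assoc, ← subset_empty_iff, ← N]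
    apply inter_subset_inter_left
    apply Eq.subset
    apply segment_inter_eq_endpoint_of_linearIndependent_of_ne hy htt'.symm
  have B : Set.Countable {t : ℝ | (segment ℝ (c - x) (c + t • Complex.I) ∩ Z).Nonempty} := by
    apply countable_ofPred_nonempty_of_disjoint _ (fun t ↦ inter_subset_right) hZ
    intro t t' htt'
    apply disjoint_iff_inter_eq_empty.2
    have N : {c - x} ∩ Z = ∅ := by
      rw [e0]
      simpa only [singleton_inter_eq_empty] using h0'
    rw [inter_assoc, inter_comm Z, inter_assoc, inter_self, ← inter_assoc, ← subset_empty_iff, ← N]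
    apply inter_subset_inter_left
    rw [sub_eq_add_neg _ x]
    apply Eq.subset
    apply segment_inter_eq_endpoint_of_linearIndependent_of_ne _ htt'.symm
    convert! hy.units_smul ![-1, 1]
    simp [← List.ofFn_inj]
  have hopen : IsOpen {t : ℝ | c + t • Complex.I ∈ U} :=
    hU.preimage (by fun_prop : Continuous fun t : ℝ => c + t • Complex.I)
  have hne : {t : ℝ | c + t • Complex.I ∈ U}.Nonempty :=
    ⟨0, by rw [mem_ofPred_eq, zero_smul, add_zero]; exact hcU⟩
  obtain ⟨t, htU, ht⟩ := ((A.union B).dense_compl ℝ).inter_open_nonempty _ hopen hne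
  simp only [compl_union, mem_inter_iff, mem_compl_iff, mem_ofPred_eq, not_nonempty_iff_eq_empty]
    at ht htU
  have J0 : JoinedIn (U \ Z) 0 (c + t • Complex.I) := by
    apply JoinedIn.of_segment_subset
    rw [subset_sdiff]
    refine ⟨hc.segment_subset h0 htU, ?_⟩
    rw [disjoint_iff_inter_eq_empty, ← e0]
    exact ht.2
  have J1 : JoinedIn (U \ Z) 1 (c + t • Complex.I) := by
    apply JoinedIn.of_segment_subset
    rw [subset_sdiff]
    refine ⟨hc.segment_subset h1 htU, ?_⟩
    rw [disjoint_iff_inter_eq_empty, ← e1]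
    exact ht.1
  exact J0.trans J1.symm

lemma joined {U Z : Set ℂ} (hU : IsOpen U) (hc : Convex ℝ U) (hZ : Z.Countable)
    (h0 : (0 : ℂ) ∈ U) (h1 : (1 : ℂ) ∈ U) (h0' : (0 : ℂ) ∉ Z) (h1' : (1 : ℂ) ∉ Z) :
    JoinedIn (U \ Z) 0 1 := by
  refine joined_aux hU hc hZ h0 h1 h0' h1' (1 / 2) (1 / 2) (by norm_num) (by norm_num) ?_ ?_
  · have := hc h0 h1 (by norm_num : (0 : ℝ) ≤ 1 / 2) (by norm_num : (0 : ℝ) ≤ 1 / 2) (by norm_num)
    have e : ((1 / 2 : ℝ) • (0 : ℂ) + (1 / 2 : ℝ) • (1 : ℂ)) = 1 / 2 := by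
      simp
    rwa [e] at this
  · rw [LinearIndependent.pair_iff]
    intro s t hst
    have hre := congrArg Complex.re hst
    have him := congrArg Complex.im hst
    simp at hre him
    exact ⟨hre, him⟩

end BALL

open H113G Metric Set Topology Filter BALL

theorem t_BALL : S_BALL := by
  intro n f r p hr hf hex
  obtain ⟨y, hy, hfy⟩ := hex
  constructor
  · intro x hx ε hε
    have h0 : (0 : ℂ) ∈ La p r x y := by
      change ln x y 0 ∈ ball p r
      rw [ln_zero]
      exact hx
    have h1 := isolated (x := x) hf hy hfy 0 h0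
    have h2 : ∀ᶠ m in 𝓝[≠] (0 : ℂ), ln x y m ∈ ball p r :=
      nhdsWithin_le_nhds ((la_open p r x y).mem_nhds h0)
    have h3 : ∀ᶠ m in 𝓝[≠] (0 : ℂ), dist (ln x y m) x < ε := by
      apply nhdsWithin_le_nhds
      have h4 : Tendsto (ln x y) (𝓝 0) (𝓝 (ln x y 0)) := (ln_cont x y).continuousAt
      rw [ln_zero] at h4
      exact h4 (ball_mem_nhds x hε)
    obtain ⟨m, hm1, hm2, hm3⟩ := (h1.and (h2.and h3)).exists
    exact ⟨ln x y m, hm2, hm3, hm1⟩
  · apply IsConnected.isPreconnected
    apply IsPathConnected.isConnected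
    refine ⟨y, ⟨hy, hfy⟩, ?_⟩
    intro x hx
    obtain ⟨hx, hfx⟩ := hx
    have h0 : (0 : ℂ) ∈ La p r x y := by
      change ln x y 0 ∈ ball p r
      rw [ln_zero]
      exact hx
    have h1 : (1 : ℂ) ∈ La p r x y := by
      change ln x y 1 ∈ ball p r
      rw [ln_one]
      exact hy
    have hJ := joined (la_open p r x y) (la_convex p r x y)
      (zeros_countable (x := x) hf hy hfy) h0 h1
      (fun h => hfx (by have := h.2; rwa [ln_zero] at this))
      (fun h => hfy (by have := h.2; rwa [ln_one] at this))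
    have hJ2 := hJ.map_continuousOn (ln_cont x y).continuousOn
    rw [ln_zero, ln_one] at hJ2
    refine (hJ2.mono ?_).symm
    rintro _ ⟨l, ⟨hl, hlz⟩, rfl⟩
    exact ⟨hl, fun h => hlz ⟨hl, h⟩⟩

end Pool.Agent.Q22.GO
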