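import Pool.Agent.Q22.GO.Stm

/-!
Project GO, job BAS: bases in finitely generated torsion free abelian groups.
-/

set_option autoImplicit false

namespace Pool.Agent.Q22.GO

namespace BAS

/-- additive version -/
theorem add_version (A : Type) [AddCommGroup A] (N s : ℕ) (f : Fin N → A)
    (htf : ∀ x ∈ AddSubgroup.closure (Set.range f), ∀ j : ℕ, 0 < j → j • x = 0 → x = 0)
    (hdep : ∀ w : Fin (s + 1) → A, (∀ i, w i ∈ AddSubgroup.closure (Set.range f)) →
      ∃ a : Fin (s + 1) → ℤ, a ≠ 0 ∧ ∑ i, a i • w i = 0) :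
    ∃ n ≤ s, ∃ u : Fin n → A, (∀ i, u i ∈ AddSubgroup.closure (Set.range f)) ∧
      (∀ a : Fin n → ℤ, ∑ i, a i • u i = 0 → a = 0) ∧ ∀ l, ∃ b : Fin n → ℤ,
        f l = ∑ i, b i • u i := by
  have hfg : AddGroup.FG (AddSubgroup.closure (Set.range f)) := AddGroup.closure_finite_fg _
  have hfin : Module.Finite ℤ (AddSubgroup.closure (Set.range f)) :=
    Module.Finite.iff_addGroup_fg.mpr hfg
  have htf' : IsAddTorsionFree (AddSubgroup.closure (Set.range f)) := by
    refine ⟨fun n hn x y hxy => ?_⟩
    have h1 : n • ((x : A) - y) = 0 := by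
      have h2 : n • (x : A) = n • (y : A) := congrArg Subtype.val hxy
      rw [nsmul_sub, h2, sub_self]
    have h3 := htf ((x : A) - y) (AddSubgroup.sub_mem _ x.2 y.2) n (Nat.pos_of_ne_zero hn) h1
    exact Subtype.ext (sub_eq_zero.mp h3)
  let b := Module.finBasis ℤ (AddSubgroup.closure (Set.range f))
  have hli : ∀ a : Fin (Module.finrank ℤ (AddSubgroup.closure (Set.range f))) → ℤ,
      ∑ i, a i • ((b i : AddSubgroup.closure (Set.range f)) : A) = 0 → a = 0 := by
    intro a ha
    have h1 : ∑ i, a i • b i = 0 := by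
      apply Subtype.ext
      rw [AddSubgroup.val_finset_sum]
      exact ha
    funext i
    exact Fintype.linearIndependent_iff.mp b.linearIndependent a h1 i
  refine ⟨Module.finrank ℤ (AddSubgroup.closure (Set.range f)), ?_, fun i => b i,
    fun i => (b i).2, hli, ?_⟩
  · by_contra hc
    have hle : s + 1 ≤ Module.finrank ℤ (AddSubgroup.closure (Set.range f)) := by omega
    obtain ⟨a, ha0, ha⟩ := hdep (fun i => b (Fin.castLE hle i)) (fun i => (b _).2)
    have hli2 := b.linearIndependent.comp _ (Fin.castLE_injective hle)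
    apply ha0
    funext i
    refine Fintype.linearIndependent_iff.mp hli2 a ?_ i
    apply Subtype.ext
    rw [AddSubgroup.val_finset_sum]
    exact ha
  · intro l
    have hmem : f l ∈ AddSubgroup.closure (Set.range f) :=
      AddSubgroup.subset_closure ⟨l, rfl⟩
    refine ⟨fun i => b.repr ⟨f l, hmem⟩ i, ?_⟩
    have h1 := congrArg (fun x : AddSubgroup.closure (Set.range f) => (x : A))
      (b.sum_repr ⟨f l, hmem⟩)
    simp only [AddSubgroup.val_finset_sum] at h1
    exact h1.symm

end BAS

open BAS

theorem t_BAS : S_BAS := by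
  intro G _ N s f htf hdep
  have hmem : ∀ x : Additive G, x ∈ AddSubgroup.closure (Set.range fun l => Additive.ofMul (f l)) ↔
      Additive.toMul x ∈ Subgroup.closure (Set.range f) := by
    intro x
    have h1 := Subgroup.toAddSubgroup_closure (Set.range f)
    have h2 : Additive.toMul ⁻¹' Set.range f = Set.range fun l => Additive.ofMul (f l) := by
      ext y
      simp only [Set.mem_preimage, Set.mem_range]
      rfl
    rw [h2] at h1
    rw [← h1]
    rfl
  have hsum : ∀ (n : ℕ) (w : Fin n → G) (a : Fin n → ℤ),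
      ∑ i, a i • Additive.ofMul (w i) = Additive.ofMul (∏ i, w i ^ a i) := by
    intro n w a
    rw [ofMul_prod]
    rfl
  obtain ⟨n, hn, u, hu, hli, hb⟩ := add_version (Additive G) N s (fun l => Additive.ofMul (f l))
    (fun x hx j hj h => by
      have := htf (Additive.toMul x) ((hmem x).mp hx) j hj h
      exact this)
    (fun w hw => by
      obtain ⟨a, ha0, ha⟩ := hdep (fun i => Additive.toMul (w i)) (fun i => (hmem _).mp (hw i))
      refine ⟨a, ha0, ?_⟩
      have := hsum _ (fun i => Additive.toMul (w i)) a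
      rw [ha] at this
      exact this)
  refine ⟨n, hn, fun i => Additive.toMul (u i), fun i => (hmem _).mp (hu i), ?_, ?_⟩
  · intro a ha
    apply hli
    have := hsum _ (fun i => Additive.toMul (u i)) a
    rw [ha] at this
    exact this
  · intro l
    obtain ⟨b, hb⟩ := hb l
    refine ⟨b, ?_⟩
    have := hsum _ (fun i => Additive.toMul (u i)) b
    exact Additive.ofMul.injective (hb.trans this)

end Pool.Agent.Q22.GO
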