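import Pool.Agent.Q22.GO.Stm

set_option autoImplicit false

/-! Project GO (helper22), job BDD (helper223): bounded at the ends implies bounded on the line. -/

namespace Pool.Agent.Q22.GO

open H113G Metric Set Topology

namespace BDD

theorem cont {m : ℕ} {Y : Set (Fin m → ℂ)} {u : (Fin m → ℂ) → ℂ} (hu : HolOn Y u) :
    ContinuousOn u Y := by
  intro p hp
  obtain ⟨U, hU, hpU, h, hh, he⟩ := hu p hp
  have h1 : ContinuousWithinAt h Y p :=
    ((hh.differentiableAt (hU.mem_nhds hpU)).continuousAt).continuousWithinAt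
  refine h1.congr_of_eventuallyEq ?_ (he p hp hpU).symm
  filter_upwards [self_mem_nhdsWithin, mem_nhdsWithin_of_mem_nhds (hU.mem_nhds hpU)] with y hy hyU
  exact (he y hy hyU).symm

end BDD

open BDD in
theorem t_BDD : S_BDD := by
  intro m k Y pr δ e hCov v c κ Λ hE u hu hb
  choose C c' hC using hb
  -- a common abscissa and a common bound
  obtain ⟨c0, hc0⟩ : ∃ c0 : ℝ, c ≤ c0 ∧ ∀ i, c' i ≤ c0 := by
    refine ⟨max c (∑ i, |c' i|), le_max_left _ _, fun i => ?_⟩
    refine le_trans (le_trans (le_abs_self _) ?_) (le_max_right _ _)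
    exact Finset.single_le_sum (f := fun i => |c' i|) (fun j _ => abs_nonneg _) (Finset.mem_univ i)
  obtain ⟨R', hR'⟩ := hCov.proper (Real.exp c0 * ‖v‖)
  have hcomp : IsCompact (Y ∩ closedBall 0 R') := (isCompact_closedBall _ _).inter_left hCov.closed
  obtain ⟨B, hB⟩ := hcomp.exists_bound_of_continuousOn ((cont hu).mono inter_subset_left)
  refine ⟨max B (∑ i, |C i|), fun y hy ⟨t, ht⟩ => ?_⟩
  by_cases htc : ‖t‖ ≤ Real.exp c0
  · refine le_trans (hB y ⟨hy, ?_⟩) (le_max_left _ _)
    rw [mem_closedBall_zero_iff]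
    apply hR' y hy
    rw [ht, norm_smul]
    gcongr
  · push Not at htc
    have ht0 : t ≠ 0 := by
      rintro rfl
      rw [norm_zero] at htc
      exact absurd htc (not_lt.2 (Real.exp_pos _).le)
    have hre : c0 < (Complex.log t).re := by
      rw [Complex.log_re, Real.lt_log_iff_exp_lt (norm_pos_iff.2 ht0)]
      exact htc
    have hmem : y ∈ {y | y ∈ Y ∧ pr y = Complex.exp (Complex.log t) • v} :=
      ⟨hy, by rw [Complex.exp_log ht0]; exact ht⟩
    rw [hE.fib _ (lt_of_le_of_lt hc0.1 hre)] at hmem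
    obtain ⟨i, rfl⟩ := hmem
    refine le_trans (hC i _ (lt_of_le_of_lt (hc0.2 i) hre)) (le_trans ?_ (le_max_right _ _))
    refine le_trans (le_abs_self _) ?_
    exact Finset.single_le_sum (f := fun i => |C i|) (fun j _ => abs_nonneg _) (Finset.mem_univ i)

end Pool.Agent.Q22.GO
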