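import Pool.Agent.Q22.GO.Stm

/-!
# Project GO (helper22), job GO-BF (helper252): basis of the group of units on the line
-/

set_option autoImplicit false

namespace Pool.Agent.Q22.GO

open H113G Metric Set Topology

namespace BF

/-- the constant functions with values in the units of `ℂ` -/
def Kc (X : Type) : Subgroup (X → ℂˣ) where
  carrier := {g | ∀ y y', g y = g y'}
  mul_mem' := by
    intro a b ha hb y y'
    rw [Pi.mul_apply, Pi.mul_apply, ha y y', hb y y']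
  one_mem' := fun _ _ => rfl
  inv_mem' := by
    intro a ha y y'
    rw [Pi.inv_apply, Pi.inv_apply, ha y y']

/-- classes of functions modulo constants -/
abbrev Gq (X : Type) : Type := (X → ℂˣ) ⧸ Kc X

/-- the class of a function -/
def cl {X : Type} : (X → ℂˣ) →* Gq X := QuotientGroup.mk' (Kc X)

lemma cl_eq_one {X : Type} (g : X → ℂˣ) : cl g = 1 ↔ ∀ y y', g y = g y' :=
  QuotientGroup.eq_one_iff g

/-- elements of the subgroup generated by finitely many elements -/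
lemma closure_form {G : Type} [CommGroup G] {N : ℕ} (f : Fin N → G) {x : G}
    (hx : x ∈ Subgroup.closure (Set.range f)) : ∃ b : Fin N → ℤ, x = ∏ l, f l ^ b l := by
  induction hx using Subgroup.closure_induction with
  | mem x hx =>
    obtain ⟨l, rfl⟩ := hx
    refine ⟨Pi.single l 1, ?_⟩
    rw [Finset.prod_eq_single l]
    · rw [Pi.single_eq_same, zpow_one]
    · intro j _ hj
      rw [Pi.single_eq_of_ne hj, zpow_zero]
    · intro h
      exact absurd (Finset.mem_univ l) h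
  | one =>
    refine ⟨0, ?_⟩
    simp
  | mul x y _ _ hx hy =>
    obtain ⟨b, rfl⟩ := hx
    obtain ⟨b', rfl⟩ := hy
    refine ⟨b + b', ?_⟩
    rw [← Finset.prod_mul_distrib]
    refine Finset.prod_congr rfl fun l _ => ?_
    rw [Pi.add_apply, zpow_add]
  | inv x _ hx =>
    obtain ⟨b, rfl⟩ := hx
    refine ⟨-b, ?_⟩
    rw [← Finset.prod_inv_distrib]
    refine Finset.prod_congr rfl fun l _ => ?_
    rw [Pi.neg_apply, zpow_neg]

lemma holOn_continuousOn {m : ℕ} {Y : Set (Fin m → ℂ)} {u : (Fin m → ℂ) → ℂ} (h : HolOn Y u) :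
    ContinuousOn u Y := by
  intro p hp
  obtain ⟨U, hU, hpU, g, hg, hgu⟩ := h p hp
  have h1 : ContinuousWithinAt g Y p := ((hg.continuousOn).continuousAt (hU.mem_nhds hpU)).continuousWithinAt
  have h2 : g =ᶠ[𝓝[Y] p] u := by
    have h3 : U ∈ 𝓝[Y] p := mem_nhdsWithin_of_mem_nhds (hU.mem_nhds hpU)
    filter_upwards [h3, self_mem_nhdsWithin] with y hy hyY
    exact hgu y hyY hy
  exact h1.congr_of_eventuallyEq h2.symm (hgu p hp hpU).symm

end BF

open BF in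
/-- **JOB GO-BF** -/
theorem t_BF (bas : S_BAS) (tup : S_TUP) (logc : S_LOGC) : S_BF := by
  classical
  intro m k Y pr δ e hC v c κ Λ hv hE hconn s hs N f hf
  have hsub : ∀ y, y ∈ Ln Y pr δ v → y ∈ Y := fun y hy => hy.1
  have hfne : ∀ l, ∀ y ∈ Y, f l y ≠ 0 := fun l => (hf l).2.1
  -- the functions on the line
  obtain ⟨F, hF⟩ : ∃ F : Fin N → (↥(Ln Y pr δ v) → ℂˣ), ∀ l y, ((F l y : ℂˣ) : ℂ) = f l y :=
    ⟨fun l y => Units.mk0 (f l y) (hfne l y (hsub y y.2)), fun l y => rfl⟩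
  have hFW : ∀ (B : Fin N → ℤ) (y : ↥(Ln Y pr δ v)), (((∏ l, F l ^ B l) y : ℂˣ) : ℂ) = ∏ l, f l y ^ B l := by
    intro B y
    rw [Finset.prod_apply, Units.coe_prod]
    refine Finset.prod_congr rfl fun l _ => ?_
    rw [Pi.pow_apply, Units.val_zpow_eq_zpow_val, hF]
  have hWTU : ∀ B : Fin N → ℤ, TU Y Λ (fun y => ∏ l, f l y ^ B l) := fun B => tup m e Y Λ N f hf B
  have hcl : ∀ B : Fin N → ℤ, ∏ l, (cl (F l)) ^ B l = cl (∏ l, F l ^ B l) := by
    intro B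
    rw [map_prod]
    refine Finset.prod_congr rfl fun l _ => ?_
    rw [map_zpow]
  have hprod2 : ∀ (n : ℕ) (B : Fin n → Fin N → ℤ) (a : Fin n → ℤ) (y : ↥(Ln Y pr δ v)),
      (((∏ j, (∏ l, F l ^ B j l) ^ a j) y : ℂˣ) : ℂ) = ∏ j, (∏ l, f l y ^ B j l) ^ a j := by
    intro n B a y
    rw [Finset.prod_apply, Units.coe_prod]
    refine Finset.prod_congr rfl fun j _ => ?_
    rw [Pi.pow_apply, Units.val_zpow_eq_zpow_val, hFW]
  have hcl2 : ∀ (n : ℕ) (B : Fin n → Fin N → ℤ) (a : Fin n → ℤ),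
      ∏ j, (cl (∏ l, F l ^ B j l)) ^ a j = cl (∏ j, (∏ l, F l ^ B j l) ^ a j) := by
    intro n B a
    rw [map_prod]
    refine Finset.prod_congr rfl fun l _ => ?_
    rw [map_zpow]
  have hconst : ∀ (n : ℕ) (B : Fin n → Fin N → ℤ) (a : Fin n → ℤ),
      ∏ j, (cl (∏ l, F l ^ B j l)) ^ a j = 1 ↔ ∀ y ∈ Ln Y pr δ v, ∀ y' ∈ Ln Y pr δ v,
        ∏ j, (∏ l, f l y ^ B j l) ^ a j = ∏ j, (∏ l, f l y' ^ B j l) ^ a j := by
    intro n B a
    rw [hcl2, cl_eq_one]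
    constructor
    · intro h y hy y' hy'
      have h1 : (((∏ j, (∏ l, F l ^ B j l) ^ a j) ⟨y, hy⟩ : ℂˣ) : ℂ) =
          (((∏ j, (∏ l, F l ^ B j l) ^ a j) ⟨y', hy'⟩ : ℂˣ) : ℂ) :=
        congrArg (fun z : ℂˣ => (z : ℂ)) (h ⟨y, hy⟩ ⟨y', hy'⟩)
      rwa [hprod2, hprod2] at h1
    · intro h y y'
      apply Units.ext
      rw [hprod2, hprod2]
      exact h y y.2 y' y'.2
  obtain ⟨n, hn, u, hu, hind, hbas⟩ := bas (Gq ↥(Ln Y pr δ v)) N s (fun l => cl (F l)) (by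
    -- torsion free
    intro x hx j hj hxj
    obtain ⟨B, rfl⟩ := closure_form _ hx
    rw [hcl] at hxj ⊢
    rw [← map_pow, cl_eq_one] at hxj
    rw [cl_eq_one]
    intro y y'
    apply Units.ext
    rw [hFW, hFW]
    have h1 : ∀ z : ↥(Ln Y pr δ v), (∏ l, f l z ^ B l) ^ j = (∏ l, f l y ^ B l) ^ j := by
      intro z
      have h2 := congrArg (fun z : ℂˣ => (z : ℂ)) (hxj z y)
      simp only [Pi.pow_apply, Units.val_pow_eq_pow_val] at h2
      rwa [hFW, hFW] at h2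
    have hfin : {z : ℂ | z ^ j = (∏ l, f l y ^ B l) ^ j}.Finite := by
      have h2 : {z : ℂ | z ^ j = (∏ l, f l y ^ B l) ^ j} ⊆
          ↑((Polynomial.nthRoots j ((∏ l, f l y ^ B l) ^ j)).toFinset) := by
        intro z hz
        rw [Finset.mem_coe, Multiset.mem_toFinset, Polynomial.mem_nthRoots hj]
        exact hz
      exact (Finset.finite_toSet _).subset h2
    have : Finite ↥{z : ℂ | z ^ j = (∏ l, f l y ^ B l) ^ j} := hfin.to_subtype
    have hcont : ContinuousOn (fun z => ∏ l, f l z ^ B l) (Ln Y pr δ v) :=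
      (holOn_continuousOn (hWTU B).1).mono hsub
    exact hconn.isPreconnected.constant_of_mapsTo (T := {z : ℂ | z ^ j = (∏ l, f l y ^ B l) ^ j}) hfin.isDiscrete hcont
      (fun z hz => h1 ⟨z, hz⟩) y.2 y'.2) (by
    -- the rank
    intro w hw
    have h1 : ∀ i, ∃ B : Fin N → ℤ, w i = cl (∏ l, F l ^ B l) := by
      intro i
      obtain ⟨B, hB⟩ := closure_form _ (hw i)
      exact ⟨B, by rw [hB, hcl]⟩
    choose B hB using h1
    obtain ⟨a, ha, hlog⟩ := hs (fun i y => ∏ l, f l y ^ B i l)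
      (fun i => holOn_continuousOn (hWTU (B i)).1) (fun i => (hWTU (B i)).2.1)
    refine ⟨a, ha, ?_⟩
    have h2 : ∏ i, w i ^ a i = ∏ i, (cl (∏ l, F l ^ B i l)) ^ a i :=
      Finset.prod_congr rfl fun i _ => by rw [hB i]
    rw [h2, hconst]
    have hU := tup m e Y Λ (s + 1) (fun i y => ∏ l, f l y ^ B i l) (fun i => hWTU (B i)) a
    obtain ⟨h, hh1, hh2⟩ := hlog
    exact logc m k Y pr δ e hC v c κ Λ hv hE hconn.isPreconnected _ hU
      ⟨h, hh1.mono hsub, fun y hy => hh2 y (hsub y hy)⟩)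
  have h1 : ∀ j, ∃ B : Fin N → ℤ, u j = cl (∏ l, F l ^ B l) := by
    intro j
    obtain ⟨B, hB⟩ := closure_form _ (hu j)
    exact ⟨B, by rw [hB, hcl]⟩
  choose B hB using h1
  refine ⟨n, hn, B, ?_, ?_⟩
  · intro a ha
    apply hind
    have h2 : ∏ j, u j ^ a j = ∏ j, (cl (∏ l, F l ^ B j l)) ^ a j :=
      Finset.prod_congr rfl fun j _ => by rw [hB j]
    rw [h2, hconst]
    exact ha
  · intro l
    obtain ⟨mm, hmm⟩ := hbas l
    obtain ⟨y₀, hy₀⟩ := hconn.nonempty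
    have h2 : ∏ j, u j ^ mm j = cl (∏ j, (∏ l, F l ^ B j l) ^ mm j) := by
      rw [← hcl2]
      exact Finset.prod_congr rfl fun j _ => by rw [hB j]
    have h3 : cl (F l * (∏ j, (∏ l, F l ^ B j l) ^ mm j)⁻¹) = 1 := by
      have h4 : cl (F l) = cl (∏ j, (∏ l, F l ^ B j l) ^ mm j) := by
        rw [← h2]
        exact hmm
      rw [map_mul, map_inv, h4, mul_inv_cancel]
    rw [cl_eq_one] at h3
    have hval : ∀ y : ↥(Ln Y pr δ v), (((F l * (∏ j, (∏ l, F l ^ B j l) ^ mm j)⁻¹) y : ℂˣ) : ℂ) =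
        f l y / ∏ j, (∏ l', f l' y ^ B j l') ^ mm j := by
      intro y
      rw [Pi.mul_apply, Pi.inv_apply, Units.val_mul, Units.val_inv_eq_inv_val, hF, hprod2, div_eq_mul_inv]
    have hne : ∀ y ∈ Ln Y pr δ v, ∏ j, (∏ l', f l' y ^ B j l') ^ mm j ≠ 0 := by
      intro y hy
      refine Finset.prod_ne_zero_iff.2 fun j _ => zpow_ne_zero _ ?_
      exact (hWTU (B j)).2.1 y (hsub y hy)
    refine ⟨mm, f l y₀ / ∏ j, (∏ l', f l' y₀ ^ B j l') ^ mm j, ?_, ?_⟩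
    · exact div_ne_zero (hfne l y₀ (hsub y₀ hy₀)) (hne y₀ hy₀)
    · intro y hy
      have h4 : (((F l * (∏ j, (∏ l, F l ^ B j l) ^ mm j)⁻¹) ⟨y, hy⟩ : ℂˣ) : ℂ) =
          (((F l * (∏ j, (∏ l, F l ^ B j l) ^ mm j)⁻¹) ⟨y₀, hy₀⟩ : ℂˣ) : ℂ) :=
        congrArg (fun z : ℂˣ => (z : ℂ)) (h3 ⟨y, hy⟩ ⟨y₀, hy₀⟩)
      rw [hval, hval] at h4
      have h5 := hne y hy
      rw [← h4, div_mul_cancel₀ _ h5]

end Pool.Agent.Q22.GO
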