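import Pool.Agent.Q22.GO.Stm

set_option autoImplicit false

/-!
Project GO, job BZ: nondegenerate zeros of overdetermined cubic systems (generic linear combinations
of the equations).
-/

namespace Pool.Agent.Q22.GO

open H113G Metric Set Topology

noncomputable section

namespace BZ

variable {ι T : Type} [Fintype ι] [DecidableEq ι]

/-- the gradient at `z` of a linear combination of the polynomials -/
def Dm (P : T → MvPolynomial ι ℂ) (z : ι → ℂ) : (T →₀ ℂ) →ₗ[ℂ] (ι → ℂ) :=
  Finsupp.linearCombination ℂ fun t j => MvPolynomial.eval z (MvPolynomial.pderiv j (P t))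

/-- the linear combination -/
def Qm (P : T → MvPolynomial ι ℂ) (a : T →₀ ℂ) : MvPolynomial ι ℂ :=
  ∑ t ∈ a.support, a t • P t

theorem dm_surj (P : T → MvPolynomial ι ℂ) (z : ι → ℂ)
    (h : ∀ x : ι → ℂ,
      (∀ t, ∑ j, MvPolynomial.eval z (MvPolynomial.pderiv j (P t)) * x j = 0) → x = 0) :
    LinearMap.range (Dm P z) = ⊤ := by
  by_contra hne
  obtain ⟨f, hf0, hf⟩ := Submodule.exists_le_ker_of_lt_top _ (lt_top_iff_ne_top.2 hne)
  have hx := h (fun j => f (Pi.single j 1)) fun t => by
    have h1 : Dm P z (Finsupp.single t 1) ∈ LinearMap.ker f := hf ⟨_, rfl⟩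
    rw [LinearMap.mem_ker] at h1
    have h2 : Dm P z (Finsupp.single t 1) =
        fun j => MvPolynomial.eval z (MvPolynomial.pderiv j (P t)) := by
      unfold Dm
      rw [Finsupp.linearCombination_single, one_smul]
    rw [h2] at h1
    have h3 : (fun j => MvPolynomial.eval z (MvPolynomial.pderiv j (P t))) =
        ∑ j, MvPolynomial.eval z (MvPolynomial.pderiv j (P t)) • (Pi.single j (1 : ℂ) : ι → ℂ) := by
      ext k
      rw [Finset.sum_apply]
      simp [Pi.single_apply]
    rw [h3, map_sum] at h1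
    rw [← h1]
    refine Finset.sum_congr rfl fun j _ => ?_
    rw [map_smul, smul_eq_mul]
  apply hf0
  refine LinearMap.pi_ext' fun j => LinearMap.ext_ring ?_
  have h4 := congrFun hx j
  rw [LinearMap.comp_apply, LinearMap.zero_comp, LinearMap.zero_apply]
  exact h4

theorem choose_indep (P : T → MvPolynomial ι ℂ) (Z : Finset (ι → ℂ))
    (h : ∀ z ∈ Z, LinearMap.range (Dm P z) = ⊤) :
    ∀ k : ℕ, k ≤ Fintype.card ι → ∃ a : Fin k → (T →₀ ℂ), ∀ z ∈ Z,
      LinearIndependent ℂ fun i => Dm P z (a i) := by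
  intro k
  induction k with
  | zero => exact fun _ => ⟨Fin.elim0, fun z _ => linearIndependent_empty_type⟩
  | succ k ih =>
    intro hk
    obtain ⟨a, ha⟩ := ih (by omega)
    set p : Z → Submodule ℂ (T →₀ ℂ) := fun z =>
      (Submodule.span ℂ (Set.range fun i => Dm P z.1 (a i))).comap (Dm P z.1) with hp
    have hne : (⋃ z, (p z : Set (T →₀ ℂ))) ≠ Set.univ := by
      intro hcov
      obtain ⟨z, hz⟩ := Subspace.exists_eq_top_of_iUnion_eq_univ hcov
      have h1 : Submodule.span ℂ (Set.range fun i => Dm P z.1 (a i)) = ⊤ := by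
        rw [eq_top_iff]
        intro w _
        have hw : w ∈ LinearMap.range (Dm P z.1) := by
          rw [h z.1 z.2]
          exact Submodule.mem_top
        obtain ⟨b, hb⟩ := hw
        have hb' : b ∈ p z := by
          rw [hz]
          exact Submodule.mem_top
        rw [← hb]
        exact hb'
      have h2 := finrank_span_le_card (R := ℂ) (Set.range fun i => Dm P z.1 (a i))
      have h3 : (Set.range fun i => Dm P z.1 (a i)).toFinset.card ≤ k := by
        rw [Set.toFinset_range]
        exact Finset.card_image_le.trans (by rw [Finset.card_univ, Fintype.card_fin])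
      rw [h1, finrank_top, Module.finrank_fintype_fun_eq_card] at h2
      omega
    obtain ⟨b, hb⟩ := (Set.ne_univ_iff_exists_notMem _).1 hne
    refine ⟨Fin.snoc a b, fun z hz => ?_⟩
    have h4 : (fun i : Fin (k + 1) => Dm P z ((Fin.snoc a b : Fin (k + 1) → (T →₀ ℂ)) i)) =
        Fin.snoc (fun i => Dm P z (a i)) (Dm P z b) := by
      ext1 i
      refine Fin.lastCases ?_ (fun i => ?_) i
      · rw [Fin.snoc_last, Fin.snoc_last]
      · rw [Fin.snoc_castSucc, Fin.snoc_castSucc]
    rw [h4, linearIndependent_finSnoc]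
    refine ⟨ha z hz, fun hmem => hb ?_⟩
    rw [Set.mem_iUnion]
    exact ⟨⟨z, hz⟩, hmem⟩

theorem dm_apply (P : T → MvPolynomial ι ℂ) (z : ι → ℂ) (a : T →₀ ℂ) (j : ι) :
    MvPolynomial.eval z (MvPolynomial.pderiv j (Qm P a)) = Dm P z a j := by
  unfold Dm Qm
  rw [Finsupp.linearCombination_apply, Finsupp.sum, Finset.sum_apply, map_sum, map_sum]
  refine Finset.sum_congr rfl fun t _ => ?_
  rw [Derivation.map_smul, MvPolynomial.smul_eval, Pi.smul_apply, smul_eq_mul]

end BZ

open BZ in
/-- **BZ** -/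
theorem t_BZ (bz1 : S_BZ1) : S_BZ := by
  intro ι T _ _ P hP Z hZ
  obtain ⟨a, ha⟩ := choose_indep P Z (fun z hz => dm_surj P z (hZ z hz).2) (Fintype.card ι) le_rfl
  set e := Fintype.equivFin ι
  refine bz1 ι (fun i => Qm P (a (e i))) (fun i => ?_) Z fun z hz => ⟨fun i => ?_, ?_⟩
  · exact MvPolynomial.totalDegree_finsetSum_le fun t _ =>
      (MvPolynomial.totalDegree_smul_le _ _).trans (hP t)
  · unfold Qm
    rw [map_sum]
    refine Finset.sum_eq_zero fun t _ => ?_
    rw [MvPolynomial.smul_eval, (hZ z hz).1 t, mul_zero]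
  · have h1 : LinearIndependent ℂ fun i : ι => Dm P z (a (e i)) := (ha z hz).comp e e.injective
    have h2 : (Matrix.of fun i j => MvPolynomial.eval z
        (MvPolynomial.pderiv j (Qm P (a (e i))))) = Matrix.of fun i => Dm P z (a (e i)) := by
      ext i j
      rw [Matrix.of_apply, Matrix.of_apply]
      exact dm_apply P z _ j
    rw [h2]
    have h3 : IsUnit (Matrix.of fun i => Dm P z (a (e i))) :=
      Matrix.linearIndependent_rows_iff_isUnit.1 h1
    exact ((Matrix.isUnit_iff_isUnit_det _).1 h3).ne_zero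

end

end Pool.Agent.Q22.GO
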