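import Pool.Agent.Q22.GO.Stm

set_option autoImplicit false

/-!
BZ1: nondegenerate zeros of square cubic systems.
-/

open MvPolynomial

namespace Pool.Agent.Q22.GO.BZ1

variable {ι : Type*} [Fintype ι]

/-- the number of common zeros of `z i ^ D = g i z` (complex version) -/
theorem zero_count (D : ℕ) (g : ι → MvPolynomial ι ℂ) (hg : ∀ i, (g i).totalDegree < D)
    (Z : Finset (ι → ℂ)) (hZ : ∀ z ∈ Z, ∀ i, z i ^ D = eval z (g i)) :
    Z.card ≤ D ^ Fintype.card ι := by
  classical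
  let E : MvPolynomial ι ℂ →ₗ[ℂ] (Z → ℂ) :=
    LinearMap.pi (fun z => (aeval (z : ι → ℂ) : MvPolynomial ι ℂ →ₐ[ℂ] ℂ).toLinearMap)
  have hE : ∀ (p : MvPolynomial ι ℂ) (z : Z), E p z = eval (z : ι → ℂ) p := by
    intro p z
    simp [E]
  let b : (ι → Fin D) → MvPolynomial ι ℂ := fun m =>
    monomial (Finsupp.equivFunOnFinite.symm (fun i => (m i : ℕ))) 1
  let W : Submodule ℂ (Z → ℂ) := Submodule.span ℂ (Set.range (fun m => E (b m)))
  have hmono : ∀ n : ℕ, ∀ m : ι →₀ ℕ, (m.sum fun _ e => e) = n → E (monomial m 1) ∈ W := by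
    intro n
    induction n using Nat.strong_induction_on with
    | _ n ih =>
      intro m hm
      by_cases hlt : ∀ i, m i < D
      · apply Submodule.subset_span
        refine ⟨fun i => ⟨m i, hlt i⟩, ?_⟩
        simp only [b]
        congr 2
        ext i
        simp
      · push Not at hlt
        obtain ⟨i, hi⟩ := hlt
        -- reduce
        set m' : ι →₀ ℕ := m - Finsupp.single i D with hm'
        have hmm : m = m' + Finsupp.single i D := by
          rw [hm', tsub_add_cancel_of_le]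
          intro j
          by_cases hj : j = i
          · subst hj; simpa using hi
          · rw [Finsupp.single_apply, if_neg (Ne.symm hj)]; exact Nat.zero_le _
        have hdeg : (m'.sum fun _ e => e) + D = n := by
          rw [← hm, hmm, Finsupp.sum_add_index' (by simp) (by simp), Finsupp.sum_single_index rfl]
        have heq : E (monomial m 1) = E (monomial m' 1 * g i) := by
          funext z
          rw [hE, hE, hmm, map_mul, ← hZ z z.2 i]
          have : (monomial (m' + Finsupp.single i D) (1 : ℂ)) = monomial m' 1 * (X i) ^ D := by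
            rw [X_pow_eq_monomial, monomial_mul, one_mul]
          rw [this, map_mul, map_pow, eval_X]
        have hq : (monomial m' (1 : ℂ) * g i).totalDegree < n := by
          have h1 := totalDegree_mul (monomial m' (1 : ℂ)) (g i)
          have h2 : (monomial m' (1 : ℂ)).totalDegree ≤ m'.sum fun _ e => e :=
            totalDegree_monomial_le m' (1 : ℂ)
          have h3 := hg i
          omega
        rw [heq, MvPolynomial.as_sum (monomial m' (1 : ℂ) * g i), map_sum]
        apply Submodule.sum_mem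
        intro v hv
        have hvd := le_totalDegree hv
        have h4 : (monomial v (coeff v (monomial m' (1 : ℂ) * g i)) : MvPolynomial ι ℂ) =
            (coeff v (monomial m' (1 : ℂ) * g i)) • monomial v 1 := by
          rw [smul_monomial, smul_eq_mul, mul_one]
        rw [h4, map_smul]
        exact W.smul_mem _ (ih _ (lt_of_le_of_lt hvd hq) v rfl)
  have hall : ∀ p, E p ∈ W := by
    intro p
    rw [MvPolynomial.as_sum p, map_sum]
    apply Submodule.sum_mem
    intro v _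
    have h4 : (monomial v (coeff v p) : MvPolynomial ι ℂ) = (coeff v p) • monomial v 1 := by
      rw [smul_monomial, smul_eq_mul, mul_one]
    rw [h4, map_smul]
    exact W.smul_mem _ (hmono _ v rfl)
  have htop : W = ⊤ := by
    rw [eq_top_iff]
    intro u _
    -- separating polynomials
    have hsep : ∀ z z' : Z, ∃ q : MvPolynomial ι ℂ, (z ≠ z' → eval (z : ι → ℂ) q ≠ 0) ∧
        eval (z' : ι → ℂ) q = 0 := by
      intro z z'
      by_cases h : z = z'
      · exact ⟨0, fun h' => absurd h h', by simp⟩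
      · have h1 : (z : ι → ℂ) ≠ (z' : ι → ℂ) := fun h2 => h (Subtype.ext h2)
        obtain ⟨i, hi⟩ := Function.ne_iff.mp h1
        refine ⟨X i - C ((z' : ι → ℂ) i), fun _ => ?_, ?_⟩
        · simp only [map_sub, eval_X, eval_C]
          exact sub_ne_zero.mpr hi
        · simp
    choose q hq1 hq2 using hsep
    let P : Z → MvPolynomial ι ℂ := fun z => ∏ z' ∈ Finset.univ.erase z, q z z'
    have hP1 : ∀ z : Z, eval (z : ι → ℂ) (P z) ≠ 0 := by
      intro z
      simp only [P, map_prod]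
      rw [Finset.prod_ne_zero_iff]
      intro z' hz'
      exact hq1 z z' (Finset.ne_of_mem_erase hz').symm
    have hP2 : ∀ z z' : Z, z ≠ z' → eval (z' : ι → ℂ) (P z) = 0 := by
      intro z z' h
      simp only [P, map_prod]
      exact Finset.prod_eq_zero (Finset.mem_erase.mpr ⟨Ne.symm h, Finset.mem_univ z'⟩) (hq2 z z')
    have hu : u = ∑ z, (u z / eval (z : ι → ℂ) (P z)) • E (P z) := by
      funext z'
      rw [Finset.sum_apply, Finset.sum_eq_single z']
      · rw [Pi.smul_apply, hE, smul_eq_mul, div_mul_cancel₀ _ (hP1 z')]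
      · intro z _ hz
        rw [Pi.smul_apply, hE, hP2 z z' hz, smul_zero]
      · intro h; exact absurd (Finset.mem_univ _) h
    rw [hu]
    exact Submodule.sum_mem _ (fun z _ => W.smul_mem _ (hall _))
  have h1 : Module.finrank ℂ W ≤ Fintype.card (ι → Fin D) := finrank_range_le_card _
  rw [htop, finrank_top, Module.finrank_fintype_fun_eq_card, Fintype.card_coe] at h1
  simpa using h1

theorem strict [DecidableEq ι] (p : MvPolynomial ι ℂ) (x : ι → ℂ) :
    HasStrictFDerivAt (fun x : ι → ℂ => eval x p)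
      (∑ j, eval x (pderiv j p) • (ContinuousLinearMap.proj j : (ι → ℂ) →L[ℂ] ℂ)) x := by
  induction p using MvPolynomial.induction_on with
  | C a =>
    simp only [eval_C]
    refine (hasStrictFDerivAt_const (𝕜 := ℂ) a x).congr_fderiv ?_
    ext y
    simp
  | add p q hp hq =>
    have h := hp.add hq
    have e1 : (fun x : ι → ℂ => eval x (p + q)) = (fun x : ι → ℂ => eval x p) + fun x => eval x q := by
      funext y
      simp
    rw [e1]
    refine h.congr_fderiv ?_
    ext y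
    have e3 : ∀ r : MvPolynomial ι ℂ,
        (∑ k, eval x (pderiv k r) • (ContinuousLinearMap.proj k : (ι → ℂ) →L[ℂ] ℂ)) y
        = ∑ k, eval x (pderiv k r) * y k := by
      intro r
      simp
    change (∑ k, eval x (pderiv k p) • (ContinuousLinearMap.proj k : (ι → ℂ) →L[ℂ] ℂ)) y +
      (∑ k, eval x (pderiv k q) • (ContinuousLinearMap.proj k : (ι → ℂ) →L[ℂ] ℂ)) y = _
    rw [e3, e3, e3, ← Finset.sum_add_distrib]
    refine Finset.sum_congr rfl (fun k _ => ?_)
    rw [map_add, map_add, add_mul]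
  | mul_X p j hp =>
    have hj : HasStrictFDerivAt (fun x : ι → ℂ => x j)
        (ContinuousLinearMap.proj j : (ι → ℂ) →L[ℂ] ℂ) x :=
      (ContinuousLinearMap.proj j : (ι → ℂ) →L[ℂ] ℂ).hasStrictFDerivAt
    have h := hp.mul hj
    have e1 : (fun x : ι → ℂ => eval x (p * X j)) = (fun x : ι → ℂ => eval x p) * fun x => x j := by
      funext y
      simp
    rw [e1]
    refine h.congr_fderiv ?_
    ext y
    have e2 : ∀ k : ι, eval x (pderiv k (p * X j)) * y k =
        x j * (eval x (pderiv k p) * y k) + (if k = j then eval x p * y j else 0) := by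
      intro k
      rw [pderiv_mul, map_add, map_mul, map_mul, eval_X, pderiv_X]
      by_cases hk : k = j
      · subst hk
        simp
        ring
      · rw [if_neg hk, Pi.single_eq_of_ne (Ne.symm hk)]
        simp
        ring
    have e3 : (∑ k, eval x (pderiv k (p * X j)) • (ContinuousLinearMap.proj k : (ι → ℂ) →L[ℂ] ℂ)) y
        = ∑ k, eval x (pderiv k (p * X j)) * y k := by
      simp
    have e4 : (∑ k, eval x (pderiv k p) • (ContinuousLinearMap.proj k : (ι → ℂ) →L[ℂ] ℂ)) y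
        = ∑ k, eval x (pderiv k p) * y k := by
      simp
    change eval x p * y j + x j *
      (∑ k, eval x (pderiv k p) • (ContinuousLinearMap.proj k : (ι → ℂ) →L[ℂ] ℂ)) y = _
    rw [e3, e4, Finset.sum_congr rfl (fun k _ => e2 k), Finset.sum_add_distrib, ← Finset.mul_sum,
      Finset.sum_ite_eq' Finset.univ j, if_pos (Finset.mem_univ j), add_comm]

/-- the perturbed system has a zero near each nondegenerate zero -/
theorem near [DecidableEq ι] (P : ι → MvPolynomial ι ℂ) (z : ι → ℂ)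
    (hz : ∀ i, eval z (P i) = 0)
    (hd : (Matrix.of fun i j => eval z (pderiv j (P i))).det ≠ 0) (r : ℝ) (hr : 0 < r) :
    ∀ᶠ ε in nhds (0 : ℂ), ∃ y ∈ Metric.ball z r, ∀ i, eval y (P i) + ε * y i ^ 4 = 0 := by
  set J : Matrix ι ι ℂ := Matrix.of fun i j => eval z (pderiv j (P i)) with hJ
  let F : (ι → ℂ) × ℂ → (ι → ℂ) × ℂ := fun u => (fun i => eval u.1 (P i) + u.2 * u.1 i ^ 4, u.2)
  have hcomp : ∀ i : ι, HasStrictFDerivAt (fun u : (ι → ℂ) × ℂ => eval u.1 (P i) + u.2 * u.1 i ^ 4)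
      ((∑ j, eval z (pderiv j (P i)) • (ContinuousLinearMap.proj j : (ι → ℂ) →L[ℂ] ℂ)).comp
        (ContinuousLinearMap.fst ℂ (ι → ℂ) ℂ) +
        z i ^ 4 • ContinuousLinearMap.snd ℂ (ι → ℂ) ℂ) (z, 0) := by
    intro i
    have h1 : HasStrictFDerivAt (fun u : (ι → ℂ) × ℂ => eval u.1 (P i))
        ((∑ j, eval z (pderiv j (P i)) • (ContinuousLinearMap.proj j : (ι → ℂ) →L[ℂ] ℂ)).comp
          (ContinuousLinearMap.fst ℂ (ι → ℂ) ℂ)) (z, 0) :=
      HasStrictFDerivAt.comp (g := fun x : ι → ℂ => eval x (P i)) (f := Prod.fst) (z, (0 : ℂ))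
        (strict (P i) z) hasStrictFDerivAt_fst
    have h2 : HasStrictFDerivAt (fun u : (ι → ℂ) × ℂ => u.1 i)
        ((ContinuousLinearMap.proj i : (ι → ℂ) →L[ℂ] ℂ).comp
          (ContinuousLinearMap.fst ℂ (ι → ℂ) ℂ)) (z, 0) :=
      ((ContinuousLinearMap.proj i : (ι → ℂ) →L[ℂ] ℂ).comp
          (ContinuousLinearMap.fst ℂ (ι → ℂ) ℂ)).hasStrictFDerivAt
    have h3 := h2.pow 4
    have h4 : HasStrictFDerivAt (fun u : (ι → ℂ) × ℂ => u.2)
        (ContinuousLinearMap.snd ℂ (ι → ℂ) ℂ) (z, 0) := hasStrictFDerivAt_snd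
    have h5 := h1.add (h4.mul h3)
    refine h5.congr_fderiv ?_
    ext <;> simp
  have hF : HasStrictFDerivAt F
      ((ContinuousLinearMap.pi fun i =>
        ((∑ j, eval z (pderiv j (P i)) • (ContinuousLinearMap.proj j : (ι → ℂ) →L[ℂ] ℂ)).comp
        (ContinuousLinearMap.fst ℂ (ι → ℂ) ℂ) +
        z i ^ 4 • ContinuousLinearMap.snd ℂ (ι → ℂ) ℂ)).prod
          (ContinuousLinearMap.snd ℂ (ι → ℂ) ℂ)) (z, 0) :=
    (hasStrictFDerivAt_pi'.mpr hcomp).prodMk hasStrictFDerivAt_snd
  have hsurj : ((ContinuousLinearMap.pi fun i =>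
        ((∑ j, eval z (pderiv j (P i)) • (ContinuousLinearMap.proj j : (ι → ℂ) →L[ℂ] ℂ)).comp
        (ContinuousLinearMap.fst ℂ (ι → ℂ) ℂ) +
        z i ^ 4 • ContinuousLinearMap.snd ℂ (ι → ℂ) ℂ)).prod
          (ContinuousLinearMap.snd ℂ (ι → ℂ) ℂ)).range = ⊤ := by
    rw [LinearMap.range_eq_top]
    rintro ⟨y, η⟩
    have hu : IsUnit J.det := isUnit_iff_ne_zero.mpr hd
    refine ⟨(J⁻¹.mulVec (fun i => y i - z i ^ 4 * η), η), ?_⟩
    have hk : J.mulVec (J⁻¹.mulVec (fun i => y i - z i ^ 4 * η)) = fun i => y i - z i ^ 4 * η := by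
      rw [Matrix.mulVec_mulVec, Matrix.mul_nonsing_inv _ hu, Matrix.one_mulVec]
    ext i
    · have hki := congrFun hk i
      simp only [Matrix.mulVec, dotProduct] at hki
      simp only [ContinuousLinearMap.coe_coe, ContinuousLinearMap.prod_apply,
        ContinuousLinearMap.coe_pi', _root_.add_apply, ContinuousLinearMap.comp_apply,
        ContinuousLinearMap.coe_fst', _root_.sum_apply,
        _root_.smul_apply, ContinuousLinearMap.proj_apply, smul_eq_mul,
        ContinuousLinearMap.coe_snd', Matrix.mulVec, dotProduct]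
      have : ∑ x, eval z (pderiv x (P i)) *
          ∑ x_1, J⁻¹ x x_1 * (y x_1 - z x_1 ^ 4 * η) = y i - z i ^ 4 * η := hki
      rw [this]
      ring
    · simp
  have hmap := hF.map_nhds_eq_of_surj hsurj
  have hF0 : F (z, 0) = (0, 0) := by
    simp only [F, Prod.mk.injEq, and_true]
    funext i
    simp [hz i]
  have hU : Metric.ball z r ×ˢ (Set.univ : Set ℂ) ∈ nhds (z, (0 : ℂ)) :=
    prod_mem_nhds (Metric.ball_mem_nhds z hr) Filter.univ_mem
  have hI : F '' (Metric.ball z r ×ˢ (Set.univ : Set ℂ)) ∈ nhds ((0 : ι → ℂ), (0 : ℂ)) := by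
    rw [← hF0, ← hmap]
    exact Filter.image_mem_map hU
  have hc : Filter.Tendsto (fun ε : ℂ => ((0 : ι → ℂ), ε)) (nhds 0) (nhds (0, 0)) :=
    (Continuous.prodMk_right (0 : ι → ℂ)).tendsto 0
  filter_upwards [hc hI] with ε hε
  obtain ⟨⟨y, ε'⟩, ⟨hy, -⟩, hFy⟩ := hε
  simp only [F, Prod.mk.injEq] at hFy
  obtain ⟨h1, h2⟩ := hFy
  subst h2
  exact ⟨y, hy, fun i => congrFun h1 i⟩

end Pool.Agent.Q22.GO.BZ1

namespace Pool.Agent.Q22.GO

theorem t_BZ1 : S_BZ1 := by
  intro ι _ _ P hP Z hZ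
  classical
  -- separation radius
  obtain ⟨r, hr, hsep⟩ : ∃ r : ℝ, 0 < r ∧ ∀ z ∈ Z, ∀ z' ∈ Z, z ≠ z' → 2 * r ≤ dist z z' := by
    have h1 : ∀ p ∈ Z ×ˢ Z, ∃ r : ℝ, 0 < r ∧ (p.1 ≠ p.2 → 2 * r ≤ dist p.1 p.2) := by
      intro p _
      by_cases h : p.1 = p.2
      · exact ⟨1, one_pos, fun h' => absurd h h'⟩
      · exact ⟨dist p.1 p.2 / 2, half_pos (dist_pos.mpr h), fun _ => by linarith⟩
    have h2 : ∀ᶠ r in nhdsWithin (0 : ℝ) (Set.Ioi 0), ∀ p ∈ Z ×ˢ Z,
        p.1 ≠ p.2 → 2 * r ≤ dist p.1 p.2 := by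
      rw [Filter.eventually_all_finset]
      intro p hp
      obtain ⟨r₀, hr₀, h3⟩ := h1 p hp
      have h4 : ∀ᶠ r in nhdsWithin (0 : ℝ) (Set.Ioi 0), r < r₀ :=
        (gt_mem_nhds hr₀).filter_mono nhdsWithin_le_nhds
      filter_upwards [h4] with r h5 h6
      linarith [h3 h6]
    obtain ⟨r, h3, h4⟩ := (h2.and self_mem_nhdsWithin).exists
    exact ⟨r, h4, fun z hz z' hz' h => h3 (z, z') (Finset.mk_mem_product hz hz') h⟩
  obtain ⟨ε, hε, hall⟩ : ∃ ε : ℂ, ε ≠ 0 ∧ ∀ z ∈ Z, ∃ y ∈ Metric.ball z r,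
      ∀ i, MvPolynomial.eval y (P i) + ε * y i ^ 4 = 0 := by
    have h1 : ∀ᶠ ε in nhdsWithin (0 : ℂ) {0}ᶜ, ∀ z ∈ Z, ∃ y ∈ Metric.ball z r,
        ∀ i, MvPolynomial.eval y (P i) + ε * y i ^ 4 = 0 := by
      apply Filter.Eventually.filter_mono nhdsWithin_le_nhds
      rw [Filter.eventually_all_finset]
      intro z hz
      exact BZ1.near P z (hZ z hz).1 (hZ z hz).2 r hr
    obtain ⟨ε, h2, h3⟩ := (h1.and self_mem_nhdsWithin).exists
    exact ⟨ε, h3, h2⟩
  have hall' : ∀ z : Z, ∃ y : ι → ℂ, y ∈ Metric.ball (z : ι → ℂ) r ∧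
      ∀ i, MvPolynomial.eval y (P i) + ε * y i ^ 4 = 0 := by
    intro z
    obtain ⟨y, h1, h2⟩ := hall z z.2
    exact ⟨y, h1, h2⟩
  choose y hy1 hy2 using hall'
  have hinj : Function.Injective y := by
    intro z z' h
    by_contra hne
    have h1 : (z : ι → ℂ) ≠ z' := fun h2 => hne (Subtype.ext h2)
    have h2 := hsep z z.2 z' z'.2 h1
    have h3 := Metric.mem_ball.mp (hy1 z)
    have h4 := Metric.mem_ball.mp (hy1 z')
    rw [h] at h3
    have h5 := dist_triangle_left (z : ι → ℂ) z' (y z')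
    linarith
  have hdeg : ∀ i, (MvPolynomial.C (-ε⁻¹) * P i : MvPolynomial ι ℂ).totalDegree < 4 := by
    intro i
    have h1 := MvPolynomial.totalDegree_mul (MvPolynomial.C (-ε⁻¹) : MvPolynomial ι ℂ) (P i)
    rw [MvPolynomial.totalDegree_C] at h1
    have h2 := hP i
    omega
  have := BZ1.zero_count 4 _ hdeg (Finset.univ.image y) (by
    intro w hw i
    rw [Finset.mem_image] at hw
    obtain ⟨z, -, rfl⟩ := hw
    have h1 := hy2 z i
    rw [map_mul, MvPolynomial.eval_C]
    have h2 : MvPolynomial.eval (y z) (P i) = -(ε * y z i ^ 4) := eq_neg_of_add_eq_zero_left h1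
    rw [h2, neg_mul_neg, ← mul_assoc, inv_mul_cancel₀ hε, one_mul])
  rw [Finset.card_image_of_injective _ hinj] at this
  simpa using this

end Pool.Agent.Q22.GO
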