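import Pool.Agent.Q22.GO.Stm
import Pool.Agent.Helper540.Holo

set_option autoImplicit false

/-!
Lemma job GO-CH for helper22: a complex submanifold of `ℂ^m` has holomorphic charts at each point.
-/

namespace Pool.Agent.Q22.GO

open H113G Metric Set Topology

namespace CH

/-- a linear complement of a surjective map -/
theorem exists_compl {m k : ℕ} (L : (Fin m → ℂ) →L[ℂ] (Fin k → ℂ))
    (hL : Function.Surjective ⇑L) :
    ∃ (n : ℕ) (P : (Fin m → ℂ) →L[ℂ] (Fin n → ℂ)),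
      Function.Bijective ⇑(L.prod P) := by
  set K := LinearMap.ker (L : (Fin m → ℂ) →ₗ[ℂ] (Fin k → ℂ)) with hK
  obtain ⟨P0, hP0⟩ := LinearMap.exists_leftInverse_of_injective K.subtype
    (by rw [Submodule.ker_subtype])
  have hP0' : ∀ x : K, P0 (x : Fin m → ℂ) = x := fun x => LinearMap.congr_fun hP0 x
  set b := Module.finBasis ℂ K with hb
  set P1 : (Fin m → ℂ) →ₗ[ℂ] (Fin (Module.finrank ℂ K) → ℂ) :=
    (b.equivFun : K →ₗ[ℂ] (Fin (Module.finrank ℂ K) → ℂ)).comp P0 with hP1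
  refine ⟨Module.finrank ℂ K, LinearMap.toContinuousLinearMap P1, ?_, ?_⟩
  · refine (injective_iff_map_eq_zero (L.prod (LinearMap.toContinuousLinearMap P1))).2 ?_
    intro x hx
    have h1 : L x = 0 := congrArg Prod.fst hx
    have h2 : P1 x = 0 := congrArg Prod.snd hx
    have h3 : x ∈ K := by rw [hK, LinearMap.mem_ker]; exact h1
    have h4 : P0 x = ⟨x, h3⟩ := hP0' ⟨x, h3⟩
    have h5 : b.equivFun (P0 x) = 0 := h2
    rw [h4, LinearEquiv.map_eq_zero_iff] at h5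
    exact congrArg Subtype.val h5
  · rintro ⟨a, c⟩
    obtain ⟨x, hx⟩ := hL a
    set y : K := b.equivFun.symm c - P0 x with hy
    refine ⟨x + (y : Fin m → ℂ), ?_⟩
    have h1 : L (y : Fin m → ℂ) = 0 := LinearMap.mem_ker.1 y.2
    have h2 : P1 (x + (y : Fin m → ℂ)) = c := by
      show b.equivFun (P0 (x + (y : Fin m → ℂ))) = c
      rw [map_add, hP0', hy, add_sub_cancel, LinearEquiv.apply_symm_apply]
    refine Prod.ext ?_ h2
    show L (x + (y : Fin m → ℂ)) = a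
    rw [map_add, hx, h1, add_zero]

end CH

/-- the statement `S_CH` -/
theorem t_CH : S_CH := by
  intro m Y hY p hp N hN
  obtain ⟨U, hU, hpU, k, F, hF, hsurj, hYU⟩ := hY p hp
  have hF0 : F p = 0 := by
    have h1 : p ∈ U ∩ F ⁻¹' {0} := by rw [← hYU]; exact ⟨hp, hpU⟩
    exact h1.2
  obtain ⟨n, P, hbij⟩ := CH.exists_compl (fderiv ℂ F p) (hsurj p hpU)
  set Φ : (Fin m → ℂ) → (Fin k → ℂ) × (Fin n → ℂ) := fun x => (F x, P x) with hΦ
  set A : (Fin m → ℂ) ≃L[ℂ] (Fin k → ℂ) × (Fin n → ℂ) :=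
    (LinearEquiv.ofBijective (((fderiv ℂ F p).prod P : (Fin m → ℂ) →L[ℂ]
      (Fin k → ℂ) × (Fin n → ℂ)) : (Fin m → ℂ) →ₗ[ℂ] (Fin k → ℂ) × (Fin n → ℂ))
      hbij).toContinuousLinearEquiv with hA
  have hAeq : (A : (Fin m → ℂ) →L[ℂ] (Fin k → ℂ) × (Fin n → ℂ)) = (fderiv ℂ F p).prod P := by
    ext x <;> rfl
  have hFc : ContDiffAt ℂ 1 F p :=
    (Pool.Agent.Helper540.contDiffOn_of_differentiableOn hU hF 1).contDiffAt (hU.mem_nhds hpU)
  have hΦc : ContDiffAt ℂ 1 Φ p := hFc.prodMk P.contDiff.contDiffAt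
  have hΦd : HasFDerivAt Φ (A : (Fin m → ℂ) →L[ℂ] (Fin k → ℂ) × (Fin n → ℂ)) p := by
    rw [hAeq]
    exact (hF.differentiableAt (hU.mem_nhds hpU)).hasFDerivAt.prodMk P.hasFDerivAt
  set e := hΦc.toOpenPartialHomeomorph Φ hΦd one_ne_zero with he
  have hec : ∀ x, e x = Φ x := fun x => rfl
  have hpe : p ∈ e.source := hΦc.mem_toOpenPartialHomeomorph_source hΦd one_ne_zero
  have hG : ContDiffAt ℂ 1 e.symm (Φ p) := hΦc.to_localInverse hΦd one_ne_zero
  have hGp : e.symm (Φ p) = p := e.left_inv hpe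
  have hGd : ∀ᶠ y in 𝓝 (Φ p), DifferentiableAt ℂ e.symm y := by
    filter_upwards [hG.eventually (by simp)] with y hy
    exact hy.differentiableAt one_ne_zero
  have hGN : ∀ᶠ y in 𝓝 (Φ p), e.symm y ∈ N ∩ U := by
    refine hG.continuousAt.eventually_mem ?_
    rw [hGp]
    exact Filter.inter_mem hN (hU.mem_nhds hpU)
  have hGt : ∀ᶠ y in 𝓝 (Φ p), y ∈ e.target := e.open_target.mem_nhds (e.map_source hpe)
  obtain ⟨ε, hε, hb⟩ := Metric.eventually_nhds_iff_ball.1 (hGd.and (hGN.and hGt))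
  have hεC : (ε : ℂ) ≠ 0 := by exact_mod_cast hε.ne'
  have hball : ∀ x ∈ ball (0 : Fin n → ℂ) 1, ((0 : Fin k → ℂ), P p + (ε : ℂ) • x) ∈ ball (Φ p) ε := by
    intro x hx
    rw [mem_ball_zero_iff] at hx
    rw [mem_ball, dist_eq_norm, hΦ]
    simp only [hF0, Prod.mk_sub_mk, sub_self, add_sub_cancel_left]
    rw [Prod.norm_def]
    simp only [norm_zero, norm_smul, Complex.norm_real, Real.norm_of_nonneg hε.le]
    refine max_lt hε ?_
    calc ε * ‖x‖ < ε * 1 := mul_lt_mul_of_pos_left hx hε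
      _ = ε := mul_one ε
  refine ⟨n, fun x => e.symm ((0 : Fin k → ℂ), P p + (ε : ℂ) • x),
    fun y => (ε : ℂ)⁻¹ • (P y - P p), e.source ∩ e ⁻¹' (ball (Φ p) ε), ?_, ?_, ?_, ?_, ?_, ?_, ?_, ?_⟩
  · exact e.isOpen_inter_preimage isOpen_ball
  · exact ⟨hpe, mem_ball_self hε⟩
  · rintro y ⟨hy1, hy2⟩
    have h1 := (hb _ hy2).2.1.1
    rwa [e.left_inv hy1] at h1
  · intro x hx
    have h1 : DifferentiableAt ℂ e.symm ((0 : Fin k → ℂ), P p + (ε : ℂ) • x) :=
      (hb _ (hball x hx)).1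
    have h2 : DifferentiableAt ℂ (fun x : Fin n → ℂ => ((0 : Fin k → ℂ), P p + (ε : ℂ) • x)) x := by
      fun_prop
    exact (h1.comp x h2).differentiableWithinAt
  · show e.symm ((0 : Fin k → ℂ), P p + (ε : ℂ) • (0 : Fin n → ℂ)) = p
    rw [smul_zero, add_zero, ← hF0]
    exact hGp
  · ext y
    constructor
    · rintro ⟨x, hx, rfl⟩
      have hx' := hball x hx
      obtain ⟨-, ⟨-, hyU⟩, hyt⟩ := hb _ hx'
      have h1 : Φ (e.symm ((0 : Fin k → ℂ), P p + (ε : ℂ) • x)) =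
          ((0 : Fin k → ℂ), P p + (ε : ℂ) • x) := e.right_inv hyt
      have h2 : F (e.symm ((0 : Fin k → ℂ), P p + (ε : ℂ) • x)) = 0 := congrArg Prod.fst h1
      refine ⟨?_, e.map_target hyt, ?_⟩
      · have h3 : e.symm ((0 : Fin k → ℂ), P p + (ε : ℂ) • x) ∈ Y ∩ U := by
          rw [hYU]
          exact ⟨hyU, h2⟩
        exact h3.1
      · show Φ (e.symm ((0 : Fin k → ℂ), P p + (ε : ℂ) • x)) ∈ ball (Φ p) ε
        rw [h1]
        exact hx'
    · rintro ⟨hyY, hy1, hy2⟩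
      have hy2' : Φ y ∈ ball (Φ p) ε := hy2
      obtain ⟨-, ⟨-, hyU⟩, hyt⟩ := hb _ hy2'
      have h0 : e.symm (Φ y) = y := e.left_inv hy1
      rw [h0] at hyU
      have hFy : F y = 0 := by
        have h1 : y ∈ U ∩ F ⁻¹' {0} := by rw [← hYU]; exact ⟨hyY, hyU⟩
        exact h1.2
      have hn : ‖P y - P p‖ < ε := by
        rw [mem_ball, dist_eq_norm] at hy2'
        exact (norm_snd_le (Φ y - Φ p)).trans_lt hy2'
      refine ⟨(ε : ℂ)⁻¹ • (P y - P p), ?_, ?_⟩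
      · rw [mem_ball_zero_iff, norm_smul, norm_inv, Complex.norm_real, Real.norm_of_nonneg hε.le,
          inv_mul_lt_iff₀ hε, mul_one]
        exact hn
      · show e.symm ((0 : Fin k → ℂ), P p + (ε : ℂ) • (ε : ℂ)⁻¹ • (P y - P p)) = y
        rw [smul_smul, mul_inv_cancel₀ hεC, one_smul, add_sub_cancel]
        have h3 : ((0 : Fin k → ℂ), P y) = Φ y := by
          rw [hΦ]
          simp only [hFy]
        rw [h3, h0]
  · exact Continuous.continuousOn (by fun_prop)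
  · intro x hx
    obtain ⟨-, -, hyt⟩ := hb _ (hball x hx)
    have h1 : Φ (e.symm ((0 : Fin k → ℂ), P p + (ε : ℂ) • x)) =
        ((0 : Fin k → ℂ), P p + (ε : ℂ) • x) := e.right_inv hyt
    have h2 : P (e.symm ((0 : Fin k → ℂ), P p + (ε : ℂ) • x)) = P p + (ε : ℂ) • x :=
      congrArg Prod.snd h1
    show (ε : ℂ)⁻¹ • (P (e.symm ((0 : Fin k → ℂ), P p + (ε : ℂ) • x)) - P p) = x
    rw [h2, add_sub_cancel_left, smul_smul, inv_mul_cancel₀ hεC, one_smul]

end Pool.Agent.Q22.GO
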