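import Pool.Agent.Q22.GO.Stm

set_option autoImplicit false

/-!
Job GO-CMW (project GO of helper22): the covering `qW` of `Sp δ` built from the local sections of
`Cov` and the logarithms of `g`.
-/

namespace Pool.Agent.Q22.GO

open H113G Metric Set Topology

namespace CMW

/-- a criterion for an evenly covered point: continuous sections over an open set which are
pairwise different, exhaust the preimage, and agree locally -/
theorem even {E X ι : Type} [TopologicalSpace E] [TopologicalSpace X] [TopologicalSpace ι]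
    [DiscreteTopology ι] (f : E → X) (hf : Continuous f) (x : X) (U : Set X) (hU : IsOpen U)
    (hx : x ∈ U) (σ : ι → ↥U → E) (hσc : ∀ i, Continuous (σ i)) (hσ : ∀ i u, f (σ i u) = u.1)
    (hσ1 : ∀ i j u, σ i u = σ j u → i = j)
    (hσ2 : ∀ w : E, ∀ hw : f w ∈ U, ∃ i, σ i ⟨f w, hw⟩ = w)
    (hloc : ∀ w : E, ∀ hw : f w ∈ U, ∀ i, σ i ⟨f w, hw⟩ = w →
      ∀ᶠ w' in 𝓝 w, ∀ hw' : f w' ∈ U, σ i ⟨f w', hw'⟩ = w') :
    IsEvenlyCovered f x ι := by
  choose idx hidx using hσ2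
  refine ⟨inferInstance, U, hx, hU, hU.preimage hf, ⟨⟨⟨fun w => (⟨f w.1, w.2⟩, idx w.1 w.2),
    fun p => ⟨σ p.2 p.1, by rw [mem_preimage, hσ]; exact p.1.2⟩, ?_, ?_⟩, ?_, ?_⟩, fun _ => rfl⟩⟩
  · rintro ⟨w, hw⟩
    exact Subtype.ext (hidx w hw)
  · rintro ⟨u, i⟩
    have h1 : (⟨f (σ i u), by rw [hσ]; exact u.2⟩ : ↥U) = u := Subtype.ext (hσ i u)
    refine Prod.ext h1 ?_
    have hw : f (σ i u) ∈ U := by rw [hσ]; exact u.2
    have h2 := hidx (σ i u) hw
    refine hσ1 _ _ u ?_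
    change σ (idx (σ i u) hw) u = σ i u
    have h3 : (⟨f (σ i u), hw⟩ : ↥U) = u := Subtype.ext (hσ i u)
    rw [h3] at h2
    exact h2
  · refine Continuous.prodMk (Continuous.subtype_mk (hf.comp continuous_subtype_val) _) ?_
    rw [continuous_iff_continuousAt]
    rintro ⟨w, hw⟩
    rw [ContinuousAt, nhds_discrete ι, Filter.tendsto_pure]
    have h1 := hloc w hw (idx w hw) (hidx w hw)
    have h2 : Filter.Tendsto (Subtype.val : ↥(f ⁻¹' U) → E) (𝓝 ⟨w, hw⟩) (𝓝 w) :=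
      continuous_subtype_val.continuousAt
    filter_upwards [h2.eventually h1] with w' h3
    refine hσ1 _ _ ⟨f w'.1, w'.2⟩ ?_
    exact (hidx w'.1 w'.2).trans (h3 w'.2).symm
  · refine Continuous.subtype_mk ?_ _
    rw [continuous_iff_continuousAt]
    rintro ⟨u, i⟩
    have h1 : ContinuousAt (fun p : ↥U × ι => σ i p.1) (u, i) :=
      ((hσc i).comp continuous_fst).continuousAt
    refine h1.congr ?_
    have h2 : ∀ᶠ p : ↥U × ι in 𝓝 (u, i), p.2 = i := by
      have h3 : Filter.Tendsto (Prod.snd : ↥U × ι → ι) (𝓝 (u, i)) (𝓝 i) :=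
        continuous_snd.continuousAt
      rw [nhds_discrete ι, Filter.tendsto_pure] at h3
      exact h3
    filter_upwards [h2] with p hp
    rw [hp]

/-- the local logarithm -/
theorem loclog {k : ℕ} (z : Fin k → ℂ) (r : ℝ) (hr : 0 < r) (φ : (Fin k → ℂ) → ℂ)
    (hφ : ContinuousOn φ (ball z r)) (h0 : φ z ≠ 0) : ∃ r' : ℝ, 0 < r' ∧ r' ≤ r ∧
    ∀ ρ : ℝ, 0 < ρ → ρ ≤ r' → ∃ l : (Fin k → ℂ) → ℂ, ContinuousOn l (ball z ρ) ∧
      ∀ z' ∈ ball z ρ, Complex.exp (l z') = φ z' := by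
  have h1 : ContinuousAt φ z := hφ.continuousAt (ball_mem_nhds z hr)
  have h2 : ContinuousAt (fun z' => φ z' / φ z) z := h1.div_const _
  have h3 : ∀ᶠ z' in 𝓝 z, φ z' / φ z ∈ Complex.slitPlane := by
    refine h2.eventually_mem ?_
    refine Complex.isOpen_slitPlane.mem_nhds ?_
    rw [div_self h0]
    exact Complex.one_mem_slitPlane
  obtain ⟨r₁, hr₁, h4⟩ := Metric.eventually_nhds_iff_ball.1 h3
  refine ⟨min r₁ r, lt_min hr₁ hr, min_le_right _ _, fun ρ hρ hρ' =>
    ⟨fun z' => Complex.log (φ z) + Complex.log (φ z' / φ z), ?_, ?_⟩⟩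
  · refine continuousOn_const.add ?_
    refine ContinuousOn.clog ?_ ?_
    · exact (hφ.mono (ball_subset_ball (hρ'.trans (min_le_right _ _)))).div_const _
    · intro z' hz'
      exact h4 z' (ball_subset_ball (hρ'.trans (min_le_left _ _)) hz')
  · intro z' hz'
    have h5 := h4 z' (ball_subset_ball (hρ'.trans (min_le_left _ _)) hz')
    have h6 : φ z' / φ z ≠ 0 := Complex.slitPlane_ne_zero h5
    rw [Complex.exp_add, Complex.exp_log h0, Complex.exp_log h6]
    field_simp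

end CMW

open CMW in
theorem t_CMW : S_CMW := by
  intro m k Y pr δ e hC g hg hg0
  have hqc : Continuous (qW Y pr δ g) := by
    refine Continuous.subtype_mk ?_ _
    exact hC.diff.continuous.comp (continuous_fst.comp continuous_subtype_val)
  rintro ⟨z, hz⟩
  obtain ⟨r, hr, s, hs1, hs2⟩ := hC.sections z hz
  have hsc : ∀ i, ContinuousOn (s i) (ball z r) := fun i => (hs1 i).continuousOn
  have hsY : ∀ i, ∀ z' ∈ ball z r, s i z' ∈ Y ∧ pr (s i z') = z' := by
    intro i z' hz'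
    have h1 : s i z' ∈ {y | y ∈ Y ∧ pr y = z'} := by
      rw [(hs2 z' hz').2.2]
      exact ⟨i, rfl⟩
    exact h1
  have hgs : ∀ i, ContinuousOn (fun z' => g (s i z')) (ball z r) := fun i =>
    hg.comp (hsc i) fun z' hz' => (hsY i z' hz').1
  have hll : ∀ i, ∃ r' : ℝ, 0 < r' ∧ r' ≤ r ∧
      ∀ ρ : ℝ, 0 < ρ → ρ ≤ r' → ∃ l : (Fin k → ℂ) → ℂ, ContinuousOn l (ball z ρ) ∧
        ∀ z' ∈ ball z ρ, Complex.exp (l z') = g (s i z') := fun i =>
    loclog z r hr _ (hgs i) (hg0 _ (hsY i z (mem_ball_self hr)).1)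
  choose r₁ hr₁ hr₁r hl using hll
  obtain ⟨ρ, hρ, hρr, hρ1⟩ : ∃ ρ : ℝ, 0 < ρ ∧ ρ ≤ r ∧ ∀ i, ρ ≤ r₁ i := by
    by_cases hne : Nonempty (Fin e)
    · obtain ⟨i₀, hi₀⟩ := Finite.exists_min r₁
      exact ⟨r₁ i₀, hr₁ i₀, hr₁r i₀, hi₀⟩
    · exact ⟨r, hr, le_rfl, fun i => (hne ⟨i⟩).elim⟩
  have hl' : ∀ i, ∃ l : (Fin k → ℂ) → ℂ, ContinuousOn l (ball z ρ) ∧
        ∀ z' ∈ ball z ρ, Complex.exp (l z') = g (s i z') := fun i => hl i ρ hρ (hρ1 i)
  choose l hlc hle using hl'
  have hbb : ball z ρ ⊆ ball z r := ball_subset_ball hρr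
  have hpi : (2 * Real.pi * Complex.I : ℂ) ≠ 0 := Complex.two_pi_I_ne_zero
  refine IsEvenlyCovered.to_isEvenlyCovered_preimage (I := Fin e × ℤ) ?_
  refine even (ι := Fin e × ℤ) (qW Y pr δ g) hqc ⟨z, hz⟩ {x | x.1 ∈ ball z ρ}
    (isOpen_ball.preimage continuous_subtype_val) (mem_ball_self hρ)
    (fun i u => ⟨(s i.1 u.1.1, l i.1 u.1.1 + i.2 * (2 * Real.pi * Complex.I)),
      (hsY i.1 _ (hbb u.2)).1, by
        have h1 := (hsY i.1 _ (hbb u.2)).2
        simp only
        rw [h1]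
        exact u.1.2, by
        simp only
        rw [Complex.exp_add, Complex.exp_int_mul_two_pi_mul_I, mul_one]
        exact hle i.1 _ u.2⟩) ?_ ?_ ?_ ?_ ?_
  · rintro ⟨i, n⟩
    refine Continuous.subtype_mk ?_ _
    have hv : Continuous (fun u : ↥{x : Sp δ | x.1 ∈ ball z ρ} => u.1.1) :=
      continuous_subtype_val.comp continuous_subtype_val
    refine Continuous.prodMk ?_ ?_
    · exact (hsc i).comp_continuous hv fun u => hbb u.2
    · exact ((hlc i).comp_continuous hv fun u => u.2).add continuous_const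
  · rintro ⟨i, n⟩ u
    exact Subtype.ext (hsY i _ (hbb u.2)).2
  · rintro ⟨i, n⟩ ⟨j, n'⟩ u h
    have h1 := congrArg (fun w => w.1.1) h
    have h2 := congrArg (fun w => w.1.2) h
    simp only at h1 h2
    have h3 : i = j := (hs2 _ (hbb u.2)).2.1 h1
    subst h3
    have h4 : (n : ℂ) = n' := mul_right_cancel₀ hpi (add_left_cancel h2)
    rw [Int.cast_inj.1 h4]
  · rintro ⟨⟨y, h⟩, hy, hδ, he⟩ hw
    have hw' : pr y ∈ ball z ρ := hw
    have h1 : y ∈ {y' | y' ∈ Y ∧ pr y' = pr y} := ⟨hy, rfl⟩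
    rw [(hs2 _ (hbb hw')).2.2] at h1
    obtain ⟨i, hi⟩ := h1
    simp only at hi
    have h2 : Complex.exp h = Complex.exp (l i (pr y)) := by
      rw [hle i _ hw', hi]
      exact he
    obtain ⟨n, hn⟩ := Complex.exp_eq_exp_iff_exists_int.1 h2
    refine ⟨(i, n), Subtype.ext (Prod.ext hi ?_)⟩
    exact hn.symm
  · rintro ⟨⟨y, h⟩, hy, hδ, he⟩ hw ⟨i, n⟩ hi
    have hw' : pr y ∈ ball z ρ := hw
    have hi1 : s i (pr y) = y := congrArg (fun w => w.1.1) hi
    have hi2 : l i (pr y) + n * (2 * Real.pi * Complex.I) = h := congrArg (fun w => w.1.2) hi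
    set w₀ : Wg Y pr δ g := ⟨(y, h), hy, hδ, he⟩ with hw₀
    have hy1 : Filter.Tendsto (fun w : Wg Y pr δ g => w.1.1) (𝓝 w₀) (𝓝 y) :=
      (continuous_fst.comp continuous_subtype_val).continuousAt
    have hh1 : Filter.Tendsto (fun w : Wg Y pr δ g => w.1.2) (𝓝 w₀) (𝓝 h) :=
      (continuous_snd.comp continuous_subtype_val).continuousAt
    have hp1 : Filter.Tendsto (fun w : Wg Y pr δ g => pr w.1.1) (𝓝 w₀) (𝓝 (pr y)) :=
      (hC.diff.continuous.continuousAt.tendsto).comp hy1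
    have hnb : ball z ρ ∈ 𝓝 (pr y) := isOpen_ball.mem_nhds hw'
    have hnb' : ball z r ∈ 𝓝 (pr y) := isOpen_ball.mem_nhds (hbb hw')
    -- the other sheets are away
    have hA : ∀ᶠ w : Wg Y pr δ g in 𝓝 w₀, ∀ j, j ≠ i → w.1.1 ≠ s j (pr w.1.1) := by
      rw [Filter.eventually_all]
      intro j
      by_cases hj : j = i
      · exact Filter.Eventually.of_forall fun _ h => (h hj).elim
      · have hsj : Filter.Tendsto (fun w : Wg Y pr δ g => s j (pr w.1.1)) (𝓝 w₀)
            (𝓝 (s j (pr y))) :=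
          (((hsc j).continuousAt hnb').tendsto).comp hp1
        have hne : y ≠ s j (pr y) := by
          intro h5
          apply hj
          refine (hs2 _ (hbb hw')).2.1 ?_
          simp only
          rw [← h5, hi1]
        have hop : {p : (Fin m → ℂ) × (Fin m → ℂ) | p.1 ≠ p.2} ∈ 𝓝 (y, s j (pr y)) :=
          (isOpen_ne_fun continuous_fst continuous_snd).mem_nhds hne
        filter_upwards [(hy1.prodMk_nhds hsj).eventually hop] with w hw5 _
        exact hw5
    -- the logarithm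
    have hli : Filter.Tendsto (fun w : Wg Y pr δ g => w.1.2 - l i (pr w.1.1)) (𝓝 w₀)
        (𝓝 (h - l i (pr y))) :=
      hh1.sub ((((hlc i).continuousAt hnb).tendsto).comp hp1)
    have hB : ∀ᶠ w : Wg Y pr δ g in 𝓝 w₀,
        ‖(w.1.2 - l i (pr w.1.1)) - (h - l i (pr y))‖ < 2 * Real.pi := by
      have h6 := (Metric.tendsto_nhds.1 hli) (2 * Real.pi) Real.two_pi_pos
      filter_upwards [h6] with w hw6
      rwa [dist_eq_norm] at hw6
    filter_upwards [hA, hB] with w hwA hwB hw7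
    obtain ⟨⟨y', h'⟩, hy', hδ', he'⟩ := w
    simp only at hwA hwB
    have hw8 : pr y' ∈ ball z ρ := hw7
    have h1 : y' ∈ {y'' | y'' ∈ Y ∧ pr y'' = pr y'} := ⟨hy', rfl⟩
    rw [(hs2 _ (hbb hw8)).2.2] at h1
    obtain ⟨j, hj⟩ := h1
    simp only at hj
    have hji : j = i := by
      by_contra h9
      exact hwA j h9 hj.symm
    subst hji
    have h2 : Complex.exp h' = Complex.exp (l j (pr y')) := by
      rw [hle j _ hw8, hj]
      exact he'
    obtain ⟨n', hn'⟩ := Complex.exp_eq_exp_iff_exists_int.1 h2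
    have h10 : (h' - l j (pr y')) - (h - l j (pr y)) = ((n' - n : ℤ) : ℂ) * (2 * Real.pi * Complex.I) := by
      rw [hn', ← hi2]
      push_cast
      ring
    have h11 : n' = n := by
      by_contra h12
      have h13 : (1 : ℝ) ≤ |((n' - n : ℤ) : ℝ)| := by
        rw [← Int.cast_abs]
        exact_mod_cast Int.one_le_abs (sub_ne_zero.2 h12)
      rw [h10, norm_mul, Complex.norm_intCast] at hwB
      have h14 : ‖(2 * Real.pi * Complex.I : ℂ)‖ = 2 * Real.pi := by
        rw [norm_mul, norm_mul, Complex.norm_I, mul_one, Complex.norm_real, Complex.norm_two,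
          Real.norm_of_nonneg Real.pi_pos.le]
      rw [h14] at hwB
      nlinarith [Real.two_pi_pos]
    subst h11
    exact Subtype.ext (Prod.ext hj hn'.symm)

end Pool.Agent.Q22.GO
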