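import Pool.Agent.Q22.GO.Stm

set_option autoImplicit false

namespace Pool.Agent.Q22.GO.CMY

open H113G Metric Set Topology

theorem closedEq {A E : Type*} [TopologicalSpace A] [TopologicalSpace E] [T2Space E] {f g : A → E}
    (hf : Continuous f) (hg : Continuous g) : IsClosed {y | f y = g y} := isClosed_eq hf hg

end Pool.Agent.Q22.GO.CMY

namespace Pool.Agent.Q22.GO

open H113G Metric Set Topology

theorem t_CMY : S_CMY := by
  intro m k Y pr δ e hC z
  obtain ⟨r, hr, s, hs, hs2⟩ := hC.sections z.1 z.2
  let U : Set (Sp δ) := {w | w.1 ∈ ball z.1 r}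
  have hU : IsOpen U := isOpen_ball.preimage continuous_subtype_val
  have hpr : Continuous pr := hC.diff.continuous
  have hq : Continuous (qY Y pr δ) := Continuous.subtype_mk (hpr.comp continuous_subtype_val) _
  have hmem : ∀ z' ∈ ball z.1 r, ∀ i, s i z' ∈ Y ∧ pr (s i z') = z' := by
    intro z' hz' i
    have h : s i z' ∈ {y | y ∈ Y ∧ pr y = z'} := by
      rw [(hs2 z' hz').2.2]
      exact ⟨i, rfl⟩
    exact h
  have hex : ∀ y : (qY Y pr δ) ⁻¹' U, ∃ i, s i (pr y.1.1) = y.1.1 := by
    intro y
    have h1 := (hs2 (pr y.1.1) y.2).2.2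
    have h2 : y.1.1 ∈ {y' | y' ∈ Y ∧ pr y' = pr y.1.1} := ⟨y.1.2.1, rfl⟩
    rw [h1] at h2
    exact h2
  choose idx hidx using hex
  have hinj : ∀ (y : (qY Y pr δ) ⁻¹' U) (i : Fin e), s i (pr y.1.1) = y.1.1 → idx y = i :=
    fun y i h => (hs2 _ y.2).2.1 ((hidx y).trans h.symm)
  -- continuity
  have hsc : ∀ i, Continuous fun w : U => s i w.1.1 := by
    intro i
    have h1 : ContinuousOn (s i) (ball z.1 r) := (hs i).continuousOn
    have h2 : Continuous fun w : U => (⟨w.1.1, w.2⟩ : ball z.1 r) :=
      Continuous.subtype_mk (continuous_subtype_val.comp continuous_subtype_val) _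
    exact (continuousOn_iff_continuous_domRestrict.mp h1).comp h2
  have hyq : Continuous fun y : (qY Y pr δ) ⁻¹' U => (⟨qY Y pr δ y.1, y.2⟩ : U) :=
    Continuous.subtype_mk (hq.comp continuous_subtype_val) _
  have hcl : ∀ i, IsClosed {y : (qY Y pr δ) ⁻¹' U | idx y = i} := by
    intro i
    have h1 : {y : (qY Y pr δ) ⁻¹' U | idx y = i} =
        {y : (qY Y pr δ) ⁻¹' U | s i (pr y.1.1) = y.1.1} := by
      ext y
      constructor
      · intro h
        have h' : idx y = i := h
        show s i (pr y.1.1) = y.1.1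
        rw [← h']
        exact hidx y
      · intro h
        exact hinj y i h
    rw [h1]
    exact isClosed_eq ((hsc i).comp hyq) (continuous_subtype_val.comp continuous_subtype_val)
  have hidxc : Continuous idx := by
    rw [continuous_def]
    intro A _
    have h1 : idx ⁻¹' A = (⋃ i ∈ Aᶜ, {y | idx y = i})ᶜ := by
      ext y
      simp only [mem_preimage, mem_compl_iff, mem_iUnion, mem_setOf_eq, exists_prop, not_exists,
        not_and]
      exact ⟨fun h i hi h2 => hi (h2 ▸ h), fun h => by
        by_contra h2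
        exact h _ h2 rfl⟩
    rw [h1, isOpen_compl_iff]
    exact (Set.toFinite Aᶜ).isClosed_biUnion fun i _ => hcl i
  let H : ((qY Y pr δ) ⁻¹' U) ≃ₜ U × Fin e :=
    { toFun := fun y => (⟨qY Y pr δ y.1, y.2⟩, idx y)
      invFun := fun p => ⟨⟨s p.2 p.1.1.1, (hmem _ p.1.2 p.2).1, by
        rw [(hmem _ p.1.2 p.2).2]; exact p.1.1.2⟩, by
        show pr (s p.2 p.1.1.1) ∈ ball z.1 r
        rw [(hmem _ p.1.2 p.2).2]; exact p.1.2⟩
      left_inv := by
        intro y
        apply Subtype.ext
        apply Subtype.ext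
        exact hidx y
      right_inv := by
        intro p
        refine Prod.ext ?_ ?_
        · apply Subtype.ext
          apply Subtype.ext
          exact (hmem _ p.1.2 p.2).2
        · apply hinj
          show s p.2 (pr (s p.2 p.1.1.1)) = s p.2 p.1.1.1
          rw [(hmem _ p.1.2 p.2).2]
      continuous_toFun := hyq.prodMk hidxc
      continuous_invFun := by
        refine Continuous.subtype_mk (Continuous.subtype_mk ?_ _) _
        rw [continuous_prod_of_discrete_right]
        exact fun i => hsc i }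
  exact IsEvenlyCovered.to_isEvenlyCovered_preimage (I := Fin e)
    ⟨inferInstance, U, mem_ball_self hr, hU, hU.preimage hq, H, fun y => rfl⟩

end Pool.Agent.Q22.GO
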