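import Pool.Agent.Q22.GO.Stm

set_option autoImplicit false

/-!
# Project GO (helper22), job CONN (helper182): removing a thin set keeps connectedness
-/

namespace Pool.Agent.Q22.GO

open H113G Metric Set Topology

namespace CONN

/-- the points with a small piece in `U` -/
def XX {X : Type} [TopologicalSpace X] (A U : Set X) : Set X :=
  {x | ∃ V : Set X, IsOpen V ∧ x ∈ V ∧ V \ A ⊆ U}

theorem xx_open {X : Type} [TopologicalSpace X] (A U : Set X) : IsOpen (XX A U) := by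
  rw [isOpen_iff_mem_nhds]
  rintro x ⟨V, hV, hxV, h⟩
  exact Filter.mem_of_superset (hV.mem_nhds hxV) fun y hy => ⟨V, hV, hy, h⟩

end CONN

theorem t_CONN : S_CONN := by
  intro X _ A hX h
  rw [isPreconnected_iff_subset_of_disjoint]
  intro U1 U2 hU1 hU2 hcov hdis
  by_contra hcon
  rw [not_or, Set.not_subset, Set.not_subset] at hcon
  obtain ⟨⟨p, hpA, hp1⟩, ⟨q, hqA, hq2⟩⟩ := hcon
  have hp2 : p ∈ U2 := (hcov hpA).resolve_left hp1
  have hq1 : q ∈ U1 := (hcov hqA).resolve_right hq2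
  -- every small piece lies in one of the two sets
  have hpiece : ∀ V : Set X, IsPreconnected (V \ A) → V \ A ⊆ U1 ∨ V \ A ⊆ U2 := by
    intro V hV
    refine isPreconnected_iff_subset_of_disjoint.1 hV U1 U2 hU1 hU2 (fun x hx => hcov hx.2) ?_
    rw [Set.eq_empty_iff_forall_notMem]
    rintro x ⟨hx, hx12⟩
    have : x ∈ Aᶜ ∩ (U1 ∩ U2) := ⟨hx.2, hx12⟩
    rw [hdis] at this
    exact this
  have hall : (univ : Set X) ⊆ CONN.XX A U1 ∪ CONN.XX A U2 := by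
    intro x _
    obtain ⟨V, -, hV, hxV, -, hpc⟩ := h x univ Filter.univ_mem
    rcases hpiece V hpc with h1 | h1
    · exact Or.inl ⟨V, hV, hxV, h1⟩
    · exact Or.inr ⟨V, hV, hxV, h1⟩
  have hdisj : ∀ x, x ∈ CONN.XX A U1 → x ∈ CONN.XX A U2 → False := by
    rintro x ⟨V, hV, hxV, h1⟩ ⟨V', hV', hxV', h2⟩
    obtain ⟨W, hW, -, -, ⟨z, hz⟩, -⟩ :=
      h x (V ∩ V') (Filter.inter_mem (hV.mem_nhds hxV) (hV'.mem_nhds hxV'))
    have : z ∈ Aᶜ ∩ (U1 ∩ U2) :=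
      ⟨hz.2, h1 ⟨(hW hz.1).1, hz.2⟩, h2 ⟨(hW hz.1).2, hz.2⟩⟩
    rw [hdis] at this
    exact this
  have hp : p ∈ CONN.XX A U2 := by
    obtain ⟨V, -, hV, hxV, -, hpc⟩ := h p univ Filter.univ_mem
    rcases hpiece V hpc with h1 | h1
    · exact absurd (h1 ⟨hxV, hpA⟩) hp1
    · exact ⟨V, hV, hxV, h1⟩
  have hq : q ∈ CONN.XX A U1 := by
    obtain ⟨V, -, hV, hxV, -, hpc⟩ := h q univ Filter.univ_mem
    rcases hpiece V hpc with h1 | h1
    · exact ⟨V, hV, hxV, h1⟩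
    · exact absurd (h1 ⟨hxV, hqA⟩) hq2
  obtain ⟨z, -, hz1, hz2⟩ := hX (CONN.XX A U1) (CONN.XX A U2) (CONN.xx_open A U1)
    (CONN.xx_open A U2) hall ⟨q, mem_univ q, hq⟩ ⟨p, mem_univ p, hp⟩
  exact hdisj z hz1 hz2

end Pool.Agent.Q22.GO
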