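import Pool.Agent.Q22.GO.Stm
import Pool.Agent.H713R3.ZA.TROOT

/-!
# Project GO, job COV: the covering structure from the algebraic data
-/

set_option autoImplicit false

namespace Pool.Agent.Q22.GO

open H113G Metric Set Topology

namespace COV

variable {m k : ℕ}

/-! ### algebra -/

section alg

variable (z : Fin k → MvPolynomial (Fin m) ℂ) (θ : MvPolynomial (Fin m) ℂ)

theorem ev2_add (P Q : Polynomial (MvPolynomial (Fin k) ℂ)) :
    ev2 z θ (P + Q) = ev2 z θ P + ev2 z θ Q := Polynomial.eval₂_add _ _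

theorem ev2_sub (P Q : Polynomial (MvPolynomial (Fin k) ℂ)) :
    ev2 z θ (P - Q) = ev2 z θ P - ev2 z θ Q := Polynomial.eval₂_sub _

theorem ev2_mul (P Q : Polynomial (MvPolynomial (Fin k) ℂ)) :
    ev2 z θ (P * Q) = ev2 z θ P * ev2 z θ Q := Polynomial.eval₂_mul _ _

theorem ev2_C (a : MvPolynomial (Fin k) ℂ) :
    ev2 z θ (Polynomial.C a) = MvPolynomial.aeval z a := Polynomial.eval₂_C _ _

theorem ev2_X : ev2 z θ Polynomial.X = θ := Polynomial.eval₂_X _ _

theorem ev2_one : ev2 z θ 1 = 1 := Polynomial.eval₂_one _ _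

theorem eval_aeval (y : Fin m → ℂ) (a : MvPolynomial (Fin k) ℂ) :
    MvPolynomial.eval y (MvPolynomial.aeval z a) =
      MvPolynomial.eval (fun i => MvPolynomial.eval y (z i)) a := by
  induction a using MvPolynomial.induction_on with
  | C a => simp
  | add p q hp hq => rw [map_add, map_add, map_add, hp, hq]
  | mul_X p i hp => rw [map_mul, map_mul, map_mul, hp, MvPolynomial.aeval_X, MvPolynomial.eval_X]

theorem eval_ev2 (y : Fin m → ℂ) (P : Polynomial (MvPolynomial (Fin k) ℂ)) :
    MvPolynomial.eval y (ev2 z θ P) =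
      (P.map (MvPolynomial.eval (fun i => MvPolynomial.eval y (z i)))).eval
        (MvPolynomial.eval y θ) := by
  induction P using Polynomial.induction_on' with
  | add p q hp hq => rw [ev2_add, map_add, hp, hq, Polynomial.map_add, Polynomial.eval_add]
  | monomial n a =>
    rw [← Polynomial.C_mul_X_pow_eq_monomial, Polynomial.map_mul, Polynomial.map_pow,
      Polynomial.map_C, Polynomial.map_X, Polynomial.eval_mul, Polynomial.eval_pow,
      Polynomial.eval_C, Polynomial.eval_X, ev2_mul, ev2_C, map_mul, eval_aeval]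
    congr 1
    have : ev2 z θ (Polynomial.X ^ n) = θ ^ n := by
      unfold ev2
      rw [Polynomial.eval₂_pow, Polynomial.eval₂_X]
    rw [this, map_pow]

end alg

/-- the point of `Y` over `c` with `θ = T` -/
noncomputable def ptt (Q : Fin m → Polynomial (MvPolynomial (Fin k) ℂ)) (d : MvPolynomial (Fin k) ℂ)
    (c : Fin k → ℂ) (T : ℂ) : Fin m → ℂ :=
  fun j => ((Q j).map (MvPolynomial.eval c)).eval T / MvPolynomial.eval c d

/-- clearing denominators -/
theorem hom (I : Ideal (MvPolynomial (Fin m) ℂ)) (z : Fin k → MvPolynomial (Fin m) ℂ)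
    (θ : MvPolynomial (Fin m) ℂ) (d : MvPolynomial (Fin k) ℂ)
    (Q : Fin m → Polynomial (MvPolynomial (Fin k) ℂ))
    (hQ : ∀ j, MvPolynomial.aeval z d * MvPolynomial.X j - ev2 z θ (Q j) ∈ I)
    (R : MvPolynomial (Fin m) ℂ) :
    ∃ (M : ℕ) (S : Polynomial (MvPolynomial (Fin k) ℂ)),
      (∀ c T, MvPolynomial.eval c d ≠ 0 → (S.map (MvPolynomial.eval c)).eval T =
        MvPolynomial.eval c d ^ M * MvPolynomial.eval (ptt Q d c T) R) ∧
      ev2 z θ S - MvPolynomial.aeval z d ^ M * R ∈ I := by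
  induction R using MvPolynomial.induction_on with
  | C a =>
    refine ⟨0, Polynomial.C (MvPolynomial.C a), ?_, ?_⟩
    · intro c T _
      simp
    · rw [ev2_C, pow_zero, one_mul]
      simp
  | add p q hp hq =>
    obtain ⟨M1, S1, h1, g1⟩ := hp
    obtain ⟨M2, S2, h2, g2⟩ := hq
    refine ⟨M1 + M2, Polynomial.C (d ^ M2) * S1 + Polynomial.C (d ^ M1) * S2, ?_, ?_⟩
    · intro c T hc
      rw [Polynomial.map_add, Polynomial.map_mul, Polynomial.map_mul, Polynomial.map_C,
        Polynomial.map_C, Polynomial.eval_add, Polynomial.eval_mul, Polynomial.eval_mul,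
        Polynomial.eval_C, Polynomial.eval_C, h1 c T hc, h2 c T hc, map_pow, map_pow, map_add]
      ring
    · rw [ev2_add, ev2_mul, ev2_mul, ev2_C, ev2_C, map_pow, map_pow]
      have e : MvPolynomial.aeval z d ^ M2 * ev2 z θ S1 + MvPolynomial.aeval z d ^ M1 * ev2 z θ S2 -
          MvPolynomial.aeval z d ^ (M1 + M2) * (p + q) =
          MvPolynomial.aeval z d ^ M2 * (ev2 z θ S1 - MvPolynomial.aeval z d ^ M1 * p) +
            MvPolynomial.aeval z d ^ M1 * (ev2 z θ S2 - MvPolynomial.aeval z d ^ M2 * q) := by ring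
      rw [e]
      exact I.add_mem (I.mul_mem_left _ g1) (I.mul_mem_left _ g2)
  | mul_X p j hp =>
    obtain ⟨M, S, h1, g1⟩ := hp
    refine ⟨M + 1, S * Q j, ?_, ?_⟩
    · intro c T hc
      rw [Polynomial.map_mul, Polynomial.eval_mul, h1 c T hc, map_mul, MvPolynomial.eval_X]
      unfold ptt
      field_simp
      ring
    · rw [ev2_mul]
      have e : ev2 z θ S * ev2 z θ (Q j) - MvPolynomial.aeval z d ^ (M + 1) *
          (p * MvPolynomial.X j) =
          ev2 z θ (Q j) * (ev2 z θ S - MvPolynomial.aeval z d ^ M * p) -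
            (MvPolynomial.aeval z d ^ M * p) *
              (MvPolynomial.aeval z d * MvPolynomial.X j - ev2 z θ (Q j)) := by ring
      rw [e]
      exact I.sub_mem (I.mul_mem_left _ g1) (I.mul_mem_left _ (hQ j))

section pts

variable (I : Ideal (MvPolynomial (Fin m) ℂ)) (z : Fin k → MvPolynomial (Fin m) ℂ)
    (θ : MvPolynomial (Fin m) ℂ) (d : MvPolynomial (Fin k) ℂ)
    (Q : Fin m → Polynomial (MvPolynomial (Fin k) ℂ))
    (hQ : ∀ j, MvPolynomial.aeval z d * MvPolynomial.X j - ev2 z θ (Q j) ∈ I)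
    (G : Polynomial (MvPolynomial (Fin k) ℂ)) (hG : ∀ P, ev2 z θ P ∈ I → G ∣ P)

include hG in
theorem root_of (P : Polynomial (MvPolynomial (Fin k) ℂ)) (hP : ev2 z θ P ∈ I) (c : Fin k → ℂ)
    (T : ℂ) (hT : (G.map (MvPolynomial.eval c)).eval T = 0) :
    (P.map (MvPolynomial.eval c)).eval T = 0 := by
  obtain ⟨W, rfl⟩ := hG P hP
  rw [Polynomial.map_mul, Polynomial.eval_mul, hT, zero_mul]

include hG hQ in
theorem pt_mem (P : MvPolynomial (Fin m) ℂ) (hP : P ∈ I) (c : Fin k → ℂ) (T : ℂ)
    (hc : MvPolynomial.eval c d ≠ 0) (hT : (G.map (MvPolynomial.eval c)).eval T = 0) :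
    MvPolynomial.eval (ptt Q d c T) P = 0 := by
  obtain ⟨M, S, h1, h2⟩ := hom I z θ d Q hQ P
  have h3 : ev2 z θ S ∈ I := by
    have := I.add_mem h2 (I.mul_mem_left (MvPolynomial.aeval z d ^ M) hP)
    rwa [sub_add_cancel] at this
  have h4 := root_of I z θ G hG S h3 c T hT
  rw [h1 c T hc] at h4
  rcases mul_eq_zero.1 h4 with h | h
  · exact absurd h (pow_ne_zero _ hc)
  · exact h

include hG hQ in
theorem pt_z (i : Fin k) (c : Fin k → ℂ) (T : ℂ)
    (hc : MvPolynomial.eval c d ≠ 0) (hT : (G.map (MvPolynomial.eval c)).eval T = 0) :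
    MvPolynomial.eval (ptt Q d c T) (z i) = c i := by
  obtain ⟨M, S, h1, h2⟩ := hom I z θ d Q hQ (z i)
  have h3 : ev2 z θ (S - Polynomial.C (d ^ M * MvPolynomial.X i)) ∈ I := by
    rw [ev2_sub, ev2_C, map_mul, map_pow, MvPolynomial.aeval_X]
    exact h2
  have h4 := root_of I z θ G hG _ h3 c T hT
  rw [Polynomial.map_sub, Polynomial.eval_sub, Polynomial.map_C, Polynomial.eval_C, h1 c T hc,
    map_mul, map_pow, MvPolynomial.eval_X, ← mul_sub] at h4
  rcases mul_eq_zero.1 h4 with h | h
  · exact absurd h (pow_ne_zero _ hc)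
  · exact sub_eq_zero.1 h

include hG hQ in
theorem pt_θ (c : Fin k → ℂ) (T : ℂ)
    (hc : MvPolynomial.eval c d ≠ 0) (hT : (G.map (MvPolynomial.eval c)).eval T = 0) :
    MvPolynomial.eval (ptt Q d c T) θ = T := by
  obtain ⟨M, S, h1, h2⟩ := hom I z θ d Q hQ θ
  have h3 : ev2 z θ (S - Polynomial.C (d ^ M) * Polynomial.X) ∈ I := by
    rw [ev2_sub, ev2_mul, ev2_C, map_pow, ev2_X]
    exact h2
  have h4 := root_of I z θ G hG _ h3 c T hT
  rw [Polynomial.map_sub, Polynomial.eval_sub, Polynomial.map_mul, Polynomial.map_C,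
    Polynomial.map_X, Polynomial.eval_mul, Polynomial.eval_C, Polynomial.eval_X, h1 c T hc,
    map_pow, ← mul_sub] at h4
  rcases mul_eq_zero.1 h4 with h | h
  · exact absurd h (pow_ne_zero _ hc)
  · exact sub_eq_zero.1 h

end pts

/-! ### analysis -/

theorem cd_eval (p : MvPolynomial (Fin k) ℂ) :
    ContDiff ℂ 1 (fun c : Fin k → ℂ => MvPolynomial.eval c p) := by
  induction p using MvPolynomial.induction_on with
  | C a =>
    simp only [MvPolynomial.eval_C]
    exact contDiff_const
  | add p q hp hq =>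
    simp only [map_add]
    exact hp.add hq
  | mul_X p i hp =>
    simp only [map_mul, MvPolynomial.eval_X]
    exact hp.mul (contDiff_apply ℂ ℂ i)

theorem cd_ev (P : Polynomial (MvPolynomial (Fin k) ℂ)) :
    ContDiff ℂ 1 (fun p : (Fin k → ℂ) × ℂ => (P.map (MvPolynomial.eval p.1)).eval p.2) := by
  induction P using Polynomial.induction_on' with
  | add p q hp hq =>
    simp only [Polynomial.map_add, Polynomial.eval_add]
    exact hp.add hq
  | monomial n a =>
    simp only [Polynomial.map_monomial, Polynomial.eval_monomial]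
    exact ((cd_eval a).comp contDiff_fst).mul (contDiff_snd.pow n)

/-- bound for the size of `x` if a monic polynomial is small at `x` -/
theorem root_bd (p : Polynomial ℂ) (hp : p.Monic) (hn : 0 < p.natDegree) (x : ℂ) (M : ℝ)
    (hM : ‖p.eval x‖ ≤ M) : ‖x‖ ≤ 1 + M + ∑ i ∈ Finset.range p.natDegree, ‖p.coeff i‖ := by
  have hM0 : 0 ≤ M := (norm_nonneg _).trans hM
  by_contra h
  push Not at h
  have hS : 0 ≤ ∑ i ∈ Finset.range p.natDegree, ‖p.coeff i‖ := Finset.sum_nonneg fun i _ => norm_nonneg _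
  have hx1 : 1 ≤ ‖x‖ := by linarith
  have h1 : p.eval x = ∑ i ∈ Finset.range p.natDegree, p.coeff i * x ^ i + x ^ p.natDegree := by
    rw [Polynomial.eval_eq_sum_range, Finset.sum_range_succ, hp.coeff_natDegree, one_mul]
  have h2 : x ^ p.natDegree = p.eval x - ∑ i ∈ Finset.range p.natDegree, p.coeff i * x ^ i := by
    rw [h1]; ring
  have h3 : ‖x‖ ^ p.natDegree ≤ M + ∑ i ∈ Finset.range p.natDegree, ‖p.coeff i‖ * ‖x‖ ^ (p.natDegree - 1) := by
    rw [← norm_pow, h2]
    refine (norm_sub_le _ _).trans (add_le_add hM ((norm_sum_le _ _).trans ?_))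
    refine Finset.sum_le_sum fun i hi => ?_
    rw [norm_mul, norm_pow]
    refine mul_le_mul_of_nonneg_left (pow_le_pow_right₀ hx1 ?_) (norm_nonneg _)
    have := Finset.mem_range.1 hi
    omega
  rw [← Finset.sum_mul] at h3
  have h4 : M ≤ M * ‖x‖ ^ (p.natDegree - 1) := le_mul_of_one_le_right hM0 (one_le_pow₀ hx1)
  have h5 : ‖x‖ ^ p.natDegree = ‖x‖ * ‖x‖ ^ (p.natDegree - 1) := by
    rw [← pow_succ', Nat.sub_add_cancel hn]
  have h6 : 0 < ‖x‖ ^ (p.natDegree - 1) := pow_pos (by linarith) _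
  rw [h5] at h3
  nlinarith

theorem coeff_bd (P : Polynomial (MvPolynomial (Fin k) ℂ)) (K : Set (Fin k → ℂ)) (hK : IsCompact K) :
    ∃ C : ℝ, ∀ c ∈ K, ∑ i ∈ Finset.range P.natDegree, ‖MvPolynomial.eval c (P.coeff i)‖ ≤ C := by
  have hc : ContinuousOn (fun c : Fin k → ℂ =>
      ∑ i ∈ Finset.range P.natDegree, ‖MvPolynomial.eval c (P.coeff i)‖) K := by
    refine (continuous_finset_sum _ fun i _ => ?_).continuousOn
    exact (cd_eval (P.coeff i)).continuous.norm
  obtain ⟨C, hC⟩ := hK.exists_bound_of_continuousOn hc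
  exact ⟨C, fun c hcK => (le_abs_self _).trans (hC c hcK)⟩

theorem monic_bd (P : Polynomial (MvPolynomial (Fin k) ℂ)) (hP : P.Monic) (hn : 0 < P.natDegree)
    (K : Set (Fin k → ℂ)) (hK : IsCompact K) (M : ℝ) :
    ∃ B : ℝ, ∀ c ∈ K, ∀ x : ℂ, ‖(P.map (MvPolynomial.eval c)).eval x‖ ≤ M → ‖x‖ ≤ B := by
  obtain ⟨C, hC⟩ := coeff_bd P K hK
  refine ⟨1 + M + C, fun c hc x hx => ?_⟩
  have hd : (P.map (MvPolynomial.eval c)).natDegree = P.natDegree := hP.natDegree_map _
  have h := root_bd (P.map (MvPolynomial.eval c)) (hP.map _) (by rw [hd]; exact hn) x M hx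
  rw [hd] at h
  simp only [Polynomial.coeff_map] at h
  linarith [hC c hc]

end COV

/-- **JOB COV.** -/
theorem t_COV (pri : S_PRIME) (alg1 : S_ALG1) (alg2 : S_ALG2) : S_COV := by
  classical
  intro m Y hA hch hcon
  have hprime := pri m Y hch hcon
  obtain ⟨I, hI⟩ : ∃ I : Ideal (MvPolynomial (Fin m) ℂ), I = VI Y := ⟨_, rfl⟩
  rw [← hI] at hprime
  have hIm : ∀ P, P ∈ I ↔ ∀ y ∈ Y, MvPolynomial.eval y P = 0 := by
    intro P
    rw [hI]
    exact Iff.rfl
  have hY : ∀ y, (∀ P ∈ I, MvPolynomial.eval y P = 0) → y ∈ Y := by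
    obtain ⟨S, hS⟩ := hA
    intro y hy
    rw [hS]
    intro P hP
    refine hy P ((hIm P).2 fun y' hy' => ?_)
    rw [hS] at hy'
    exact hy' P hP
  obtain ⟨k, z, hinj, hint⟩ := alg1 m I hprime
  obtain ⟨θ, G, A, B, d, Q, hGm, hGI, hGdiv, hd0, hQ, hAB⟩ := alg2 m I hprime k z hinj hint
  have h1I : (1 : MvPolynomial (Fin m) ℂ) ∉ I := fun h => hprime.ne_top ((Ideal.eq_top_iff_one I).2 h)
  -- a good point
  obtain ⟨z₀, hz₀⟩ : ∃ z₀ : Fin k → ℂ, MvPolynomial.eval z₀ d ≠ 0 := by
    by_contra h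
    push Not at h
    exact hd0 (MvPolynomial.funext fun x => by rw [h x, map_zero])
  obtain ⟨pr, hpr⟩ : ∃ pr : (Fin m → ℂ) → (Fin k → ℂ),
      pr = fun y i => MvPolynomial.eval y (z i) - z₀ i := ⟨_, rfl⟩
  obtain ⟨δ, hδ⟩ : ∃ δ : MvPolynomial (Fin k) ℂ,
      δ = MvPolynomial.aeval (fun i => MvPolynomial.X i + MvPolynomial.C (z₀ i)) d := ⟨_, rfl⟩
  have hδe : ∀ w, MvPolynomial.eval w δ = MvPolynomial.eval (w + z₀) d := by
    intro w
    rw [hδ, COV.eval_aeval]
    congr 2
    funext i
    simp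
  have hprz : ∀ y, (fun i => MvPolynomial.eval y (z i)) = pr y + z₀ := by
    intro y
    funext i
    rw [hpr, Pi.add_apply, sub_add_cancel]
  have hGd : 0 < G.natDegree := by
    rcases Nat.eq_zero_or_pos G.natDegree with h | h
    · exfalso
      rw [hGm.natDegree_eq_zero.1 h, COV.ev2_one] at hGI
      exact h1I hGI
    · exact h
  -- the fibres
  have hfib : ∀ y ∈ Y, MvPolynomial.eval (pr y + z₀) d ≠ 0 →
      (G.map (MvPolynomial.eval (pr y + z₀))).eval (MvPolynomial.eval y θ) = 0 ∧
      y = COV.ptt Q d (pr y + z₀) (MvPolynomial.eval y θ) := by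
    intro y hy hd
    constructor
    · have := (hIm _).1 hGI y hy
      rw [COV.eval_ev2, hprz y] at this
      exact this
    · funext j
      have := (hIm _).1 (hQ j) y hy
      rw [map_sub, map_mul, COV.eval_aeval, hprz y, COV.eval_ev2, hprz y, MvPolynomial.eval_X,
        sub_eq_zero] at this
      unfold COV.ptt
      rw [← this]
      field_simp
  refine ⟨k, pr, δ, G.natDegree, hGd, ?_⟩
  refine ⟨?_, ?_, ?_, ?_, ?_, ?_⟩
  · -- closed
    obtain ⟨S, hS⟩ := hA
    have : Y = ⋂ P ∈ S, {y | MvPolynomial.eval y P = 0} := by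
      rw [hS]
      ext y
      simp
    rw [this]
    refine isClosed_biInter fun P _ => ?_
    exact isClosed_eq (COV.cd_eval P).continuous continuous_const
  · -- differentiable
    rw [hpr]
    refine differentiable_pi.2 fun i => ?_
    exact ((COV.cd_eval (z i)).differentiable (by norm_num)).sub_const _
  · rw [hδe, zero_add]
    exact hz₀
  · -- proper
    intro R
    have hK : IsCompact (closedBall (0 : Fin k → ℂ) (R + ‖z₀‖)) := isCompact_closedBall _ _
    have h1 : ∀ j : Fin m, ∃ B : ℝ, ∀ y ∈ Y, ‖pr y‖ ≤ R → ‖y j‖ ≤ B := by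
      intro j
      obtain ⟨P, hPm, hP⟩ := hint j
      have hPd : 0 < P.natDegree := by
        rcases Nat.eq_zero_or_pos P.natDegree with h | h
        · exfalso
          rw [hPm.natDegree_eq_zero.1 h, COV.ev2_one] at hP
          exact h1I hP
        · exact h
      obtain ⟨B, hB⟩ := COV.monic_bd P hPm hPd _ hK 0
      refine ⟨B, fun y hy hyR => hB (pr y + z₀) ?_ (y j) ?_⟩
      · rw [mem_closedBall_zero_iff]
        exact (norm_add_le _ _).trans (by linarith)
      · have := (hIm _).1 hP y hy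
        rw [COV.eval_ev2, hprz y, MvPolynomial.eval_X] at this
        rw [this, norm_zero]
    choose B hB using h1
    refine ⟨∑ j, |B j|, fun y hy hyR => ?_⟩
    refine (pi_norm_le_iff_of_nonneg (Finset.sum_nonneg fun j _ => abs_nonneg _)).2 fun j => ?_
    exact (hB j y hy hyR).trans ((le_abs_self _).trans
      (Finset.single_le_sum (f := fun j => |B j|) (fun j _ => abs_nonneg _) (Finset.mem_univ j)))
  · -- dominant
    intro D hD
    by_contra h
    push Not at h
    obtain ⟨D', hD'⟩ : ∃ D' : MvPolynomial (Fin k) ℂ,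
      D' = MvPolynomial.aeval (fun i => MvPolynomial.X i - MvPolynomial.C (z₀ i)) D := ⟨_, rfl⟩
    have hD'e : ∀ c, MvPolynomial.eval c D' = MvPolynomial.eval (c - z₀) D := by
      intro c
      rw [hD', COV.eval_aeval]
      congr 2
      funext i
      simp
    have h1 : MvPolynomial.aeval z D' ∈ I := by
      refine (hIm _).2 fun y hy => ?_
      rw [COV.eval_aeval, hprz y, hD'e, add_sub_cancel_right]
      exact h y hy
    have h2 := hinj D' h1
    refine hD (MvPolynomial.funext fun x => ?_)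
    have h3 := hD'e (x + z₀)
    rw [h2, map_zero, add_sub_cancel_right] at h3
    rw [← h3, map_zero]
  · -- sections
    intro w hw
    have hopen : IsOpen {x : Fin k → ℂ | MvPolynomial.eval x δ ≠ 0} :=
      isOpen_ne_fun (COV.cd_eval δ).continuous continuous_const
    obtain ⟨r, hr, hrs⟩ := Metric.isOpen_iff.1 hopen w hw
    have hdU : ∀ x ∈ ball w r, MvPolynomial.eval (x + z₀) d ≠ 0 := by
      intro x hx
      rw [← hδe]
      exact hrs hx
    obtain ⟨F, hF⟩ : ∃ F : (Fin k → ℂ) → ℂ → ℂ,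
      F = fun s T => (G.map (MvPolynomial.eval (s + z₀))).eval T := ⟨_, rfl⟩
    have hFc : ContDiffOn ℂ 1 (fun p : (Fin k → ℂ) × ℂ => F p.1 p.2) (ball w r ×ˢ univ) := by
      rw [hF]
      have h1 : ContDiff ℂ 1 (fun p : (Fin k → ℂ) × ℂ => ((p.1 + z₀, p.2) : (Fin k → ℂ) × ℂ)) :=
        (contDiff_fst.add contDiff_const).prodMk contDiff_snd
      exact ((COV.cd_ev G).comp h1).contDiffOn
    have hprop : ∀ K : Set (Fin k → ℂ), K ⊆ ball w r → IsCompact K → ∀ M : ℝ, ∃ B : ℝ,
        ∀ s ∈ K, ∀ x, ‖F s x‖ ≤ M → ‖x‖ ≤ B := by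
      intro K _ hK M
      obtain ⟨B, hB⟩ := COV.monic_bd G hGm hGd ((fun s => s + z₀) '' K)
        (hK.image (by fun_prop)) M
      refine ⟨B, fun s hs x hx => hB (s + z₀) ⟨s, hs, rfl⟩ x ?_⟩
      rw [hF] at hx
      exact hx
    have hsep : ∀ s ∈ ball w r, ∀ x, F s x = 0 →
        (Polynomial.derivative (G.map (MvPolynomial.eval (s + z₀)))).eval x ≠ 0 := by
      intro s hs x hx h0
      have h1 := congrArg (fun P : Polynomial (MvPolynomial (Fin k) ℂ) =>
        (P.map (MvPolynomial.eval (s + z₀))).eval x) hAB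
      simp only [Polynomial.map_add, Polynomial.map_mul, Polynomial.eval_add, Polynomial.eval_mul,
        Polynomial.map_C, Polynomial.eval_C, ← Polynomial.derivative_map] at h1
      rw [hF] at hx
      have hx' : (G.map (MvPolynomial.eval (s + z₀))).eval x = 0 := hx
      rw [hx', h0, mul_zero, mul_zero, add_zero] at h1
      exact hdU s hs h1.symm
    have hsimple : ∀ s ∈ ball w r, ∀ x, F s x = 0 → deriv (F s) x ≠ 0 := by
      intro s hs x hx
      have h1 : deriv (F s) x = (Polynomial.derivative (G.map (MvPolynomial.eval (s + z₀)))).eval x := by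
        rw [hF]
        exact Polynomial.deriv _
      rw [h1]
      exact hsep s hs x hx
    -- the roots at `w`
    have hwb : w ∈ ball w r := mem_ball_self hr
    obtain ⟨Gw, hGw⟩ : ∃ Gw : Polynomial ℂ, Gw = G.map (MvPolynomial.eval (w + z₀)) := ⟨_, rfl⟩
    have hGw0 : Gw ≠ 0 := by
      rw [hGw]
      exact (hGm.map _).ne_zero
    have hGwd : Gw.natDegree = G.natDegree := by
      rw [hGw]
      exact hGm.natDegree_map _
    have hGws : Gw.Separable := by
      have h1 := congrArg (fun P : Polynomial (MvPolynomial (Fin k) ℂ) =>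
        P.map (MvPolynomial.eval (w + z₀))) hAB
      simp only [Polynomial.map_add, Polynomial.map_mul, Polynomial.map_C,
        ← Polynomial.derivative_map] at h1
      rw [← hGw] at h1
      have hdw := hdU w hwb
      refine ⟨Polynomial.C (MvPolynomial.eval (w + z₀) d)⁻¹ * A.map (MvPolynomial.eval (w + z₀)),
        Polynomial.C (MvPolynomial.eval (w + z₀) d)⁻¹ * B.map (MvPolynomial.eval (w + z₀)), ?_⟩
      rw [mul_assoc, mul_assoc, ← mul_add, h1, ← Polynomial.C_mul, inv_mul_cancel₀ hdw,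
        Polynomial.C_1]
    have hcard : Gw.roots.toFinset.card = G.natDegree := by
      rw [Multiset.toFinset_card_of_nodup (Polynomial.nodup_roots hGws), ← hGwd]
      exact (Polynomial.splits_iff_card_roots.1 (IsAlgClosed.splits Gw))
    obtain ⟨eq⟩ : Nonempty (Gw.roots.toFinset ≃ Fin G.natDegree) :=
      ⟨Finset.equivFinOfCardEq hcard⟩
    have hFw : ∀ x, F w x = Gw.eval x := by
      intro x
      rw [hF, hGw]
    have hr0 : ∀ i : Fin G.natDegree, F w ((eq.symm i : ℂ)) = 0 := by
      intro i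
      have h1 := (eq.symm i).2
      rw [Multiset.mem_toFinset, Polynomial.mem_roots hGw0, Polynomial.IsRoot.def] at h1
      rw [hFw]
      exact h1
    have hroot := fun i : Fin G.natDegree => Pool.Agent.H713R3.ZA.ROOT.main (ball w r) F isOpen_ball
      (convex_ball w r) hFc hprop hsimple w hwb _ (hr0 i)
    choose Z hZd hZw hZ0 hZu using hroot
    have hZinj : ∀ s ∈ ball w r, Function.Injective fun i => Z i s := by
      intro s hs i j hij
      have h1 := hZu i (Z j) (hZd j).continuousOn ⟨s, hs, hij.symm⟩ (hZ0 j) w hwb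
      rw [hZw, hZw] at h1
      exact eq.symm.injective (Subtype.ext h1.symm)
    have hZall : ∀ s ∈ ball w r, ∀ x, F s x = 0 → ∃ i, Z i s = x := by
      intro s hs x hx
      obtain ⟨Gs, hGs⟩ : ∃ Gs : Polynomial ℂ, Gs = G.map (MvPolynomial.eval (s + z₀)) := ⟨_, rfl⟩
      have hGs0 : Gs ≠ 0 := by
        rw [hGs]
        exact (hGm.map _).ne_zero
      have hGsd : Gs.natDegree = G.natDegree := by
        rw [hGs]
        exact hGm.natDegree_map _
      have hmem : ∀ x, F s x = 0 → x ∈ Gs.roots.toFinset := by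
        intro x hx
        rw [Multiset.mem_toFinset, Polynomial.mem_roots hGs0, Polynomial.IsRoot.def, hGs]
        rw [hF] at hx
        exact hx
      have h1 : Finset.univ.image (fun i => Z i s) = Gs.roots.toFinset := by
        refine Finset.eq_of_subset_of_card_le ?_ ?_
        · intro x hx
          obtain ⟨i, _, rfl⟩ := Finset.mem_image.1 hx
          exact hmem _ (hZ0 i s hs)
        · rw [Finset.card_image_of_injective _ (hZinj s hs), Finset.card_univ, Fintype.card_fin,
            ← hGsd]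
          exact (Multiset.toFinset_card_le _).trans (Polynomial.card_roots' _)
      have h2 := hmem x hx
      rw [← h1] at h2
      obtain ⟨i, _, hi⟩ := Finset.mem_image.1 h2
      exact ⟨i, hi⟩
    refine ⟨r, hr, fun i s => COV.ptt Q d (s + z₀) (Z i s), ?_, ?_⟩
    · intro i
      refine differentiableOn_pi.2 fun j => ?_
      have h1 : DifferentiableOn ℂ (fun s => (((Q j).map (MvPolynomial.eval (s + z₀))).eval (Z i s)))
          (ball w r) := by
        have h2 : DifferentiableOn ℂ (fun s => ((s + z₀, Z i s) : (Fin k → ℂ) × ℂ)) (ball w r) :=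
          ((differentiableOn_id).add_const _).prodMk (hZd i)
        exact ((COV.cd_ev (Q j)).differentiable (by norm_num)).comp_differentiableOn h2
      have h3 : DifferentiableOn ℂ (fun s => MvPolynomial.eval (s + z₀) d) (ball w r) := by
        have h2 : DifferentiableOn ℂ (fun s => s + z₀) (ball w r) :=
          (differentiableOn_id).add_const _
        exact ((COV.cd_eval d).differentiable (by norm_num)).comp_differentiableOn h2
      have h4 := h1.mul (h3.inv fun s hs => hdU s hs)
      refine h4.congr fun s hs => ?_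
      exact div_eq_mul_inv (((Q j).map (MvPolynomial.eval (s + z₀))).eval (Z i s))
        (MvPolynomial.eval (s + z₀) d)
    · intro s hs
      have hds := hdU s hs
      have hTs : ∀ i, (G.map (MvPolynomial.eval (s + z₀))).eval (Z i s) = 0 := by
        intro i
        have := hZ0 i s hs
        rw [hF] at this
        exact this
      refine ⟨hrs hs, ?_, ?_⟩
      · intro i j hij
        have h1 := COV.pt_θ I z θ d Q hQ G hGdiv (s + z₀) (Z i s) hds (hTs i)
        have h2 := COV.pt_θ I z θ d Q hQ G hGdiv (s + z₀) (Z j s) hds (hTs j)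
        have hij' : COV.ptt Q d (s + z₀) (Z i s) = COV.ptt Q d (s + z₀) (Z j s) := hij
        refine hZinj s hs ?_
        show Z i s = Z j s
        rw [← h1, ← h2, hij']
      · ext y
        constructor
        · rintro ⟨hy, hys⟩
          obtain ⟨h1, h2⟩ := hfib y hy (by rw [hys]; exact hds)
          rw [hys] at h1 h2
          obtain ⟨i, hi⟩ := hZall s hs (MvPolynomial.eval y θ) (by rw [hF]; exact h1)
          refine ⟨i, ?_⟩
          show COV.ptt Q d (s + z₀) (Z i s) = y
          rw [hi]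
          exact h2.symm
        · rintro ⟨i, rfl⟩
          refine ⟨hY _ fun P hP => COV.pt_mem I z θ d Q hQ G hGdiv P hP _ _ hds (hTs i), ?_⟩
          rw [hpr]
          funext l
          show MvPolynomial.eval (COV.ptt Q d (s + z₀) (Z i s)) (z l) - z₀ l = s l
          rw [COV.pt_z I z θ d Q hQ G hGdiv l _ _ hds (hTs i), Pi.add_apply, add_sub_cancel_right]

end Pool.Agent.Q22.GO
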