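import Pool.Agent.Q22.GO.Stm

set_option autoImplicit false

/-!
Project GO of helper22, job CVX (helper214): a finite cover of the complement of a finite plane set by convex open
sets. For every point of the finite set choose one of the four open half planes (left, right, below, above);
the intersections of these half planes, over all choices, are the sets of the cover.
-/

namespace Pool.Agent.Q22.GO

open H113G Metric Set Topology

namespace CVX

/-- the four open half planes at `r` -/
def hp (r : ℂ) (t : Fin 4) : Set ℂ :=
  if t = 0 then {z : ℂ | z.re < r.re} else if t = 1 then {z : ℂ | r.re < z.re} else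
    if t = 2 then {z : ℂ | z.im < r.im} else {z : ℂ | r.im < z.im}

lemma hp_open (r : ℂ) (t : Fin 4) : IsOpen (hp r t) := by
  unfold hp
  split_ifs
  · exact isOpen_lt Complex.continuous_re continuous_const
  · exact isOpen_lt continuous_const Complex.continuous_re
  · exact isOpen_lt Complex.continuous_im continuous_const
  · exact isOpen_lt continuous_const Complex.continuous_im

lemma hp_convex (r : ℂ) (t : Fin 4) : Convex ℝ (hp r t) := by
  unfold hp
  split_ifs
  · exact convex_halfSpace_re_lt _
  · exact convex_halfSpace_re_gt _
  · exact convex_halfSpace_im_lt _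
  · exact convex_halfSpace_im_gt _

lemma hp_ne (r : ℂ) (t : Fin 4) (z : ℂ) (h : z ∈ hp r t) : z ≠ r := by
  rintro rfl
  unfold hp at h
  split_ifs at h
  · exact lt_irrefl _ (show z.re < z.re from h)
  · exact lt_irrefl _ (show z.re < z.re from h)
  · exact lt_irrefl _ (show z.im < z.im from h)
  · exact lt_irrefl _ (show z.im < z.im from h)

lemma hp_ex (r z : ℂ) (h : z ≠ r) : ∃ t : Fin 4, z ∈ hp r t := by
  by_contra hcon
  push Not at hcon
  apply h
  have h0 := hcon 0
  have h1 := hcon 1
  have h2 := hcon 2
  have h3 := hcon 3
  unfold hp at h0 h1 h2 h3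
  simp only [Fin.isValue, one_ne_zero, if_true, if_false, Fin.reduceEq] at h0 h1 h2 h3
  have g0 : ¬ z.re < r.re := h0
  have g1 : ¬ r.re < z.re := h1
  have g2 : ¬ z.im < r.im := h2
  have g3 : ¬ r.im < z.im := h3
  exact Complex.ext (le_antisymm (not_lt.1 g1) (not_lt.1 g0)) (le_antisymm (not_lt.1 g3) (not_lt.1 g2))

end CVX

open CVX in
theorem t_CVX : S_CVX := by
  classical
  intro F
  let e := Fintype.equivFin (F → Fin 4)
  refine ⟨Fintype.card (F → Fin 4), fun i => ⋂ r : F, hp (r : ℂ) (e.symm i r), fun i => ?_, fun i => ?_, ?_⟩
  · exact isOpen_iInter_of_finite fun r => hp_open _ _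
  · exact convex_iInter fun r => hp_convex _ _
  · ext z
    rw [mem_iUnion, mem_compl_iff]
    constructor
    · rintro ⟨i, hi⟩ hz
      rw [mem_iInter] at hi
      exact hp_ne _ _ z (hi ⟨z, hz⟩) rfl
    · intro hz
      have h1 : ∀ r : F, ∃ t : Fin 4, z ∈ hp (r : ℂ) t := by
        intro r
        apply hp_ex
        intro h2
        apply hz
        rw [h2]
        exact r.2
      choose t ht using h1
      refine ⟨e t, ?_⟩
      rw [mem_iInter]
      intro r
      rw [Equiv.symm_apply_apply]
      exact ht r

end Pool.Agent.Q22.GO
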