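import Pool.Agent.Q22.GO.Stm

/-!
Project GO (helper22), job EL: the lifts of a line near infinity.
-/

set_option autoImplicit false

namespace Pool.Agent.Q22.GO

open H113G Metric Set Topology

namespace EL

/-- the function `t ↦ δ (t v)` has no zeros for large `|t|` -/
theorem large {k : ℕ} (δ : MvPolynomial (Fin k) ℂ)
    (hb : MvPolynomial.eval (0 : Fin k → ℂ) δ ≠ 0) (v : Fin k → ℂ) :
    ∃ c : ℝ, ∀ t : ℂ, Real.exp c < ‖t‖ → MvPolynomial.eval (t • v) δ ≠ 0 := by
  classical
  set p : Polynomial ℂ :=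
    MvPolynomial.eval₂ Polynomial.C (fun i => Polynomial.C (v i) * Polynomial.X) δ with hp
  have hev : ∀ t : ℂ, p.eval t = MvPolynomial.eval (t • v) δ := by
    intro t
    have h1 := MvPolynomial.hom_eval₂ δ (Polynomial.C : ℂ →+* Polynomial ℂ)
      (Polynomial.evalRingHom t) (fun i => Polynomial.C (v i) * Polynomial.X)
    have h2 : (Polynomial.evalRingHom t).comp (Polynomial.C : ℂ →+* Polynomial ℂ)
        = RingHom.id ℂ := by
      ext x
      simp
    rw [h2] at h1
    have h3 : (fun i => (Polynomial.evalRingHom t) (Polynomial.C (v i) * Polynomial.X)) = t • v := by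
      funext i
      rw [Polynomial.coe_evalRingHom, Polynomial.eval_mul, Polynomial.eval_C, Polynomial.eval_X,
        Pi.smul_apply, smul_eq_mul, mul_comm]
    rw [h3] at h1
    exact h1
  have hp0 : p ≠ 0 := by
    intro h0
    apply hb
    have := hev 0
    rw [h0, Polynomial.eval_zero, zero_smul] at this
    exact this.symm
  set R : ℝ := (∑ r ∈ p.roots.toFinset, ‖r‖) + 1 with hR
  have hR0 : 0 < R := by
    have : 0 ≤ ∑ r ∈ p.roots.toFinset, ‖r‖ := Finset.sum_nonneg fun _ _ => norm_nonneg _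
    linarith
  refine ⟨Real.log R, fun t ht h0 => ?_⟩
  rw [Real.exp_log hR0] at ht
  have hmem : t ∈ p.roots.toFinset := by
    rw [Multiset.mem_toFinset, Polynomial.mem_roots hp0, Polynomial.IsRoot.def, hev t, h0]
  have := Finset.single_le_sum (f := fun r : ℂ => ‖r‖) (fun _ _ => norm_nonneg _) hmem
  have h4 : ‖t‖ ≤ ∑ r ∈ p.roots.toFinset, ‖r‖ := this
  linarith

/-- a continuous choice of points in the finite injective fibres is one of the sheets -/
theorem sheet_eq {e : ℕ} {E : Type*} [TopologicalSpace E] [T2Space E] {H : Set ℂ}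
    (hH : IsPreconnected H) (hne : H.Nonempty) (Λ : Fin e → ℂ → E)
    (hc : ∀ i, ContinuousOn (Λ i) H) (hinj : ∀ s ∈ H, Function.Injective (fun i => Λ i s))
    (τ : ℂ → E) (hτ : ContinuousOn τ H) (hm : ∀ s ∈ H, ∃ j, Λ j s = τ s) :
    ∃ j, ∀ s ∈ H, τ s = Λ j s := by
  classical
  have : Nonempty (Fin e) := by
    obtain ⟨s₀, hs₀⟩ := hne
    exact ⟨(hm s₀ hs₀).choose⟩
  choose! j hj using hm
  have hcj : ContinuousOn j H := by
    intro s hs
    have h1 : ∀ l : Fin e, ∀ᶠ s' in 𝓝[H] s, l ≠ j s → τ s' ≠ Λ l s' := by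
      intro l
      by_cases hl : l = j s
      · exact Filter.Eventually.of_forall fun s' h => absurd hl h
      · have hne' : τ s ≠ Λ l s := by
          rw [← hj s hs]
          intro h
          exact hl (hinj s hs h).symm
        have h0 : Filter.Tendsto (fun s' => (τ s', Λ l s')) (𝓝[H] s) (𝓝 (τ s, Λ l s)) :=
          Filter.Tendsto.prodMk_nhds (hτ s hs) (hc l s hs)
        have h1 : ∀ᶠ q in 𝓝 (τ s, Λ l s), q ∈ (diagonal E)ᶜ :=
          isClosed_diagonal.isOpen_compl.eventually_mem hne'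
        exact (h0.eventually h1).mono fun s' h _ => h
    have h2 : ∀ᶠ s' in 𝓝[H] s, ∀ l : Fin e, l ≠ j s → τ s' ≠ Λ l s' := Filter.eventually_all.2 h1
    have h3 : ∀ᶠ s' in 𝓝[H] s, j s' = j s := by
      filter_upwards [h2, self_mem_nhdsWithin] with s' h hs'
      by_contra hcon
      exact h (j s') hcon (hj s' hs').symm
    exact (tendsto_nhds_of_eventually_eq h3)
  obtain ⟨s₀, hs₀⟩ := hne
  refine ⟨j s₀, fun s hs => ?_⟩
  have := hH.constant hcj hs hs₀
  rw [← this, hj s hs]

end EL

theorem t_EL (sheet : S_SHEET) : S_EL := by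
  classical
  intro m k Y pr δ e hcov v
  obtain ⟨c, hc⟩ := EL.large δ hcov.base v
  set H : Set ℂ := {s : ℂ | c < s.re} with hHdef
  have hHo : IsOpen H := isOpen_lt continuous_const Complex.continuous_re
  have hHc : Convex ℝ H := by
    have : H = Complex.reCLM ⁻¹' Ioi c := rfl
    rw [this]
    exact (convex_Ioi c).linear_preimage Complex.reCLM.toLinearMap
  have hne : ∀ s : ℂ, c < s.re → MvPolynomial.eval (Complex.exp s • v) δ ≠ 0 := by
    intro s hs
    apply hc
    rw [Complex.norm_exp]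
    exact Real.exp_lt_exp.2 hs
  have hγ : DifferentiableOn ℂ (fun s : ℂ => Complex.exp s • v) H :=
    (Complex.differentiable_exp.smul_const v).differentiableOn
  obtain ⟨Λ, hd, hΛ⟩ := sheet m k Y pr δ e hcov H (fun s => Complex.exp s • v) hHo hHc hγ
    (fun s hs => hne s hs)
  have hHn : H.Nonempty := ⟨((c + 1 : ℝ) : ℂ), by
    simp only [hHdef, mem_ofPred_eq, Complex.ofReal_re]
    linarith⟩
  have hshift : ∀ s ∈ H, s + 2 * Real.pi * Complex.I ∈ H := by
    intro s hs
    simp only [hHdef, mem_ofPred_eq] at hs ⊢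
    simpa using hs
  have hperm : ∀ i, ∃ j, ∀ s ∈ H, Λ i (s + 2 * Real.pi * Complex.I) = Λ j s := by
    intro i
    apply EL.sheet_eq hHc.isPreconnected hHn Λ (fun j => (hd j).continuousOn)
      (fun s hs => (hΛ s hs).1)
    · exact (hd i).continuousOn.comp (by fun_prop) hshift
    · intro s hs
      have h1 := (hΛ _ (hshift s hs)).2
      have h2 : Λ i (s + 2 * Real.pi * Complex.I)
          ∈ {y | y ∈ Y ∧ pr y = Complex.exp (s + 2 * Real.pi * Complex.I) • v} := by
        rw [h1]
        exact ⟨i, rfl⟩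
      have h3 : Λ i (s + 2 * Real.pi * Complex.I) ∈ {y | y ∈ Y ∧ pr y = Complex.exp s • v} := by
        have he : Complex.exp (s + 2 * Real.pi * Complex.I) = Complex.exp s := by
          rw [Complex.exp_add, Complex.exp_two_pi_mul_I, mul_one]
        rw [he] at h2
        exact h2
      rw [(hΛ s hs).2] at h3
      exact h3
  choose π hπ using hperm
  have hπi : Function.Injective π := by
    intro i j hij
    obtain ⟨s, hs⟩ := hHn
    apply (hΛ _ (hshift s hs)).1
    show Λ i (s + 2 * Real.pi * Complex.I) = Λ j (s + 2 * Real.pi * Complex.I)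
    rw [hπ i s hs, hπ j s hs, hij]
  set P : Equiv.Perm (Fin e) := Equiv.ofBijective π (Finite.injective_iff_bijective.1 hπi) with hP
  have hPa : ∀ i, P i = π i := fun i => rfl
  have hpow : ∀ n : ℕ, ∀ i, ∀ s ∈ H, Λ i (s + 2 * Real.pi * n * Complex.I) = Λ ((P ^ n) i) s := by
    intro n
    induction n with
    | zero => intro i s _; simp
    | succ n ih =>
      intro i s hs
      have e1 : s + 2 * Real.pi * ((n + 1 : ℕ) : ℂ) * Complex.I
          = (s + 2 * Real.pi * (n : ℂ) * Complex.I) + 2 * Real.pi * Complex.I := by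
        push_cast
        ring
      have hs' : s + 2 * Real.pi * (n : ℂ) * Complex.I ∈ H := by
        simp only [hHdef, mem_ofPred_eq] at hs ⊢
        simpa using hs
      rw [e1, hπ i _ hs', ih (π i) s hs, pow_succ, Equiv.Perm.mul_apply, hPa]
  refine ⟨c, Fintype.card (Equiv.Perm (Fin e)), Λ, Fintype.card_pos, hd, hne,
    fun s hs => (hΛ s hs).2, fun i s hs => ?_⟩
  rw [hpow _ i s hs, pow_card_eq_one]
  rfl

end Pool.Agent.Q22.GO
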