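import Pool.Agent.Q22.GO.Stm

set_option autoImplicit false

namespace Pool.Agent.Q22.GO

open H113G Metric Set Topology

namespace END

lemma core {κ : ℂ} (hκ : κ ≠ 0) {r : ℝ} (hr : 0 < r) {x y ξ η : ℂ → ℂ}
    (hx : DifferentiableOn ℂ x (ball 0 r)) (hy : DifferentiableOn ℂ y (ball 0 r))
    (hξ : DifferentiableOn ℂ ξ (ball 0 r)) (hη : DifferentiableOn ℂ η (ball 0 r))
    (h0 : ∀ q ∈ ball (0 : ℂ) r, q ≠ 0 → x q ≠ 0 ∧ y q ≠ 0 ∧ y q - x q ≠ 0)
    (hc : ∀ q ∈ ball (0 : ℂ) r, q ≠ 0 →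
      y q * (-(q / κ) * deriv x q) - x q * (-(q / κ) * deriv y q) = x q * y q * (y q - x q))
    (hd : ∀ q ∈ ball (0 : ℂ) r, q ≠ 0 →
      η q * (-(q / κ) * deriv x q) + y q * (-(q / κ) * deriv ξ q) - ξ q * (-(q / κ) * deriv y q)
        - x q * (-(q / κ) * deriv η q) -
        (ξ q * y q * (y q - x q) + x q * η q * (y q - x q) + x q * y q * (η q - ξ q)) = 0) :
    ξ 0 = 0 := by
  have hR : 0 < r / 2 := by linarith
  have hsub : ∀ z ∈ sphere (0 : ℂ) (r / 2), z ∈ ball (0 : ℂ) r ∧ z ≠ 0 := by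
    intro z hz
    rw [mem_sphere_zero_iff_norm] at hz
    refine ⟨?_, ?_⟩
    · rw [mem_ball_zero_iff, hz]
      linarith
    · intro h
      rw [h, norm_zero] at hz
      linarith
  have h1 : (∮ z in C(0, r / 2), -κ * ((z - 0)⁻¹ • ξ z)) = 0 := by
    apply circleIntegral.integral_eq_zero_of_hasDerivWithinAt hR.le
      (f := fun z => (y z * ξ z - x z * η z) / (y z * (y z - x z)))
    intro z hz
    obtain ⟨hz1, hz0⟩ := hsub z hz
    obtain ⟨x0, y0, yx0⟩ := h0 z hz1 hz0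
    have hxz : HasDerivAt x (deriv x z) z :=
      ((hx z hz1).differentiableAt (isOpen_ball.mem_nhds hz1)).hasDerivAt
    have hyz : HasDerivAt y (deriv y z) z :=
      ((hy z hz1).differentiableAt (isOpen_ball.mem_nhds hz1)).hasDerivAt
    have hξz : HasDerivAt ξ (deriv ξ z) z :=
      ((hξ z hz1).differentiableAt (isOpen_ball.mem_nhds hz1)).hasDerivAt
    have hηz : HasDerivAt η (deriv η z) z :=
      ((hη z hz1).differentiableAt (isOpen_ball.mem_nhds hz1)).hasDerivAt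
    have hcz := hc z hz1 hz0
    have hdz := hd z hz1 hz0
    have hF := ((hyz.mul hξz).sub (hxz.mul hηz)).div (hyz.mul (hyz.sub hxz))
      (mul_ne_zero y0 yx0)
    refine HasDerivAt.hasDerivWithinAt ?_
    refine HasDerivAt.congr_deriv (f := fun z => (y z * ξ z - x z * η z) / (y z * (y z - x z)))
      hF ?_
    simp only [Pi.mul_apply, Pi.sub_apply]
    symm
    rw [eq_div_iff (pow_ne_zero 2 (mul_ne_zero y0 yx0))]
    rw [sub_zero, smul_eq_mul]
    set tx := -(z / κ) * deriv x z with htx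
    set ty := -(z / κ) * deriv y z with hty
    set tξ := -(z / κ) * deriv ξ z with htξ
    set tη := -(z / κ) * deriv η z with htη
    have e1 : deriv x z = -(κ / z) * tx := by rw [htx]; field_simp
    have e2 : deriv y z = -(κ / z) * ty := by rw [hty]; field_simp
    have e3 : deriv ξ z = -(κ / z) * tξ := by rw [htξ]; field_simp
    have e4 : deriv η z = -(κ / z) * tη := by rw [htη]; field_simp
    rw [e1, e2, e3, e4]
    have e5 : -κ * (z⁻¹ * ξ z) = -(κ / z) * ξ z := by ring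
    rw [e5]
    linear_combination (κ / z) * (y z * (y z - x z)) * hdz +
      (κ / z) * (ξ z * y z - 2 * y z * η z + x z * η z) * hcz
  have h2 : (∮ z in C(0, r / 2), (z - 0)⁻¹ • ξ z) = (2 * Real.pi * Complex.I : ℂ) • ξ 0 := by
    apply DifferentiableOn.circleIntegral_sub_inv_smul
    · apply hξ.mono
      intro z hz
      rw [mem_closedBall_zero_iff] at hz
      rw [mem_ball_zero_iff]
      linarith
    · exact mem_ball_self hR
  rw [circleIntegral.integral_const_mul, h2] at h1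
  have hpi : (2 * Real.pi * Complex.I : ℂ) ≠ 0 := by
    simp [Real.pi_ne_zero]
  rcases mul_eq_zero.1 h1 with h | h
  · exact absurd (neg_eq_zero.1 h) hκ
  · rw [smul_eq_mul] at h
    rcases mul_eq_zero.1 h with h | h
    · exact absurd h hpi
    · exact h


/-- log derivative of a product of powers -/
lemma logDeriv_prodpow {n : ℕ} (f : Fin n → ℂ → ℂ) (a : Fin n → ℤ) {C : ℂ} (hC : C ≠ 0) {s : ℂ}
    (hf : ∀ j, DifferentiableAt ℂ (f j) s) (h0 : ∀ j, f j s ≠ 0) :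
    logDeriv (fun s => C * ∏ j, f j s ^ a j) s = ∑ j, (a j : ℂ) * lg f s j := by
  rw [logDeriv_const_mul _ _ hC, logDeriv_prod]
  · refine Finset.sum_congr rfl fun j _ => ?_
    rw [logDeriv_fun_zpow (hf j), logDeriv_apply]
    rfl
  · intro i _
    exact zpow_ne_zero _ (h0 i)
  · intro i _
    exact (hf i).zpow (Or.inl (h0 i))

/-- coordinate at the end -/
noncomputable def qq (κ : ℕ) (s : ℂ) : ℂ := Complex.exp (-(s / κ))

lemma qq_hasDerivAt (κ : ℕ) (s : ℂ) : HasDerivAt (qq κ) (-(qq κ s / κ)) s := by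
  unfold qq
  have h : HasDerivAt (fun s : ℂ => -(s / κ)) (-(1 / κ)) s := ((hasDerivAt_id s).div_const _).neg
  refine HasDerivAt.congr_deriv h.cexp ?_
  ring

/-- the logarithmic derivatives in the coordinate at the end -/
noncomputable def omq (κ : ℕ) {n : ℕ} (ψ : Fin n → ℂ → ℂ) (o : Fin n → ℤ) (j : Fin n) (q : ℂ) : ℂ :=
  -(1 / κ) * (o j + q * deriv (ψ j) q / ψ j q)

lemma omq_diff (κ : ℕ) {n : ℕ} {ψ : Fin n → ℂ → ℂ} (o : Fin n → ℤ) {r : ℝ}
    (hψ : ∀ j, DifferentiableOn ℂ (ψ j) (ball 0 r)) (hψ0 : ∀ j, ∀ q ∈ ball (0 : ℂ) r, ψ j q ≠ 0)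
    (j : Fin n) : DifferentiableOn ℂ (omq κ ψ o j) (ball 0 r) := by
  unfold omq
  have h1 : DifferentiableOn ℂ (deriv (ψ j)) (ball 0 r) := (hψ j).deriv isOpen_ball
  exact (differentiableOn_const _).mul ((differentiableOn_const _).add
    ((differentiableOn_id.mul h1).div (hψ j) (hψ0 j)))

theorem main (c r : ℝ) (κ n : ℕ) (f ψ : Fin n → ℂ → ℂ) (γ : ℂ → ℂ) (o : Fin n → ℤ)
    (hκ : 0 < κ) (hr : 0 < r)
    (hf : ∀ j, DifferentiableOn ℂ (f j) {s : ℂ | c < s.re})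
    (hf0 : ∀ j, ∀ s : ℂ, c < s.re → f j s ≠ 0)
    (hψ : ∀ j, DifferentiableOn ℂ (ψ j) (ball 0 r)) (hψ0 : ∀ j, ∀ q ∈ ball (0 : ℂ) r, ψ j q ≠ 0)
    (hfψ : ∀ j, ∀ s : ℂ, c < s.re → ‖Complex.exp (-(s / κ))‖ < r →
      f j s = Complex.exp (-(s / κ)) ^ o j * ψ j (Complex.exp (-(s / κ))))
    (hγ : DifferentiableOn ℂ γ {s : ℂ | c < s.re}) (hγ01 : ∀ s : ℂ, c < s.re → γ s ≠ 0 ∧ γ s ≠ 1)
    (hγc : ∀ a : ℂ, ∃ s : ℂ, c < s.re ∧ γ s ≠ a)
    (mm nn : Fin n → ℤ) (c1 c2 : ℂ) (hm : ∀ s : ℂ, c < s.re → γ s = c1 * ∏ j, f j s ^ mm j)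
    (hn : ∀ s : ℂ, c < s.re → 1 - γ s = c2 * ∏ j, f j s ^ nn j) :
    (∀ s : ℂ, c < s.re → EE (fun j => (mm j : ℂ)) (fun j => (nn j : ℂ)) (lg f s) (lg' f s) = 0) ∧
    ∀ μ ν : Fin n → ℂ, (∀ s : ℂ, c < s.re →
      dE (fun j => (mm j : ℂ)) (fun j => (nn j : ℂ)) μ ν (lg f s) (lg' f s) = 0) →
      ∑ j, μ j * (o j : ℂ) = 0 ∧ ∑ j, ν j * (o j : ℂ) = 0 := by
  set H : Set ℂ := {s : ℂ | c < s.re} with hH
  have hHo : IsOpen H := isOpen_lt continuous_const Complex.continuous_re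
  have hHconv : Convex ℝ H := convex_halfSpace_re_gt c
  have hHc : IsPreconnected H := hHconv.isPreconnected
  have hκ0 : (κ : ℂ) ≠ 0 := by exact_mod_cast hκ.ne'
  obtain ⟨s0, hs0, -⟩ := hγc 0
  have hc1 : c1 ≠ 0 := by
    intro h
    have := (hγ01 s0 hs0).1
    rw [hm s0 hs0, h, zero_mul] at this
    exact this rfl
  have hc2 : c2 ≠ 0 := by
    intro h
    have := (hγ01 s0 hs0).2
    have h2 := hn s0 hs0
    rw [h, zero_mul, sub_eq_zero] at h2
    exact this h2.symm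
  have hfd : ∀ j, ∀ s ∈ H, DifferentiableAt ℂ (f j) s := fun j s hs =>
    (hf j s hs).differentiableAt (hHo.mem_nhds hs)
  have hγd : ∀ s ∈ H, DifferentiableAt ℂ γ s := fun s hs =>
    (hγ s hs).differentiableAt (hHo.mem_nhds hs)
  have hγ'd : ∀ s ∈ H, DifferentiableAt ℂ (deriv γ) s := fun s hs =>
    ((hγ.deriv hHo) s hs).differentiableAt (hHo.mem_nhds hs)
  have hwd : ∀ j, ∀ s ∈ H, DifferentiableAt ℂ (fun x => lg f x j) s := by
    intro j s hs
    have h1 : DifferentiableAt ℂ (deriv (f j)) s :=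
      (((hf j).deriv hHo) s hs).differentiableAt (hHo.mem_nhds hs)
    exact h1.div (hfd j s hs) (hf0 j s hs)
  -- X and Y
  have FX : ∀ s ∈ H, ∑ j, (mm j : ℂ) * lg f s j = deriv γ s / γ s := by
    intro s hs
    rw [← logDeriv_prodpow f mm hc1 (fun j => hfd j s hs) (fun j => hf0 j s hs), ← logDeriv_apply]
    refine Filter.EventuallyEq.eq_of_nhds (logDeriv_congr_nhds ?_)
    filter_upwards [hHo.mem_nhds hs] with x hx using (hm x hx).symm
  have FY : ∀ s ∈ H, ∑ j, (nn j : ℂ) * lg f s j = -deriv γ s / (1 - γ s) := by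
    intro s hs
    rw [← logDeriv_prodpow f nn hc2 (fun j => hfd j s hs) (fun j => hf0 j s hs)]
    have h1 : deriv (fun x => 1 - γ x) s = -deriv γ s := by
      rw [deriv_const_sub]
    rw [← h1, ← logDeriv_apply (fun x => 1 - γ x)]
    refine Filter.EventuallyEq.eq_of_nhds (logDeriv_congr_nhds ?_)
    filter_upwards [hHo.mem_nhds hs] with x hx using (hn x hx).symm
  have Fd : ∀ a : Fin n → ℂ, ∀ s ∈ H, ∑ j, a j * lg' f s j =
      deriv (fun x => ∑ j, a j * lg f x j) s := by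
    intro a s hs
    rw [deriv_fun_sum (fun j _ => (hwd j s hs).const_mul (a j))]
    refine Finset.sum_congr rfl fun j _ => ?_
    rw [deriv_const_mul _ (hwd j s hs)]
    rfl
  have FX' : ∀ s ∈ H, ∑ j, (mm j : ℂ) * lg' f s j =
      (deriv (deriv γ) s * γ s - deriv γ s * deriv γ s) / γ s ^ 2 := by
    intro s hs
    rw [Fd (fun j => (mm j : ℂ)) s hs]
    have h1 : (fun x => ∑ j, (mm j : ℂ) * lg f x j) =ᶠ[𝓝 s] fun x => deriv γ x / γ x := by
      filter_upwards [hHo.mem_nhds hs] with x hx using FX x hx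
    rw [h1.deriv_eq]
    exact ((hγ'd s hs).hasDerivAt.div (hγd s hs).hasDerivAt (hγ01 s hs).1).deriv
  have hP1 : ∀ s ∈ H, 1 - γ s ≠ 0 := by
    intro s hs h
    exact (hγ01 s hs).2 (sub_eq_zero.1 h).symm
  have FY' : ∀ s ∈ H, ∑ j, (nn j : ℂ) * lg' f s j =
      (-deriv (deriv γ) s * (1 - γ s) - -deriv γ s * -deriv γ s) / (1 - γ s) ^ 2 := by
    intro s hs
    rw [Fd (fun j => (nn j : ℂ)) s hs]
    have h1 : (fun x => ∑ j, (nn j : ℂ) * lg f x j) =ᶠ[𝓝 s] fun x => -deriv γ x / (1 - γ x) := by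
      filter_upwards [hHo.mem_nhds hs] with x hx using FY x hx
    rw [h1.deriv_eq]
    exact ((hγ'd s hs).hasDerivAt.neg.div ((hγd s hs).hasDerivAt.const_sub 1) (hP1 s hs)).deriv
  have part1 : ∀ s ∈ H, EE (fun j => (mm j : ℂ)) (fun j => (nn j : ℂ)) (lg f s) (lg' f s) = 0 := by
    intro s hs
    unfold EE
    rw [FX s hs, FY s hs, FX' s hs, FY' s hs]
    have h1 := (hγ01 s hs).1
    have h2 := hP1 s hs
    field_simp
    ring
  refine ⟨part1, ?_⟩
  intro μ ν hdE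
  -- the coordinate q
  have hq1 : ∀ s ∈ H, ‖qq κ s‖ < r → ∀ j, lg f s j = omq κ ψ o j (qq κ s) := by
    intro s hs hsr j
    have hqd := (qq_hasDerivAt κ s)
    have hq0 : qq κ s ≠ 0 := Complex.exp_ne_zero _
    have hopen : IsOpen {s : ℂ | ‖qq κ s‖ < r} := by
      apply isOpen_lt _ continuous_const
      unfold qq
      fun_prop
    have h1 : f j =ᶠ[𝓝 s] fun x => qq κ x ^ o j * (ψ j ∘ qq κ) x := by
      filter_upwards [hHo.mem_nhds hs, hopen.mem_nhds hsr] with x hx hxr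
      exact hfψ j x hx hxr
    have hψd : DifferentiableAt ℂ (ψ j) (qq κ s) :=
      (hψ j _ (mem_ball_zero_iff.2 hsr)).differentiableAt
        (isOpen_ball.mem_nhds (mem_ball_zero_iff.2 hsr))
    have hψn := hψ0 j _ (mem_ball_zero_iff.2 hsr)
    have h2 : lg f s j = logDeriv (f j) s := rfl
    rw [h2, (logDeriv_congr_nhds h1).eq_of_nhds, logDeriv_mul (f := fun x => qq κ x ^ o j) (g := ψ j ∘ qq κ) s
      (zpow_ne_zero _ hq0) hψn (hqd.differentiableAt.zpow (Or.inl hq0))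
      (hψd.comp s hqd.differentiableAt), logDeriv_fun_zpow hqd.differentiableAt,
      logDeriv_comp hψd hqd.differentiableAt, logDeriv_apply, logDeriv_apply, hqd.deriv]
    unfold omq
    field_simp
    ring
  have hq2 : ∀ s ∈ H, ‖qq κ s‖ < r → ∀ j,
      lg' f s j = -(qq κ s / κ) * deriv (omq κ ψ o j) (qq κ s) := by
    intro s hs hsr j
    have hqd := (qq_hasDerivAt κ s)
    have hopen : IsOpen {s : ℂ | ‖qq κ s‖ < r} := by
      apply isOpen_lt _ continuous_const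
      unfold qq
      fun_prop
    have h1 : (fun x => lg f x j) =ᶠ[𝓝 s] (omq κ ψ o j) ∘ qq κ := by
      filter_upwards [hHo.mem_nhds hs, hopen.mem_nhds hsr] with x hx hxr
      exact hq1 x hx hxr j
    have hod : DifferentiableAt ℂ (omq κ ψ o j) (qq κ s) :=
      (omq_diff κ o hψ hψ0 j _ (mem_ball_zero_iff.2 hsr)).differentiableAt
        (isOpen_ball.mem_nhds (mem_ball_zero_iff.2 hsr))
    have h2 : lg' f s j = deriv (fun x => lg f x j) s := rfl
    rw [h2, h1.deriv_eq, (hod.hasDerivAt.comp s hqd).deriv]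
    ring
  -- existence of s
  have hex : ∃ r1 : ℝ, 0 < r1 ∧ r1 ≤ r ∧ ∀ q ∈ ball (0 : ℂ) r1, q ≠ 0 → ∃ s ∈ H, qq κ s = q := by
    refine ⟨min r (Real.exp (-(c / κ))), lt_min hr (Real.exp_pos _), min_le_left _ _, ?_⟩
    intro q hq hq0
    refine ⟨-(κ * Complex.log q), ?_, ?_⟩
    · show c < (-((κ : ℂ) * Complex.log q)).re
      rw [mem_ball_zero_iff, lt_min_iff] at hq
      have h1 : Real.log ‖q‖ < -(c / κ) := by
        rw [Real.log_lt_iff_lt_exp (norm_pos_iff.2 hq0)]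
        exact hq.2
      have h2 : (-((κ : ℂ) * Complex.log q)).re = -(κ * Real.log ‖q‖) := by
        rw [Complex.neg_re, ← Complex.ofReal_natCast, Complex.re_ofReal_mul, Complex.log_re]
      rw [h2]
      have hκr : (0 : ℝ) < κ := by exact_mod_cast hκ
      have h3 : κ * Real.log ‖q‖ < κ * (-(c / κ)) := by
        exact (mul_lt_mul_iff_right₀ hκr).2 h1
      have h4 : (κ : ℝ) * (-(c / κ)) = -c := by field_simp
      linarith
    · unfold qq
      rw [show -(-(↑κ * Complex.log q) / (κ : ℂ)) = Complex.log q by field_simp, Complex.exp_log hq0]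
  obtain ⟨r1, hr1, hr1r, hex⟩ := hex
  -- functions of q
  have hsumd : ∀ a : Fin n → ℂ, DifferentiableOn ℂ (fun q => ∑ j, a j * omq κ ψ o j q) (ball 0 r) := by
    intro a
    exact DifferentiableOn.fun_sum fun j _ => (omq_diff κ o hψ hψ0 j).const_mul (a j)
  have hsumd' : ∀ a : Fin n → ℂ, ∀ q ∈ ball (0 : ℂ) r, deriv (fun q => ∑ j, a j * omq κ ψ o j q) q =
      ∑ j, a j * deriv (omq κ ψ o j) q := by
    intro a q hq
    have h1 : ∀ j, DifferentiableAt ℂ (omq κ ψ o j) q := fun j =>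
      (omq_diff κ o hψ hψ0 j q hq).differentiableAt (isOpen_ball.mem_nhds hq)
    rw [deriv_fun_sum (fun j _ => (h1 j).const_mul (a j))]
    refine Finset.sum_congr rfl fun j _ => ?_
    rw [deriv_const_mul _ (h1 j)]
  have hs1 : ∀ a : Fin n → ℂ, ∀ s ∈ H, ‖qq κ s‖ < r →
      ∑ j, a j * lg f s j = ∑ j, a j * omq κ ψ o j (qq κ s) := by
    intro a s hs hsr
    refine Finset.sum_congr rfl fun j _ => ?_
    rw [hq1 s hs hsr j]
  have hs2 : ∀ a : Fin n → ℂ, ∀ s ∈ H, ‖qq κ s‖ < r →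
      ∑ j, a j * lg' f s j = -(qq κ s / κ) * deriv (fun q => ∑ j, a j * omq κ ψ o j q) (qq κ s) := by
    intro a s hs hsr
    rw [hsumd' a _ (mem_ball_zero_iff.2 hsr), Finset.mul_sum]
    refine Finset.sum_congr rfl fun j _ => ?_
    rw [hq2 s hs hsr j]
    ring
  -- X is not identically zero
  have hnz : ∃ r2 : ℝ, 0 < r2 ∧ r2 ≤ r1 ∧ ∀ q ∈ ball (0 : ℂ) r2, q ≠ 0 →
      ∑ j, (mm j : ℂ) * omq κ ψ o j q ≠ 0 := by
    have han : AnalyticAt ℂ (fun q => ∑ j, (mm j : ℂ) * omq κ ψ o j q) 0 :=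
      (hsumd fun j => (mm j : ℂ)).analyticAt (ball_mem_nhds 0 hr)
    rcases han.eventually_eq_zero_or_eventually_ne_zero with h | h
    · exfalso
      obtain ⟨r3, hr3, h3⟩ := Metric.eventually_nhds_iff_ball.1 h
      -- gamma' vanishes on an open set
      set r4 : ℝ := min r3 r1 with hr4
      have hr4p : 0 < r4 := lt_min hr3 hr1
      obtain ⟨s1, hs1H, hs1q⟩ := hex ((r4 / 2 : ℝ) : ℂ) (by
        rw [mem_ball_zero_iff, Complex.norm_real, Real.norm_of_nonneg (by linarith)]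
        have := min_le_right r3 r1
        linarith) (by
          intro h
          have : (r4 / 2 : ℝ) = 0 := by exact_mod_cast h
          linarith)
      have hopen : IsOpen {s : ℂ | ‖qq κ s‖ < r4} := by
        apply isOpen_lt _ continuous_const
        unfold qq
        fun_prop
      have hs1r : ‖qq κ s1‖ < r4 := by
        rw [hs1q, Complex.norm_real, Real.norm_of_nonneg (by linarith)]
        linarith
      have hz : deriv γ =ᶠ[𝓝 s1] 0 := by
        filter_upwards [hHo.mem_nhds hs1H, hopen.mem_nhds hs1r] with x hx hxr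
        have hxr' : ‖qq κ x‖ < r4 := hxr
        have e1 := FX x hx
        rw [hs1 (fun j => (mm j : ℂ)) x hx (lt_of_lt_of_le hxr' ((min_le_right _ _).trans hr1r)),
          h3 _ (mem_ball_zero_iff.2 (lt_of_lt_of_le hxr' (min_le_left _ _)))] at e1
        rw [eq_comm, div_eq_zero_iff] at e1
        rcases e1 with e1 | e1
        · exact e1
        · exact absurd e1 (hγ01 x hx).1
      have hall := ((hγ.deriv hHo).analyticOnNhd hHo).eqOn_zero_of_preconnected_of_eventuallyEq_zero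
        hHc hs1H hz
      obtain ⟨s2, hs2H, hs2⟩ := hγc (γ s1)
      exact hs2 (hHo.is_const_of_deriv_eq_zero hHc hγ hall hs2H hs1H)
    · rw [eventually_nhdsWithin_iff] at h
      obtain ⟨r3, hr3, h3⟩ := Metric.eventually_nhds_iff_ball.1 h
      refine ⟨min r3 r1, lt_min hr3 hr1, min_le_right _ _, ?_⟩
      intro q hq hq0
      exact h3 q (ball_subset_ball (min_le_left _ _) hq) hq0
  obtain ⟨r2, hr2, hr21, hnz⟩ := hnz
  have hsub : ball (0 : ℂ) r2 ⊆ ball 0 r := ball_subset_ball (hr21.trans hr1r)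
  -- nonvanishing of X, Y, Y - X
  have hall : ∀ q ∈ ball (0 : ℂ) r2, q ≠ 0 → ∃ s ∈ H, qq κ s = q ∧ ‖qq κ s‖ < r := by
    intro q hq hq0
    obtain ⟨s, hs, hsq⟩ := hex q (ball_subset_ball hr21 hq) hq0
    refine ⟨s, hs, hsq, ?_⟩
    rw [hsq]
    exact mem_ball_zero_iff.1 (hsub hq)
  have hXY : ∀ q ∈ ball (0 : ℂ) r2, q ≠ 0 → ∑ j, (mm j : ℂ) * omq κ ψ o j q ≠ 0 ∧
      ∑ j, (nn j : ℂ) * omq κ ψ o j q ≠ 0 ∧
      ∑ j, (nn j : ℂ) * omq κ ψ o j q - ∑ j, (mm j : ℂ) * omq κ ψ o j q ≠ 0 := by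
    intro q hq hq0
    obtain ⟨s, hs, hsq, hsr⟩ := hall q hq hq0
    have e0 := hnz q hq hq0
    have e1 := FX s hs
    have e2 := FY s hs
    rw [hs1 _ s hs hsr, hsq] at e1 e2
    rw [e1] at e0
    have g0 := (hγ01 s hs).1
    have g1 := hP1 s hs
    have d0 : deriv γ s ≠ 0 := by
      intro h
      rw [h, zero_div] at e0
      exact e0 rfl
    rw [e1, e2]
    refine ⟨e0, div_ne_zero (neg_ne_zero.2 d0) g1, ?_⟩
    have e3 : -deriv γ s / (1 - γ s) - deriv γ s / γ s = -deriv γ s / ((1 - γ s) * γ s) := by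
      field_simp
      ring
    rw [e3]
    exact div_ne_zero (neg_ne_zero.2 d0) (mul_ne_zero g1 g0)
  have hc1' : ∀ q ∈ ball (0 : ℂ) r2, q ≠ 0 →
      (∑ j, (nn j : ℂ) * omq κ ψ o j q) *
          (-(q / κ) * deriv (fun q => ∑ j, (mm j : ℂ) * omq κ ψ o j q) q) -
        (∑ j, (mm j : ℂ) * omq κ ψ o j q) *
          (-(q / κ) * deriv (fun q => ∑ j, (nn j : ℂ) * omq κ ψ o j q) q) =
      (∑ j, (mm j : ℂ) * omq κ ψ o j q) * (∑ j, (nn j : ℂ) * omq κ ψ o j q) *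
        (∑ j, (nn j : ℂ) * omq κ ψ o j q - ∑ j, (mm j : ℂ) * omq κ ψ o j q) := by
    intro q hq hq0
    obtain ⟨s, hs, hsq, hsr⟩ := hall q hq hq0
    have e := part1 s hs
    unfold EE at e
    rw [hs1 (fun j => (nn j : ℂ)) s hs hsr, hs1 (fun j => (mm j : ℂ)) s hs hsr,
      hs2 (fun j => (nn j : ℂ)) s hs hsr, hs2 (fun j => (mm j : ℂ)) s hs hsr, hsq] at e
    linear_combination e
  have hd1' : ∀ q ∈ ball (0 : ℂ) r2, q ≠ 0 →
      (∑ j, ν j * omq κ ψ o j q) *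
          (-(q / κ) * deriv (fun q => ∑ j, (mm j : ℂ) * omq κ ψ o j q) q) +
        (∑ j, (nn j : ℂ) * omq κ ψ o j q) *
          (-(q / κ) * deriv (fun q => ∑ j, μ j * omq κ ψ o j q) q) -
        (∑ j, μ j * omq κ ψ o j q) *
          (-(q / κ) * deriv (fun q => ∑ j, (nn j : ℂ) * omq κ ψ o j q) q) -
        (∑ j, (mm j : ℂ) * omq κ ψ o j q) *
          (-(q / κ) * deriv (fun q => ∑ j, ν j * omq κ ψ o j q) q) -
        ((∑ j, μ j * omq κ ψ o j q) * (∑ j, (nn j : ℂ) * omq κ ψ o j q) *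
            (∑ j, (nn j : ℂ) * omq κ ψ o j q - ∑ j, (mm j : ℂ) * omq κ ψ o j q) +
          (∑ j, (mm j : ℂ) * omq κ ψ o j q) * (∑ j, ν j * omq κ ψ o j q) *
            (∑ j, (nn j : ℂ) * omq κ ψ o j q - ∑ j, (mm j : ℂ) * omq κ ψ o j q) +
          (∑ j, (mm j : ℂ) * omq κ ψ o j q) * (∑ j, (nn j : ℂ) * omq κ ψ o j q) *
            (∑ j, ν j * omq κ ψ o j q - ∑ j, μ j * omq κ ψ o j q)) = 0 := by
    intro q hq hq0
    obtain ⟨s, hs, hsq, hsr⟩ := hall q hq hq0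
    have e := hdE s hs
    unfold dE at e
    rw [hs1 (fun j => (nn j : ℂ)) s hs hsr, hs1 (fun j => (mm j : ℂ)) s hs hsr,
      hs2 (fun j => (nn j : ℂ)) s hs hsr, hs2 (fun j => (mm j : ℂ)) s hs hsr,
      hs1 μ s hs hsr, hs1 ν s hs hsr, hs2 μ s hs hsr, hs2 ν s hs hsr, hsq] at e
    linear_combination e
  have hval : ∀ a : Fin n → ℂ, ∑ j, a j * omq κ ψ o j 0 = 0 → ∑ j, a j * (o j : ℂ) = 0 := by
    intro a ha
    have e : ∑ j, a j * omq κ ψ o j 0 = -(1 / κ) * ∑ j, a j * (o j : ℂ) := by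
      rw [Finset.mul_sum]
      refine Finset.sum_congr rfl fun j _ => ?_
      unfold omq
      ring
    rw [e] at ha
    rcases mul_eq_zero.1 ha with h | h
    · exfalso
      rw [neg_eq_zero, one_div, inv_eq_zero] at h
      exact hκ0 h
    · exact h
  constructor
  · apply hval
    exact core hκ0 hr2 ((hsumd fun j => (mm j : ℂ)).mono hsub) ((hsumd fun j => (nn j : ℂ)).mono hsub)
      ((hsumd μ).mono hsub) ((hsumd ν).mono hsub) hXY hc1' hd1'
  · apply hval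
    refine core hκ0 hr2 ((hsumd fun j => (nn j : ℂ)).mono hsub)
      ((hsumd fun j => (mm j : ℂ)).mono hsub)
      ((hsumd ν).mono hsub) ((hsumd μ).mono hsub) ?_ ?_ ?_
    · intro q hq hq0
      obtain ⟨h1, h2, h3⟩ := hXY q hq hq0
      refine ⟨h2, h1, ?_⟩
      rw [← neg_sub]
      exact neg_ne_zero.2 h3
    · intro q hq hq0
      linear_combination (-1 : ℂ) * hc1' q hq hq0
    · intro q hq hq0
      linear_combination (-1 : ℂ) * hd1' q hq hq0

end END

theorem t_END : S_END := by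
  intro c r κ n f ψ γ o hκ hr hf hf0 hψ hψ0 hfψ hγ hγ01 hγc mm nn c1 c2 hm hn
  exact END.main c r κ n f ψ γ o hκ hr hf hf0 hψ hψ0 hfψ hγ hγ01 hγc mm nn c1 c2 hm hn

end Pool.Agent.Q22.GO
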