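import Pool.Agent.Q22.GO.Stm

set_option autoImplicit false

/-! Project GO (helper22), job EP (helper223): the cubic polynomial. -/

namespace Pool.Agent.Q22.GO

open H113G Metric Set Topology

namespace EP

open MvPolynomial

variable {ι : Type} [Fintype ι]

/-- the derivative of `P` at `x` in the direction `y` -/
noncomputable def dd (x y : ι → ℂ) (P : MvPolynomial ι ℂ) : ℂ :=
  ∑ j, eval x (pderiv j P) * y j

theorem dd_add (x y : ι → ℂ) (P Q : MvPolynomial ι ℂ) : dd x y (P + Q) = dd x y P + dd x y Q := by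
  unfold dd
  rw [← Finset.sum_add_distrib]
  refine Finset.sum_congr rfl fun j _ => ?_
  rw [map_add, map_add, add_mul]

theorem dd_sub (x y : ι → ℂ) (P Q : MvPolynomial ι ℂ) : dd x y (P - Q) = dd x y P - dd x y Q := by
  unfold dd
  rw [← Finset.sum_sub_distrib]
  refine Finset.sum_congr rfl fun j _ => ?_
  rw [map_sub, map_sub, sub_mul]

theorem dd_mul (x y : ι → ℂ) (P Q : MvPolynomial ι ℂ) :
    dd x y (P * Q) = eval x P * dd x y Q + eval x Q * dd x y P := by
  unfold dd
  rw [Finset.mul_sum, Finset.mul_sum, ← Finset.sum_add_distrib]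
  refine Finset.sum_congr rfl fun j _ => ?_
  rw [pderiv_mul, map_add, map_mul, map_mul]
  ring

theorem dd_sum {κ : Type} (x y : ι → ℂ) (s : Finset κ) (P : κ → MvPolynomial ι ℂ) :
    dd x y (∑ i ∈ s, P i) = ∑ i ∈ s, dd x y (P i) := by
  classical
  induction s using Finset.induction_on with
  | empty => simp [dd]
  | insert i s hi ih => rw [Finset.sum_insert hi, Finset.sum_insert hi, dd_add, ih]

theorem dd_X [DecidableEq ι] (x y : ι → ℂ) (i : ι) : dd x y (X i) = y i := by
  unfold dd
  rw [Finset.sum_eq_single i]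
  · simp
  · intro j _ hj
    rw [pderiv_X_of_ne hj.symm]
    simp
  · intro h
    exact absurd (Finset.mem_univ _) h

theorem dd_C (x y : ι → ℂ) (a : ℂ) : dd x y (C a) = 0 := by
  unfold dd
  simp

omit [Fintype ι] in
theorem deg_lin (κ : Type) [Fintype κ] (a : κ → ℂ) (t : κ → ι) :
    (∑ j : κ, C (a j) * X (t j) : MvPolynomial ι ℂ).totalDegree ≤ 1 := by
  refine totalDegree_finsetSum_le fun j _ => ?_
  refine le_trans (totalDegree_mul _ _) ?_
  rw [totalDegree_C, totalDegree_X]

end EP

open EP MvPolynomial in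
theorem t_EP : S_EP := by
  classical
  intro n w w'
  have hdeg : ∀ (a : Fin n → ℂ) (t : Fin n → Fin n ⊕ Fin n),
      (∑ j, C (a j) * X (t j) : MvPolynomial (Fin n ⊕ Fin n) ℂ).totalDegree ≤ 1 :=
    fun a t => deg_lin (Fin n) a t
  refine ⟨?_, ?_, ?_⟩
  · unfold Epol
    set A := ∑ j, C (w j) * (X (Sum.inl j) : MvPolynomial (Fin n ⊕ Fin n) ℂ)
    set A' := ∑ j, C (w' j) * (X (Sum.inl j) : MvPolynomial (Fin n ⊕ Fin n) ℂ)
    set B := ∑ j, C (w j) * (X (Sum.inr j) : MvPolynomial (Fin n ⊕ Fin n) ℂ)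
    set B' := ∑ j, C (w' j) * (X (Sum.inr j) : MvPolynomial (Fin n ⊕ Fin n) ℂ)
    have hA : A.totalDegree ≤ 1 := hdeg w Sum.inl
    have hA' : A'.totalDegree ≤ 1 := hdeg w' Sum.inl
    have hB : B.totalDegree ≤ 1 := hdeg w Sum.inr
    have hB' : B'.totalDegree ≤ 1 := hdeg w' Sum.inr
    have h1 := totalDegree_mul B A'
    have h2 := totalDegree_mul A B'
    have h3 := totalDegree_mul A B
    have h4 := totalDegree_sub B A
    have h5 := totalDegree_mul (A * B) (B - A)
    have h6 := totalDegree_sub (B * A') (A * B')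
    have h7 := totalDegree_sub (B * A' - A * B') (A * B * (B - A))
    have h8 : max B.totalDegree A.totalDegree ≤ 1 := max_le hB hA
    refine le_trans h7 (max_le (le_trans h6 (max_le ?_ ?_)) ?_) <;> omega
  · intro m₁ n₁
    unfold Epol EE
    simp only [map_sub, map_mul, map_sum, eval_C, eval_X, Sum.elim_inl, Sum.elim_inr]
    simp only [mul_comm (w _), mul_comm (w' _)]
  · intro m₁ n₁ μ ν
    change dd (Sum.elim m₁ n₁) (Sum.elim μ ν) (Epol w w') = _
    unfold Epol dE
    simp only [dd_sub, dd_mul, dd_sum, dd_X, dd_C, mul_zero, add_zero, zero_add, map_sub, map_mul, map_sum, eval_C, eval_X, Sum.elim_inl,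
      Sum.elim_inr]
    simp only [mul_comm (w _), mul_comm (w' _)]
    ring

end Pool.Agent.Q22.GO
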