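import Pool.Agent.Q22.GO.Stm

set_option autoImplicit false

/-! Project GO: the frozen statement from `CH`, `FR`, `FRH`, `UNIT`. -/

namespace Pool.Agent.Q22.GO

open H113G Metric Set Topology

theorem t_FIN (ch : S_CH) (fr : S_FR) (frh : S_FRH) (un : S_UNIT) :
  ∀ (n : ℕ) (X : Set (Fin n → ℂ)),
    (∃ S : Set (MvPolynomial (Fin n) ℂ), X = {x | ∀ P ∈ S, MvPolynomial.eval x P = 0}) →
    (∀ p ∈ X, ∃ U : Set (Fin n → ℂ), IsOpen U ∧ p ∈ U ∧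
      ∃ (k : ℕ) (F : (Fin n → ℂ) → (Fin k → ℂ)), DifferentiableOn ℂ F U ∧
        (∀ x ∈ U, Function.Surjective ⇑(fderiv ℂ F x)) ∧ X ∩ U = U ∩ F ⁻¹' {0}) →
    IsConnected X →
    ∃ B : ℕ, ∀ (m : ℕ) (Y : Set (Fin m → ℂ)),
      (∃ S : Set (MvPolynomial (Fin m) ℂ), Y = {y | ∀ P ∈ S, MvPolynomial.eval y P = 0}) →
      (∀ p ∈ Y, ∃ U : Set (Fin m → ℂ), IsOpen U ∧ p ∈ U ∧
        ∃ (k : ℕ) (F : (Fin m → ℂ) → (Fin k → ℂ)), DifferentiableOn ℂ F U ∧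
          (∀ x ∈ U, Function.Surjective ⇑(fderiv ℂ F x)) ∧ Y ∩ U = U ∩ F ⁻¹' {0}) →
      IsConnected Y →
      Nonempty (↥X ≃ₜ ↥Y) →
      {g : ↥Y → ℂ | (∀ y, g y ≠ 0 ∧ g y ≠ 1) ∧ (∃ a b, g a ≠ g b) ∧
        ∀ p : ↥Y, ∃ U : Set (Fin m → ℂ), IsOpen U ∧ (p : Fin m → ℂ) ∈ U ∧
          ∃ h : (Fin m → ℂ) → ℂ, DifferentiableOn ℂ h U ∧
            ∀ y : ↥Y, (y : Fin m → ℂ) ∈ U → h y = g y}.encard ≤ (B : ℕ∞) := by
  intro n X hXa hXs hXc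
  obtain ⟨s, hs⟩ := fr n X hXa (ch n X hXs) hXc
  refine ⟨4 ^ (2 * s), fun m Y hYa hYs hYc hh => ?_⟩
  have hYch : HasCharts Y := ch m Y hYs
  have hYr : FiniteRank Y s := frh n m X Y s hh hs
  by_contra hcon
  rw [not_le] at hcon
  have h1 : ((4 ^ (2 * s) + 1 : ℕ) : ℕ∞) ≤ {g : ↥Y → ℂ | (∀ y, g y ≠ 0 ∧ g y ≠ 1) ∧
      (∃ a b, g a ≠ g b) ∧
        ∀ p : ↥Y, ∃ U : Set (Fin m → ℂ), IsOpen U ∧ (p : Fin m → ℂ) ∈ U ∧
          ∃ h : (Fin m → ℂ) → ℂ, DifferentiableOn ℂ h U ∧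
            ∀ y : ↥Y, (y : Fin m → ℂ) ∈ U → h y = g y}.encard := by
    rw [Nat.cast_add, Nat.cast_one]
    exact Order.add_one_le_of_lt hcon
  obtain ⟨T, hT, hTc⟩ := Set.exists_subset_encard_eq h1
  have hTf : T.Finite := Set.finite_of_encard_eq_coe hTc
  have hcard : hTf.toFinset.card = 4 ^ (2 * s) + 1 := by
    have h2 := hTf.encard_eq_coe_toFinset_card
    rw [h2] at hTc
    exact_mod_cast hTc
  set N : ℕ := 4 ^ (2 * s) + 1 with hN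
  let eq := (hTf.toFinset.equivFinOfCardEq hcard).symm
  have hmem : ∀ i, (eq i : ↥Y → ℂ) ∈ T := fun i => hTf.mem_toFinset.1 (eq i).2
  classical
  let ext : (↥Y → ℂ) → (Fin m → ℂ) → ℂ := fun g y => if h : y ∈ Y then g ⟨y, h⟩ else 0
  have hext : ∀ (g : ↥Y → ℂ) (y : Fin m → ℂ) (h : y ∈ Y), ext g y = g ⟨y, h⟩ := by
    intro g y h
    simp only [ext, dif_pos h]
  have hle := un s m Y hYa hYch hYc hYr N (fun i => ext (eq i)) (fun i p hp => by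
      obtain ⟨U, hU, hpU, h, hd, hy⟩ := (hT (hmem i)).2.2 ⟨p, hp⟩
      refine ⟨U, hU, hpU, h, hd, fun y hyY hyU => ?_⟩
      rw [hext _ y hyY]
      exact hy ⟨y, hyY⟩ hyU)
    (fun i y hy => by
      have := (hT (hmem i)).1 ⟨y, hy⟩
      simp only [hext _ y hy]
      exact this)
    (fun i => by
      obtain ⟨a, b, hab⟩ := (hT (hmem i)).2.1
      refine ⟨a, a.2, b, b.2, ?_⟩
      simp only [hext _ _ a.2, hext _ _ b.2]
      exact hab)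
    (fun i j hij => by
      by_contra hne
      push Not at hne
      apply hij
      apply eq.injective
      apply Subtype.ext
      funext y
      have := hne y y.2
      simp only [hext _ _ y.2] at this
      exact this)
  omega

end Pool.Agent.Q22.GO
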