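import Pool.Agent.Q22.GO.Stm

/-!
Job FR of project GO: finite rank (assembly of the topological part).
-/

set_option autoImplicit false

namespace Pool.Agent.Q22.GO

open H113G Metric Set Topology

namespace FR

theorem eval_diff {k : ℕ} (δ : MvPolynomial (Fin k) ℂ) :
    Differentiable ℂ (fun z : Fin k → ℂ => MvPolynomial.eval z δ) := by
  induction δ using MvPolynomial.induction_on with
  | C a => simp
  | add p q hp hq =>
    simp only [map_add]
    exact hp.fun_add hq
  | mul_X p i hp =>
    have h : Differentiable ℂ (fun z : Fin k → ℂ => z i) := by fun_prop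
    simp only [map_mul, MvPolynomial.eval_X]
    exact hp.fun_mul h

theorem exists_eval_ne {k : ℕ} {D : MvPolynomial (Fin k) ℂ} (hD : D ≠ 0) :
    ∃ v : Fin k → ℂ, MvPolynomial.eval v D ≠ 0 := by
  by_contra h
  push Not at h
  exact hD (MvPolynomial.funext fun x => by simpa using h x)

theorem point {m : ℕ} {Y : Set (Fin m → ℂ)} (hY : Y.Subsingleton) : FiniteRank Y 0 := by
  intro g _ h0
  refine ⟨fun _ => 1, ?_, ?_⟩
  · intro h
    have := congrFun h 0
    simp at this
  · rcases hY.eq_empty_or_singleton with h | ⟨y, h⟩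
    · refine ⟨fun _ => 0, continuousOn_const, ?_⟩
      intro y hy
      rw [h] at hy
      exact absurd hy (notMem_empty y)
    · refine ⟨fun _ => Complex.log (g 0 y), continuousOn_const, ?_⟩
      intro y' hy'
      rw [h] at hy'
      rw [mem_singleton_iff] at hy'
      subst hy'
      rw [Complex.exp_log (h0 0 y' (by rw [h]; exact mem_singleton y'))]
      simp

end FR

open FR in
theorem t_FR (cov : S_COV) (rs1 : S_RS1) (rs2 : S_RS2) (thin : S_THIN) (frl : S_FRL)
    (logl : S_LOGL) (logx : S_LOGX) : S_FR := by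
  intro m Y hA hC hconn
  obtain ⟨k, pr, δ, e, he, hcov⟩ := cov m Y hA hC hconn
  have hδ0 : δ ≠ 0 := by
    intro h
    have := hcov.base
    rw [h] at this
    simp at this
  rcases Nat.eq_zero_or_pos k with hk | hk
  · subst hk
    refine ⟨0, point ?_⟩
    obtain ⟨r, hr, s, -, hs⟩ := hcov.sections 0 hcov.base
    obtain ⟨-, -, h3⟩ := hs 0 (mem_ball_self hr)
    have hfin : Y.Finite := by
      have h4 : Y = Set.range (fun i => s i 0) := by
        rw [← h3]
        ext y
        simp only [Set.mem_ofPred_eq]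
        exact ⟨fun hy => ⟨hy, Subsingleton.elim _ _⟩, fun hy => hy.1⟩
      rw [h4]
      exact Set.finite_range _
    by_contra hns
    rw [Set.not_subsingleton_iff] at hns
    exact (hconn.isPreconnected.infinite_of_nontrivial hns) hfin
  · obtain ⟨D, R, hD, hDR⟩ := rs1 k δ hcov.base
    have hrs := rs2 k δ D R hDR
    have hX : (MvPolynomial.X ⟨0, hk⟩ : MvPolynomial (Fin k) ℂ) ≠ 0 := MvPolynomial.X_ne_zero _
    obtain ⟨v, hv⟩ := exists_eval_ne (mul_ne_zero (mul_ne_zero hD hδ0) hX)
    rw [map_mul, map_mul, MvPolynomial.eval_X] at hv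
    have hv1 := left_ne_zero_of_mul (left_ne_zero_of_mul hv)
    have hv2 := right_ne_zero_of_mul (left_ne_zero_of_mul hv)
    have hv3 : v ≠ 0 := by
      intro h
      have h5 := right_ne_zero_of_mul hv
      rw [h] at h5
      simp at h5
    have hu : HolOn Y (fun y => MvPolynomial.eval (pr y) δ) := by
      intro p _
      refine ⟨univ, isOpen_univ, mem_univ p, fun y => MvPolynomial.eval (pr y) δ, ?_, fun _ _ _ => rfl⟩
      exact ((eval_diff δ).comp hcov.diff).differentiableOn
    have hune : ∃ y ∈ Y, MvPolynomial.eval (pr y) δ ≠ 0 := hcov.dominant δ hδ0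
    have hpre := (thin m Y hC hconn.isPreconnected _ hu hune).2
    obtain ⟨s, hs⟩ := frl m k Y pr δ e hcov v hv3
    refine ⟨s, ?_⟩
    intro g hg hg0
    have hsub : Ln Y pr δ v ⊆ Y := fun y hy => hy.1
    obtain ⟨a, ha, hlog⟩ := hs g (fun l => (hg l).mono hsub) (fun l y hy => hg0 l y (hsub hy))
    refine ⟨a, ha, ?_⟩
    have hG : ContinuousOn (fun y => ∏ l, g l y ^ a l) Y :=
      continuousOn_finsetProd _ fun l _ => (hg l).zpow₀ (a l) fun y hy => Or.inl (hg0 l y hy)
    have hG0 : ∀ y ∈ Y, (∏ l, g l y ^ a l) ≠ 0 := fun y hy =>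
      Finset.prod_ne_zero_iff.2 fun l _ => zpow_ne_zero _ (hg0 l y hy)
    have h1 := logl m k Y pr δ e hcov he ⟨D, hD, hrs⟩ hpre v hv2 (hrs v hv1) _ hG hG0 hlog
    exact logx m Y hC hconn.isPreconnected _ hu hune _ hG hG0 h1

end Pool.Agent.Q22.GO
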