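import Pool.Agent.Q22.GO.Stm

set_option autoImplicit false

/-! Project GO (helper22), job FRH (helper223): topological invariance of the rank. -/

namespace Pool.Agent.Q22.GO

open H113G Metric Set Topology

namespace FRH

open Classical in
/-- transport of a function -/
noncomputable def tr {n m : ℕ} {X : Set (Fin n → ℂ)} {Y : Set (Fin m → ℂ)} (e : ↥X ≃ₜ ↥Y)
    (g : (Fin m → ℂ) → ℂ) (x : Fin n → ℂ) : ℂ := if hx : x ∈ X then g (e ⟨x, hx⟩) else 1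

theorem tr_of {n m : ℕ} {X : Set (Fin n → ℂ)} {Y : Set (Fin m → ℂ)} (e : ↥X ≃ₜ ↥Y)
    (g : (Fin m → ℂ) → ℂ) (x : Fin n → ℂ) (hx : x ∈ X) : tr e g x = g (e ⟨x, hx⟩) := by
  unfold tr
  rw [dif_pos hx]

theorem tr_cont {n m : ℕ} {X : Set (Fin n → ℂ)} {Y : Set (Fin m → ℂ)} (e : ↥X ≃ₜ ↥Y)
    (g : (Fin m → ℂ) → ℂ) (hg : ContinuousOn g Y) : ContinuousOn (tr e g) X := by
  rw [continuousOn_iff_continuous_domRestrict] at hg ⊢
  have h : X.domRestrict (tr e g) = Y.domRestrict g ∘ e := by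
    funext x
    exact tr_of e g x.1 x.2
  rw [h]
  exact hg.comp e.continuous

end FRH

open FRH in
theorem t_FRH : S_FRH := by
  rintro n m X Y s ⟨e⟩ hX g hg hg0
  obtain ⟨a, ha, h, hh, hexp⟩ := hX (fun l => tr e (g l)) (fun l => tr_cont e _ (hg l))
    (fun l x hx => by rw [tr_of e _ x hx]; exact hg0 l _ (e ⟨x, hx⟩).2)
  refine ⟨a, ha, tr e.symm h, tr_cont e.symm _ hh, fun y hy => ?_⟩
  rw [tr_of e.symm h y hy, hexp _ (e.symm ⟨y, hy⟩).2]
  refine Finset.prod_congr rfl fun l _ => ?_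
  rw [tr_of e (g l) _ (e.symm ⟨y, hy⟩).2]
  simp

end Pool.Agent.Q22.GO
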