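import Pool.Agent.Q186.GO.FRL

set_option autoImplicit false

/-! Project GO, job FRL (helper186). -/

namespace Pool.Agent.Q22.GO

theorem t_FRL (cvx : S_CVX) (gc : S_GC) (sheet : S_SHEET) : S_FRL :=
  Pool.Agent.Q186.GO.t_FRL cvx gc sheet

end Pool.Agent.Q22.GO
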