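import Pool.Agent.Q22.GO.Stm

set_option autoImplicit false

/-!
Project GO of helper22, job GC (helper214): finite good covers give finite rank.
-/

namespace Pool.Agent.Q22.GO

open H113G Metric Set Topology

namespace GC

/-- more integer vectors than coordinates: a nontrivial relation -/
lemma dep {ι : Type} [Fintype ι] (m : ℕ) (hm : Fintype.card ι < m) (v : Fin m → ι → ℤ) :
    ∃ a : Fin m → ℤ, a ≠ 0 ∧ ∀ i, ∑ l, a l * v l i = 0 := by
  have h : ¬ LinearIndependent ℤ v := by
    intro h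
    have h1 := h.fintype_card_le_finrank
    rw [Fintype.card_fin, Module.finrank_fintype_fun_eq_card] at h1
    omega
  rw [Fintype.not_linearIndependent_iff] at h
  obtain ⟨a, ha, l, hl⟩ := h
  refine ⟨a, fun h0 => hl (by rw [h0]; rfl), fun i => ?_⟩
  have h2 := congrFun ha i
  rw [Finset.sum_apply] at h2
  exact h2

/-- the difference of two logarithms is constant on a preconnected set -/
lemma const_diff {E : Type} [TopologicalSpace E] {S : Set E} (hS : IsPreconnected S) (h h' : E → ℂ)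
    (hc : ContinuousOn h S) (hc' : ContinuousOn h' S) (he : ∀ y ∈ S, Complex.exp (h y) = Complex.exp (h' y)) :
    ∃ n : ℤ, ∀ y ∈ S, h y = h' y + n * (2 * Real.pi * Complex.I) := by
  rcases S.eq_empty_or_nonempty with hE | ⟨y₀, hy₀⟩
  · refine ⟨0, fun y hy => ?_⟩
    rw [hE] at hy
    exact absurd hy (notMem_empty y)
  have h1 : ∀ y ∈ S, ∃ n : ℤ, h y = h' y + n * (2 * Real.pi * Complex.I) := fun y hy =>
    Complex.exp_eq_exp_iff_exists_int.1 (he y hy)
  have h1' : ∀ y : E, ∃ n : ℤ, y ∈ S → h y = h' y + n * (2 * Real.pi * Complex.I) := by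
    intro y
    by_cases hy : y ∈ S
    · obtain ⟨n, hn⟩ := h1 y hy
      exact ⟨n, fun _ => hn⟩
    · exact ⟨0, fun h => absurd h hy⟩
  choose m hm using h1'
  have hpi : (2 * Real.pi : ℝ) ≠ 0 := by positivity
  have hreal : ∀ y ∈ S, (m y : ℝ) = ((h y - h' y).im) / (2 * Real.pi) := by
    intro y hy
    rw [hm y hy]
    simp
  have hmc : ContinuousOn m S := by
    rw [Int.isClosedEmbedding_coe_real.isInducing.continuousOn_iff]
    have h3 : ContinuousOn (fun y => ((h y - h' y).im) / (2 * Real.pi)) S :=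
      (Complex.continuous_im.comp_continuousOn (hc.sub hc')).div_const _
    exact h3.congr fun y hy => hreal y hy
  refine ⟨m y₀, fun y hy => ?_⟩
  rw [← hS.constant hmc hy hy₀]
  exact hm y hy

end GC

open GC in
theorem t_GC : S_GC := by
  classical
  intro E _ A N V hA hO hlog hconn g hg hg0
  have hVA : ∀ i, V i ⊆ A := fun i => by
    rw [hA]
    exact subset_iUnion V i
  -- the logarithms
  have h1 : ∀ (l : Fin (N * N + 1)) (i : Fin N), HasLog (V i) (g l) := fun l i =>
    hlog i (g l) ((hg l).mono (hVA i)) fun y hy => hg0 l y (hVA i hy)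
  choose h hh using h1
  have h2 : ∀ (l : Fin (N * N + 1)) (p : Fin N × Fin N), ∃ n : ℤ, ∀ y ∈ V p.1 ∩ V p.2,
      h l p.1 y = h l p.2 y + n * (2 * Real.pi * Complex.I) := by
    intro l p
    apply const_diff (hconn p.1 p.2)
    · exact (hh l p.1).1.mono inter_subset_left
    · exact (hh l p.2).1.mono inter_subset_right
    · intro y hy
      rw [(hh l p.1).2 y hy.1, (hh l p.2).2 y hy.2]
  choose n hn using h2
  obtain ⟨a, ha0, ha⟩ := dep (ι := Fin N × Fin N) (N * N + 1) (by
    rw [Fintype.card_prod, Fintype.card_fin]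
    omega) n
  refine ⟨a, ha0, ?_⟩
  -- the local logarithms of the product
  let G : Fin N → E → ℂ := fun i y => ∑ l, (a l : ℂ) * h l i y
  have hGc : ∀ i, ContinuousOn (G i) (V i) := fun i =>
    continuousOn_finsetSum _ fun l _ => continuousOn_const.mul (hh l i).1
  have hGe : ∀ i, ∀ y ∈ V i, Complex.exp (G i y) = ∏ l, g l y ^ a l := by
    intro i y hy
    show Complex.exp (∑ l, (a l : ℂ) * h l i y) = _
    rw [Complex.exp_sum]
    apply Finset.prod_congr rfl
    intro l _
    rw [Complex.exp_int_mul, (hh l i).2 y hy]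
  have hGG : ∀ i j, ∀ y ∈ V i ∩ V j, G i y = G j y := by
    intro i j y hy
    have h3 : ∀ l, (a l : ℂ) * h l i y = (a l : ℂ) * h l j y + ((a l * n l (i, j) : ℤ) : ℂ) * (2 * Real.pi * Complex.I) := by
      intro l
      rw [hn l (i, j) y hy]
      push_cast
      ring
    show ∑ l, (a l : ℂ) * h l i y = ∑ l, (a l : ℂ) * h l j y
    simp only [h3]
    rw [Finset.sum_add_distrib, ← Finset.sum_mul, ← Int.cast_sum, ha (i, j)]
    simp
  have hcov : ∀ y : E, ∃ i : Option (Fin N), y ∈ A → ∃ j, i = some j ∧ y ∈ V j := by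
    intro y
    by_cases hy : y ∈ A
    · rw [hA, mem_iUnion] at hy
      obtain ⟨i, hi⟩ := hy
      exact ⟨some i, fun _ => ⟨i, rfl, hi⟩⟩
    · exact ⟨none, fun h => absurd h hy⟩
  choose idx hidx using hcov
  let H : E → ℂ := fun y => (idx y).elim 0 fun i => G i y
  have hH : ∀ i, ∀ y ∈ V i, H y = G i y := by
    intro i y hy
    obtain ⟨j, hj, hyj⟩ := hidx y (hVA i hy)
    show (idx y).elim 0 (fun i => G i y) = G i y
    rw [hj]
    exact hGG j i y ⟨hyj, hy⟩
  refine ⟨H, fun y hy => ?_, fun y hy => ?_⟩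
  · have hy' := hy
    rw [hA, mem_iUnion] at hy'
    obtain ⟨i, hi⟩ := hy'
    obtain ⟨O, hOo, hVO⟩ := hO i
    have hmem : V i ∈ 𝓝[A] y := by
      rw [hVO, mem_nhdsWithin]
      refine ⟨O, hOo, ?_, fun z hz => ⟨hz.2, hz.1⟩⟩
      rw [hVO] at hi
      exact hi.2
    have h3 : ContinuousWithinAt (G i) A y := ((hGc i) y hi).mono_of_mem_nhdsWithin hmem
    refine h3.congr_of_eventuallyEq ?_ (hH i y hi)
    filter_upwards [hmem] with z hz
    exact hH i z hz
  · rw [hA, mem_iUnion] at hy
    obtain ⟨i, hi⟩ := hy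
    rw [hH i y hi]
    exact hGe i y hi

end Pool.Agent.Q22.GO
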