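import Pool.Agent.Q22.GO.Stm

set_option autoImplicit false

namespace Pool.Agent.Q22.GO

open H113G Metric Set Topology

/-- a function in `HolOn` which is nonzero at a point of `Y` is nonzero on a neighbourhood of this
point in `Y` -/
theorem holOn_ne_nhds {m : ℕ} {Y : Set (Fin m → ℂ)} {u : (Fin m → ℂ) → ℂ} (hu : HolOn Y u)
    {p : Fin m → ℂ} (hp : p ∈ Y) (hne : u p ≠ 0) :
    ∃ N ∈ 𝓝 p, ∀ y ∈ Y, y ∈ N → u y ≠ 0 := by
  obtain ⟨U, hU, hpU, h, hd, heq⟩ := hu p hp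
  have hc : ContinuousAt h p := (hd.continuousOn).continuousAt (hU.mem_nhds hpU)
  have hne' : h p ≠ 0 := by rw [heq p hp hpU]; exact hne
  have h1 : ∀ᶠ y in 𝓝 p, h y ≠ 0 := hc.eventually_ne hne'
  have h2 : ∀ᶠ y in 𝓝 p, y ∈ U := hU.mem_nhds hpU
  refine ⟨{y | h y ≠ 0 ∧ y ∈ U}, h1.and h2, ?_⟩
  rintro y hy ⟨hy1, hy2⟩
  rw [← heq y hy hy2]
  exact hy1

theorem t_GEN (thin : S_THIN) : S_GEN := by
  intro m Y hch hY N
  induction N with
  | zero =>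
    intro u _ _
    obtain ⟨y, hy⟩ := hY.nonempty
    exact ⟨y, hy, fun i => i.elim0⟩
  | succ N ih =>
    intro u hol hne
    obtain ⟨p, hp, hpu⟩ := ih (fun i => u i.castSucc) (fun i => hol _) (fun i => hne _)
    have h1 : ∀ i : Fin N, ∃ W ∈ 𝓝 p, ∀ y ∈ Y, y ∈ W → u i.castSucc y ≠ 0 :=
      fun i => holOn_ne_nhds (hol i.castSucc) hp (hpu i)
    choose W hW hWu using h1
    have h2 : (⋂ i, W i) ∈ 𝓝 p := Filter.iInter_mem.mpr hW
    obtain ⟨y, hy, hyW, hyu⟩ := (thin m Y hch hY.isPreconnected (u (Fin.last N)) (hol _)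
      (hne _)).1 p hp _ h2
    refine ⟨y, hy, fun i => ?_⟩
    refine Fin.lastCases ?_ (fun j => ?_) i
    · exact hyu
    · exact hWu j y hy (mem_iInter.mp hyW j)

end Pool.Agent.Q22.GO
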