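import Pool.Agent.Q22.GO.Stm

/-!
# Project GO, job IDL: identity theorem on the line
-/

set_option autoImplicit false

open H113G Metric Set Topology Filter

namespace Pool.Agent.Q22.GO.IDL

variable {m k : ℕ} {Y : Set (Fin m → ℂ)} {pr : (Fin m → ℂ) → (Fin k → ℂ)}
  {δ : MvPolynomial (Fin k) ℂ} {e : ℕ}

/-- local structure of the preimage of a line -/
theorem loc (hcov : Cov Y pr δ e) (v : Fin k → ℂ) (hv : v ≠ 0) (y0 : Fin m → ℂ)
    (h0 : y0 ∈ Ln Y pr δ v) :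
    ∃ (U : Set (Fin m → ℂ)) (D : Set ℂ) (σ : ℂ → Fin m → ℂ) (τ : (Fin m → ℂ) → ℂ),
      IsOpen U ∧ y0 ∈ U ∧ IsOpen D ∧ IsPreconnected D ∧ DifferentiableOn ℂ σ D ∧
      (∀ t ∈ D, σ t ∈ Ln Y pr δ v) ∧ (∀ y t, pr y = t • v → τ y = t) ∧
      ∀ y ∈ Ln Y pr δ v, y ∈ U → τ y ∈ D ∧ σ (τ y) = y := by
  obtain ⟨hY0, ⟨t0, ht0⟩, hδ0⟩ := h0
  obtain ⟨r, hr, s, hs, hz⟩ := hcov.sections (pr y0) hδ0
  have hvj : ∃ j, v j ≠ 0 := by
    by_contra hcon
    push Not at hcon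
    exact hv (funext hcon)
  obtain ⟨j0, hj0⟩ := hvj
  have hτ : ∀ (y : Fin m → ℂ) (t : ℂ), pr y = t • v → pr y j0 / v j0 = t := by
    intro y t h
    rw [h, Pi.smul_apply, smul_eq_mul]
    field_simp
  have hz0 := (hz (pr y0) (mem_ball_self hr))
  have hy0 : y0 ∈ Set.range (fun i => s i (pr y0)) := by
    rw [← hz0.2.2]
    exact ⟨hY0, rfl⟩
  obtain ⟨i0, hi0⟩ := hy0
  have hi0 : s i0 (pr y0) = y0 := hi0
  have hprc : Continuous pr := hcov.diff.continuous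
  have hev1 : ∀ᶠ y in 𝓝 y0, pr y ∈ ball (pr y0) r :=
    hprc.continuousAt.eventually (isOpen_ball.mem_nhds (mem_ball_self hr))
  have hev2 : ∀ i, i ≠ i0 → ∀ᶠ y in 𝓝 y0, s i (pr y) ≠ y := by
    intro i hi
    have hc : ContinuousAt (s i) (pr y0) :=
      ((hs i).differentiableAt (isOpen_ball.mem_nhds (mem_ball_self hr))).continuousAt
    have hc2 : Tendsto (fun y => s i (pr y)) (𝓝 y0) (𝓝 (s i (pr y0))) :=
      hc.tendsto.comp hprc.continuousAt
    have hid : Tendsto (fun y : Fin m → ℂ => y) (𝓝 y0) (𝓝 y0) := tendsto_id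
    have hne : s i (pr y0) - y0 ≠ 0 := by
      intro hcon
      rw [sub_eq_zero] at hcon
      apply hi
      apply hz0.2.1
      change s i (pr y0) = s i0 (pr y0)
      rw [hi0]
      exact hcon
    filter_upwards [(hc2.sub hid).eventually_ne hne] with y hy hcon
    exact hy (sub_eq_zero.2 hcon)
  have hev3 : ∀ᶠ y in 𝓝 y0, ∀ i, i ≠ i0 → s i (pr y) ≠ y := by
    rw [eventually_all]
    intro i
    by_cases hi : i = i0
    · exact Eventually.of_forall fun y h => absurd hi h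
    · filter_upwards [hev2 i hi] with y hy _ using hy
  obtain ⟨U, hU, hUo, hyU⟩ := _root_.eventually_nhds_iff.1 (hev1.and hev3)
  let ℓ : ℂ →ₗ[ℝ] (Fin k → ℂ) := (LinearMap.toSpanSingleton ℂ (Fin k → ℂ) v).restrictScalars ℝ
  refine ⟨U, {t : ℂ | t • v ∈ ball (pr y0) r}, fun t => s i0 (t • v), fun y => pr y j0 / v j0,
    hUo, hyU, ?_, ?_, ?_, ?_, hτ, ?_⟩
  · exact isOpen_ball.preimage (continuous_id.smul continuous_const)
  · have h1 : Convex ℝ (ℓ ⁻¹' ball (pr y0) r) := (convex_ball (pr y0) r).linear_preimage ℓ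
    exact h1.isPreconnected
  · refine (hs i0).comp ?_ ?_
    · exact (differentiable_id.smul_const v).differentiableOn
    · intro t ht
      exact ht
  · intro t ht
    have h1 := hz (t • v) ht
    have h2 : s i0 (t • v) ∈ {y | y ∈ Y ∧ pr y = t • v} := by
      rw [h1.2.2]
      exact ⟨i0, rfl⟩
    refine ⟨h2.1, ⟨t, h2.2⟩, ?_⟩
    rw [h2.2]
    exact h1.1
  · intro y hy hyU'
    obtain ⟨hyY, ⟨t, ht⟩, hδy⟩ := hy
    have h3 := hU y hyU'
    have h4 := hz (pr y) h3.1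
    have h5 : y ∈ Set.range (fun i => s i (pr y)) := by
      rw [← h4.2.2]
      exact ⟨hyY, rfl⟩
    obtain ⟨i, hi⟩ := h5
    have hi : s i (pr y) = y := hi
    have hii : i = i0 := by
      by_contra hne
      exact h3.2 i hne hi
    have hτt : (fun y : Fin m → ℂ => pr y j0 / v j0) y = t := hτ y t ht
    rw [hτt]
    refine ⟨?_, ?_⟩
    · change t • v ∈ ball (pr y0) r
      rw [← ht]
      exact h3.1
    · change s i0 (t • v) = y
      rw [← ht, ← hii]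
      exact hi

/-- composition of a holomorphic function on `Y` and a holomorphic curve in `Y` -/
theorem hol_comp {g : (Fin m → ℂ) → ℂ} (hg : HolOn Y g) {D : Set ℂ} (hD : IsOpen D)
    {σ : ℂ → Fin m → ℂ} (hσ : DifferentiableOn ℂ σ D) (hY : ∀ t ∈ D, σ t ∈ Y) :
    DifferentiableOn ℂ (fun t => g (σ t)) D := by
  intro t ht
  obtain ⟨U, hU, hpU, h, hh, hhg⟩ := hg (σ t) (hY t ht)
  have hσt : DifferentiableAt ℂ σ t := hσ.differentiableAt (hD.mem_nhds ht)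
  have h1 : DifferentiableAt ℂ (fun t => h (σ t)) t :=
    DifferentiableAt.comp t (hh.differentiableAt (hU.mem_nhds hpU)) hσt
  refine DifferentiableAt.differentiableWithinAt ?_
  refine h1.congr_of_eventuallyEq ?_
  filter_upwards [hD.mem_nhds ht, hσt.continuousAt.eventually (hU.mem_nhds hpU)] with t' ht' hU'
  exact (hhg (σ t') (hY t' ht') hU').symm

theorem eq_of_ev {φ : ℂ → ℂ} {D : Set ℂ} (hD : IsOpen D) (hc : IsPreconnected D)
    (hφ : DifferentiableOn ℂ φ D) {t1 : ℂ} (h1 : t1 ∈ D) {a : ℂ} (h : ∀ᶠ t in 𝓝 t1, φ t = a) :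
    ∀ t ∈ D, φ t = a := by
  have h2 : AnalyticOnNhd ℂ φ D := hφ.analyticOnNhd hD
  have h3 : AnalyticOnNhd ℂ (fun _ : ℂ => a) D := analyticOnNhd_const
  intro t ht
  exact h2.eqOn_of_preconnected_of_eventuallyEq h3 hc h1 h ht

end Pool.Agent.Q22.GO.IDL

namespace Pool.Agent.Q22.GO

open IDL in
theorem t_IDL : S_IDL := by
  intro m k Y pr δ e hcov v c κ Λ hv hL hpre g a i hg hga
  -- the end points are in the line
  have hmem : ∀ s : ℂ, c < s.re → Λ i s ∈ Ln Y pr δ v ∧ pr (Λ i s) = Complex.exp s • v := by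
    intro s hs
    have h1 : Λ i s ∈ {y | y ∈ Y ∧ pr y = Complex.exp s • v} := by
      rw [hL.fib s hs]
      exact ⟨i, rfl⟩
    refine ⟨⟨h1.1, ⟨_, h1.2⟩, ?_⟩, h1.2⟩
    rw [h1.2]
    exact hL.ne s hs
  have : PreconnectedSpace ↥(Ln Y pr δ v) := isPreconnected_iff_preconnectedSpace.1 hpre
  let u : Set ↥(Ln Y pr δ v) := {y | ∀ᶠ y' in 𝓝 y, g y'.1 = a}
  have huo : IsOpen u := isOpen_setOfPred_eventually_nhds
  -- the local step
  have hstep : ∀ y0 : ↥(Ln Y pr δ v), ∀ (U : Set (Fin m → ℂ)) (D : Set ℂ) (σ : ℂ → Fin m → ℂ)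
      (τ : (Fin m → ℂ) → ℂ), IsOpen U → y0.1 ∈ U → IsOpen D → IsPreconnected D →
      DifferentiableOn ℂ σ D → (∀ t ∈ D, σ t ∈ Ln Y pr δ v) →
      (∀ y ∈ Ln Y pr δ v, y ∈ U → τ y ∈ D ∧ σ (τ y) = y) →
      ∀ t1 ∈ D, (∀ᶠ t in 𝓝 t1, g (σ t) = a) → y0 ∈ u := by
    intro y0 U D σ τ hU hy0 hD hDc hσ hσL hτ t1 ht1 hev
    have h1 := eq_of_ev hD hDc (hol_comp hg hD hσ (fun t ht => (hσL t ht).1)) ht1 hev
    have h2 : ∀ᶠ y' : ↥(Ln Y pr δ v) in 𝓝 y0, y'.1 ∈ U :=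
      continuous_subtype_val.continuousAt.eventually (hU.mem_nhds hy0)
    change ∀ᶠ y' in 𝓝 y0, g y'.1 = a
    filter_upwards [h2] with y' hy'
    obtain ⟨h3, h4⟩ := hτ y'.1 y'.2 hy'
    have h5 := h1 _ h3
    rw [h4] at h5
    exact h5
  have huc : IsClosed u := by
    rw [← closure_subset_iff_isClosed]
    intro y0 hy0
    obtain ⟨U, D, σ, τ, hU, hyU, hD, hDc, hσ, hσL, hτ0, hτ⟩ := loc hcov v hv y0.1 y0.2
    have h6 : {y : ↥(Ln Y pr δ v) | y.1 ∈ U} ∈ 𝓝 y0 :=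
      (hU.preimage continuous_subtype_val).mem_nhds hyU
    obtain ⟨y1, hy1U, hy1⟩ := mem_closure_iff_nhds.1 hy0 _ h6
    have hy1U : y1.1 ∈ U := hy1U
    obtain ⟨h7, h8⟩ := hτ y1.1 y1.2 hy1U
    refine hstep y0 U D σ τ hU hyU hD hDc hσ hσL hτ (τ y1.1) h7 ?_
    have h9 : ∀ᶠ y' in 𝓝 y1, g y'.1 = a := hy1
    rw [nhds_subtype_eq_comap, eventually_comap] at h9
    have h10 : Tendsto σ (𝓝 (τ y1.1)) (𝓝 y1.1) := by
      have := (hσ.differentiableAt (hD.mem_nhds h7)).continuousAt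
      have h11 := this.tendsto
      rwa [h8] at h11
    filter_upwards [h10.eventually h9, hD.mem_nhds h7] with t ht htD
    exact ht ⟨σ t, hσL t htD⟩ rfl
  have hs0 : c < ((c + 1 : ℝ) : ℂ).re := by
    rw [Complex.ofReal_re]
    linarith
  have hne : u.Nonempty := by
    let s0 : ℂ := ((c + 1 : ℝ) : ℂ)
    let y1 : ↥(Ln Y pr δ v) := ⟨Λ i s0, (hmem s0 hs0).1⟩
    refine ⟨y1, ?_⟩
    obtain ⟨U, D, σ, τ, hU, hyU, hD, hDc, hσ, hσL, hτ0, hτ⟩ := loc hcov v hv y1.1 y1.2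
    have h12 := hτ y1.1 y1.2 hyU
    have h13 : τ y1.1 = Complex.exp s0 := hτ0 _ _ (hmem s0 hs0).2
    refine hstep y1 U D σ τ hU hyU hD hDc hσ hσL hτ (Complex.exp s0) (by rw [← h13]; exact h12.1) ?_
    have h14 : map Complex.exp (𝓝 s0) = 𝓝 (Complex.exp s0) :=
      (Complex.hasStrictDerivAt_exp s0).map_nhds_eq (Complex.exp_ne_zero s0)
    rw [← h14, eventually_map]
    have h15 : IsOpen {s : ℂ | c < s.re} := isOpen_lt continuous_const Complex.continuous_re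
    have h16 : ContinuousAt (Λ i) s0 :=
      ((hL.diff i).differentiableAt (h15.mem_nhds hs0)).continuousAt
    filter_upwards [h15.mem_nhds hs0, h16.eventually (hU.mem_nhds hyU)] with s hs hsU
    have h17 := hmem s hs
    obtain ⟨h18, h19⟩ := hτ _ h17.1 hsU
    rw [hτ0 _ _ h17.2] at h19
    rw [h19]
    exact hga s hs
  have huniv : u = univ := (isClopen_iff.1 ⟨huc, huo⟩).resolve_left hne.ne_empty
  intro y hy
  have h20 : (⟨y, hy⟩ : ↥(Ln Y pr δ v)) ∈ u := by rw [huniv]; trivial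
  exact Eventually.self_of_nhds (p := fun y' : ↥(Ln Y pr δ v) => g y'.1 = a) h20

end Pool.Agent.Q22.GO
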