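import Pool.Agent.Q22.GO.Stm

set_option autoImplicit false

/-!
# Project GO of helper22, job LCY: generic lines have connected preimages
-/

namespace Pool.Agent.Q22.GO

open H113G Metric Set Topology

namespace LCY

/-- stability of the roots on a line does not depend on the vector of the line -/
theorem smul_stable {k : ℕ} {δ : MvPolynomial (Fin k) ℂ} {v : Fin k → ℂ} (h : RootStable δ v)
    {l : ℂ} (hl : l ≠ 0) : RootStable δ (l • v) := by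
  obtain ⟨N, a, ha, hr, hs⟩ := h
  have hl0 : 0 < ‖l‖ := norm_pos_iff.2 hl
  refine ⟨N, fun i => a i / l, ?_, ?_, ?_⟩
  · intro i j hij
    exact ha ((div_left_inj' hl).1 hij)
  · intro t
    rw [smul_smul, hr]
    constructor
    · rintro ⟨i, hi⟩
      exact ⟨i, (eq_div_iff hl).2 hi⟩
    · rintro ⟨i, hi⟩
      exact ⟨i, (eq_div_iff hl).1 hi⟩
  · intro ρ hρ
    obtain ⟨ε, hε, hb⟩ := hs (ρ * ‖l‖) (by positivity)
    refine ⟨ε * ‖l‖, by positivity, ?_⟩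
    intro w hw
    obtain ⟨b, hb1, hb2⟩ := hb (l⁻¹ • w) (by
      rw [mem_ball, dist_eq_norm] at hw ⊢
      have h1 : l⁻¹ • w - v = l⁻¹ • (w - l • v) := by
        rw [smul_sub, smul_smul, inv_mul_cancel₀ hl, one_smul]
      rw [h1, norm_smul, norm_inv, inv_mul_lt_iff₀ hl0, mul_comm]
      exact hw)
    refine ⟨fun i => b i / l, ?_, ?_⟩
    · intro i
      rw [← sub_div, norm_div, div_lt_iff₀ hl0]
      exact hb1 i
    · intro t
      have h1 : t • w = (t * l) • (l⁻¹ • w) := by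
        rw [smul_smul, mul_assoc, mul_inv_cancel₀ hl, mul_one]
      rw [h1, hb2]
      constructor
      · rintro ⟨i, hi⟩
        exact ⟨i, (eq_div_iff hl).2 hi⟩
      · rintro ⟨i, hi⟩
        exact ⟨i, (eq_div_iff hl).1 hi⟩

end LCY

open LCY in
/-- **JOB LCY.** -/
theorem t_LCY (rr : S_RR) (cmy : S_CMY) : S_LCY := by
  intro m k Y pr δ e hC he hG hconn v hv hst
  obtain ⟨r, hr, s, hs, hfib⟩ := hC.sections 0 hC.base
  have h00 : (0 : Fin k → ℂ) ∈ ball (0 : Fin k → ℂ) r := mem_ball_self hr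
  -- the base point
  set y₀ : Fin m → ℂ := s ⟨0, he⟩ 0 with hy₀
  have hy₀Y : y₀ ∈ Y ∧ pr y₀ = 0 := by
    have h1 : y₀ ∈ {y | y ∈ Y ∧ pr y = 0} := by
      rw [(hfib 0 h00).2.2]
      exact ⟨⟨0, he⟩, rfl⟩
    exact h1
  have hy₀δ : MvPolynomial.eval (pr y₀) δ ≠ 0 := by rw [hy₀Y.2]; exact hC.base
  set w₀ : Yo Y pr δ := ⟨y₀, hy₀Y.1, hy₀δ⟩ with hw₀
  have hy₀L : y₀ ∈ Ln Y pr δ v := ⟨hy₀Y.1, ⟨0, by rw [hy₀Y.2, zero_smul]⟩, hy₀δ⟩
  have : PreconnectedSpace (Yo Y pr δ) := isPreconnected_iff_preconnectedSpace.1 hconn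
  -- points over `t v`, `t ≠ 0`
  have key : ∀ y ∈ Ln Y pr δ v, ∀ t : ℂ, t ≠ 0 → pr y = t • v →
      ∃ A, A ⊆ Ln Y pr δ v ∧ y₀ ∈ A ∧ y ∈ A ∧ IsPreconnected A := by
    intro y hy t ht hyt
    obtain ⟨hyY, -, hyδ⟩ := hy
    have h1 := rr k δ (Yo Y pr δ) (qY Y pr δ) (cmy m k Y pr δ e hC) hG w₀ hy₀Y.2
      ⟨y, hyY, hyδ⟩ (by rw [PreconnectedSpace.connectedComponent_eq_univ]; exact mem_univ _) (by
        have h2 : (qY Y pr δ ⟨y, hyY, hyδ⟩).1 = t • v := hyt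
        rw [h2]
        exact smul_stable hst ht)
    obtain ⟨c, hc, Γ, hΓ0, hΓ1, hΓ⟩ := h1
    refine ⟨range fun τ => (Γ τ).1, ?_, ⟨0, congrArg Subtype.val hΓ0⟩, ⟨1, congrArg Subtype.val hΓ1⟩, ?_⟩
    · rintro _ ⟨τ, rfl⟩
      refine ⟨(Γ τ).2.1, ⟨c τ * t, ?_⟩, (Γ τ).2.2⟩
      have h3 : pr (Γ τ).1 = c τ • pr y := hΓ τ
      rw [h3, hyt, smul_smul]
    · exact isPreconnected_range (continuous_subtype_val.comp Γ.continuous)
  refine isPreconnected_of_forall y₀ ?_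
  intro y hy
  obtain ⟨hyY, ⟨t, hyt⟩, hyδ⟩ := hy
  by_cases ht : t = 0
  · -- a point over `0`
    have hy0 : pr y = 0 := by rw [hyt, ht, zero_smul]
    obtain ⟨i, hi⟩ : y ∈ range fun i => s i 0 := by
      rw [← (hfib 0 h00).2.2]
      exact ⟨hyY, hy0⟩
    have hv0 : 0 < ‖v‖ := norm_pos_iff.2 hv
    set τ0 : ℝ := r / (2 * ‖v‖) with hτ0
    have hτ0p : 0 < τ0 := by positivity
    have hball : ∀ τ ∈ Icc (0 : ℝ) τ0, ((τ : ℂ) • v) ∈ ball (0 : Fin k → ℂ) r := by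
      intro τ hτ
      rw [mem_ball_zero_iff, norm_smul, Complex.norm_real, Real.norm_eq_abs, abs_of_nonneg hτ.1]
      calc τ * ‖v‖ ≤ τ0 * ‖v‖ := mul_le_mul_of_nonneg_right hτ.2 hv0.le
        _ = r / 2 := by rw [hτ0]; field_simp
        _ < r := by linarith
    have hmem : ∀ τ ∈ Icc (0 : ℝ) τ0, s i ((τ : ℂ) • v) ∈ Y ∧ pr (s i ((τ : ℂ) • v)) = (τ : ℂ) • v := by
      intro τ hτ
      have h1 : s i ((τ : ℂ) • v) ∈ {y | y ∈ Y ∧ pr y = (τ : ℂ) • v} := by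
        rw [(hfib _ (hball τ hτ)).2.2]
        exact ⟨i, rfl⟩
      exact h1
    have hsub : (fun τ : ℝ => s i ((τ : ℂ) • v)) '' Icc (0 : ℝ) τ0 ⊆ Ln Y pr δ v := by
      rintro _ ⟨τ, hτ, rfl⟩
      refine ⟨(hmem τ hτ).1, ⟨τ, (hmem τ hτ).2⟩, ?_⟩
      change MvPolynomial.eval (pr (s i ((τ : ℂ) • v))) δ ≠ 0
      rw [(hmem τ hτ).2]
      exact (hfib _ (hball τ hτ)).1
    have hcont : ContinuousOn (fun τ : ℝ => s i ((τ : ℂ) • v)) (Icc (0 : ℝ) τ0) := by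
      refine (hs i).continuousOn.comp ?_ hball
      exact ((Complex.continuous_ofReal.smul continuous_const)).continuousOn
    have hpre : IsPreconnected ((fun τ : ℝ => s i ((τ : ℂ) • v)) '' Icc (0 : ℝ) τ0) :=
      isPreconnected_Icc.image _ hcont
    have hend : s i ((τ0 : ℂ) • v) ∈ (fun τ : ℝ => s i ((τ : ℂ) • v)) '' Icc (0 : ℝ) τ0 :=
      ⟨τ0, ⟨hτ0p.le, le_rfl⟩, rfl⟩
    obtain ⟨A, hA1, hA2, hA3, hA4⟩ := key (s i ((τ0 : ℂ) • v)) (hsub hend) τ0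
      (by exact_mod_cast hτ0p.ne') (hmem τ0 ⟨hτ0p.le, le_rfl⟩).2
    refine ⟨A ∪ (fun τ : ℝ => s i ((τ : ℂ) • v)) '' Icc (0 : ℝ) τ0, union_subset hA1 hsub,
      Or.inl hA2, Or.inr ⟨0, ⟨le_rfl, hτ0p.le⟩, ?_⟩, ?_⟩
    · simp only [Complex.ofReal_zero, zero_smul]
      exact hi
    · exact IsPreconnected.union _ hA3 hend hA4 hpre
  · exact key y ⟨hyY, ⟨t, hyt⟩, hyδ⟩ t ht hyt

end Pool.Agent.Q22.GO
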