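import Pool.Agent.Q22.GO.Stm

set_option autoImplicit false

namespace Pool.Agent.Q22.GO

open H113G Metric Set Topology Filter

namespace LIOU

lemma holcomp {m : ℕ} {Y : Set (Fin m → ℂ)} {u : (Fin m → ℂ) → ℂ} (hu : HolOn Y u)
    {σ : ℂ → (Fin m → ℂ)} {t : ℂ} (hσ : DifferentiableAt ℂ σ t) (hY : ∀ᶠ x in 𝓝 t, σ x ∈ Y) :
    DifferentiableAt ℂ (fun x => u (σ x)) t := by
  obtain ⟨U, hU, hpU, h, hh, hhu⟩ := hu (σ t) hY.self_of_nhds
  have h1 : ∀ᶠ x in 𝓝 t, σ x ∈ U := hσ.continuousAt.eventually (hU.mem_nhds hpU)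
  have h2 : (fun x => u (σ x)) =ᶠ[𝓝 t] fun x => h (σ x) := by
    filter_upwards [h1, hY] with x hx hy
    exact (hhu _ hy hx).symm
  rw [h2.differentiableAt_iff]
  exact ((hh.differentiableAt (hU.mem_nhds hpU)).comp t hσ)

lemma holcont {m : ℕ} {Y : Set (Fin m → ℂ)} {u : (Fin m → ℂ) → ℂ} (hu : HolOn Y u) :
    ContinuousOn u Y := by
  intro p hp
  obtain ⟨U, hU, hpU, h, hh, hhu⟩ := hu p hp
  have h1 : ContinuousAt h p := (hh.differentiableAt (hU.mem_nhds hpU)).continuousAt
  have h2 : ContinuousWithinAt h Y p := h1.continuousWithinAt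
  refine h2.congr_of_eventuallyEq ?_ (hhu p hp hpU).symm
  filter_upwards [self_mem_nhdsWithin, mem_nhdsWithin_of_mem_nhds (hU.mem_nhds hpU)] with x hx hxU
  exact (hhu x hx hxU).symm

lemma finite_roots {k : ℕ} (δ : MvPolynomial (Fin k) ℂ) (h0 : MvPolynomial.eval 0 δ ≠ 0)
    (v : Fin k → ℂ) : {t : ℂ | MvPolynomial.eval (t • v) δ = 0}.Finite := by
  set p : Polynomial ℂ := MvPolynomial.aeval (fun i => Polynomial.X * Polynomial.C (v i)) δ
    with hp
  have hev : ∀ t : ℂ, p.eval t = MvPolynomial.eval (t • v) δ := by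
    intro t
    rw [hp, ← Polynomial.coe_evalRingHom, MvPolynomial.aeval_def, MvPolynomial.eval₂_eq']
    rw [map_sum, MvPolynomial.eval_eq']
    refine Finset.sum_congr rfl fun d _ => ?_
    rw [map_mul, map_prod]
    congr 1
    · simp
    · refine Finset.prod_congr rfl fun i _ => ?_
      simp only [Polynomial.coe_evalRingHom, Polynomial.eval_mul,
        Polynomial.eval_X, Polynomial.eval_C, Pi.smul_apply, smul_eq_mul, map_pow]
  have hne : p ≠ 0 := by
    intro h
    apply h0
    have := hev 0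
    rw [h, Polynomial.eval_zero, zero_smul] at this
    exact this.symm
  refine (p.roots.toFinset.finite_toSet).subset ?_
  intro t ht
  simp only [Finset.mem_coe, Multiset.mem_toFinset]
  rw [Polynomial.mem_roots hne, Polynomial.IsRoot.def, hev]
  exact ht

/-- a bounded function which is holomorphic off a finite set is constant off this set -/
lemma const_of_bdd {F : Set ℂ} (hF : F.Finite) {Q : ℂ → ℂ}
    (hd : ∀ t, t ∉ F → DifferentiableAt ℂ Q t) {C : ℝ} (hb : ∀ t, t ∉ F → ‖Q t‖ ≤ C) :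
    ∀ t, t ∉ F → ∀ t', t' ∉ F → Q t = Q t' := by
  classical
  set G : ℂ → ℂ := fun t => if t ∈ F then limUnder (𝓝[≠] t) Q else Q t with hG
  have hFc : IsOpen Fᶜ := hF.isClosed.isOpen_compl
  have hdG : Differentiable ℂ G := by
    intro t
    by_cases ht : t ∈ F
    · set s : Set ℂ := (F \ {t})ᶜ with hs
      have hso : IsOpen s := (hF.subset Set.sdiff_subset).isClosed.isOpen_compl
      have hst : t ∈ s := by simp [hs]
      have hmem : s ∈ 𝓝 t := hso.mem_nhds hst
      have hsd : ∀ x ∈ s \ {t}, x ∉ F := by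
        intro x hx hxF
        exact hx.1 ⟨hxF, hx.2⟩
      have h1 : DifferentiableOn ℂ (Function.update Q t (limUnder (𝓝[≠] t) Q)) s := by
        apply Complex.differentiableOn_update_limUnder_of_bddAbove hmem
        · intro x hx
          exact (hd x (hsd x hx)).differentiableWithinAt
        · refine ⟨C, ?_⟩
          rintro _ ⟨x, hx, rfl⟩
          exact hb x (hsd x hx)
      have h2 : DifferentiableAt ℂ (Function.update Q t (limUnder (𝓝[≠] t) Q)) t :=
        h1.differentiableAt hmem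
      have h3 : G =ᶠ[𝓝 t] Function.update Q t (limUnder (𝓝[≠] t) Q) := by
        filter_upwards [hmem] with x hx
        by_cases hxt : x = t
        · subst hxt
          simp [hG, ht]
        · have hxF : x ∉ F := hsd x ⟨hx, hxt⟩
          simp [hG, hxF, Function.update_of_ne hxt]
      rw [h3.differentiableAt_iff]
      exact h2
    · have h3 : G =ᶠ[𝓝 t] Q := by
        filter_upwards [hFc.mem_nhds ht] with x hx
        have hx' : x ∉ F := hx
        simp [hG, hx']
      rw [h3.differentiableAt_iff]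
      exact hd t ht
  have hbG : ∀ t, ‖G t‖ ≤ C := by
    intro t
    have hdense : Dense (Fᶜ) := hF.countable.dense_compl ℂ
    have hcl : IsClosed {x | ‖G x‖ ≤ C} := isClosed_le hdG.continuous.norm continuous_const
    have hsub : Fᶜ ⊆ {x | ‖G x‖ ≤ C} := by
      intro x hx
      have hx' : x ∉ F := hx
      show ‖G x‖ ≤ C
      simp only [hG, hx', if_false]
      exact hb x hx'
    have := hcl.closure_subset_iff.mpr hsub
    rw [hdense.closure_eq] at this
    exact this (mem_univ t)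
  have hbd : Bornology.IsBounded (range G) := by
    rw [isBounded_iff_forall_norm_le]
    refine ⟨C, ?_⟩
    rintro _ ⟨x, rfl⟩
    exact hbG x
  intro t ht t' ht'
  have := hdG.apply_eq_apply_of_bounded hbd t t'
  simpa [hG, ht, ht'] using this

end LIOU

open LIOU in
theorem t_LIOU : S_LIOU := by
  intro m k Y pr δ e hC v hv hconn u hu ⟨C, hCb⟩
  set F : Set ℂ := {t : ℂ | MvPolynomial.eval (t • v) δ = 0} with hFdef
  have hF : F.Finite := finite_roots δ hC.base v
  set fib : ℂ → Set (Fin m → ℂ) := fun t => {y | y ∈ Y ∧ pr y = t • v} with hfib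
  set Q : ℂ → ℂ → ℂ := fun x t => ∏ᶠ y ∈ fib t, (x - u y) with hQ
  have hC0 : ∀ y ∈ Y, (∃ t : ℂ, pr y = t • v) → ‖u y‖ ≤ |C| := fun y hy h =>
    (hCb y hy h).trans (le_abs_self C)
  have hloc : ∀ t, t ∉ F → ∃ s : Fin e → (Fin k → ℂ) → (Fin m → ℂ),
      (∀ i, DifferentiableAt ℂ (fun x : ℂ => s i (x • v)) t) ∧
      (∀ᶠ x in 𝓝 t, (Function.Injective fun i => s i (x • v)) ∧
        fib x = Set.range fun i => s i (x • v)) := by
    intro t ht
    obtain ⟨r, hr, s, hs, hs2⟩ := hC.sections (t • v) ht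
    have hcont : Continuous fun x : ℂ => x • v := continuous_id.smul continuous_const
    have hmem : ∀ᶠ x in 𝓝 t, x • v ∈ ball (t • v) r :=
      hcont.continuousAt.eventually (ball_mem_nhds _ hr)
    refine ⟨s, ?_, ?_⟩
    · intro i
      have h1 : DifferentiableAt ℂ (s i) (t • v) :=
        (hs i).differentiableAt (ball_mem_nhds _ hr)
      have h2 : DifferentiableAt ℂ (fun x : ℂ => x • v) t :=
        differentiableAt_id.smul_const v
      exact h1.comp t h2
    · filter_upwards [hmem] with x hx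
      exact ⟨(hs2 _ hx).2.1, (hs2 _ hx).2.2⟩
  have hQeq : ∀ (x t : ℂ) (σ : Fin e → (Fin m → ℂ)), Function.Injective σ →
      fib t = Set.range σ → Q x t = ∏ i, (x - u (σ i)) := by
    intro x t σ hinj hrange
    have : Q x t = ∏ᶠ y ∈ Set.range σ, (x - u y) := by
      simp only [hQ, hrange]
    rw [this, finprod_mem_range hinj, finprod_eq_prod_of_fintype]
  have hQd : ∀ x t, t ∉ F → DifferentiableAt ℂ (Q x) t := by
    intro x t ht
    obtain ⟨s, hs, hs2⟩ := hloc t ht
    have h1 : Q x =ᶠ[𝓝 t] fun z => ∏ i, (x - u (s i (z • v))) := by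
      filter_upwards [hs2] with z hz
      exact hQeq x z _ hz.1 hz.2
    rw [h1.differentiableAt_iff]
    apply DifferentiableAt.fun_finsetProd
    intro i _
    apply (differentiableAt_const x).sub
    refine holcomp hu (hs i) ?_
    filter_upwards [hs2] with z hz
    have : s i (z • v) ∈ fib z := by rw [hz.2]; exact mem_range_self i
    exact this.1
  have hQb : ∀ x t, t ∉ F → ‖Q x t‖ ≤ (‖x‖ + |C|) ^ e := by
    intro x t ht
    obtain ⟨s, hs, hs2⟩ := hloc t ht
    have h1 := hs2.self_of_nhds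
    rw [hQeq x t _ h1.1 h1.2, norm_prod]
    calc ∏ i, ‖x - u (s i (t • v))‖ ≤ ∏ _i : Fin e, (‖x‖ + |C|) := by
          refine Finset.prod_le_prod (fun _ _ => norm_nonneg _) fun i _ => ?_
          refine (norm_sub_le _ _).trans ?_
          have : s i (t • v) ∈ fib t := by rw [h1.2]; exact mem_range_self i
          exact add_le_add le_rfl (hC0 _ this.1 ⟨t, this.2⟩)
      _ = (‖x‖ + |C|) ^ e := by simp
  have hconst : ∀ x t, t ∉ F → ∀ t', t' ∉ F → Q x t = Q x t' := fun x =>
    const_of_bdd hF (hQd x) (hQb x)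
  have hzero : ∀ x t, t ∉ F → (Q x t = 0 ↔ ∃ y ∈ fib t, u y = x) := by
    intro x t ht
    obtain ⟨s, hs, hs2⟩ := hloc t ht
    have h1 := hs2.self_of_nhds
    rw [hQeq x t _ h1.1 h1.2, Finset.prod_eq_zero_iff]
    constructor
    · rintro ⟨i, _, hi⟩
      refine ⟨s i (t • v), by rw [h1.2]; exact mem_range_self i, (sub_eq_zero.mp hi).symm⟩
    · rintro ⟨y, hy, rfl⟩
      rw [h1.2] at hy
      obtain ⟨i, rfl⟩ := hy
      exact ⟨i, Finset.mem_univ _, sub_self _⟩
  intro y hy y' hy'
  obtain ⟨hyY, ⟨t, hyt⟩, hyδ⟩ := hy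
  have htF : t ∉ F := by
    intro h
    apply hyδ
    rw [hyt]
    exact h
  have hfin : (u '' (fib t)).Finite := by
    obtain ⟨s, hs, hs2⟩ := hloc t htF
    have h1 := hs2.self_of_nhds
    rw [h1.2]
    exact (Set.finite_range _).image u
  have himg : u '' (Ln Y pr δ v) ⊆ u '' (fib t) := by
    rintro _ ⟨z, ⟨hzY, ⟨t', hzt⟩, hzδ⟩, rfl⟩
    have ht'F : t' ∉ F := by
      intro h
      apply hzδ
      rw [hzt]
      exact h
    have h1 : Q (u z) t' = 0 := (hzero _ _ ht'F).mpr ⟨z, ⟨hzY, hzt⟩, rfl⟩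
    rw [← hconst (u z) t htF t' ht'F, hzero _ _ htF] at h1
    exact h1
  have hpre : IsPreconnected (u '' (Ln Y pr δ v)) :=
    hconn.image u ((holcont hu).mono fun z hz => hz.1)
  have hsub : (u '' (Ln Y pr δ v)).Subsingleton :=
    (hfin.subset himg).countable.isTotallyDisconnected _ subset_rfl hpre
  exact hsub ⟨y, ⟨hyY, ⟨t, hyt⟩, hyδ⟩, rfl⟩ ⟨y', hy', rfl⟩

end Pool.Agent.Q22.GO
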