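import Pool.Agent.Q22.GO.Stm
import Pool.Agent.Helper113.Gorin.G_end_bounded

set_option autoImplicit false

/-! Project GO (helper22), job LOGC (helper223): a unit with a logarithm is constant. -/

namespace Pool.Agent.Q22.GO

open H113G Metric Set Topology

theorem t_LOGC (bdd : S_BDD) (liou : S_LIOU) : S_LOGC := by
  intro m k Y pr δ e hCov v c κ Λ hv hE hpre u hTU hlog
  obtain ⟨h, hh, hexp⟩ := hlog
  refine liou m k Y pr δ e hCov v hv hpre u hTU.1 (bdd m k Y pr δ e hCov v c κ Λ hE u hTU.1 ?_)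
  intro i
  have hmem : ∀ s : ℂ, c < s.re → Λ i s ∈ Y ∧ pr (Λ i s) = Complex.exp s • v := by
    intro s hs
    have h1 : Λ i s ∈ {y | y ∈ Y ∧ pr y = Complex.exp s • v} := by
      rw [hE.fib s hs]
      exact ⟨i, rfl⟩
    exact h1
  have hLn : ∀ s : ℂ, c < s.re → Λ i s ∈ Ln Y pr δ v := by
    intro s hs
    refine ⟨(hmem s hs).1, ⟨_, (hmem s hs).2⟩, ?_⟩
    rw [(hmem s hs).2]
    exact hE.ne s hs
  have hopen : IsOpen {s : ℂ | c < s.re} := isOpen_lt continuous_const Complex.continuous_re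
  have hφ : DifferentiableOn ℂ (fun s => u (Λ i s)) {s : ℂ | c < s.re} := by
    intro s hs
    obtain ⟨U, hU, hpU, g, hg, he⟩ := hTU.1 (Λ i s) (hmem s hs).1
    have hΛ : DifferentiableAt ℂ (Λ i) s := (hE.diff i).differentiableAt (hopen.mem_nhds hs)
    have h2 : DifferentiableAt ℂ (fun x => g (Λ i x)) s :=
      (hg.differentiableAt (hU.mem_nhds hpU)).comp s hΛ
    refine (h2.congr_of_eventuallyEq ?_).differentiableWithinAt
    filter_upwards [hopen.mem_nhds hs, hΛ.continuousAt.preimage_mem_nhds (hU.mem_nhds hpU)] with x hx hxU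
    exact (he _ (hmem x hx).1 hxU).symm
  obtain ⟨A, C, c', hgr⟩ := hTU.2.2 i
  refine H113G.end_bounded (φ := fun s => u (Λ i s)) (L := fun s => h (Λ i s)) hE.pos hφ
    (fun s hs => hTU.2.1 _ (hmem s hs).1) ⟨A, C, c', fun s hs => (hgr s hs).1⟩
    (hh.comp (hE.diff i).continuousOn fun s hs => hLn s hs) (fun s hs => hexp _ (hLn s hs))
    (fun s hs => by simp only [hE.per i s hs])

end Pool.Agent.Q22.GO
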