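import Pool.Agent.Q22.GO.Stm

set_option autoImplicit false

/-! Project GO (helper22), job LOGL (helper166): a logarithm on a generic line gives a logarithm. -/

namespace Pool.Agent.Q22.GO

open H113G Metric Set Topology

namespace LOGL

/-- the base space is locally connected (small balls) -/
theorem sp_ball {k : ℕ} (δ : MvPolynomial (Fin k) ℂ) (z : Sp δ) (N : Set (Sp δ)) (hN : N ∈ 𝓝 z) :
    ∃ B ⊆ N, IsOpen B ∧ z ∈ B ∧ IsPreconnected B := by
  have hcont : Continuous (fun x : Fin k → ℂ => MvPolynomial.eval x δ) :=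
    MvPolynomial.continuous_eval δ
  have hopen : IsOpen {x : Fin k → ℂ | MvPolynomial.eval x δ ≠ 0} :=
    isOpen_ne_fun hcont continuous_const
  rw [nhds_subtype_eq_comap, Filter.mem_comap] at hN
  obtain ⟨U, hU, hUN⟩ := hN
  have h1 : U ∩ {x : Fin k → ℂ | MvPolynomial.eval x δ ≠ 0} ∈ 𝓝 (z : Fin k → ℂ) :=
    Filter.inter_mem hU (hopen.mem_nhds z.2)
  obtain ⟨ε, hε, hb⟩ := Metric.mem_nhds_iff.1 h1
  refine ⟨Subtype.val ⁻¹' ball (z : Fin k → ℂ) ε, ?_, isOpen_ball.preimage continuous_subtype_val,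
    mem_ball_self hε, ?_⟩
  · intro x hx
    exact hUN (hb hx).1
  · have h2 : ((fun x : Sp δ => (x : Fin k → ℂ)) ''
        ((fun x : Sp δ => (x : Fin k → ℂ)) ⁻¹' ball (z : Fin k → ℂ) ε) : Set (Fin k → ℂ)) =
        ball (z : Fin k → ℂ) ε := by
      ext x
      constructor
      · rintro ⟨x', hx', rfl⟩
        exact hx'
      · intro hx
        exact ⟨⟨x, (hb hx).2⟩, hx, rfl⟩
    have h3 := Topology.IsInducing.isPreconnected_image (f := fun x : Sp δ => (x : Fin k → ℂ))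
      (s := (fun x : Sp δ => (x : Fin k → ℂ)) ⁻¹' ball (z : Fin k → ℂ) ε)
      Topology.IsInducing.subtypeVal
    apply h3.1
    rw [h2]
    exact (convex_ball _ _).isPreconnected

/-- components of the total space of a covering of the base are open -/
theorem comp_open {k : ℕ} {δ : MvPolynomial (Fin k) ℂ} {W : Type} [TopologicalSpace W]
    {q : W → Sp δ} (cov : IsCoveringMap q) (w : W) : IsOpen (connectedComponent w) := by
  rw [isOpen_iff_mem_nhds]
  intro x hx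
  obtain ⟨φ, hφx, hφ⟩ := cov.isLocalHomeomorph x
  have hqx : q x ∈ φ.target := by rw [hφ]; exact φ.map_source hφx
  obtain ⟨B, hB1, hB2, hB3, hB4⟩ := sp_ball δ (q x) φ.target (φ.open_target.mem_nhds hqx)
  have hpre : IsPreconnected (φ.symm '' B) :=
    hB4.image _ (φ.continuousOn_symm.mono hB1)
  have hxB : x ∈ φ.symm '' B := ⟨q x, hB3, by rw [hφ]; exact φ.left_inv hφx⟩
  have hopen : IsOpen (φ.symm '' B) := by
    apply φ.symm.isOpen_image_of_subset_source hB2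
    simpa using hB1
  have hsub : φ.symm '' B ⊆ connectedComponent w := by
    rw [connectedComponent_eq hx]
    exact hpre.subset_connectedComponent hxB
  exact Filter.mem_of_superset (hopen.mem_nhds hxB) hsub

/-- translation of the logarithm -/
noncomputable def tr {m k : ℕ} (Y : Set (Fin m → ℂ)) (pr : (Fin m → ℂ) → (Fin k → ℂ))
    (δ : MvPolynomial (Fin k) ℂ) (g : (Fin m → ℂ) → ℂ) (n : ℤ) (w : Wg Y pr δ g) : Wg Y pr δ g :=
  ⟨(w.1.1, w.1.2 + n * (2 * Real.pi * Complex.I)), w.2.1, w.2.2.1, by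
    show Complex.exp (w.1.2 + n * (2 * Real.pi * Complex.I)) = g w.1.1
    rw [Complex.exp_add, Complex.exp_int_mul_two_pi_mul_I, mul_one, w.2.2.2]⟩

theorem tr_cont {m k : ℕ} (Y : Set (Fin m → ℂ)) (pr : (Fin m → ℂ) → (Fin k → ℂ))
    (δ : MvPolynomial (Fin k) ℂ) (g : (Fin m → ℂ) → ℂ) (n : ℤ) : Continuous (tr Y pr δ g n) := by
  apply Continuous.subtype_mk
  fun_prop

theorem exp_eq {a b : ℂ} (h : Complex.exp a = Complex.exp b) :
    ∃ n : ℤ, a = b + n * (2 * Real.pi * Complex.I) := by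
  exact Complex.exp_eq_exp_iff_exists_int.1 h

/-- an integer valued continuous function is constant -/
theorem int_const {h : unitInterval → ℂ} (hc : Continuous h)
    (hz : ∀ τ, ∃ n : ℤ, h τ = n * (2 * Real.pi * Complex.I)) (h0 : h 0 = 0) : h 1 = 0 := by
  choose n hn using hz
  have h2 : (2 * Real.pi * Complex.I : ℂ) ≠ 0 := Complex.two_pi_I_ne_zero
  -- the real valued function n
  have hcr : Continuous (fun τ => (n τ : ℝ)) := by
    have h3 : (fun τ => (n τ : ℝ)) = fun τ => (h τ / (2 * Real.pi * Complex.I)).re := by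
      funext τ
      rw [hn τ, mul_div_assoc, div_self h2, mul_one, Complex.intCast_re]
    rw [h3]
    exact Complex.continuous_re.comp (hc.div_const _)
  have hcn : Continuous n := by
    rw [Int.isClosedEmbedding_coe_real.isEmbedding.continuous_iff]
    exact hcr
  have hconst : n 1 = n 0 :=
    IsPreconnected.constant (isPreconnected_univ) hcn.continuousOn (mem_univ _) (mem_univ _)
  have hn0 : n 0 = 0 := by
    have h4 := hn 0
    rw [h0] at h4
    have h5 : ((n 0 : ℤ) : ℂ) = 0 := by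
      rcases mul_eq_zero.1 h4.symm with h | h
      · exact h
      · exact absurd h h2
    exact_mod_cast h5
  rw [hn 1, hconst, hn0]
  simp

end LOGL

open LOGL in
theorem t_LOGL (rr : S_RR) (cmw : S_CMW) : S_LOGL := by
  intro m k Y pr δ e hcov he hgen hconn v hv hst g hg hg0 hlog
  obtain ⟨h₁, hh₁c, hh₁⟩ := hlog
  have cov := cmw m k Y pr δ e hcov g hg hg0
  -- points over `0` and over `v`
  have hpt : ∀ z : Fin k → ℂ, MvPolynomial.eval z δ ≠ 0 → ∃ y ∈ Y, pr y = z := by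
    intro z hz
    obtain ⟨r, hr, s, -, hs⟩ := hcov.sections z hz
    obtain ⟨-, -, hfib⟩ := hs z (mem_ball_self hr)
    have : s ⟨0, he⟩ z ∈ {y | y ∈ Y ∧ pr y = z} := by rw [hfib]; exact ⟨_, rfl⟩
    exact ⟨_, this.1, this.2⟩
  obtain ⟨y₀, hy₀Y, hy₀⟩ := hpt 0 hcov.base
  have hy₀L : y₀ ∈ Ln Y pr δ v := ⟨hy₀Y, ⟨0, by rw [hy₀, zero_smul]⟩, by
    rw [hy₀]; exact hcov.base⟩
  let w₀ : Wg Y pr δ g := ⟨(y₀, h₁ y₀), hy₀Y, by rw [hy₀]; exact hcov.base, hh₁ y₀ hy₀L⟩
  have hw₀ : (qW Y pr δ g w₀).1 = 0 := hy₀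
  set C := connectedComponent w₀ with hC
  -- values over v
  have hover : ∀ w ∈ C, pr w.1.1 = v → w.1.2 = h₁ w.1.1 := by
    intro w hw hwv
    have hqw : (qW Y pr δ g w).1 = v := hwv
    have h1 : w ∈ Rch (qW Y pr δ g) w₀ := by
      apply rr k δ (Wg Y pr δ g) (qW Y pr δ g) cov hgen w₀ hw₀ w hw
      rw [hqw]; exact hst
    obtain ⟨c, hc, Γ, hΓ0, hΓ1, hΓ⟩ := h1
    rw [hqw] at hc hΓ
    have hL : ∀ τ, (Γ τ).1.1 ∈ Ln Y pr δ v := by
      intro τ
      refine ⟨(Γ τ).2.1, ⟨c τ, hΓ τ⟩, (Γ τ).2.2.1⟩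
    have hcont1 : Continuous (fun τ => (Γ τ).1.1) :=
      continuous_fst.comp (continuous_subtype_val.comp Γ.continuous)
    have hcont2 : Continuous (fun τ => (Γ τ).1.2) :=
      continuous_snd.comp (continuous_subtype_val.comp Γ.continuous)
    have hcont3 : Continuous (fun τ => h₁ (Γ τ).1.1) := hh₁c.comp_continuous hcont1 hL
    have hkey : (Γ 1).1.2 - h₁ (Γ 1).1.1 = 0 := by
      apply int_const (h := fun τ => (Γ τ).1.2 - h₁ (Γ τ).1.1) (hcont2.sub hcont3)
      · intro τ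
        obtain ⟨n, hn⟩ := exp_eq (a := (Γ τ).1.2) (b := h₁ (Γ τ).1.1) (by
          rw [(Γ τ).2.2.2, hh₁ _ (hL τ)])
        exact ⟨n, by rw [hn]; ring⟩
      · show (Γ 0).1.2 - h₁ (Γ 0).1.1 = 0
        rw [hΓ0]
        simp [w₀]
    rw [hΓ1] at hkey
    exact sub_eq_zero.1 hkey
  -- translations and components
  have htr : ∀ (n : ℤ) (a b : Wg Y pr δ g), a ∈ connectedComponent b →
      tr Y pr δ g n a ∈ connectedComponent (tr Y pr δ g n b) := by
    intro n a b hab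
    exact (tr_cont Y pr δ g n).image_connectedComponent_subset b ⟨a, hab, rfl⟩
  -- local branches of the logarithm
  have hgY : Continuous (fun y' : Yo Y pr δ => g y'.1) :=
    hg.comp_continuous continuous_subtype_val (fun y' => y'.2.1)
  have hloc : ∀ w : Wg Y pr δ g, ∃ (ℓ : Yo Y pr δ → ℂ) (N : Set (Yo Y pr δ)), IsOpen N ∧
      (⟨w.1.1, w.2.1, w.2.2.1⟩ : Yo Y pr δ) ∈ N ∧ ContinuousOn ℓ N ∧
      ∀ y' ∈ N, ∃ h3 : Complex.exp (ℓ y') = g y'.1,
        (⟨(y'.1, ℓ y'), y'.2.1, y'.2.2, h3⟩ : Wg Y pr δ g) ∈ connectedComponent w := by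
    intro w
    obtain ⟨y, hy⟩ : ∃ y : Yo Y pr δ, y = ⟨w.1.1, w.2.1, w.2.2.1⟩ := ⟨_, rfl⟩
    rw [← hy]
    have hgw : g w.1.1 = g y.1 := by rw [hy]
    have hgy : g y.1 ≠ 0 := hg0 y.1 y.2.1
    let ℓ : Yo Y pr δ → ℂ := fun y' => w.1.2 + Complex.log (g y'.1 / g y.1)
    have hℓy : ℓ y = w.1.2 := by
      simp [ℓ, div_self hgy]
    have hgq : Continuous (fun y' : Yo Y pr δ => g y'.1 / g y.1) := hgY.div_const _
    set N₀ : Set (Yo Y pr δ) := {y' | g y'.1 / g y.1 ∈ Complex.slitPlane} with hN₀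
    have hN₀o : IsOpen N₀ := Complex.isOpen_slitPlane.preimage hgq
    have hyN₀ : y ∈ N₀ := by
      show g y.1 / g y.1 ∈ Complex.slitPlane
      rw [div_self hgy]; exact Complex.one_mem_slitPlane
    have hℓc : ContinuousOn ℓ N₀ := by
      apply ContinuousOn.add continuousOn_const
      apply ContinuousOn.clog hgq.continuousOn
      intro y' h
      exact h
    have hexp : ∀ y' ∈ N₀, Complex.exp (ℓ y') = g y'.1 := by
      intro y' hy'
      simp only [ℓ]
      rw [Complex.exp_add, Complex.exp_log (Complex.slitPlane_ne_zero hy'), w.2.2.2, hgw]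
      field_simp
    let σ : N₀ → Wg Y pr δ g := fun y' => ⟨(y'.1.1, ℓ y'.1), y'.1.2.1, y'.1.2.2, hexp y'.1 y'.2⟩
    have hσ : Continuous σ := by
      apply Continuous.subtype_mk
      exact (continuous_subtype_val.comp continuous_subtype_val).prodMk
        (hℓc.comp_continuous continuous_subtype_val (fun y' => y'.2))
    have hσy : σ ⟨y, hyN₀⟩ = w := by
      apply Subtype.ext
      show (y.1, ℓ y) = w.1
      rw [hℓy, hy]
    have hopen : IsOpen (σ ⁻¹' connectedComponent w) := (comp_open cov w).preimage hσ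
    refine ⟨ℓ, (fun x : N₀ => (x : Yo Y pr δ)) '' (σ ⁻¹' connectedComponent w),
      hN₀o.isOpenMap_subtype_val _ hopen, ?_, ?_, ?_⟩
    · refine ⟨⟨y, hyN₀⟩, ?_, rfl⟩
      show σ ⟨y, hyN₀⟩ ∈ connectedComponent w
      rw [hσy]
      exact mem_connectedComponent
    · apply hℓc.mono
      rintro x ⟨x', -, rfl⟩
      exact x'.2
    · rintro x ⟨x', hx', rfl⟩
      exact ⟨hexp x'.1 x'.2, hx'⟩
  -- equality up to translation
  have heqtr : ∀ w w' : Wg Y pr δ g, w.1.1 = w'.1.1 → ∃ n : ℤ, w' = tr Y pr δ g n w := by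
    intro w w' h
    obtain ⟨n, hn⟩ := exp_eq (a := w'.1.2) (b := w.1.2) (by rw [w.2.2.2, w'.2.2.2, h])
    refine ⟨n, ?_⟩
    apply Subtype.ext
    show w'.1 = (w.1.1, w.1.2 + n * (2 * Real.pi * Complex.I))
    rw [h, ← hn]
  -- the projection of the component is everything
  have : PreconnectedSpace (Yo Y pr δ) := Subtype.preconnectedSpace hconn
  set P : Set (Yo Y pr δ) := {y | ∃ w ∈ C, w.1.1 = y.1} with hP
  have hPo : IsOpen P := by
    rw [isOpen_iff_forall_mem_open]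
    rintro y ⟨w, hw, hwy⟩
    obtain ⟨ℓ, N, hNo, hyN, -, hN⟩ := hloc w
    refine ⟨N, ?_, hNo, ?_⟩
    · intro y' hy'
      obtain ⟨h3, h4⟩ := hN y' hy'
      refine ⟨⟨(y'.1, ℓ y'), y'.2.1, y'.2.2, h3⟩, ?_, rfl⟩
      rw [hC, connectedComponent_eq hw]
      exact h4
    · have : y = ⟨w.1.1, w.2.1, w.2.2.1⟩ := Subtype.ext hwy.symm
      rw [this]; exact hyN
  have hPc : IsClosed P := by
    rw [← isOpen_compl_iff, isOpen_iff_forall_mem_open]
    intro y hy
    have hgy : g y.1 ≠ 0 := hg0 y.1 y.2.1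
    let w : Wg Y pr δ g := ⟨(y.1, Complex.log (g y.1)), y.2.1, y.2.2, Complex.exp_log hgy⟩
    obtain ⟨ℓ, N, hNo, hyN, -, hN⟩ := hloc w
    refine ⟨N, ?_, hNo, hyN⟩
    rintro y' hy' ⟨w', hw', hwy'⟩
    obtain ⟨h3, h4⟩ := hN y' hy'
    obtain ⟨n, hn⟩ := heqtr ⟨(y'.1, ℓ y'), y'.2.1, y'.2.2, h3⟩ w' hwy'.symm
    have h5 : w' ∈ connectedComponent (tr Y pr δ g n w) := by
      rw [hn]
      exact htr n _ _ h4
    apply hy
    refine ⟨tr Y pr δ g n w, ?_, rfl⟩
    rw [hC, connectedComponent_eq hw', ← connectedComponent_eq h5]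
    exact mem_connectedComponent
  have hPne : P.Nonempty := ⟨⟨y₀, hy₀L.1, hy₀L.2.2⟩, w₀, mem_connectedComponent, rfl⟩
  have hPu : P = univ := IsClopen.eq_univ ⟨hPc, hPo⟩ hPne
  -- uniqueness
  have huniq : ∀ w ∈ C, ∀ w' ∈ C, w.1.1 = w'.1.1 → w = w' := by
    intro w hw w' hw' h
    obtain ⟨n, hn⟩ := heqtr w w' h
    have h1 : w' ∈ connectedComponent (tr Y pr δ g n w₀) := by
      rw [hn]; exact htr n _ _ hw
    have h2 : connectedComponent (tr Y pr δ g n w₀) = C := by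
      rw [connectedComponent_eq h1, hC, connectedComponent_eq hw']
    obtain ⟨y₁, hy₁Y, hy₁⟩ := hpt v hv
    have h3 : (⟨y₁, hy₁Y, by rw [hy₁]; exact hv⟩ : Yo Y pr δ) ∈ P := by rw [hPu]; exact mem_univ _
    obtain ⟨w₁, hw₁, hw₁y⟩ := h3
    have hw₁y : w₁.1.1 = y₁ := hw₁y
    have h4 : tr Y pr δ g n w₁ ∈ C := by
      rw [← h2]; exact htr n _ _ hw₁
    have h5 := hover w₁ hw₁ (by rw [hw₁y]; exact hy₁)
    have h6 := hover _ h4 (by show pr w₁.1.1 = v; rw [hw₁y]; exact hy₁)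
    have h7 : w₁.1.2 + n * (2 * Real.pi * Complex.I) = h₁ w₁.1.1 := h6
    have h8 : (n : ℂ) * (2 * Real.pi * Complex.I) = 0 := by
      rw [h5] at h7
      exact add_eq_left.1 h7
    apply Subtype.ext
    rw [hn]
    show w.1 = (w.1.1, w.1.2 + n * (2 * Real.pi * Complex.I))
    rw [h8, add_zero]
  have hex : ∀ y : Yo Y pr δ, ∃ w ∈ C, w.1.1 = y.1 := by
    intro y
    have : y ∈ P := by rw [hPu]; exact mem_univ _
    exact this
  choose W hWC hWy using hex
  classical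
  refine ⟨fun y => if hy : y ∈ Y ∧ MvPolynomial.eval (pr y) δ ≠ 0 then (W ⟨y, hy⟩).1.2 else 0,
    ?_, ?_⟩
  · rw [continuousOn_iff_continuous_domRestrict]
    have heq : ({y | y ∈ Y ∧ MvPolynomial.eval (pr y) δ ≠ 0} : Set (Fin m → ℂ)).domRestrict
        (fun y => if hy : y ∈ Y ∧ MvPolynomial.eval (pr y) δ ≠ 0 then (W ⟨y, hy⟩).1.2 else 0) =
        fun y : Yo Y pr δ => (W y).1.2 := by
      funext y
      have hy' : y.1 ∈ Y ∧ MvPolynomial.eval (pr y.1) δ ≠ 0 := y.2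
      show dite _ _ _ = _
      rw [dif_pos hy']
      rfl
    rw [heq]
    apply continuous_iff_continuousAt.2
    intro y
    obtain ⟨ℓ, N, hNo, hyN, hℓ, hN⟩ := hloc (W y)
    have hy' : (⟨(W y).1.1, (W y).2.1, (W y).2.2.1⟩ : Yo Y pr δ) = y := Subtype.ext (hWy y)
    rw [hy'] at hyN
    have h1 : ∀ y' ∈ N, (W y').1.2 = ℓ y' := by
      intro y' hyN'
      obtain ⟨h3, h4⟩ := hN y' hyN'
      have h5 : (⟨(y'.1, ℓ y'), y'.2.1, y'.2.2, h3⟩ : Wg Y pr δ g) ∈ C := by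
        rw [hC, connectedComponent_eq (hWC y)]
        exact h4
      have h6 := huniq _ (hWC y') _ h5 (hWy y')
      rw [h6]
    have h2 : ContinuousAt ℓ y := hℓ.continuousAt (hNo.mem_nhds hyN)
    apply h2.congr
    filter_upwards [hNo.mem_nhds hyN] with y' hyN'
    exact (h1 y' hyN').symm
  · intro y hy
    have hy' : y ∈ Y ∧ MvPolynomial.eval (pr y) δ ≠ 0 := hy
    show Complex.exp (dite _ _ _) = g y
    rw [dif_pos hy', (W ⟨y, hy'⟩).2.2.2, hWy ⟨y, hy'⟩]

end Pool.Agent.Q22.GO
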