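import Pool.Agent.Q22.GO.THIN

set_option autoImplicit false

/-!
# Project GO (helper22), job LOGX (helper299)
-/

namespace Pool.Agent.Q22.GO

open H113G Metric Set Topology

namespace LOGX

/-- the logarithms of `1` -/
theorem discr : DiscreteTopology {z : ℂ | Complex.exp z = 1} := by
  refine DiscreteTopology.of_forall_le_dist (r := 1) one_pos ?_
  intro z w hzw
  obtain ⟨n, hn⟩ := Complex.exp_eq_one_iff.1 z.2
  obtain ⟨k, hk⟩ := Complex.exp_eq_one_iff.1 w.2
  rw [Subtype.dist_eq, dist_eq_norm, hn, hk, ← sub_mul, norm_mul]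
  have h1 : (1 : ℝ) ≤ ‖((n : ℂ) - k)‖ := by
    rw [← Int.cast_sub, Complex.norm_intCast]
    have : n - k ≠ 0 := by
      intro h
      apply hzw
      have h2 : n = k := by omega
      exact Subtype.ext (by rw [hn, hk, h2])
    exact_mod_cast Int.one_le_abs this
  have h2 : (1 : ℝ) ≤ ‖(2 * (Real.pi : ℂ) * Complex.I)‖ := by
    rw [norm_mul, norm_mul, Complex.norm_I, mul_one, Complex.norm_real, Real.norm_eq_abs,
      abs_of_pos Real.pi_pos]
    have := Real.pi_gt_three
    have e : ‖(2 : ℂ)‖ = 2 := by simp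
    rw [e]
    linarith
  nlinarith

/-- two logarithms of a function on a preconnected set differ by a constant -/
theorem diff_const {m : ℕ} {S : Set (Fin m → ℂ)} (hS : IsPreconnected S)
    {g h l : (Fin m → ℂ) → ℂ} (hh : ContinuousOn h S) (hl : ContinuousOn l S)
    (h1 : ∀ y ∈ S, Complex.exp (h y) = g y) (h2 : ∀ y ∈ S, Complex.exp (l y) = g y) :
    ∃ c : ℂ, ∀ y ∈ S, h y = l y + c := by
  rcases S.eq_empty_or_nonempty with rfl | ⟨p, hp⟩
  · exact ⟨0, fun y hy => absurd hy (notMem_empty y)⟩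
  · refine ⟨h p - l p, fun y hy => ?_⟩
    have h3 : ∀ y ∈ S, (fun y => h y - l y) y ∈ {z : ℂ | Complex.exp z = 1} := by
      intro y hy
      show Complex.exp (h y - l y) = 1
      rw [Complex.exp_sub, h1 y hy, h2 y hy]
      refine div_self ?_
      rw [← h2 y hy]
      exact Complex.exp_ne_zero _
    have h4 := hS.constant_of_mapsTo ⟨discr⟩ (hh.sub hl) h3 hy hp
    have h5 : h y - l y = h p - l p := h4
    linear_combination h5

end LOGX

theorem t_LOGX (ball : S_BALL) (thin : S_THIN) : S_LOGX := by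
  intro m Y hY hc u hu hex g hg hg0 hlog
  obtain ⟨h, hh, hexp⟩ := hlog
  obtain ⟨hdense, -⟩ := thin m Y hY hc u hu hex
  set S : Set (Fin m → ℂ) := {y | y ∈ Y ∧ u y ≠ 0} with hS
  have hcl : Y ⊆ closure S := by
    intro p hp
    rw [mem_closure_iff_nhds]
    intro N hN
    obtain ⟨y, hy, hyN, hne⟩ := hdense p hp N hN
    exact ⟨y, hyN, hy, hne⟩
  have hlim : ∀ p ∈ Y, ∃ z, Filter.Tendsto h (𝓝[S] p) (𝓝 z) := by
    intro p hp
    have hgp : g p ≠ 0 := hg0 p hp
    have hcont : ContinuousWithinAt g Y p := hg p hp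
    have hnear : ∀ᶠ y in 𝓝[Y] p, ‖g y - g p‖ < ‖g p‖ := by
      have := hcont.eventually (Metric.ball_mem_nhds (g p) (norm_pos_iff.2 hgp))
      filter_upwards [this] with y hy
      rwa [dist_eq_norm] at hy
    rw [eventually_nhdsWithin_iff] at hnear
    obtain ⟨V, hVN, hV, hpV, hcase⟩ := THIN.piece ball hY hu hp hnear
    have hpre : IsPreconnected {z | z ∈ Y ∧ z ∈ V ∧ u z ≠ 0} := by
      rcases hcase with h0 | h1
      · obtain ⟨z, hz, hzV, hne⟩ := hdense p hp V (hV.mem_nhds hpV)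
        exact absurd (h0 z hz hzV) hne
      · exact h1.2
    set l : (Fin m → ℂ) → ℂ := fun y => Complex.log (g p) + Complex.log (g y / g p) with hl
    have hslit : ∀ y ∈ Y, y ∈ V → g y / g p ∈ Complex.slitPlane := by
      intro y hy hyV
      have h1 : ‖g y - g p‖ < ‖g p‖ := hVN hyV hy
      have h2 : ‖g y / g p - 1‖ < 1 := by
        rw [div_sub_one hgp, norm_div, div_lt_one (norm_pos_iff.2 hgp)]
        exact h1
      have h3 : (1 : ℂ) + (g y / g p - 1) ∈ Complex.slitPlane :=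
        Complex.mem_slitPlane_of_norm_lt_one h2
      rwa [add_sub_cancel] at h3
    have hlc : ContinuousOn l (Y ∩ V) := by
      refine continuousOn_const.add ?_
      exact ((hg.mono inter_subset_left).div_const _).clog fun y hy => hslit y hy.1 hy.2
    have hle : ∀ y ∈ Y, Complex.exp (l y) = g y := by
      intro y hy
      show Complex.exp (Complex.log (g p) + Complex.log (g y / g p)) = g y
      rw [Complex.exp_add, Complex.exp_log hgp, Complex.exp_log (div_ne_zero (hg0 y hy) hgp)]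
      field_simp
    obtain ⟨c, hc'⟩ := LOGX.diff_const hpre (g := g) (h := h) (l := l)
      (hh.mono fun y hy => ⟨hy.1, hy.2.2⟩) (hlc.mono fun y hy => ⟨hy.1, hy.2.1⟩)
      (fun y hy => hexp y ⟨hy.1, hy.2.2⟩) (fun y hy => hle y hy.1)
    refine ⟨l p + c, ?_⟩
    have h1 : Filter.Tendsto (fun y => l y + c) (𝓝[Y ∩ V] p) (𝓝 (l p + c)) :=
      ((hlc p ⟨hp, hpV⟩).add continuousWithinAt_const)
    have h2 : 𝓝[S] p ≤ 𝓝[Y ∩ V] p := by
      rw [nhdsWithin_inter_of_mem' (mem_nhdsWithin_of_mem_nhds (hV.mem_nhds hpV))]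
      exact nhdsWithin_mono p fun y hy => hy.1
    refine (h1.mono_left h2).congr' ?_
    filter_upwards [self_mem_nhdsWithin, mem_nhdsWithin_of_mem_nhds (hV.mem_nhds hpV)] with y hy hyV
    exact (hc' y ⟨hy.1, hyV, hy.2⟩).symm
  refine ⟨extendFrom S h, continuousOn_extendFrom hcl hlim, ?_⟩
  intro p hp
  have : (𝓝[S] p).NeBot := mem_closure_iff_nhdsWithin_neBot.1 (hcl hp)
  obtain ⟨z, hz⟩ := hlim p hp
  have h1 : extendFrom S h p = z := extendFrom_eq (hcl hp) hz
  rw [h1]
  have h2 : Filter.Tendsto (fun y => Complex.exp (h y)) (𝓝[S] p) (𝓝 (Complex.exp z)) :=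
    (Complex.continuous_exp.tendsto z).comp hz
  have h3 : Filter.Tendsto g (𝓝[S] p) (𝓝 (g p)) :=
    (hg p hp).mono_left (nhdsWithin_mono p fun y hy => hy.1)
  refine tendsto_nhds_unique (h2.congr' ?_) h3
  filter_upwards [self_mem_nhdsWithin] with y hy
  exact hexp y hy

end Pool.Agent.Q22.GO
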