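import Pool.Agent.Q186.GO.ND

set_option autoImplicit false

/-! Project GO, job ND (helper186). -/

namespace Pool.Agent.Q22.GO

theorem t_ND (ord : S_ORD) (idl : S_IDL) (en : S_END) (rat : S_RAT) (tup : S_TUP) (bdd : S_BDD)
    (liou : S_LIOU) : S_ND := Pool.Agent.Q186.GO.t_ND ord idl en rat tup bdd liou

end Pool.Agent.Q22.GO
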