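import Pool.Agent.Q22.GO.Stm
import Pool.Agent.Helper113.Gorin.G_end_growth

set_option autoImplicit false

/-! Project GO (helper22), job ORD (helper223): the order at an end. The first lemma is taken from the
proof of `H113G.end_growth` (helper113). -/

namespace Pool.Agent.Q22.GO

open H113G Metric Set Topology

namespace ORD

/-- the function of `q = exp (- s / κ)` -/
theorem punct {φ : ℂ → ℂ} {c : ℝ} {κ : ℕ} (hκ : 0 < κ)
    (hφ : DifferentiableOn ℂ φ {s : ℂ | c < s.re})
    (hper : ∀ s : ℂ, c < s.re → φ (s + 2 * Real.pi * κ * Complex.I) = φ s) :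
    ∃ f : ℂ → ℂ, DifferentiableOn ℂ f (ball 0 (Real.exp (-c / κ)) \ {0}) ∧
      (∀ s : ℂ, c < s.re → f (Complex.exp (-(s / κ))) = φ s) ∧
      ∀ z : ℂ, z ≠ 0 → ‖z‖ < Real.exp (-c / κ) → ∃ s : ℂ, c < s.re ∧ s.re = -(κ * Real.log ‖z‖) ∧
        f z = φ s := by
  have hκR : (0 : ℝ) < κ := by exact_mod_cast hκ
  have hκ' : (κ : ℂ) ≠ 0 := by exact_mod_cast hκ.ne'
  have hopen : IsOpen {s : ℂ | c < s.re} := isOpen_lt continuous_const Complex.continuous_re
  have hre0 : ∀ z : ℂ, z ≠ 0 → (-((κ : ℂ) * Complex.log z)).re = -(κ * Real.log ‖z‖) := by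
    intro z _
    rw [Complex.neg_re]
    have : ((κ : ℂ)) = ((κ : ℝ) : ℂ) := by simp
    rw [this, Complex.re_ofReal_mul, Complex.log_re]
  have hre : ∀ z : ℂ, z ≠ 0 → ‖z‖ < Real.exp (-c / κ) →
      c < (-((κ : ℂ) * Complex.log z)).re := by
    intro z hz hzr
    have h3 : Real.log ‖z‖ < -c / κ := (Real.log_lt_iff_lt_exp (norm_pos_iff.2 hz)).2 hzr
    rw [lt_div_iff₀ hκR] at h3
    rw [hre0 z hz]
    linarith
  have hexp1 : ∀ z : ℂ, z ≠ 0 → Complex.exp (-((-((κ : ℂ) * Complex.log z)) / κ)) = z := by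
    intro z hz
    have : -((-((κ : ℂ) * Complex.log z)) / κ) = Complex.log z := by
      field_simp
    rw [this, Complex.exp_log hz]
  have hre2 : ∀ z : ℂ, z ≠ 0 → ‖z‖ < Real.exp (-c / κ) →
      c < (-((κ : ℂ) * (Complex.log (-z) + Real.pi * Complex.I))).re := by
    intro z hz hzr
    have h2 := hre (-z) (neg_ne_zero.2 hz) (by rwa [norm_neg])
    have h3 : (-((κ : ℂ) * (Complex.log (-z) + Real.pi * Complex.I))).re =
        (-((κ : ℂ) * Complex.log (-z))).re := by
      have : -((κ : ℂ) * (Complex.log (-z) + Real.pi * Complex.I)) =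
          -((κ : ℂ) * Complex.log (-z)) - (((κ : ℝ) * Real.pi : ℝ) : ℂ) * Complex.I := by
        push_cast; ring
      rw [this, Complex.sub_re, Complex.re_ofReal_mul, Complex.I_re, mul_zero, sub_zero]
    rw [h3]
    exact h2
  have hexp2 : ∀ z : ℂ, z ≠ 0 →
      Complex.exp (-((-((κ : ℂ) * (Complex.log (-z) + Real.pi * Complex.I))) / κ)) = z := by
    intro z hz
    have : -((-((κ : ℂ) * (Complex.log (-z) + Real.pi * Complex.I))) / κ) =
        Complex.log (-z) + Real.pi * Complex.I := by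
      field_simp
    rw [this, Complex.exp_add, Complex.exp_log (neg_ne_zero.2 hz), Complex.exp_pi_mul_I]
    ring
  have hf12 : ∀ z : ℂ, z ≠ 0 → ‖z‖ < Real.exp (-c / κ) →
      φ (-((κ : ℂ) * Complex.log z)) =
        φ (-((κ : ℂ) * (Complex.log (-z) + Real.pi * Complex.I))) := by
    intro z hz hzr
    exact end_growth_exp hκ hper (hre2 z hz hzr) (by rw [hexp1 z hz, hexp2 z hz])
  refine ⟨fun z : ℂ => φ (-((κ : ℂ) * Complex.log z)), ?_, ?_, ?_⟩
  · have hballo : IsOpen (ball (0 : ℂ) (Real.exp (-c / κ)) \ {0}) :=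
      isOpen_ball.sdiff isClosed_singleton
    intro z hz
    have hz0 : z ≠ 0 := hz.2
    have hzr : ‖z‖ < Real.exp (-c / κ) := mem_ball_zero_iff.1 hz.1
    refine DifferentiableAt.differentiableWithinAt ?_
    by_cases hsl : z ∈ Complex.slitPlane
    · have h2 : DifferentiableAt ℂ φ (-((κ : ℂ) * Complex.log z)) :=
        hφ.differentiableAt (hopen.mem_nhds (hre z hz0 hzr))
      have h3 : DifferentiableAt ℂ (fun z : ℂ => -((κ : ℂ) * Complex.log z)) z :=
        ((Complex.differentiableAt_log hsl).const_mul _).neg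
      exact DifferentiableAt.comp (g := φ) (f := fun z : ℂ => -((κ : ℂ) * Complex.log z)) z h2 h3
    · have hsl2 : -z ∈ Complex.slitPlane := by
        rw [Complex.mem_slitPlane_iff] at hsl ⊢
        push Not at hsl
        left
        rcases lt_or_eq_of_le hsl.1 with h | h
        · rw [Complex.neg_re]; linarith
        · exact absurd (Complex.ext h hsl.2) hz0
      have h2 : DifferentiableAt ℂ φ (-((κ : ℂ) * (Complex.log (-z) + Real.pi * Complex.I))) :=
        hφ.differentiableAt (hopen.mem_nhds (hre2 z hz0 hzr))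
      have h4 : DifferentiableAt ℂ (fun z : ℂ => Complex.log (-z)) z :=
        DifferentiableAt.comp (g := Complex.log) (f := fun z : ℂ => -z) z
          (Complex.differentiableAt_log hsl2) differentiableAt_id.neg
      have h3 : DifferentiableAt ℂ
          (fun z : ℂ => -((κ : ℂ) * (Complex.log (-z) + Real.pi * Complex.I))) z :=
        ((h4.add_const _).const_mul _).neg
      have h5 := DifferentiableAt.comp (g := φ)
        (f := fun z : ℂ => -((κ : ℂ) * (Complex.log (-z) + Real.pi * Complex.I))) z h2 h3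
      refine h5.congr_of_eventuallyEq ?_
      filter_upwards [hballo.mem_nhds hz] with w hw
      exact hf12 w hw.2 (mem_ball_zero_iff.1 hw.1)
  · intro s hs
    refine end_growth_exp hκ hper hs ?_
    rw [hexp1 _ (Complex.exp_ne_zero _)]
  · intro z hz hzr
    exact ⟨_, hre z hz hzr, hre0 z hz, rfl⟩

end ORD

open ORD in
theorem t_ORD : S_ORD := by
  intro c κ φ hκ hφ h0 hper ⟨A, C, c', hgr⟩
  have hκR : (0 : ℝ) < κ := by exact_mod_cast hκ
  obtain ⟨f, hf, hfs, hfz⟩ := punct hκ hφ hper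
  set R0 : ℝ := Real.exp (-c / κ) with hR0
  have hR0p : 0 < R0 := Real.exp_pos _
  -- the multiplied function is bounded near 0
  set M : ℕ := ⌈A * κ⌉₊ with hM
  have hMA : A * κ ≤ M := Nat.le_ceil _
  set R1 : ℝ := min (min R0 (Real.exp (-c' / κ))) 1 with hR1
  have hR1p : 0 < R1 := by positivity
  have hR1a : R1 ≤ R0 := le_trans (min_le_left _ _) (min_le_left _ _)
  have hR1b : R1 ≤ Real.exp (-c' / κ) := le_trans (min_le_left _ _) (min_le_right _ _)
  have hR1c : R1 ≤ 1 := min_le_right _ _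
  have hfd : DifferentiableOn ℂ f (ball 0 R1 \ {0}) :=
    hf.mono (sdiff_subset_sdiff_left (ball_subset_ball hR1a))
  have hd : DifferentiableOn ℂ (fun q : ℂ => q ^ M * f q) (ball 0 R1 \ {0}) :=
    (differentiable_id.pow M).differentiableOn.mul hfd
  have hbd : ∀ q : ℂ, q ≠ 0 → ‖q‖ < R1 → ‖q ^ M * f q‖ ≤ C := by
    intro q hq hqr
    obtain ⟨s, hs, hsre, hfq⟩ := hfz q hq (lt_of_lt_of_le hqr hR1a)
    have hq0 : 0 < ‖q‖ := norm_pos_iff.2 hq
    have hs' : c' < s.re := by
      have h3 : Real.log ‖q‖ < -c' / κ :=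
        (Real.log_lt_iff_lt_exp hq0).2 (lt_of_lt_of_le hqr hR1b)
      rw [lt_div_iff₀ hκR] at h3
      rw [hsre]
      linarith
    have h1 := (hgr s hs').1
    rw [norm_mul, norm_pow, hfq]
    have hlog : Real.log ‖q‖ ≤ 0 := Real.log_nonpos hq0.le (le_trans hqr.le hR1c)
    have h2 : ‖q‖ ^ M = Real.exp (M * Real.log ‖q‖) := by
      rw [Real.exp_nat_mul, Real.exp_log hq0]
    have h4 : ‖q‖ ^ M * Real.exp (A * s.re) ≤ 1 := by
      rw [h2, ← Real.exp_add, ← Real.exp_zero]
      apply Real.exp_le_exp.2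
      rw [hsre]
      have : (M : ℝ) * Real.log ‖q‖ + A * -(κ * Real.log ‖q‖) = (M - A * κ) * Real.log ‖q‖ := by ring
      rw [this]
      exact mul_nonpos_of_nonneg_of_nonpos (by linarith) hlog
    have hC : 0 ≤ C := by
      by_contra hC
      push Not at hC
      have := norm_nonneg (φ s)
      have h5 : C * Real.exp (A * s.re) < 0 := mul_neg_of_neg_of_pos hC (Real.exp_pos _)
      linarith
    calc ‖q‖ ^ M * ‖φ s‖ ≤ ‖q‖ ^ M * (C * Real.exp (A * s.re)) := by gcongr
      _ = C * (‖q‖ ^ M * Real.exp (A * s.re)) := by ring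
      _ ≤ C * 1 := by gcongr
      _ = C := mul_one C
  -- removable singularity
  set g0 : ℂ → ℂ := fun q => q ^ M * f q with hg0
  have hnhds : ball (0 : ℂ) R1 ∈ 𝓝 (0 : ℂ) := ball_mem_nhds _ hR1p
  have hba : BddAbove (norm ∘ g0 '' (ball 0 R1 \ {0})) := by
    refine ⟨C, ?_⟩
    rintro x ⟨q, hq, rfl⟩
    exact hbd q hq.2 (mem_ball_zero_iff.1 hq.1)
  have hrem := Complex.differentiableOn_update_limUnder_of_bddAbove hnhds hd hba
  set F : ℂ → ℂ := Function.update g0 0 ((𝓝[≠] (0 : ℂ)).limUnder g0) with hF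
  have hFq : ∀ q : ℂ, q ≠ 0 → F q = q ^ M * f q := fun q hq => Function.update_of_ne hq _ _
  have hFa : AnalyticAt ℂ F 0 := hrem.analyticAt hnhds
  have hfne : ∀ q : ℂ, q ≠ 0 → ‖q‖ < R1 → f q ≠ 0 := by
    intro q hq hqr
    obtain ⟨s, hs, -, hfq⟩ := hfz q hq (lt_of_lt_of_le hqr hR1a)
    rw [hfq]
    exact h0 s hs
  have hFne : ¬ ∀ᶠ z in 𝓝 (0 : ℂ), F z = 0 := by
    intro hev
    rw [Metric.eventually_nhds_iff_ball] at hev
    obtain ⟨ε, hε, hball⟩ := hev
    set t : ℝ := min ε R1 / 2 with ht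
    have htp : 0 < t := by positivity
    have ht1 : t < ε := by
      have := min_le_left ε R1
      rw [ht]; linarith
    have ht2 : t < R1 := by
      have := min_le_right ε R1
      rw [ht]; linarith
    have htn : ‖(t : ℂ)‖ = t := by rw [Complex.norm_real, Real.norm_of_nonneg htp.le]
    have ht0 : (t : ℂ) ≠ 0 := by exact_mod_cast htp.ne'
    have h1 := hball (t : ℂ) (by rw [mem_ball_zero_iff, htn]; exact ht1)
    rw [hFq _ ht0] at h1
    exact mul_ne_zero (pow_ne_zero _ ht0) (hfne _ ht0 (by rw [htn]; exact ht2)) h1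
  obtain ⟨j, ψ, hψ, hψ0, hev⟩ := hFa.exists_eventuallyEq_pow_smul_nonzero_iff.2 hFne
  have hψd : ∀ᶠ z in 𝓝 (0 : ℂ), DifferentiableAt ℂ ψ z :=
    hψ.eventually_analyticAt.mono fun z hz => hz.differentiableAt
  have hψne : ∀ᶠ z in 𝓝 (0 : ℂ), ψ z ≠ 0 := hψ.continuousAt.eventually_ne hψ0
  obtain ⟨ε, hε, hball⟩ := Metric.eventually_nhds_iff_ball.1 ((hev.and hψd).and hψne)
  refine ⟨(j : ℤ) - M, min ε R1, ψ, by positivity, ?_, ?_, ?_⟩
  · intro q hq
    exact ((hball q (ball_subset_ball (min_le_left _ _) hq)).1.2).differentiableWithinAt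
  · intro q hq
    exact (hball q (ball_subset_ball (min_le_left _ _) hq)).2
  · intro s hs hsr
    set q : ℂ := Complex.exp (-(s / κ)) with hq
    have hq0 : q ≠ 0 := Complex.exp_ne_zero _
    have h1 := (hball q (mem_ball_zero_iff.2 (lt_of_lt_of_le hsr (min_le_left _ _)))).1.1
    rw [sub_zero, smul_eq_mul, hFq q hq0] at h1
    rw [← hfs s hs, zpow_sub₀ hq0, zpow_natCast, zpow_natCast, div_mul_eq_mul_div, ← h1,
      mul_div_cancel_left₀ _ (pow_ne_zero _ hq0)]

end Pool.Agent.Q22.GO
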