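import Pool.Agent.Q22.GO.Stm

set_option autoImplicit false

/-! Project GO (helper22), job PRIME (helper223): the vanishing ideal of a connected manifold is prime. -/

namespace Pool.Agent.Q22.GO

open H113G Metric Set Topology

namespace PRIME

theorem diff_eval {m : ℕ} (P : MvPolynomial (Fin m) ℂ) :
    Differentiable ℂ (fun y : Fin m → ℂ => MvPolynomial.eval y P) := by
  induction P using MvPolynomial.induction_on with
  | C a => simp
  | add p q hp hq =>
    simp only [map_add]
    exact hp.add hq
  | mul_X p i hp =>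
    have h : Differentiable ℂ (fun y : Fin m → ℂ => y i) := differentiable_apply i
    simp only [map_mul, MvPolynomial.eval_X]
    exact hp.mul h

theorem holOn_eval {m : ℕ} (Y : Set (Fin m → ℂ)) (P : MvPolynomial (Fin m) ℂ) :
    HolOn Y (fun y => MvPolynomial.eval y P) := fun _ _ =>
  ⟨univ, isOpen_univ, mem_univ _, fun y => MvPolynomial.eval y P, (diff_eval P).differentiableOn,
    fun _ _ _ => rfl⟩

end PRIME

open PRIME in
theorem t_PRIME (thin : S_THIN) : S_PRIME := by
  intro m Y hC hY
  refine ⟨?_, ?_⟩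
  · intro htop
    obtain ⟨y, hy⟩ := hY.nonempty
    have h1 : (1 : MvPolynomial (Fin m) ℂ) ∈ VI Y := by rw [htop]; exact Submodule.mem_top
    have h2 : MvPolynomial.eval y (1 : MvPolynomial (Fin m) ℂ) = 0 := h1 y hy
    rw [map_one] at h2
    exact one_ne_zero h2
  · intro P Q hPQ
    by_contra hcon
    push Not at hcon
    obtain ⟨hP, hQ⟩ := hcon
    have hP' : ∃ y ∈ Y, MvPolynomial.eval y P ≠ 0 := by
      by_contra h
      push Not at h
      exact hP h
    have hQ' : ∃ y ∈ Y, MvPolynomial.eval y Q ≠ 0 := by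
      by_contra h
      push Not at h
      exact hQ h
    obtain ⟨y, hy, hyQ⟩ := hQ'
    have hN : {x : Fin m → ℂ | MvPolynomial.eval x Q ≠ 0} ∈ 𝓝 y := by
      apply IsOpen.mem_nhds _ hyQ
      exact isOpen_ne_fun (diff_eval Q).continuous continuous_const
    obtain ⟨z, hz, hzN, hzP⟩ := (thin m Y hC hY.isPreconnected _ (holOn_eval Y P) hP').1 y hy _ hN
    have h3 : MvPolynomial.eval z (P * Q) = 0 := hPQ z hz
    rw [map_mul] at h3
    exact mul_ne_zero hzP hzN h3

end Pool.Agent.Q22.GO
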