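import Pool.Agent.Q22.GO.Stm

set_option autoImplicit false

/-! Project GO (helper22), job RAT (helper223): rational rank = complex rank. -/

namespace Pool.Agent.Q22.GO

open H113G Metric Set Topology

theorem t_RAT : S_RAT := by
  intro e n M hM μ hμ
  have hQ : ∀ x : Fin n → ℚ, (∀ i, ∑ j, x j * (M i j : ℚ) = 0) → x = 0 := by
    intro x hx
    obtain ⟨b, hb⟩ := IsLocalization.exist_integer_multiples_of_finite (nonZeroDivisors ℤ) x
    choose a ha using hb
    have hb0 : ((b : ℤ) : ℚ) ≠ 0 := by exact_mod_cast nonZeroDivisors.ne_zero b.2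
    have ha' : ∀ j, ((a j : ℤ) : ℚ) = ((b : ℤ) : ℚ) * x j := by
      intro j
      have h1 := ha j
      rw [zsmul_eq_mul] at h1
      simpa using h1
    have h0 : a = 0 := by
      apply hM
      intro i
      have h2 : ((∑ j, a j * M i j : ℤ) : ℚ) = 0 := by
        push_cast
        have h3 : ∑ j, (a j : ℚ) * (M i j : ℚ) = ((b : ℤ) : ℚ) * ∑ j, x j * (M i j : ℚ) := by
          rw [Finset.mul_sum]
          refine Finset.sum_congr rfl fun j _ => ?_
          rw [ha' j]
          ring
        rw [h3, hx i, mul_zero]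
      exact_mod_cast h2
    funext j
    have h4 := ha' j
    rw [h0] at h4
    simp only [Pi.zero_apply, Int.cast_zero] at h4
    exact (mul_eq_zero.1 h4.symm).resolve_left hb0
  funext j
  rw [Pi.zero_apply, ← Module.forall_dual_apply_eq_zero_iff ℚ]
  intro φ
  have h1 := hQ (fun j => φ (μ j)) (fun i => by
    have h2 := congrArg φ (hμ i)
    rw [map_sum, map_zero] at h2
    rw [← h2]
    refine Finset.sum_congr rfl fun j _ => ?_
    have h3 : μ j * (M i j : ℂ) = (M i j : ℚ) • μ j := by
      rw [Rat.smul_def, mul_comm]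
      push_cast
      rfl
    rw [h3, map_smul, smul_eq_mul, mul_comm])
  exact congrFun h1 j

end Pool.Agent.Q22.GO
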