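import Pool.Agent.Q22.GO.Stm

set_option autoImplicit false

/-!
Project GO (helper277): the reachable set is closed at stable points.
-/

namespace Pool.Agent.Q22.GO

open H113G Metric Set Topology

namespace RC

/-- a positive lower bound for finitely many positive numbers -/
theorem fin_pos {ι : Type} [Finite ι] (f : ι → ℝ) (hf : ∀ i, 0 < f i) :
    ∃ m : ℝ, 0 < m ∧ ∀ i, m ≤ f i := by
  cases isEmpty_or_nonempty ι
  · exact ⟨1, one_pos, fun i => isEmptyElim i⟩
  · obtain ⟨i0, h⟩ := Finite.exists_min f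
    exact ⟨f i0, hf i0, h⟩

/-- the field which pushes away from the points `b i` -/
noncomputable def pu {N : ℕ} (b : Fin N → ℂ) (ρ : ℝ) (t : ℂ) : ℂ :=
  ∑ i, (t - b i) * ((max 1 (2 * ρ / ‖t - b i‖) - 1 : ℝ) : ℂ)

theorem pu_zero {N : ℕ} (b : Fin N → ℂ) (ρ : ℝ) (hρ : 0 < ρ) (t : ℂ)
    (h : ∀ i, 2 * ρ ≤ ‖t - b i‖) : pu b ρ t = 0 := by
  unfold pu
  refine Finset.sum_eq_zero fun i _ => ?_
  have h1 : 2 * ρ / ‖t - b i‖ ≤ 1 := (div_le_one (by linarith [h i])).2 (h i)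
  rw [max_eq_left h1, sub_self, Complex.ofReal_zero, mul_zero]

theorem pu_near {N : ℕ} (b : Fin N → ℂ) (ρ : ℝ) (hρ : 0 < ρ)
    (hb : ∀ i j, i ≠ j → 6 * ρ ≤ ‖b i - b j‖) (t : ℂ) (i : Fin N) (hi : ‖t - b i‖ < 2 * ρ)
    (hne : t ≠ b i) : pu b ρ t = (t - b i) * ((2 * ρ / ‖t - b i‖ - 1 : ℝ) : ℂ) := by
  unfold pu
  rw [Finset.sum_eq_single i]
  · rw [max_eq_right]
    exact (one_le_div (norm_pos_iff.2 (sub_ne_zero.2 hne))).2 hi.le
  · intro j _ hj
    have h1 : ‖b i - b j‖ ≤ ‖t - b i‖ + ‖t - b j‖ := by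
      have h2 := norm_add_le (b i - t) (t - b j)
      rw [norm_sub_rev (b i) t] at h2
      have h3 : b i - t + (t - b j) = b i - b j := by ring
      rwa [h3] at h2
    have h4 := hb i j hj.symm
    have h5 : 2 * ρ ≤ ‖t - b j‖ := by linarith
    have h6 : 2 * ρ / ‖t - b j‖ ≤ 1 := (div_le_one (by linarith)).2 h5
    rw [max_eq_left h6, sub_self, Complex.ofReal_zero, mul_zero]
  · intro h
    exact absurd (Finset.mem_univ i) h

theorem push {N : ℕ} (b : Fin N → ℂ) (ρ : ℝ) (hρ : 0 < ρ)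
    (hb : ∀ i j, i ≠ j → 6 * ρ ≤ ‖b i - b j‖) (t : ℂ) (ht : ∀ i, t ≠ b i) (s : ℝ)
    (h0 : 0 ≤ s) (h1 : s ≤ 1) :
    (∀ j, t + (s : ℂ) * pu b ρ t ≠ b j) ∧
      (s = 1 → ∀ j, 2 * ρ ≤ ‖t + (s : ℂ) * pu b ρ t - b j‖) := by
  by_cases hc : ∃ i, ‖t - b i‖ < 2 * ρ
  · obtain ⟨i, hi⟩ := hc
    have hd : 0 < ‖t - b i‖ := norm_pos_iff.2 (sub_ne_zero.2 (ht i))
    have e1 : t + (s : ℂ) * pu b ρ t - b i =
        (t - b i) * ((1 + s * (2 * ρ / ‖t - b i‖ - 1) : ℝ) : ℂ) := by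
      rw [pu_near b ρ hρ hb t i hi (ht i)]
      push_cast
      ring
    have h2 : 1 ≤ 2 * ρ / ‖t - b i‖ := (one_le_div hd).2 hi.le
    have h3 : 0 ≤ s * (2 * ρ / ‖t - b i‖ - 1) := mul_nonneg h0 (by linarith)
    have e2 : ‖t + (s : ℂ) * pu b ρ t - b i‖ = ‖t - b i‖ + s * (2 * ρ - ‖t - b i‖) := by
      rw [e1, norm_mul, Complex.norm_real, Real.norm_of_nonneg (by linarith)]
      field_simp
    have h4 : ‖t - b i‖ ≤ ‖t + (s : ℂ) * pu b ρ t - b i‖ := by
      rw [e2]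
      have := mul_nonneg h0 (sub_nonneg.2 hi.le)
      linarith
    have h5 : ‖t + (s : ℂ) * pu b ρ t - b i‖ ≤ 2 * ρ := by
      rw [e2]
      nlinarith
    have h6 : ∀ j, j ≠ i → 4 * ρ ≤ ‖t + (s : ℂ) * pu b ρ t - b j‖ := by
      intro j hj
      have a1 := norm_sub_le (t + (s : ℂ) * pu b ρ t - b j) (t + (s : ℂ) * pu b ρ t - b i)
      have a2 : t + (s : ℂ) * pu b ρ t - b j - (t + (s : ℂ) * pu b ρ t - b i) = b i - b j := by
        ring
      rw [a2] at a1
      have a3 := hb i j hj.symm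
      linarith
    constructor
    · intro j hj
      by_cases hji : j = i
      · subst hji
        rw [hj, sub_self, norm_zero] at h4
        linarith
      · have := h6 j hji
        rw [hj, sub_self, norm_zero] at this
        linarith
    · intro hs j
      by_cases hji : j = i
      · subst hji
        rw [e2, hs]
        linarith
      · have := h6 j hji
        linarith
  · push Not at hc
    have e1 : t + (s : ℂ) * pu b ρ t = t := by
      rw [pu_zero b ρ hρ t hc, mul_zero, add_zero]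
    rw [e1]
    exact ⟨ht, fun _ => hc⟩

theorem continuous_pu {X : Type*} [TopologicalSpace X] {N : ℕ} (b : Fin N → ℂ) (ρ : ℝ)
    (c : X → ℂ) (hc : Continuous c) (h : ∀ x i, c x ≠ b i) : Continuous fun x => pu b ρ (c x) := by
  unfold pu
  refine continuous_finsetSum _ fun i _ => ?_
  have h1 : Continuous fun x => c x - b i := hc.sub continuous_const
  refine h1.mul (Complex.continuous_ofReal.comp ((continuous_const.max
    (continuous_const.div h1.norm fun x => ?_)).sub continuous_const))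
  exact (norm_pos_iff.2 (sub_ne_zero.2 (h x i))).ne'

end RC

open RC in
theorem t_RC : S_RC := by
  intro k δ W _ q hq w₀ h0 w hst hw
  obtain ⟨N, a, ha, hroots, hstab⟩ := hst
  have hδ0 : MvPolynomial.eval (0 : Fin k → ℂ) δ ≠ 0 := by
    have := (q w₀).2
    rwa [h0] at this
  have ha0 : ∀ i, 0 < ‖a i‖ := by
    intro i
    rw [norm_pos_iff]
    intro hi
    apply hδ0
    have := (hroots 0).2 ⟨i, hi.symm⟩
    rwa [zero_smul] at this
  have ha1 : ∀ i, 0 < ‖a i - 1‖ := by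
    intro i
    rw [norm_pos_iff, sub_ne_zero]
    intro hi
    apply (q w).2
    have := (hroots 1).2 ⟨i, hi.symm⟩
    rwa [one_smul] at this
  obtain ⟨m1, hm1, hl1⟩ := fin_pos (fun i => ‖a i‖) ha0
  obtain ⟨m2, hm2, hl2⟩ := fin_pos (fun i => ‖a i - 1‖) ha1
  obtain ⟨m3, hm3, hl3⟩ := fin_pos (fun p : {p : Fin N × Fin N // p.1 ≠ p.2} =>
    ‖a p.1.1 - a p.1.2‖) (fun p => norm_pos_iff.2 (sub_ne_zero.2 (fun h => p.2 (ha h))))
  obtain ⟨ρ, hρ, hρ1, hρ2, hρ3⟩ : ∃ ρ : ℝ, 0 < ρ ∧ 8 * ρ ≤ m1 ∧ 8 * ρ ≤ m2 ∧ 8 * ρ ≤ m3 := by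
    refine ⟨min m1 (min m2 m3) / 8, by positivity, ?_, ?_, ?_⟩
    · have := min_le_left m1 (min m2 m3)
      linarith
    · have := (min_le_right m1 (min m2 m3)).trans (min_le_left _ _)
      linarith
    · have := (min_le_right m1 (min m2 m3)).trans (min_le_right _ _)
      linarith
  obtain ⟨ε, hε, hb⟩ := hstab ρ hρ
  -- the sheet through `w`
  obtain ⟨e, hwe, hqe⟩ := hq.isLocalHomeomorph w
  have hopen : IsOpen {z : Fin k → ℂ | MvPolynomial.eval z δ ≠ 0} :=
    isOpen_ne_fun (MvPolynomial.continuous_eval δ) continuous_const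
  have hT : IsOpen (Subtype.val '' e.target) := hopen.isOpenMap_subtype_val _ e.open_target
  have hwT : (q w).1 ∈ (Subtype.val '' e.target : Set (Fin k → ℂ)) := by
    refine ⟨q w, ?_, rfl⟩
    rw [hqe]
    exact e.map_source hwe
  obtain ⟨r0, hr0, hball0⟩ := Metric.isOpen_iff.1 hT (q w).1 hwT
  obtain ⟨r, hr, hrr0, hrε⟩ : ∃ r : ℝ, 0 < r ∧ r ≤ r0 ∧ r ≤ ε :=
    ⟨min r0 ε, lt_min hr0 hε, min_le_left _ _, min_le_right _ _⟩
  have hN : e.source ∩ {w' | (q w').1 ∈ ball (q w).1 r} ∈ 𝓝 w := by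
    refine Filter.inter_mem (e.open_source.mem_nhds hwe) ?_
    exact (isOpen_ball.preimage (continuous_subtype_val.comp hq.continuous)).mem_nhds
      (mem_ball_self hr)
  obtain ⟨w', ⟨hw'e, hw'b⟩, hw'R⟩ := mem_closure_iff_nhds.1 hw _ hN
  obtain ⟨c, ⟨hc0, hc1, hcδ⟩, Γ, hΓ0, hΓ1, hΓ⟩ := hw'R
  obtain ⟨b, hba, hbr⟩ := hb (q w').1 (ball_subset_ball hrε hw'b)
  have hcb : ∀ τ i, c τ ≠ b i := fun τ i h => hcδ τ ((hbr _).2 ⟨i, h⟩)
  have hbb : ∀ i j, i ≠ j → 6 * ρ ≤ ‖b i - b j‖ := by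
    intro i j hij
    have a1 := hl3 ⟨(i, j), hij⟩
    simp only at a1
    have a2 := norm_add₃_le (a := a i - b i) (b := b i - b j) (c := b j - a j)
    have a3 : a i - b i + (b i - b j) + (b j - a j) = a i - a j := by ring
    rw [a3, norm_sub_rev (a i) (b i)] at a2
    have a4 := hba i
    have a5 := hba j
    linarith
  have hp0 : pu b ρ 0 = 0 := by
    refine pu_zero b ρ hρ 0 fun i => ?_
    have a1 : m1 ≤ ‖a i‖ := hl1 i
    have a2 := norm_add_le (a i - b i) (b i)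
    rw [sub_add_cancel, norm_sub_rev] at a2
    have a4 := hba i
    rw [zero_sub, norm_neg]
    linarith
  have hp1 : pu b ρ 1 = 0 := by
    refine pu_zero b ρ hρ 1 fun i => ?_
    have a1 : m2 ≤ ‖a i - 1‖ := hl2 i
    have a2 := norm_add_le (a i - b i) (b i - 1)
    rw [sub_add_sub_cancel, norm_sub_rev (a i) (b i), norm_sub_rev (b i) 1] at a2
    have a4 := hba i
    linarith
  have hcp : Continuous fun τ : unitInterval => pu b ρ (c τ) :=
    continuous_pu b ρ c c.continuous hcb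
  -- first homotopy
  have hFA : ∀ x : unitInterval × unitInterval,
      MvPolynomial.eval ((c x.2 + (((x.1 : ℝ)) : ℂ) * pu b ρ (c x.2)) • (q w').1) δ ≠ 0 := by
    intro x h
    obtain ⟨i, hi⟩ := (hbr _).1 h
    exact (push b ρ hρ hbb (c x.2) (hcb x.2) x.1 x.1.2.1 x.1.2.2).1 i hi
  have hFAc : Continuous fun x : unitInterval × unitInterval =>
      (c x.2 + (((x.1 : ℝ)) : ℂ) * pu b ρ (c x.2)) • (q w').1 := by
    have h1 : Continuous fun x : unitInterval × unitInterval => (((x.1 : ℝ)) : ℂ) :=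
      Complex.continuous_ofReal.comp (continuous_subtype_val.comp continuous_fst)
    have h2 : Continuous fun x : unitInterval × unitInterval => pu b ρ (c x.2) :=
      hcp.comp continuous_snd
    have h3 : Continuous fun x : unitInterval × unitInterval => c x.2 :=
      c.continuous.comp continuous_snd
    exact (h3.add (h1.mul h2)).smul continuous_const
  let FA : C(unitInterval × unitInterval, Sp δ) := ⟨fun x => ⟨_, hFA x⟩, hFAc.subtype_mk _⟩
  have hFA0 : ∀ τ, FA (0, τ) = q (Γ τ) := by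
    intro τ
    apply Subtype.ext
    rw [hΓ τ]
    show (c τ + (((0 : unitInterval) : ℝ) : ℂ) * pu b ρ (c τ)) • (q w').1 = c τ • (q w').1
    simp
  let GA := hq.liftHomotopy FA Γ hFA0
  have hGA : ∀ x, q (GA x) = FA x := congrFun (hq.liftHomotopy_lifts FA Γ hFA0)
  have hGA0 : ∀ τ, GA (0, τ) = Γ τ := hq.liftHomotopy_zero FA Γ hFA0
  have hGAw0 : GA (1, 0) = w₀ := by
    have h1 : GA (1, 0) = GA (0, 0) := by
      refine hq.const_of_comp (g := fun s : unitInterval => GA (s, 0))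
        (GA.continuous.comp (Continuous.prodMk_left _)) (fun s s' => ?_) 1 0
      rw [hGA, hGA]
      apply Subtype.ext
      show (c 0 + ((s : ℝ) : ℂ) * pu b ρ (c 0)) • (q w').1 =
        (c 0 + ((s' : ℝ) : ℂ) * pu b ρ (c 0)) • (q w').1
      rw [hc0, hp0, mul_zero, mul_zero]
    rw [h1, hGA0, hΓ0]
  have hGAw1 : GA (1, 1) = w' := by
    have h1 : GA (1, 1) = GA (0, 1) := by
      refine hq.const_of_comp (g := fun s : unitInterval => GA (s, 1))
        (GA.continuous.comp (Continuous.prodMk_left _)) (fun s s' => ?_) 1 0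
      rw [hGA, hGA]
      apply Subtype.ext
      show (c 1 + ((s : ℝ) : ℂ) * pu b ρ (c 1)) • (q w').1 =
        (c 1 + ((s' : ℝ) : ℂ) * pu b ρ (c 1)) • (q w').1
      rw [hc1, hp1, mul_zero, mul_zero]
    rw [h1, hGA0, hΓ1]
  -- second homotopy
  let C1 : C(unitInterval, ℂ) := ⟨fun τ => c τ + pu b ρ (c τ), c.continuous.add hcp⟩
  have hC1 : ∀ τ i, 2 * ρ ≤ ‖C1 τ - b i‖ := by
    intro τ i
    have := (push b ρ hρ hbb (c τ) (hcb τ) 1 zero_le_one le_rfl).2 rfl i
    rwa [Complex.ofReal_one, one_mul] at this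
  have hC10 : C1 0 = 0 := by
    show c 0 + pu b ρ (c 0) = 0
    rw [hc0, hp0, add_zero]
  have hC11 : C1 1 = 1 := by
    show c 1 + pu b ρ (c 1) = 1
    rw [hc1, hp1, add_zero]
  have hC1δ : ∀ τ, ∀ v ∈ ball (q w).1 r, MvPolynomial.eval (C1 τ • v) δ ≠ 0 := by
    intro τ v hv h
    obtain ⟨b', hb'a, hb'r⟩ := hb v (ball_subset_ball hrε hv)
    obtain ⟨i, hi⟩ := (hb'r _).1 h
    have a1 := hC1 τ i
    have a2 := hba i
    have a3 := hb'a i
    have a4 := norm_sub_le (b' i - a i) (b i - a i)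
    rw [sub_sub_sub_cancel_right] at a4
    rw [hi] at a1
    linarith
  have hvb : ∀ s : unitInterval,
      (1 - (s : ℝ)) • (q w').1 + (s : ℝ) • (q w).1 ∈ ball (q w).1 r := by
    intro s
    exact (convex_ball (q w).1 r) hw'b (mem_ball_self hr) (sub_nonneg.2 s.2.2) s.2.1 (by ring)
  have hvc : Continuous fun s : unitInterval =>
      (1 - (s : ℝ)) • (q w').1 + (s : ℝ) • (q w).1 := by fun_prop
  let FB : C(unitInterval × unitInterval, Sp δ) :=
    ⟨fun x => ⟨C1 x.2 • ((1 - (x.1 : ℝ)) • (q w').1 + (x.1 : ℝ) • (q w).1),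
      hC1δ x.2 _ (hvb x.1)⟩,
      ((C1.continuous.comp continuous_snd).smul (hvc.comp continuous_fst)).subtype_mk _⟩
  let ΓA : C(unitInterval, W) := ⟨fun τ => GA (1, τ), GA.continuous.comp (Continuous.prodMk_right _)⟩
  have hFB0 : ∀ τ, FB (0, τ) = q (ΓA τ) := by
    intro τ
    show FB (0, τ) = q (GA (1, τ))
    rw [hGA]
    apply Subtype.ext
    show (c τ + pu b ρ (c τ)) • ((1 - ((0 : unitInterval) : ℝ)) • (q w').1 +
      ((0 : unitInterval) : ℝ) • (q w).1) =
        (c τ + (((1 : unitInterval) : ℝ) : ℂ) * pu b ρ (c τ)) • (q w').1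
    simp
  let GB := hq.liftHomotopy FB ΓA hFB0
  have hGB : ∀ x, q (GB x) = FB x := congrFun (hq.liftHomotopy_lifts FB ΓA hFB0)
  have hGB0 : ∀ τ, GB (0, τ) = ΓA τ := hq.liftHomotopy_zero FB ΓA hFB0
  have hGBw0 : GB (1, 0) = w₀ := by
    have h1 : GB (1, 0) = GB (0, 0) := by
      refine hq.const_of_comp (g := fun s : unitInterval => GB (s, 0))
        (GB.continuous.comp (Continuous.prodMk_left _)) (fun s s' => ?_) 1 0
      rw [hGB, hGB]
      apply Subtype.ext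
      show C1 0 • ((1 - (s : ℝ)) • (q w').1 + (s : ℝ) • (q w).1) =
        C1 0 • ((1 - (s' : ℝ)) • (q w').1 + (s' : ℝ) • (q w).1)
      rw [hC10, zero_smul, zero_smul]
    rw [h1, hGB0]
    exact hGAw0
  -- comparison with the sheet
  have hmem : ∀ s : unitInterval, ∃ h : MvPolynomial.eval
      ((1 - (s : ℝ)) • (q w').1 + (s : ℝ) • (q w).1) δ ≠ 0,
      (⟨_, h⟩ : Sp δ) ∈ e.target := by
    intro s
    obtain ⟨y, hy, hys⟩ := hball0 (ball_subset_ball hrr0 (hvb s))
    have h1 : MvPolynomial.eval ((1 - (s : ℝ)) • (q w').1 + (s : ℝ) • (q w).1) δ ≠ 0 := by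
      rw [← hys]
      exact y.2
    refine ⟨h1, ?_⟩
    have h2 : (⟨_, h1⟩ : Sp δ) = y := Subtype.ext hys.symm
    rw [h2]
    exact hy
  let vS : C(unitInterval, Sp δ) := ⟨fun s => ⟨_, (hmem s).choose⟩, hvc.subtype_mk _⟩
  have hvS : ∀ s, vS s ∈ e.target := fun s => (hmem s).choose_spec
  have hvS1 : ∀ s, (vS s).1 = (1 - (s : ℝ)) • (q w').1 + (s : ℝ) • (q w).1 := fun _ => rfl
  clear_value vS
  have hσc : Continuous fun s : unitInterval => e.symm (vS s) :=
    e.continuousOn_symm.comp_continuous vS.continuous hvS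
  have hqe' : ∀ x, q x = e x := fun x => congrFun hqe x
  have hGBw1 : GB (1, 1) = w := by
    have h1 : (fun s : unitInterval => GB (s, 1)) = fun s : unitInterval => e.symm (vS s) := by
      refine hq.eq_of_comp_eq (GB.continuous.comp (Continuous.prodMk_left _)) hσc ?_ 0 ?_
      · funext s
        show q (GB (s, 1)) = q (e.symm (vS s))
        rw [hGB, hqe' (e.symm (vS s)), e.right_inv (hvS s)]
        apply Subtype.ext
        rw [hvS1]
        show C1 1 • ((1 - (s : ℝ)) • (q w').1 + (s : ℝ) • (q w).1) = _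
        rw [hC11, one_smul]
      · show GB (0, 1) = e.symm (vS 0)
        rw [hGB0]
        show GA (1, 1) = _
        rw [hGAw1]
        have h2 : vS 0 = e w' := by
          rw [← hqe']
          apply Subtype.ext
          rw [hvS1]
          simp
        rw [h2, e.left_inv hw'e]
    have h3 : GB (1, 1) = e.symm (vS 1) := congrFun h1 1
    rw [h3]
    have h2 : vS 1 = e w := by
      rw [← hqe']
      apply Subtype.ext
      rw [hvS1]
      simp
    rw [h2, e.left_inv hwe]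
  refine ⟨C1, ⟨hC10, hC11, fun τ => hC1δ τ _ (mem_ball_self hr)⟩,
    ⟨fun τ => GB (1, τ), GB.continuous.comp (Continuous.prodMk_right _)⟩, hGBw0, hGBw1,
    fun τ => ?_⟩
  show (q (GB (1, τ))).1 = C1 τ • (q w).1
  rw [hGB]
  show C1 τ • ((1 - ((1 : unitInterval) : ℝ)) • (q w').1 + ((1 : unitInterval) : ℝ) • (q w).1) = _
  simp

end Pool.Agent.Q22.GO
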