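import Pool.Agent.Q22.GO.Stm

set_option autoImplicit false

/-! Project GO: RO, the reachable set is open. -/

namespace Pool.Agent.Q22.GO.RO

open Metric Set Topology

theorem lift_section {X W : Type} [TopologicalSpace X] [TopologicalSpace W] (q : W → X)
    (hq : IsCoveringMap q) (B : Set W) (hB : IsOpen B) (w₀ w : W) (hw : w ∈ B)
    (H : C(unitInterval × B, X)) (hH0 : ∀ a, H (0, a) = q w₀) (hH1 : ∀ a : B, H (1, a) = q a.1)
    (Γ : C(unitInterval, W)) (hΓ0 : Γ 0 = w₀) (hΓ1 : Γ 1 = w) (hΓ : ∀ τ, q (Γ τ) = H (τ, ⟨w, hw⟩)) :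
    ∃ L : C(unitInterval × B, W), (∀ x, q (L x) = H x) ∧ (∀ a, L (0, a) = w₀) ∧
      {w' : W | ∃ h : w' ∈ B, L (1, ⟨w', h⟩) = w'} ∈ 𝓝 w := by
  obtain ⟨L, hL, hL0⟩ : ∃ L : C(unitInterval × B, W), (∀ x, q (L x) = H x) ∧ ∀ a, L (0, a) = w₀ :=
    ⟨hq.liftHomotopy H (ContinuousMap.const B w₀) hH0,
      fun x => congrFun (hq.liftHomotopy_lifts H (ContinuousMap.const B w₀) hH0) x,
      fun a => hq.liftHomotopy_zero H (ContinuousMap.const B w₀) hH0 a⟩
  refine ⟨L, hL, hL0, ?_⟩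
  have hLw : L (1, ⟨w, hw⟩) = w := by
    have h1 : (fun τ : unitInterval => L (τ, ⟨w, hw⟩)) = fun τ => Γ τ := by
      refine hq.eq_of_comp_eq (L.continuous.comp (Continuous.prodMk continuous_id continuous_const)) Γ.continuous
        (funext fun τ => ?_) 0 ?_
      · rw [Function.comp_apply, Function.comp_apply, hL, hΓ]
      · rw [hL0, hΓ0]
    rw [congrFun h1 1, hΓ1]
  obtain ⟨e, hwe, he⟩ := hq.isLocalHomeomorph w
  have hS : Continuous fun a : B => L (1, a) :=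
    L.continuous.comp (Continuous.prodMk continuous_const continuous_id)
  have hO : IsOpen ((fun a : B => L (1, a)) ⁻¹' e.source ∩ Subtype.val ⁻¹' e.source) :=
    (e.open_source.preimage hS).inter (e.open_source.preimage continuous_subtype_val)
  have hO' := hB.isOpenMap_subtype_val _ hO
  refine Filter.mem_of_superset (hO'.mem_nhds ⟨⟨w, hw⟩, ⟨?_, hwe⟩, rfl⟩) ?_
  · rw [mem_preimage, hLw]
    exact hwe
  · rintro w' ⟨a, ⟨ha1, ha2⟩, rfl⟩
    refine ⟨a.2, ?_⟩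
    refine e.injOn ha1 ha2 ?_
    rw [← he, hL, hH1]

theorem cont_ray {k : ℕ} (δ : MvPolynomial (Fin k) ℂ) (c : C(unitInterval, ℂ)) :
    Continuous (fun x : (Fin k → ℂ) × unitInterval => MvPolynomial.eval (c x.2 • x.1) δ) := by
  have h1 : Continuous fun x : (Fin k → ℂ) × unitInterval => c x.2 • x.1 :=
    (c.continuous.comp continuous_snd).smul continuous_fst
  exact (MvPolynomial.continuous_eval δ).comp h1

theorem tube_ev {k : ℕ} (δ : MvPolynomial (Fin k) ℂ) (c : C(unitInterval, ℂ)) (z : Fin k → ℂ)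
    (hcz : ∀ τ : unitInterval, MvPolynomial.eval (c τ • z) δ ≠ 0) :
    ∀ᶠ x in 𝓝 z, ∀ τ ∈ (univ : Set unitInterval), MvPolynomial.eval (c τ • x) δ ≠ 0 := by
  refine isCompact_univ.eventually_forall_of_forall_eventually fun τ _ => ?_
  exact (cont_ray δ c).continuousAt.eventually_ne (hcz τ)

theorem tube {k : ℕ} (δ : MvPolynomial (Fin k) ℂ) (c : C(unitInterval, ℂ)) (z : Fin k → ℂ)
    (hcz : ∀ τ : unitInterval, MvPolynomial.eval (c τ • z) δ ≠ 0) :
    ∃ v : Set (Fin k → ℂ), IsOpen v ∧ z ∈ v ∧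
      ∀ (τ : unitInterval), ∀ x ∈ v, MvPolynomial.eval (c τ • x) δ ≠ 0 := by
  obtain ⟨v, h1, h2, h3⟩ := _root_.eventually_nhds_iff.1 (tube_ev δ c z hcz)
  exact ⟨v, h2, h3, fun τ x hx => h1 x hx τ (mem_univ τ)⟩

end Pool.Agent.Q22.GO.RO

namespace Pool.Agent.Q22.GO

open H113G Metric Set Topology

theorem t_RO : S_RO := by
  intro k δ W _ q hq w₀ hw₀
  rw [isOpen_iff_mem_nhds]
  intro w hw
  obtain ⟨c, ⟨hc0, hc1, hcz⟩, Γ, hΓ0, hΓ1, hΓ⟩ := hw
  obtain ⟨v, hv, hzv, hne⟩ := RO.tube δ c (q w).1 hcz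
  have hB : IsOpen {w' : W | (q w').1 ∈ v} := hv.preimage (continuous_subtype_val.comp hq.continuous)
  obtain ⟨H, hH⟩ : ∃ H : C(unitInterval × {w' : W | (q w').1 ∈ v}, Sp δ), ∀ x, (H x).1 = c x.1 • (q x.2.1).1 :=
    ⟨⟨fun x => ⟨c x.1 • (q x.2.1).1, hne x.1 _ x.2.2⟩, by
      refine Continuous.subtype_mk ?_ _
      exact (c.continuous.comp continuous_fst).smul
        (continuous_subtype_val.comp (hq.continuous.comp (continuous_subtype_val.comp continuous_snd)))⟩,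
      fun x => rfl⟩
  obtain ⟨L, hL, hL0, hN⟩ := RO.lift_section q hq {w' : W | (q w').1 ∈ v} hB w₀ w hzv H
    (fun a => Subtype.ext (by rw [hH, hc0, hw₀, zero_smul]))
    (fun a => Subtype.ext (by rw [hH, hc1, one_smul])) Γ hΓ0 hΓ1
    (fun τ => Subtype.ext (by rw [hH, hΓ]))
  refine Filter.mem_of_superset hN ?_
  rintro w' ⟨h, h1⟩
  refine ⟨c, ⟨hc0, hc1, fun τ => hne τ _ h⟩,
    ⟨fun τ => L (τ, ⟨w', h⟩), L.continuous.comp (Continuous.prodMk continuous_id continuous_const)⟩,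
    hL0 _, h1, fun τ => ?_⟩
  have h2 := congrArg Subtype.val (hL (τ, ⟨w', h⟩))
  rw [hH] at h2
  exact h2

end Pool.Agent.Q22.GO
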