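import Pool.Agent.Q22.GO.Stm

set_option autoImplicit false

/-!
Project GO (helper277): everything generic is reachable.
-/

namespace Pool.Agent.Q22.GO

open H113G Metric Set Topology

namespace RR

theorem diff_eval {k : ℕ} (D : MvPolynomial (Fin k) ℂ) :
    Differentiable ℂ fun z : Fin k → ℂ => MvPolynomial.eval z D := fun z =>
  (AnalyticOnNhd.eval_mvPolynomial D z (mem_univ _)).differentiableAt

theorem exists_ne {k : ℕ} (D : MvPolynomial (Fin k) ℂ) (hD : D ≠ 0) (z : Fin k → ℂ) (r : ℝ)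
    (hr : 0 < r) : ∃ x ∈ ball z r, MvPolynomial.eval x D ≠ 0 := by
  by_contra hcon
  push Not at hcon
  apply hD
  refine MvPolynomial.funext_set (fun i => ball (z i) r) (fun i => ?_) fun x hx => ?_
  · exact infinite_of_mem_nhds (z i) (ball_mem_nhds (z i) hr)
  · rw [map_zero]
    apply hcon
    rw [ball_pi _ hr]
    exact hx

/-- a small chart ball -/
theorem chart {k : ℕ} {δ : MvPolynomial (Fin k) ℂ} {W : Type} [TopologicalSpace W] {q : W → Sp δ}
    (hq : IsCoveringMap q) (w : W) : ∃ (r : ℝ) (σ : (Fin k → ℂ) → W), 0 < r ∧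
      ContinuousOn σ (ball (q w).1 r) ∧ (∀ v ∈ ball (q w).1 r, (q (σ v)).1 = v) ∧
      IsOpen (σ '' ball (q w).1 r) ∧ w ∈ σ '' ball (q w).1 r := by
  obtain ⟨e, hwe, hqe⟩ := hq.isLocalHomeomorph w
  have hqe' : ∀ x, q x = e x := fun x => congrFun hqe x
  have hopen : IsOpen {z : Fin k → ℂ | MvPolynomial.eval z δ ≠ 0} :=
    isOpen_ne_fun (MvPolynomial.continuous_eval δ) continuous_const
  have hT : IsOpen (Subtype.val '' e.target) := hopen.isOpenMap_subtype_val _ e.open_target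
  have hwT : (q w).1 ∈ (Subtype.val '' e.target : Set (Fin k → ℂ)) := by
    refine ⟨q w, ?_, rfl⟩
    rw [hqe' w]
    exact e.map_source hwe
  obtain ⟨r, hr, hball⟩ := Metric.isOpen_iff.1 hT (q w).1 hwT
  have hmem : ∀ v ∈ ball (q w).1 r, ∃ h : MvPolynomial.eval v δ ≠ 0,
      (⟨v, h⟩ : Sp δ) ∈ e.target := by
    intro v hv
    obtain ⟨y, hy, hys⟩ := hball hv
    have h1 : MvPolynomial.eval v δ ≠ 0 := by
      rw [← hys]
      exact y.2
    refine ⟨h1, ?_⟩
    have h2 : (⟨v, h1⟩ : Sp δ) = y := Subtype.ext hys.symm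
    rw [h2]
    exact hy
  classical
  let σ : (Fin k → ℂ) → W := fun v =>
    if h : v ∈ ball (q w).1 r then e.symm ⟨v, (hmem v h).choose⟩ else w
  have hσ : ∀ v (h : v ∈ ball (q w).1 r), σ v = e.symm ⟨v, (hmem v h).choose⟩ := by
    intro v h
    simp only [σ, dif_pos h]
  have hqσ : ∀ v ∈ ball (q w).1 r, (q (σ v)).1 = v := by
    intro v h
    rw [hσ v h, hqe', e.right_inv (hmem v h).choose_spec]
  refine ⟨r, σ, hr, ?_, hqσ, ?_, ⟨(q w).1, mem_ball_self hr, ?_⟩⟩
  · rw [continuousOn_iff_continuous_domRestrict]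
    have h1 : Continuous fun v : ball (q w).1 r =>
        e.symm (⟨v.1, (hmem v.1 v.2).choose⟩ : Sp δ) :=
      e.continuousOn_symm.comp_continuous (continuous_subtype_val.subtype_mk _)
        fun v => (hmem v.1 v.2).choose_spec
    refine h1.congr fun v => ?_
    exact (hσ v.1 v.2).symm
  · have h1 : σ '' ball (q w).1 r = e.source ∩ {w' | (q w').1 ∈ ball (q w).1 r} := by
      ext y
      constructor
      · rintro ⟨v, hv, rfl⟩
        refine ⟨?_, ?_⟩
        · rw [hσ v hv]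
          exact e.map_target (hmem v hv).choose_spec
        · show (q (σ v)).1 ∈ ball (q w).1 r
          rw [hqσ v hv]
          exact hv
      · rintro ⟨hy1, hy2⟩
        refine ⟨(q y).1, hy2, ?_⟩
        rw [hσ _ hy2]
        have h2 : (⟨(q y).1, (hmem _ hy2).choose⟩ : Sp δ) = e y := by
          rw [← hqe']
        rw [h2, e.left_inv hy1]
    rw [h1]
    exact e.open_source.inter (isOpen_ball.preimage (continuous_subtype_val.comp hq.continuous))
  · rw [hσ _ (mem_ball_self hr)]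
    have h2 : (⟨(q w).1, (hmem _ (mem_ball_self hr)).choose⟩ : Sp δ) = e w := by
      rw [← hqe']
    rw [h2, e.left_inv hwe]

end RR

open RR in
theorem t_RR (ball : S_BALL) (_conn : S_CONN) (ro : S_RO) (rc : S_RC) : S_RR := by
  intro k δ W _ q hq hgen w₀ h0 w hw hst
  obtain ⟨D, hD, hDst⟩ := hgen
  have hRo : IsOpen (Rch q w₀) := ro k δ W q hq w₀ h0
  have hRw : w₀ ∈ Rch q w₀ := by
    refine ⟨⟨fun τ => ((τ : ℝ) : ℂ), by fun_prop⟩, ⟨?_, ?_, fun τ => ?_⟩,
      ⟨fun _ => w₀, continuous_const⟩, rfl, rfl, fun τ => ?_⟩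
    · simp
    · simp
    · rw [h0, smul_zero]
      have := (q w₀).2
      rwa [h0] at this
    · show (q w₀).1 = _
      rw [h0, smul_zero]
  have hopen : IsOpen (closure (Rch q w₀)) := by
    rw [isOpen_iff_mem_nhds]
    intro y hy
    obtain ⟨r, σ, hr, hσc, hqσ, hVo, hyV⟩ := chart hq y
    obtain ⟨hdense, hpre⟩ := ball k (fun z => MvPolynomial.eval z D) r (q y).1 hr
      (diff_eval D).differentiableOn (exists_ne D hD _ r hr)
    -- a reachable point in the chart
    obtain ⟨y1, hy1V, hy1R⟩ := mem_closure_iff_nhds.1 hy _ (hVo.mem_nhds hyV)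
    -- the set of parameters of reachable points
    have hopenB : IsOpen (Metric.ball (q y).1 r ∩ σ ⁻¹' Rch q w₀) :=
      hσc.isOpen_inter_preimage isOpen_ball hRo
    obtain ⟨x1, hx1, hx1y⟩ := hy1V
    have hx1R : x1 ∈ Metric.ball (q y).1 r ∩ σ ⁻¹' Rch q w₀ := ⟨hx1, by
      show σ x1 ∈ Rch q w₀
      rw [hx1y]
      exact hy1R⟩
    obtain ⟨η, hη, hηsub⟩ := Metric.isOpen_iff.1 hopenB x1 hx1R
    obtain ⟨x2, hx2, hx2d, hx2D⟩ := hdense x1 hx1 η hη
    have hx2R : σ x2 ∈ Rch q w₀ := (hηsub (mem_ball.2 hx2d)).2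
    -- the whole stable part of the chart is reachable
    have hall : ∀ x ∈ Metric.ball (q y).1 r, MvPolynomial.eval x D ≠ 0 → σ x ∈ Rch q w₀ := by
      intro x hx hxD
      by_contra hxR
      have hcl : ∀ x' ∈ Metric.ball (q y).1 r, MvPolynomial.eval x' D ≠ 0 →
          σ x' ∉ Rch q w₀ → σ x' ∉ closure (Rch q w₀) := by
        intro x' hx' hx'D hn hc
        apply hn
        refine rc k δ W q hq w₀ h0 (σ x') ?_ hc
        rw [hqσ x' hx']
        exact hDst x' hx'D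
      have hopenB2 : IsOpen (Metric.ball (q y).1 r ∩ σ ⁻¹' (closure (Rch q w₀))ᶜ) :=
        hσc.isOpen_inter_preimage isOpen_ball isClosed_closure.isOpen_compl
      obtain ⟨x3, ⟨hx3, hx3D⟩, hx3a, hx3b⟩ := hpre _ _ hopenB hopenB2 (by
        rintro x' ⟨hx', hx'D⟩
        by_cases h : σ x' ∈ Rch q w₀
        · exact Or.inl ⟨hx', h⟩
        · exact Or.inr ⟨hx', hcl x' hx' hx'D h⟩) ⟨x2, ⟨hx2, hx2D⟩, hx2, hx2R⟩
        ⟨x, ⟨hx, hxD⟩, hx, hcl x hx hxD hxR⟩
      exact hx3b.2 (subset_closure hx3a.2)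
    refine Filter.mem_of_superset (hVo.mem_nhds hyV) ?_
    rintro _ ⟨x, hx, rfl⟩
    rw [_root_.mem_closure_iff]
    intro o ho hxo
    have hopen3 : IsOpen (Metric.ball (q y).1 r ∩ σ ⁻¹' o) :=
      hσc.isOpen_inter_preimage isOpen_ball ho
    obtain ⟨η', hη', hsub'⟩ := Metric.isOpen_iff.1 hopen3 x ⟨hx, hxo⟩
    obtain ⟨x4, hx4, hx4d, hx4D⟩ := hdense x hx η' hη'
    exact ⟨σ x4, (hsub' (mem_ball.2 hx4d)).2, hall x4 hx4 hx4D⟩
  have hclopen : IsClopen (closure (Rch q w₀)) := ⟨isClosed_closure, hopen⟩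
  have hwc : w ∈ closure (Rch q w₀) :=
    hclopen.connectedComponent_subset (subset_closure hRw) hw
  exact rc k δ W q hq w₀ h0 w hst hwc

end Pool.Agent.Q22.GO
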