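import Pool.Agent.Q22.GO.Stm

set_option autoImplicit false

/-!
# Project GO: job RS1, the radical of `t ↦ δ (t v)`
-/

namespace Pool.Agent.Q22.GO.RS1

open Polynomial

/-- `δ (t v)` as a polynomial in `t` with coefficients in `ℂ[v]` -/
noncomputable def pol {k : ℕ} (δ : MvPolynomial (Fin k) ℂ) : Polynomial (MvPolynomial (Fin k) ℂ) :=
  MvPolynomial.eval₂ (Polynomial.C.comp MvPolynomial.C)
    (fun i => Polynomial.C (MvPolynomial.X i) * Polynomial.X) δ

lemma pol_eval {k : ℕ} (δ : MvPolynomial (Fin k) ℂ) (v : Fin k → ℂ) (t : ℂ) :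
    ((pol δ).map (MvPolynomial.eval v)).eval t = MvPolynomial.eval (t • v) δ := by
  have h : ((Polynomial.evalRingHom t).comp ((Polynomial.mapRingHom (MvPolynomial.eval v)).comp
      (MvPolynomial.eval₂Hom (Polynomial.C.comp MvPolynomial.C)
        (fun i => Polynomial.C (MvPolynomial.X i) * Polynomial.X)))) =
      MvPolynomial.eval (t • v) := by
    apply MvPolynomial.ringHom_ext
    · intro r
      simp
    · intro i
      show Polynomial.eval t (Polynomial.map (MvPolynomial.eval v) (MvPolynomial.eval₂Hom _ _ _)) = _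
      rw [MvPolynomial.eval₂Hom_X', Polynomial.map_mul, Polynomial.map_C, Polynomial.map_X,
        Polynomial.eval_mul, Polynomial.eval_C, Polynomial.eval_X, MvPolynomial.eval_X,
        MvPolynomial.eval_X, Pi.smul_apply, smul_eq_mul, mul_comm]
  have h2 := congrArg (fun f => f δ) h
  exact h2

lemma pol_coeff_zero {k : ℕ} (δ : MvPolynomial (Fin k) ℂ) :
    (pol δ).coeff 0 = MvPolynomial.C (MvPolynomial.eval 0 δ) := by
  have h : ((Polynomial.constantCoeff).comp
      (MvPolynomial.eval₂Hom (Polynomial.C.comp MvPolynomial.C)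
        (fun i => Polynomial.C (MvPolynomial.X i : MvPolynomial (Fin k) ℂ) * Polynomial.X))) =
      (MvPolynomial.C : ℂ →+* MvPolynomial (Fin k) ℂ).comp (MvPolynomial.eval 0) := by
    apply MvPolynomial.ringHom_ext
    · intro r
      simp
    · intro i
      simp
  have h2 := congrArg (fun f => f δ) h
  exact h2

lemma clear {A : Type} [CommRing A] [IsDomain A] (f : Polynomial (FractionRing A)) :
    ∃ (a : A) (F : Polynomial A), a ≠ 0 ∧
      F.map (algebraMap A (FractionRing A)) = C (algebraMap A (FractionRing A) a) * f := by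
  obtain ⟨b, hb⟩ := IsLocalization.integerNormalization_map_to_map (nonZeroDivisors A) f
  refine ⟨b, _, nonZeroDivisors.ne_zero b.2, hb.trans ?_⟩
  rw [← Polynomial.smul_eq_C_mul, algebraMap_smul]

lemma inj {A : Type} [CommRing A] [IsDomain A] {f g : Polynomial A}
    (h : f.map (algebraMap A (FractionRing A)) = g.map (algebraMap A (FractionRing A))) : f = g :=
  Polynomial.map_injective _ (IsFractionRing.injective A (FractionRing A)) h

theorem main {A : Type} [CommRing A] [IsDomain A] [CharZero A] (p : Polynomial A) (hp : p ≠ 0) :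
    ∃ (R A1 B1 Q1 Q2 : Polynomial A) (c1 c2 c3 : A) (n : ℕ), c1 ≠ 0 ∧ c2 ≠ 0 ∧ c3 ≠ 0 ∧ R ≠ 0 ∧
      A1 * R + B1 * derivative R = C c1 ∧ R * Q1 = C c2 * p ∧ C c3 * R ^ n = p * Q2 := by
  let K := FractionRing A
  haveI : CharZero K := charZero_of_injective_algebraMap (IsFractionRing.injective A K)
  have hpK : p.map (algebraMap A K) ≠ 0 := by
    intro h
    exact hp (inj (by rw [Polynomial.map_zero]; exact h))
  obtain ⟨ρ, n, hsq, ⟨q1, hq1⟩, ⟨q2, hq2⟩⟩ := exists_squarefree_dvd_pow_of_ne_zero hpK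
  have hsep : ρ.Separable := PerfectField.separable_iff_squarefree.2 hsq
  obtain ⟨a', b', hab⟩ := hsep
  obtain ⟨a, R, ha, hR⟩ := clear ρ
  obtain ⟨a1, A1, ha1, hA1⟩ := clear a'
  obtain ⟨b1, B1, hb1, hB1⟩ := clear b'
  obtain ⟨b2, Q1, hb2, hQ1⟩ := clear q1
  obtain ⟨b3, Q2, hb3, hQ2⟩ := clear q2
  refine ⟨R, C b1 * A1, C a1 * B1, Q1, C (a ^ n) * Q2, a * a1 * b1, a * b2, b3, n,
    mul_ne_zero (mul_ne_zero ha ha1) hb1, mul_ne_zero ha hb2, hb3, ?_, ?_, ?_, ?_⟩
  · rintro rfl
    rw [Polynomial.map_zero] at hR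
    have := mul_eq_zero.1 hR.symm
    rcases this with h | h
    · rw [Polynomial.C_eq_zero] at h
      exact ha ((IsFractionRing.injective A K) (by rw [h, map_zero]))
    · rw [h, zero_mul] at hq1
      exact hpK hq1
  · apply inj
    rw [Polynomial.map_add, Polynomial.map_mul, Polynomial.map_mul, Polynomial.map_mul,
      Polynomial.map_mul, ← Polynomial.derivative_map, hR, hA1, hB1, Polynomial.derivative_C_mul]
    simp only [map_mul, Polynomial.map_mul, Polynomial.map_C]
    linear_combination (C ((algebraMap A (FractionRing A)) a) * C ((algebraMap A (FractionRing A)) a1) *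
      C ((algebraMap A (FractionRing A)) b1)) * hab
  · apply inj
    rw [Polynomial.map_mul, Polynomial.map_mul, hR, hQ1]
    simp only [map_mul, Polynomial.map_mul, Polynomial.map_C]
    linear_combination (-(C ((algebraMap A (FractionRing A)) a) *
      C ((algebraMap A (FractionRing A)) b2))) * hq1
  · apply inj
    rw [Polynomial.map_mul, Polynomial.map_mul, Polynomial.map_mul, Polynomial.map_pow, hR, hQ2]
    simp only [map_mul, map_pow, Polynomial.map_mul, Polynomial.map_pow, Polynomial.map_C, mul_pow]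
    linear_combination (C ((algebraMap A (FractionRing A)) b3) *
      C ((algebraMap A (FractionRing A)) a) ^ n) * hq2

end Pool.Agent.Q22.GO.RS1

namespace Pool.Agent.Q22.GO

theorem t_RS1 : S_RS1 := by
  intro k δ h0
  have hp : RS1.pol δ ≠ 0 := by
    intro h
    have h1 := RS1.pol_coeff_zero δ
    rw [h, Polynomial.coeff_zero] at h1
    exact h0 (MvPolynomial.C_injective _ _ (h1.symm.trans (map_zero _).symm))
  obtain ⟨R, A1, B1, Q1, Q2, c1, c2, c3, n, hc1, hc2, hc3, hR, e1, e2, e3⟩ := RS1.main (RS1.pol δ) hp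
  refine ⟨c1 * c2 * c3 * R.leadingCoeff, R,
    mul_ne_zero (mul_ne_zero (mul_ne_zero hc1 hc2) hc3) (Polynomial.leadingCoeff_ne_zero.2 hR), ?_⟩
  intro v hv
  rw [map_mul, map_mul, map_mul] at hv
  have hv4 := right_ne_zero_of_mul hv
  have hv3 := right_ne_zero_of_mul (left_ne_zero_of_mul hv)
  have hv2 := right_ne_zero_of_mul (left_ne_zero_of_mul (left_ne_zero_of_mul hv))
  have hv1 := left_ne_zero_of_mul (left_ne_zero_of_mul (left_ne_zero_of_mul hv))
  have E1 := congrArg (Polynomial.map (MvPolynomial.eval v)) e1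
  have E2 := congrArg (Polynomial.map (MvPolynomial.eval v)) e2
  have E3 := congrArg (Polynomial.map (MvPolynomial.eval v)) e3
  rw [Polynomial.map_add, Polynomial.map_mul, Polynomial.map_mul, ← Polynomial.derivative_map,
    Polynomial.map_C] at E1
  rw [Polynomial.map_mul, Polynomial.map_mul, Polynomial.map_C] at E2
  rw [Polynomial.map_mul, Polynomial.map_mul, Polynomial.map_C, Polynomial.map_pow] at E3
  refine ⟨⟨Polynomial.C (MvPolynomial.eval v c1)⁻¹ * A1.map (MvPolynomial.eval v),
    Polynomial.C (MvPolynomial.eval v c1)⁻¹ * B1.map (MvPolynomial.eval v), ?_⟩,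
    Polynomial.natDegree_map_of_leadingCoeff_ne_zero _ hv4, ?_⟩
  · rw [mul_assoc, mul_assoc, ← mul_add, E1, ← Polynomial.C_mul, inv_mul_cancel₀ hv1,
      Polynomial.C_1]
  · intro t
    have F2 := congrArg (Polynomial.eval t) E2
    have F3 := congrArg (Polynomial.eval t) E3
    rw [Polynomial.eval_mul, Polynomial.eval_mul, Polynomial.eval_C, RS1.pol_eval] at F2
    rw [Polynomial.eval_mul, Polynomial.eval_mul, Polynomial.eval_C, Polynomial.eval_pow,
      RS1.pol_eval] at F3
    constructor
    · intro h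
      rw [h, zero_mul] at F2
      exact (mul_eq_zero.1 F2.symm).resolve_left hv2
    · intro h
      rw [h, zero_mul] at F3
      exact eq_zero_of_pow_eq_zero ((mul_eq_zero.1 F3).resolve_left hv3)

end Pool.Agent.Q22.GO
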