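import Pool.Agent.Q22.GO.Stm

set_option autoImplicit false

namespace Pool.Agent.Q22.GO.RS2

open Polynomial

/-- a polynomial that is small at a point has a root near to the point -/
theorem near_root (p : ℂ[X]) (N : ℕ) (hN : p.natDegree = N) (x : ℂ) (ρ c : ℝ) (hρ : 0 < ρ)
    (hc : 0 < c) (hlc : c < ‖p.leadingCoeff‖) (hx : ‖p.eval x‖ < c * ρ ^ N) :
    ∃ y, p.eval y = 0 ∧ ‖y - x‖ < ρ := by
  by_contra hcon
  push Not at hcon
  have hp0 : p ≠ 0 := by
    intro h
    rw [h, leadingCoeff_zero, norm_zero] at hlc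
    linarith
  have hcard : Multiset.card p.roots = p.natDegree :=
    ((IsAlgClosed.splits p).natDegree_eq_card_roots).symm
  have hfac := C_leadingCoeff_mul_prod_multiset_X_sub_C hcard
  have h1 : ‖p.eval x‖ = ‖p.leadingCoeff‖ * (p.roots.map fun a => ‖x - a‖).prod := by
    conv_lhs => rw [← hfac]
    rw [eval_mul, eval_C, norm_mul, eval_multiset_prod, Multiset.map_map]
    congr 1
    have h2 := map_multiset_prod (normHom : ℂ →*₀ ℝ) (p.roots.map ((fun q : ℂ[X] => q.eval x) ∘ fun a => X - C a))
    have h3 : ‖(Multiset.map ((fun q : ℂ[X] => q.eval x) ∘ fun a => X - C a) p.roots).prod‖ =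
      (Multiset.map (normHom : ℂ →*₀ ℝ) (Multiset.map ((fun q : ℂ[X] => q.eval x) ∘ fun a => X - C a) p.roots)).prod := h2
    refine h3.trans ?_
    rw [Multiset.map_map]
    congr 1
    refine Multiset.map_congr rfl fun a _ => ?_
    simp
  have h4 : ρ ^ N ≤ (p.roots.map fun a => ‖x - a‖).prod := by
    rw [← hN, ← hcard]
    have hroot : ∀ a ∈ p.roots, ρ ≤ ‖x - a‖ := by
      intro a ha
      rw [norm_sub_rev]
      exact hcon a ((mem_roots hp0).mp ha)
    generalize p.roots = M at hroot
    induction M using Multiset.induction_on with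
    | empty => simp
    | cons a M ih =>
      rw [Multiset.card_cons, Multiset.map_cons, Multiset.prod_cons, pow_succ, mul_comm]
      have i1 := ih fun b hb => hroot b (Multiset.mem_cons_of_mem hb)
      have i2 := hroot a (Multiset.mem_cons_self a M)
      exact mul_le_mul i2 i1 (by positivity) (norm_nonneg _)
  have h5 : c * ρ ^ N ≤ ‖p.eval x‖ := by
    rw [h1]
    exact mul_le_mul hlc.le h4 (by positivity) (norm_nonneg _)
  linarith

end Pool.Agent.Q22.GO.RS2

namespace Pool.Agent.Q22.GO

open H113G Metric Set Topology Polynomial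

theorem t_RS2 : S_RS2 := by
  intro k δ D R hR v hv
  classical
  set N := R.natDegree with hNdef
  set p : (Fin k → ℂ) → ℂ[X] := fun w => R.map (MvPolynomial.eval w) with hp
  -- the roots at `v`
  have hroots : ∀ w, MvPolynomial.eval w D ≠ 0 → p w ≠ 0 ∧ (p w).roots.toFinset.card = N := by
    intro w hw
    obtain ⟨h1, h2, h3⟩ := hR w hw
    refine ⟨h1.ne_zero, ?_⟩
    rw [Multiset.toFinset_card_of_nodup (nodup_roots h1),
      ← (IsAlgClosed.splits (p w)).natDegree_eq_card_roots]
    exact h2
  obtain ⟨hpv, hcv⟩ := hroots v hv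
  let eqv := Finset.equivFinOfCardEq hcv
  let a : Fin N → ℂ := fun i => (eqv.symm i).1
  have hainj : Function.Injective a := fun i j h => eqv.symm.injective (Subtype.ext h)
  have haroot : ∀ i, (p v).eval (a i) = 0 := by
    intro i
    have h1 := (eqv.symm i).2
    rw [Multiset.mem_toFinset, mem_roots hpv] at h1
    exact h1
  have haall : ∀ t, (p v).eval t = 0 → ∃ i, t = a i := by
    intro t ht
    have h1 : t ∈ (p v).roots.toFinset := by
      rw [Multiset.mem_toFinset, mem_roots hpv]
      exact ht
    refine ⟨eqv ⟨t, h1⟩, ?_⟩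
    show t = (eqv.symm (eqv ⟨t, h1⟩)).1
    rw [Equiv.symm_apply_apply]
  refine ⟨N, a, hainj, ?_, ?_⟩
  · intro t
    rw [← (hR v hv).2.2 t]
    exact ⟨haall t, fun ⟨i, hi⟩ => by rw [hi]; exact haroot i⟩
  · intro ρ hρ
    -- a small radius
    obtain ⟨ρ', hρ', hρ'ρ, hsep⟩ : ∃ ρ' : ℝ, 0 < ρ' ∧ ρ' ≤ ρ ∧ ∀ i j, i ≠ j → 2 * ρ' ≤ ‖a i - a j‖ := by
      set S : Finset ℝ := insert ρ ((Finset.univ.filter fun q : Fin N × Fin N => q.1 ≠ q.2).image
        fun q => ‖a q.1 - a q.2‖ / 2) with hS
      have hne : S.Nonempty := ⟨ρ, Finset.mem_insert_self _ _⟩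
      refine ⟨S.min' hne, ?_, S.min'_le _ (Finset.mem_insert_self _ _), ?_⟩
      · have h0 : ∀ x ∈ S, 0 < x := by
          intro x h1
          rw [hS, Finset.mem_insert, Finset.mem_image] at h1
          rcases h1 with h1 | ⟨q, hq, h1⟩
          · rw [h1]; exact hρ
          · rw [← h1]
            rw [Finset.mem_filter] at hq
            have : 0 < ‖a q.1 - a q.2‖ := norm_pos_iff.mpr (sub_ne_zero.mpr fun h => hq.2 (hainj h))
            linarith
        exact h0 _ (S.min'_mem hne)
      · intro i j hij
        have h1 : ‖a i - a j‖ / 2 ∈ S := by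
          rw [hS, Finset.mem_insert]
          right
          rw [Finset.mem_image]
          exact ⟨(i, j), by rw [Finset.mem_filter]; exact ⟨Finset.mem_univ _, hij⟩, rfl⟩
        have h2 := S.min'_le _ h1
        linarith
    -- leading coefficient
    have hlc : ∀ w, MvPolynomial.eval w D ≠ 0 → (p w).leadingCoeff = MvPolynomial.eval w R.leadingCoeff := by
      intro w hw
      have h2 := (hR w hw).2.1
      show (p w).coeff (p w).natDegree = _
      have h3 : (p w).natDegree = R.natDegree := h2
      rw [h3, hp]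
      simp only [coeff_map]
      rfl
    have hlcv : MvPolynomial.eval v R.leadingCoeff ≠ 0 := by
      rw [← hlc v hv]
      exact leadingCoeff_ne_zero.mpr hpv
    set c : ℝ := ‖MvPolynomial.eval v R.leadingCoeff‖ / 2 with hc
    have hc0 : 0 < c := by
      have := norm_pos_iff.mpr hlcv
      rw [hc]; linarith
    have heval : ∀ (t : ℂ) w, (p w).eval t = MvPolynomial.eval w (R.eval (MvPolynomial.C t)) := by
      intro t w
      have h1 := eval₂_at_apply (p := R) (MvPolynomial.eval w) (MvPolynomial.C t)
      rw [MvPolynomial.eval_C] at h1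
      rw [hp]
      simp only
      rw [eval_map]
      exact h1
    -- open conditions
    have o1 : ∀ᶠ w in 𝓝 v, MvPolynomial.eval w D ≠ 0 :=
      (MvPolynomial.continuous_eval D).continuousAt.eventually_ne hv
    have o2 : ∀ᶠ w in 𝓝 v, c < ‖MvPolynomial.eval w R.leadingCoeff‖ := by
      have h1 : Continuous fun w => ‖MvPolynomial.eval w R.leadingCoeff‖ :=
        (MvPolynomial.continuous_eval R.leadingCoeff).norm
      refine h1.continuousAt.eventually (lt_mem_nhds ?_)
      have := norm_pos_iff.mpr hlcv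
      rw [hc]; linarith
    have o3 : ∀ᶠ w in 𝓝 v, ∀ i, ‖(p w).eval (a i)‖ < c * ρ' ^ N := by
      rw [Filter.eventually_all]
      intro i
      have h1 : Continuous fun w => ‖(p w).eval (a i)‖ := by
        simp only [heval]
        exact (MvPolynomial.continuous_eval _).norm
      refine h1.continuousAt.eventually (gt_mem_nhds ?_)
      show ‖(p v).eval (a i)‖ < c * ρ' ^ N
      rw [haroot i, norm_zero]
      positivity
    obtain ⟨ε, hε, hball⟩ := Metric.eventually_nhds_iff_ball.mp ((o1.and o2).and o3)
    refine ⟨ε, hε, fun w hw => ?_⟩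
    obtain ⟨⟨w1, w2⟩, w3⟩ := hball w hw
    have hex : ∀ i, ∃ y, (p w).eval y = 0 ∧ ‖y - a i‖ < ρ' := by
      intro i
      refine RS2.near_root (p w) N (hR w w1).2.1 (a i) ρ' c hρ' hc0 ?_ (w3 i)
      rw [hlc w w1]
      exact w2
    choose b hb1 hb2 using hex
    have hbinj : Function.Injective b := by
      intro i j hij
      by_contra hne
      have h1 := hsep i j hne
      have h2 : ‖a i - a j‖ ≤ ‖b i - a i‖ + ‖b j - a j‖ := by
        have h3 : a i - a j = -(b i - a i) + (b j - a j) := by rw [hij]; ring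
        rw [h3]
        refine (norm_add_le _ _).trans ?_
        rw [norm_neg]
      have := hb2 i
      have := hb2 j
      linarith
    refine ⟨b, fun i => lt_of_lt_of_le (hb2 i) hρ'ρ, fun t => ?_⟩
    rw [← (hR w w1).2.2 t]
    constructor
    · intro ht
      obtain ⟨hpw, hcw⟩ := hroots w w1
      have himg : Finset.univ.image b = (p w).roots.toFinset := by
        apply Finset.eq_of_subset_of_card_le
        · intro y hy
          rw [Finset.mem_image] at hy
          obtain ⟨i, -, rfl⟩ := hy
          rw [Multiset.mem_toFinset, mem_roots hpw]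
          exact hb1 i
        · rw [hcw, Finset.card_image_of_injective _ hbinj, Finset.card_univ, Fintype.card_fin]
      have h1 : t ∈ (p w).roots.toFinset := by
        rw [Multiset.mem_toFinset, mem_roots hpw]
        exact ht
      rw [← himg, Finset.mem_image] at h1
      obtain ⟨i, -, hi⟩ := h1
      exact ⟨i, hi.symm⟩
    · rintro ⟨i, rfl⟩
      exact hb1 i

end Pool.Agent.Q22.GO
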