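import Pool.Agent.Q22.GO.Stm

set_option autoImplicit false

/-! Project GO (helper22), job SHEET (helper166): lifting of maps from convex plane sets. -/

namespace Pool.Agent.Q22.GO

open H113G Metric Set Topology

namespace SHEET

theorem main (m k : ℕ) (Y : Set (Fin m → ℂ)) (pr : (Fin m → ℂ) → (Fin k → ℂ))
    (δ : MvPolynomial (Fin k) ℂ) (e : ℕ) (hcov : Cov Y pr δ e)
    (cov : IsCoveringMap (qY Y pr δ))
    (K : Set ℂ) (γ : ℂ → (Fin k → ℂ)) (hK : IsOpen K) (hKc : Convex ℝ K)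
    (hγ : DifferentiableOn ℂ γ K) (hδ : ∀ t ∈ K, MvPolynomial.eval (γ t) δ ≠ 0)
    (t₀ : ℂ) (ht₀ : t₀ ∈ K) :
    ∃ s : Fin e → ℂ → (Fin m → ℂ), (∀ i, DifferentiableOn ℂ (s i) K) ∧
      ∀ t ∈ K, Function.Injective (fun i => s i t) ∧
        {y | y ∈ Y ∧ pr y = γ t} = Set.range (fun i => s i t) := by
  have : ContractibleSpace K := hKc.contractibleSpace ⟨t₀, ht₀⟩
  have : LocallyPathConnectedSpace K := hK.locallyPathConnectedSpace
  have : PreconnectedSpace K := Subtype.preconnectedSpace hKc.isPreconnected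
  -- the map to lift
  let f : C(K, Sp δ) := ⟨fun t => ⟨γ t.1, hδ t.1 t.2⟩, by
    apply Continuous.subtype_mk
    exact hγ.continuousOn.comp_continuous continuous_subtype_val (fun t => t.2)⟩
  -- points over t₀
  obtain ⟨r₀, hr₀, s₀, hs₀d, hs₀⟩ := hcov.sections (γ t₀) (hδ t₀ ht₀)
  obtain ⟨-, hinj₀, hfib₀⟩ := hs₀ (γ t₀) (mem_ball_self hr₀)
  have hmem₀ : ∀ i, s₀ i (γ t₀) ∈ Y ∧ pr (s₀ i (γ t₀)) = γ t₀ := by
    intro i
    have : s₀ i (γ t₀) ∈ {y | y ∈ Y ∧ pr y = γ t₀} := by rw [hfib₀]; exact ⟨i, rfl⟩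
    exact this
  let y₀ : Fin e → Yo Y pr δ := fun i => ⟨s₀ i (γ t₀), (hmem₀ i).1, by
    rw [(hmem₀ i).2]; exact hδ t₀ ht₀⟩
  have hy₀ : ∀ i, qY Y pr δ (y₀ i) = f ⟨t₀, ht₀⟩ := by
    intro i
    apply Subtype.ext
    exact (hmem₀ i).2
  have hy₀inj : Function.Injective y₀ := by
    intro i j hij
    exact hinj₀ (congrArg Subtype.val hij)
  choose F hF hFu using fun i => cov.existsUnique_continuousMap_lifts f ⟨t₀, ht₀⟩ (y₀ i) (hy₀ i)
  have hF0 : ∀ i, F i ⟨t₀, ht₀⟩ = y₀ i := fun i => (hF i).1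
  have hFq : ∀ i (t : K), qY Y pr δ (F i t) = f t := fun i t => congrFun (hF i).2 t
  have hFpr : ∀ i (t : K), pr (F i t).1 = γ t.1 := fun i t => congrArg Subtype.val (hFq i t)
  have hFinj : ∀ t : K, Function.Injective (fun i => F i t) := by
    intro t i j hij
    have h1 : (F i : K → Yo Y pr δ) = F j := by
      apply cov.eq_of_comp_eq (F i).continuous (F j).continuous _ t hij
      rw [(hF i).2, (hF j).2]
    apply hy₀inj
    rw [← hF0 i, ← hF0 j, h1]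
  classical
  -- the sections
  let s : Fin e → ℂ → (Fin m → ℂ) := fun i t => if h : t ∈ K then (F i ⟨t, h⟩).1 else 0
  have hs : ∀ i (t : ℂ) (h : t ∈ K), s i t = (F i ⟨t, h⟩).1 := by
    intro i t h
    simp only [s, dif_pos h]
  refine ⟨s, ?_, ?_⟩
  · intro i t₁ ht₁
    obtain ⟨r, hr, s', hs'd, hs'⟩ := hcov.sections (γ t₁) (hδ t₁ ht₁)
    obtain ⟨-, -, hfib⟩ := hs' (γ t₁) (mem_ball_self hr)
    have h1 : s i t₁ ∈ {y | y ∈ Y ∧ pr y = γ t₁} := by
      rw [hs i t₁ ht₁]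
      exact ⟨(F i ⟨t₁, ht₁⟩).2.1, hFpr i ⟨t₁, ht₁⟩⟩
    rw [hfib] at h1
    obtain ⟨j, hj⟩ := h1
    have hj : s' j (γ t₁) = s i t₁ := hj
    -- a small ball
    have hγc : ContinuousAt γ t₁ := (hγ.differentiableAt (hK.mem_nhds ht₁)).continuousAt
    obtain ⟨ε, hε, hεb⟩ : ∃ ε : ℝ, 0 < ε ∧ ball t₁ ε ⊆ K ∩ γ ⁻¹' ball (γ t₁) r := by
      have : K ∩ γ ⁻¹' ball (γ t₁) r ∈ 𝓝 t₁ :=
        Filter.inter_mem (hK.mem_nhds ht₁) (hγc (ball_mem_nhds _ hr))
      obtain ⟨ε, hε, h⟩ := Metric.mem_nhds_iff.1 this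
      exact ⟨ε, hε, h⟩
    have hBK : ∀ t ∈ ball t₁ ε, t ∈ K := fun t ht => (hεb ht).1
    have hBγ : ∀ t ∈ ball t₁ ε, γ t ∈ ball (γ t₁) r := fun t ht => (hεb ht).2
    have hmem : ∀ t ∈ ball t₁ ε, s' j (γ t) ∈ Y ∧ pr (s' j (γ t)) = γ t := by
      intro t ht
      have h2 : s' j (γ t) ∈ {y | y ∈ Y ∧ pr y = γ t} := by
        rw [(hs' (γ t) (hBγ t ht)).2.2]; exact ⟨j, rfl⟩
      exact h2
    have : PreconnectedSpace (ball t₁ ε) :=
      Subtype.preconnectedSpace (convex_ball t₁ ε).isPreconnected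
    let g₁ : ball t₁ ε → Yo Y pr δ := fun t => F i ⟨t.1, hBK t.1 t.2⟩
    let g₂ : ball t₁ ε → Yo Y pr δ := fun t => ⟨s' j (γ t.1), (hmem t.1 t.2).1, by
      rw [(hmem t.1 t.2).2]; exact hδ t.1 (hBK t.1 t.2)⟩
    have hg₁ : Continuous g₁ := (F i).continuous.comp
      (Continuous.subtype_mk continuous_subtype_val _)
    have hg₂ : Continuous g₂ := by
      apply Continuous.subtype_mk
      have h3 : ContinuousOn (fun t => s' j (γ t)) (ball t₁ ε) :=
        (hs'd j).continuousOn.comp (hγ.continuousOn.mono hBK) hBγ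
      exact h3.comp_continuous continuous_subtype_val (fun t => t.2)
    have hcomp : qY Y pr δ ∘ g₁ = qY Y pr δ ∘ g₂ := by
      funext t
      apply Subtype.ext
      show pr (F i ⟨t.1, hBK t.1 t.2⟩).1 = pr (s' j (γ t.1))
      rw [hFpr, (hmem t.1 t.2).2]
    have h0 : g₁ ⟨t₁, mem_ball_self hε⟩ = g₂ ⟨t₁, mem_ball_self hε⟩ := by
      apply Subtype.ext
      show (F i ⟨t₁, _⟩).1 = s' j (γ t₁)
      rw [hj, hs i t₁ ht₁]
    have heq := cov.eq_of_comp_eq hg₁ hg₂ hcomp _ h0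
    have heq' : ∀ t ∈ ball t₁ ε, s i t = s' j (γ t) := by
      intro t ht
      rw [hs i t (hBK t ht)]
      exact congrArg Subtype.val (congrFun heq ⟨t, ht⟩)
    have hd : DifferentiableAt ℂ (s' j ∘ γ) t₁ :=
      ((hs'd j).differentiableAt (isOpen_ball.mem_nhds (mem_ball_self hr))).comp t₁
        (hγ.differentiableAt (hK.mem_nhds ht₁))
    apply DifferentiableAt.differentiableWithinAt
    apply hd.congr_of_eventuallyEq
    filter_upwards [ball_mem_nhds t₁ hε] with t ht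
    exact heq' t ht
  · intro t ht
    have hinj : Function.Injective (fun i => s i t) := by
      intro i j hij
      simp only [hs _ t ht] at hij
      exact hFinj ⟨t, ht⟩ (Subtype.ext hij)
    refine ⟨hinj, ?_⟩
    obtain ⟨r, hr, s', hs'd, hs'⟩ := hcov.sections (γ t) (hδ t ht)
    obtain ⟨-, hinj', hfib⟩ := hs' (γ t) (mem_ball_self hr)
    symm
    apply Set.eq_of_subset_of_ncard_le
    · rintro y ⟨i, rfl⟩
      show s i t ∈ Y ∧ pr (s i t) = γ t
      rw [hs i t ht]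
      exact ⟨(F i ⟨t, ht⟩).2.1, hFpr i ⟨t, ht⟩⟩
    · rw [hfib, ← Set.image_univ, ← Set.image_univ, Set.ncard_image_of_injective _ hinj',
        Set.ncard_image_of_injective _ hinj]
    · rw [hfib]
      exact Set.finite_range _

end SHEET

theorem t_SHEET (cmy : S_CMY) : S_SHEET := by
  intro m k Y pr δ e hcov K γ hK hKc hγ hδ
  rcases K.eq_empty_or_nonempty with h | ⟨t₀, ht₀⟩
  · subst h
    refine ⟨fun _ _ => 0, fun i => ?_, ?_⟩
    · intro t ht
      exact absurd ht (Set.notMem_empty t)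
    · intro t ht
      exact absurd ht (Set.notMem_empty t)
  · exact SHEET.main m k Y pr δ e hcov (cmy m k Y pr δ e hcov) K γ hK hKc hγ hδ t₀ ht₀

end Pool.Agent.Q22.GO
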