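import Pool.Agent.Helper113.Gorin.Defs

set_option autoImplicit false

/-!
Project GO (helper22): full proof of the frozen statement S00329 (MP_9bd952_ag): the number of
non-constant holomorphic maps of an affine algebraic manifold `Y` into `ℂ \ {0, 1}` is bounded by a
function of the topological type of `Y`.

Plan. (I) `Y` connected smooth algebraic has a proper polynomial projection `pr : Y → ℂ^k` which is an
`e`-sheeted covering over `{δ ≠ 0}` (structure `Cov` of `Helper113.Gorin.Defs`; the point `0` of `ℂ^k`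
satisfies `δ 0 ≠ 0`). (II) For a generic vector `v` the part `Ln Y pr δ v` of `Y` over the line `ℂ v`
is connected, and a continuous function `Y → ℂ \ {0}` with a logarithm on `Ln Y pr δ v` has a
logarithm on `Y`. So `Y` has finite rank `s` (`FiniteRank Y s`), and the least rank is a topological
invariant. (III) A nowhere zero holomorphic function of moderate growth at the ends of the line with a
logarithm is constant on the line (Liouville). So the group generated by the functions `g, 1 - g` modulo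
constants on the line has rank `n ≤ s`; take a basis `u`. (IV) `g = c1 ∏ u^mm`, `1 - g = c2 ∏ u^nn`,
and `(mm, nn)` is a nondegenerate zero of the cubic polynomials `Epol (LG s) (LG' s)`, so there are at
most `4 ^ (2 s)` functions `g`.

Each `S_X` is a statement with its complete proof in the docstring; `theorem t_X ... : S_X` is proved in
the file `Pool/Agent/Q22/GO/X.lean`.
-/

namespace Pool.Agent.Q22.GO

open H113G Metric Set Topology

noncomputable section

/-! ### charts, thin sets -/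

/-- CH: charts. Proof. Let `L = fderiv ℂ F p`, surjective; choose a linear map
`P : ℂ^m → ℂ^n`, `n = m - k`, with `(L, P)` bijective (a complement of the kernel). By the inverse
function theorem (`HasStrictFDerivAt`, holomorphic functions are `C^∞`) `Φ = (F, P)` has a holomorphic
local inverse near `(0, P p)`; `ψ x = Φ⁻¹ (0, P p + ε x)`, `κ y = (P y - P p) / ε`,
`V = Φ⁻¹ (small ball)`. -/
def S_CH : Prop := ∀ (m : ℕ) (Y : Set (Fin m → ℂ)), IsSmooth Y → HasCharts Y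

/-- BALL: zero sets in a ball are thin. Proof. For `x, y` in the ball the set
`Λ = {l : ℂ | x + l (y - x) ∈ ball}` is open and convex and `l ↦ f (x + l (y - x))` is holomorphic on it.
If `f y ≠ 0` its zeros are isolated in `Λ`: so there are points with `f ≠ 0` arbitrarily near to `x`
(density); and the zero set is countable (closed discrete in `Λ`, or: finite on a compact convex
neighbourhood of the segment `[0,1]`), so if also `f x ≠ 0` then `0` and `1` can be joined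
in `Λ` outside of the zero set (e.g. by one of uncountably many broken lines `0, 1/2 + i h, 1` with
small `h`). -/
def S_BALL : Prop := ∀ (n : ℕ) (f : (Fin n → ℂ) → ℂ) (r : ℝ) (p : Fin n → ℂ), 0 < r →
  DifferentiableOn ℂ f (ball p r) → (∃ x ∈ ball p r, f x ≠ 0) →
  (∀ x ∈ ball p r, ∀ ε : ℝ, 0 < ε → ∃ y ∈ ball p r, dist y x < ε ∧ f y ≠ 0) ∧
    IsPreconnected {x | x ∈ ball p r ∧ f x ≠ 0}

/-- CONN: removing a thin set. Proof. If `Aᶜ ⊆ U1 ∪ U2` is a separation, every small `V \ A` (as in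
the hypothesis) lies in exactly one of `U1`, `U2`; let `Xi` be the set of all `x` which have
such a `V` with `V \ A ⊆ Ui`. `X1 ∪ X2 = univ`, both open, disjoint (compare two such `V, V'` with a third
one inside `V ∩ V'`), so one is empty. -/
def S_CONN : Prop := ∀ (X : Type) [TopologicalSpace X] (A : Set X), IsPreconnected (univ : Set X) →
  (∀ x : X, ∀ N ∈ 𝓝 x, ∃ V ⊆ N, IsOpen V ∧ x ∈ V ∧ (V \ A).Nonempty ∧ IsPreconnected (V \ A)) →
  IsPreconnected Aᶜ

/-- THIN. Proof. In a chart `ψ` with `V` inside the domain of a local holomorphic extension of `u`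
(`HolOn`), `u ∘ ψ` is holomorphic on `ball 0 1`. The set of all `y ∈ Y` such that `u = 0` on a neighbourhood
of `y` in `Y` is open in `Y`, and closed by BALL, so it is empty: density. Connectedness:
CONN for the space `↥Y` with `V` = images of chart balls; `V \ A` is the image under `ψ` of the
preconnected set of BALL. -/
def S_THIN : Prop := ∀ (m : ℕ) (Y : Set (Fin m → ℂ)), HasCharts Y → IsPreconnected Y →
  ∀ u : (Fin m → ℂ) → ℂ, HolOn Y u → (∃ y ∈ Y, u y ≠ 0) →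
    (∀ p ∈ Y, ∀ N ∈ 𝓝 p, ∃ y ∈ Y, y ∈ N ∧ u y ≠ 0) ∧ IsPreconnected {y | y ∈ Y ∧ u y ≠ 0}

/-- LOGX: logarithms extend over thin sets. Proof. Let `h` be a logarithm on `{u ≠ 0}`. For `p ∈ Y` take a
chart with `V` so small that `g` maps `Y ∩ V` into the ball of radius `|g p|` about `g p`, so
`g` has a continuous logarithm `h_p` on `Y ∩ V`. `{u ≠ 0} ∩ V` is connected (BALL), so
`h - h_p` is a constant in `2 π i ℤ` there; normalise `h_p = h` on `{u ≠ 0} ∩ V`. By density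
(THIN) and continuity the `h_p` agree on overlaps: glue (value at `y`: `h_y y`). -/
def S_LOGX : Prop := ∀ (m : ℕ) (Y : Set (Fin m → ℂ)), HasCharts Y → IsPreconnected Y →
  ∀ u : (Fin m → ℂ) → ℂ, HolOn Y u → (∃ y ∈ Y, u y ≠ 0) →
  ∀ g : (Fin m → ℂ) → ℂ, ContinuousOn g Y → (∀ y ∈ Y, g y ≠ 0) →
    HasLog {y | y ∈ Y ∧ u y ≠ 0} g → HasLog Y g

/-- GEN: finitely many nonzero functions have a common nonzero point. Proof. Induction on `N`: the
point set where the first ones are nonzero is open in `Y` (functions in `HolOn` are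
continuous on `Y`) and nonempty; THIN (density) for the last one. -/
def S_GEN : Prop := ∀ (m : ℕ) (Y : Set (Fin m → ℂ)), HasCharts Y → IsConnected Y →
  ∀ (N : ℕ) (u : Fin N → (Fin m → ℂ) → ℂ), (∀ i, HolOn Y (u i)) → (∀ i, ∃ y ∈ Y, u i y ≠ 0) →
    ∃ y ∈ Y, ∀ i, u i y ≠ 0

/-! ### algebra: the covering -/

/-- the ideal of all polynomials which vanish on `Y` -/
def VI {m : ℕ} (Y : Set (Fin m → ℂ)) : Ideal (MvPolynomial (Fin m) ℂ) where
  carrier := {P | ∀ y ∈ Y, MvPolynomial.eval y P = 0}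
  add_mem' := fun ha hb y hy => by rw [map_add, ha y hy, hb y hy, add_zero]
  zero_mem' := fun _ _ => map_zero _
  smul_mem' := fun c P hP y hy => by rw [smul_eq_mul, map_mul, hP y hy, mul_zero]

/-- PRIME. Proof: THIN (density) for the polynomial functions `P`, `Q`. -/
def S_PRIME : Prop := ∀ (m : ℕ) (Y : Set (Fin m → ℂ)), HasCharts Y → IsConnected Y → (VI Y).IsPrime

/-- evaluation of a polynomial in `T` with coefficients in `ℂ[z_1..z_k]` at `z_i` and `T = θ` -/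
def ev2 {m k : ℕ} (z : Fin k → MvPolynomial (Fin m) ℂ) (θ : MvPolynomial (Fin m) ℂ)
    (P : Polynomial (MvPolynomial (Fin k) ℂ)) : MvPolynomial (Fin m) ℂ :=
  P.eval₂ (MvPolynomial.aeval z : MvPolynomial (Fin k) ℂ →ₐ[ℂ] MvPolynomial (Fin m) ℂ).toRingHom θ

/-- ALG1: Noether normalisation for `ℂ[x] / I` (Mathlib: `exists_finite_inj_algHom_of_fg` or
similar), lifted to polynomials `z i`. -/
def S_ALG1 : Prop := ∀ (m : ℕ) (I : Ideal (MvPolynomial (Fin m) ℂ)), I.IsPrime →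
  ∃ (k : ℕ) (z : Fin k → MvPolynomial (Fin m) ℂ),
    (∀ D : MvPolynomial (Fin k) ℂ, MvPolynomial.aeval z D ∈ I → D = 0) ∧
    ∀ j : Fin m, ∃ P : Polynomial (MvPolynomial (Fin k) ℂ), P.Monic ∧ ev2 z (MvPolynomial.X j) P ∈ I

/-- ALG2: primitive element. Proof. `A = ℂ[z] → R = ℂ[x] / I` is injective and integral, `K = Frac A`,
`L = Frac R` is finite over `K` (char 0). `L = K(α)` (`Field.exists_primitive_element`); every element of
`L` is `r / a` with `r ∈ R`, `0 ≠ a ∈ A`, so we may take `α = θ ∈ R`. `G` = minimal polynomial of `θ` over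
the integrally closed domain `A` (`minpoly.isIntegrallyClosed_dvd`, ..): monic, divides every
`P ∈ A[T]` with `P(θ) = 0` in `R`. `x_j ∈ K[θ]`: clear denominators. `G` is irreducible over
`K`, so separable: `A G + B G' = 1` over `K`, clear denominators. `d` = product of all
denominators. -/
def S_ALG2 : Prop := ∀ (m : ℕ) (I : Ideal (MvPolynomial (Fin m) ℂ)), I.IsPrime →
  ∀ (k : ℕ) (z : Fin k → MvPolynomial (Fin m) ℂ),
    (∀ D : MvPolynomial (Fin k) ℂ, MvPolynomial.aeval z D ∈ I → D = 0) →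
    (∀ j : Fin m, ∃ P : Polynomial (MvPolynomial (Fin k) ℂ), P.Monic ∧
      ev2 z (MvPolynomial.X j) P ∈ I) →
    ∃ (θ : MvPolynomial (Fin m) ℂ) (G A B : Polynomial (MvPolynomial (Fin k) ℂ))
      (d : MvPolynomial (Fin k) ℂ) (Q : Fin m → Polynomial (MvPolynomial (Fin k) ℂ)),
      G.Monic ∧ ev2 z θ G ∈ I ∧ (∀ P, ev2 z θ P ∈ I → G ∣ P) ∧ d ≠ 0 ∧
      (∀ j, MvPolynomial.aeval z d * MvPolynomial.X j - ev2 z θ (Q j) ∈ I) ∧
      A * G + B * Polynomial.derivative G = Polynomial.C d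

/-- COV: the covering. Proof. `I = VI Y` is prime, `Y` is the zero set of `I`. Take ALG1, ALG2. Choose
`z₀` with `d z₀ ≠ 0`; `pr y = (z_i y)_i - z₀`, `δ w = d (w + z₀)`, `e = deg G`. `proper`: from the
monic equations for the coordinates. `dominant`: injectivity. `sections` at `w` with `δ w ≠ 0`, `c = w + z₀`:
`G(c, T)` is separable (from `A G + B G' = d`), so it has `e` distinct simple roots
`r_i`, which extend to holomorphic functions near `c` (implicit function theorem);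
`s_i w' = (Q_j(c', r_i c') / d c')_j`, `c' = w' + z₀`. If `P ∈ I` then
`P~(z, T) = d^M P(Q(z, T) / d)` satisfies `ev2 z θ P~ ∈ I`, so `G ∣ P~` and `P(s_i w') = 0`: hence
`s_i w' ∈ Y`; in the same way `z(s_i w') = c'` and `θ(s_i w') = r_i c'`. Conversely for `y ∈ Y` over `w'` the
value `θ y` is a root of `G(c', T)` and `y_j = Q_j(c', θ y) / d c'`. -/
def S_COV : Prop := ∀ (m : ℕ) (Y : Set (Fin m → ℂ)), IsAlg Y → HasCharts Y → IsConnected Y →
  ∃ (k : ℕ) (pr : (Fin m → ℂ) → (Fin k → ℂ)) (δ : MvPolynomial (Fin k) ℂ) (e : ℕ),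
    0 < e ∧ Cov Y pr δ e

/-! ### generic lines -/

/-- RS1: the radical of `t ↦ δ (t v)`. Proof. Let `p ∈ ℂ[v][t]` be `δ(t v)`, nonzero since its constant
term is `δ 0`. Over the field `ℂ(v)` (char 0) let `ρ` be the radical of `p` (product of the distinct
monic irreducible factors, or `p / gcd(p, p')`): `ρ ∣ p`, `p ∣ ρ^N`, `A ρ + B ρ' = 1`. Clear
denominators: `R = a ρ ∈ ℂ[v][t]`, and `D` = product of `a`, all denominators and of the leading
coefficient of `R`. -/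
def S_RS1 : Prop := ∀ (k : ℕ) (δ : MvPolynomial (Fin k) ℂ), MvPolynomial.eval 0 δ ≠ 0 →
  ∃ (D : MvPolynomial (Fin k) ℂ) (R : Polynomial (MvPolynomial (Fin k) ℂ)), D ≠ 0 ∧
    ∀ v, MvPolynomial.eval v D ≠ 0 → (R.map (MvPolynomial.eval v)).Separable ∧
      (R.map (MvPolynomial.eval v)).natDegree = R.natDegree ∧
      ∀ t : ℂ, (R.map (MvPolynomial.eval v)).eval t = 0 ↔ MvPolynomial.eval (t • v) δ = 0

/-- RS2: simple roots move continuously. Proof. `N = R.natDegree`, `a` the `N` distinct roots at `v`. For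
`v'` near `v` the polynomial `R_{v'}` has degree `N`, `N` distinct roots, and by the implicit function
theorem (or: `|R_{v'}(a i)| → 0` and `|R_{v'}(a i)| = |lead| ∏ |a i - roots|`) it has a root
in each disc `ball (a i) ρ`; for small `ρ` the discs are disjoint, so these are all roots. -/
def S_RS2 : Prop := ∀ (k : ℕ) (δ D : MvPolynomial (Fin k) ℂ)
  (R : Polynomial (MvPolynomial (Fin k) ℂ)),
  (∀ v, MvPolynomial.eval v D ≠ 0 → (R.map (MvPolynomial.eval v)).Separable ∧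
      (R.map (MvPolynomial.eval v)).natDegree = R.natDegree ∧
      ∀ t : ℂ, (R.map (MvPolynomial.eval v)).eval t = 0 ↔ MvPolynomial.eval (t • v) δ = 0) →
  ∀ v, MvPolynomial.eval v D ≠ 0 → RootStable δ v

/-- the lines through `0` in generic directions are good -/
def Gen {k : ℕ} (δ : MvPolynomial (Fin k) ℂ) : Prop :=
  ∃ D : MvPolynomial (Fin k) ℂ, D ≠ 0 ∧ ∀ v, MvPolynomial.eval v D ≠ 0 → RootStable δ v

/-- the set of the points which can be reached from `w₀` along the lift of a path in their line -/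
def Rch {k : ℕ} {δ : MvPolynomial (Fin k) ℂ} {W : Type} [TopologicalSpace W] (q : W → Sp δ)
    (w₀ : W) : Set W := {w | EndsAt q w₀ w (q w).1 1}

/-- RO: the reachable set is open. Proof. `w` reachable, path `c`, `z = q w`. For `z'` in a small ball `B` about
`z` (compactness of `[0,1]`) `c(τ) z'` is in `Sp δ` for all `τ`. The homotopy `(z', τ) ↦ c(τ) z'`,
`B × [0,1] → Sp δ`, has a lift starting at `w₀` (`c(0) z' = 0`); its end `z' ↦ H(z', 1)` is a
continuous section over `B` with value `w` at `z`, so it agrees near `z` with the local inverse of `q` at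
`w`: all `w'` near `w` are of the form `H(z', 1)`. -/
def S_RO : Prop := ∀ (k : ℕ) (δ : MvPolynomial (Fin k) ℂ) (W : Type) [TopologicalSpace W]
  (q : W → Sp δ), IsCoveringMap q → ∀ w₀ : W, (q w₀).1 = 0 → IsOpen (Rch q w₀)

/-- RC: the reachable set is closed at stable points. Proof. `z = q w`, roots `a i` of `δ(t z)`; `a i ≠ 0, 1`.
Choose `ρ > 0` such that the discs `ball (a i) (4 ρ)` are disjoint and do not contain `0, 1`, and
`ε` for `ρ` from `RootStable`; let `B ⊆ ball z ε` be a ball inside `Sp δ` over which `q` has a sheet through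
`w`. Take `w'` in this sheet over `z' ∈ B`, reachable by the path `c`, roots `b i` of `δ(t z')`,
`|b i - a i| < ρ`. Put `H(t, s) = t + s ∑ i, (t - b i) (max 1 (2 ρ / |t - b i|) - 1)`
(pushes `t` away from `b i` to distance at least `2 ρ`, along the ray; at most one summand is nonzero;
continuous off the `b i`, avoids the `b i`, fixes `0` and `1`). Then `c~(τ) = H(c(τ), 1)` is homotopic
to `c` in the line of `z'` minus the roots, and `|c~(τ) - a i| ≥ ρ`, so
`c~(τ) v ∈ Sp δ` for all `v ∈ ball z ε`. Its lift over the line of `z'` ends at `w'` (homotopy rel end points),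
and the homotopy `(τ, s) ↦ c~(τ) ((1 - s) z' + s z)` shows that the lift of `c~(τ) z` ends at the
point of the sheet over `z`, i.e. at `w`. -/
def S_RC : Prop := ∀ (k : ℕ) (δ : MvPolynomial (Fin k) ℂ) (W : Type) [TopologicalSpace W]
  (q : W → Sp δ), IsCoveringMap q → ∀ w₀ : W, (q w₀).1 = 0 → ∀ w : W,
  RootStable δ (q w).1 → w ∈ closure (Rch q w₀) → w ∈ Rch q w₀

/-- RR: everything generic is reachable. Proof. `C = connectedComponent w₀` is open (W is locally
homeomorphic to balls). `T = {w ∈ C | D (q w) ≠ 0}` is preconnected and dense in `C` (CONN for the space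
`C`, BALL for the polynomial `D` on small balls). Points in the sheet of `w₀` over a small ball about
`0` are reachable by `c(τ) = τ`; so `Rch ∩ T` is nonempty, open in `T` (RO), closed in `T` (RC), hence
`T ⊆ Rch`. A point `w ∈ C` with `RootStable δ (q w)` is in the closure of `T ⊆ Rch`: RC. -/
def S_RR : Prop := ∀ (k : ℕ) (δ : MvPolynomial (Fin k) ℂ) (W : Type) [TopologicalSpace W]
  (q : W → Sp δ), IsCoveringMap q → Gen δ → ∀ w₀ : W, (q w₀).1 = 0 →
  ∀ w ∈ connectedComponent w₀, RootStable δ (q w).1 → w ∈ Rch q w₀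

/-- CMY: over the ball of `Cov.sections` the sets `s i (ball)` are disjoint and open in `Yo`. -/
def S_CMY : Prop := ∀ (m k : ℕ) (Y : Set (Fin m → ℂ)) (pr : (Fin m → ℂ) → (Fin k → ℂ))
  (δ : MvPolynomial (Fin k) ℂ) (e : ℕ), Cov Y pr δ e → IsCoveringMap (qY Y pr δ)

/-- CMW: the same with the logarithms of `g`; over a small ball about `z` the functions
`g ∘ s i` have continuous logarithms `l i` (values near `g (s i z) ≠ 0`), and the fibre is
`Fin e × ℤ`, `(i, n) ↦ (s i z', l i z' + 2 π i n)`. -/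
def S_CMW : Prop := ∀ (m k : ℕ) (Y : Set (Fin m → ℂ)) (pr : (Fin m → ℂ) → (Fin k → ℂ))
  (δ : MvPolynomial (Fin k) ℂ) (e : ℕ), Cov Y pr δ e →
  ∀ g : (Fin m → ℂ) → ℂ, ContinuousOn g Y → (∀ y ∈ Y, g y ≠ 0) → IsCoveringMap (qW Y pr δ g)

/-- the part of `Y` over the line `ℂ v` (and over `{δ ≠ 0}`) -/
def Ln {m k : ℕ} (Y : Set (Fin m → ℂ)) (pr : (Fin m → ℂ) → (Fin k → ℂ))
    (δ : MvPolynomial (Fin k) ℂ) (v : Fin k → ℂ) : Set (Fin m → ℂ) :=
  {y | y ∈ Y ∧ (∃ t : ℂ, pr y = t • v) ∧ MvPolynomial.eval (pr y) δ ≠ 0}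

/-- LCY: generic lines have connected preimages. Proof. Fix `y₀` over `0`. `Yo` is connected. For `y ∈ Ln`
over `t v`, `t ≠ 0`: `RootStable δ (t v)` (rescale the roots), so by RR for `q = qY` (CMY)
there is a path in `Yo` over the line from `y₀` to `y`; it is in `Ln`. A point `y ∈ Ln` over `0` is joined
inside its sheet (`Cov.sections` at `0`, segment in `ℂ v`) to a point over `t v`, `t ≠ 0` small. -/
def S_LCY : Prop := ∀ (m k : ℕ) (Y : Set (Fin m → ℂ)) (pr : (Fin m → ℂ) → (Fin k → ℂ))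
  (δ : MvPolynomial (Fin k) ℂ) (e : ℕ), Cov Y pr δ e → 0 < e → Gen δ →
  IsPreconnected {y | y ∈ Y ∧ MvPolynomial.eval (pr y) δ ≠ 0} →
  ∀ v : Fin k → ℂ, v ≠ 0 → RootStable δ v → IsPreconnected (Ln Y pr δ v)

/-- LOGL: a logarithm on a generic line gives a logarithm. Proof. `q = qW : Wg → Sp δ` is a covering (CMW).
Let `h₁` be the logarithm on `Ln`, `y₀` over `0`, `w₀ = (y₀, h₁ y₀)`,
`C = connectedComponent w₀`. The projection `C → Yo` is onto (its image is open and closed: small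
connected evenly covered neighbourhoods) and `Yo` is connected. `C → Yo` is injective: if
`(y, h), (y, h + 2 π i n) ∈ C` then the deck translation by `2 π i n` maps `C` to `C`; take a point
`(y₁, h) ∈ C` over `v`: by RR every point `(y, h)` of `C` over `v` is the end of a lift
`(y(τ), h(τ))` over the line starting at `w₀`, and `h(τ) - h₁ (y(τ))` is a constant `0`,
so `h = h₁ y` and `n = 0`. So `C` is the graph of a function `Yo → ℂ`, continuous since
`C → Yo` is open (a local homeomorphism), which is a logarithm of `g`. -/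
def S_LOGL : Prop := ∀ (m k : ℕ) (Y : Set (Fin m → ℂ)) (pr : (Fin m → ℂ) → (Fin k → ℂ))
  (δ : MvPolynomial (Fin k) ℂ) (e : ℕ), Cov Y pr δ e → 0 < e → Gen δ →
  IsPreconnected {y | y ∈ Y ∧ MvPolynomial.eval (pr y) δ ≠ 0} →
  ∀ v : Fin k → ℂ, MvPolynomial.eval v δ ≠ 0 → RootStable δ v →
  ∀ g : (Fin m → ℂ) → ℂ, ContinuousOn g Y → (∀ y ∈ Y, g y ≠ 0) → HasLog (Ln Y pr δ v) g →
  HasLog {y | y ∈ Y ∧ MvPolynomial.eval (pr y) δ ≠ 0} g

/-- SHEET: sections over convex plane sets. Proof. `K` is simply connected and locally path connected, so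
the maps `t ↦ γ t ∈ Sp δ` lift to the covering `qY` (CMY), one lift for each point of the
fibre over a base point (`e` of them); two lifts which agree at a point are equal. Holomorphic because
locally they are `s i ∘ γ` with the holomorphic local sections of `Cov`. -/
def S_SHEET : Prop := ∀ (m k : ℕ) (Y : Set (Fin m → ℂ)) (pr : (Fin m → ℂ) → (Fin k → ℂ))
  (δ : MvPolynomial (Fin k) ℂ) (e : ℕ), Cov Y pr δ e →
  ∀ (K : Set ℂ) (γ : ℂ → (Fin k → ℂ)), IsOpen K → Convex ℝ K → DifferentiableOn ℂ γ K →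
  (∀ t ∈ K, MvPolynomial.eval (γ t) δ ≠ 0) →
  ∃ s : Fin e → ℂ → (Fin m → ℂ), (∀ i, DifferentiableOn ℂ (s i) K) ∧
    ∀ t ∈ K, Function.Injective (fun i => s i t) ∧
      {y | y ∈ Y ∧ pr y = γ t} = Set.range (fun i => s i t)

/-- EL: the ends. Proof. `t ↦ δ(t v)` is a nonzero polynomial (`δ 0 ≠ 0`), so `δ(exp s v) ≠ 0` for
`Re s > c`. SHEET for the half plane and `γ s = exp s • v`. `s ↦ Λ i (s + 2 π i)` is again a
section, so it is `Λ (π i)` for a permutation `π`, and `κ = e!` works. -/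
def S_EL : Prop := ∀ (m k : ℕ) (Y : Set (Fin m → ℂ)) (pr : (Fin m → ℂ) → (Fin k → ℂ))
  (δ : MvPolynomial (Fin k) ℂ) (e : ℕ), Cov Y pr δ e → ∀ v : Fin k → ℂ,
  ∃ (c : ℝ) (κ : ℕ) (Λ : Fin e → ℂ → (Fin m → ℂ)), EndLift Y pr δ e v c κ Λ

/-- CVX: the complement of a finite plane set is a finite union of convex open sets. Proof. After a
rotation the points `r_1, .., r_D` have increasing distinct real parts (only finitely many directions are
bad); for each `i` take the strip between the real parts of `r_(i-1)` and `r_(i+1)` (infinite for the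
first and the last one), intersected with one of the four half planes `Re < Re r_i`, `Re > Re r_i`,
`Im < Im r_i`, `Im > Im r_i`. (Any other finite convex cover will do as well.) -/
def S_CVX : Prop := ∀ F : Finset ℂ, ∃ (N : ℕ) (K : Fin N → Set ℂ),
  (∀ i, IsOpen (K i)) ∧ (∀ i, Convex ℝ (K i)) ∧ ⋃ i, K i = (F : Set ℂ)ᶜ

/-- GC: finite good covers. Proof. Choose logarithms `h l i` of `g l` on `V i`; on the preconnected set
`V i ∩ V j` the function `(h l i - h l j) / (2 π i)` is an integer constant `n l (i, j)` (put `0`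
if it is empty). There are more functions than pairs, so `∑ a l * n l = 0` for an integer vector
`a ≠ 0`; then the functions `∑ l, a l * h l i` agree on overlaps and glue to a logarithm of
`∏ g l ^ a l`, continuous since the `V i` are relatively open. -/
def S_GC : Prop := ∀ (E : Type) [TopologicalSpace E] (A : Set E) (N : ℕ) (V : Fin N → Set E),
  A = ⋃ i, V i → (∀ i, ∃ O : Set E, IsOpen O ∧ V i = A ∩ O) →
  (∀ i, ∀ g : E → ℂ, ContinuousOn g (V i) → (∀ y ∈ V i, g y ≠ 0) → HasLog (V i) g) →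
  (∀ i j, IsPreconnected (V i ∩ V j)) → FiniteRank A (N * N)

/-- FRL: finite rank over a line. Proof. CVX for the finite set of the roots `t` of `δ(t v)`; SHEET over
each convex piece for `γ t = t • v`; `V (i, l) = s i l '' K i`. Relatively open in `Ln`:
`t` is a continuous function of `pr y = t v` (`v ≠ 0`), and the sheets are disjoint and closed under
limits over `K i`. Functions on `V (i, l)` are functions on the convex open set `K i`, so they have
logarithms (simply connected). The intersections are the images of the sets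
`{t ∈ K i ∩ K j | s i l t = s j l' t}` which are empty or all of the convex set `K i ∩ K j`. GC. -/
def S_FRL : Prop := ∀ (m k : ℕ) (Y : Set (Fin m → ℂ)) (pr : (Fin m → ℂ) → (Fin k → ℂ))
  (δ : MvPolynomial (Fin k) ℂ) (e : ℕ), Cov Y pr δ e → ∀ v : Fin k → ℂ, v ≠ 0 →
  ∃ s : ℕ, FiniteRank (Ln Y pr δ v) s

/-- FR: finite rank. Proof. COV, `Gen δ` by RS1 and RS2. If `k = 0`: `Y` is the fibre over `0`, finite and
connected, a point. If `k ≥ 1` choose `v` with `D v ≠ 0`, `δ v ≠ 0`, `v ≠ 0`.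
`{y ∈ Y | δ (pr y) ≠ 0}` is preconnected by THIN for `u = δ ∘ pr` (nonzero by `Cov.dominant`).
FRL gives `s`; given `g l` continuous nowhere zero on `Y`, get `a` for `Ln`, then a logarithm
of `∏ g l ^ a l` on `Ln`, on `{δ ≠ 0}` (LOGL) and on `Y` (LOGX). -/
def S_FR : Prop := ∀ (m : ℕ) (Y : Set (Fin m → ℂ)), IsAlg Y → HasCharts Y → IsConnected Y →
  ∃ s : ℕ, FiniteRank Y s

/-- FRH: topological invariance. Proof: transport the functions with the homeomorphism (extend by `1`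
outside). -/
def S_FRH : Prop := ∀ (n m : ℕ) (X : Set (Fin n → ℂ)) (Y : Set (Fin m → ℂ)) (s : ℕ),
  Nonempty (↥X ≃ₜ ↥Y) → FiniteRank X s → FiniteRank Y s

/-! ### units -/

/-- nowhere zero holomorphic functions on `Y` of moderate growth at the ends of the line -/
def TU {m e : ℕ} (Y : Set (Fin m → ℂ)) (Λ : Fin e → ℂ → (Fin m → ℂ)) (u : (Fin m → ℂ) → ℂ) : Prop :=
  HolOn Y u ∧ (∀ y ∈ Y, u y ≠ 0) ∧ ∀ i, ∃ A C c' : ℝ, ∀ s : ℂ, c' < s.re →
    ‖u (Λ i s)‖ ≤ C * Real.exp (A * s.re) ∧ ‖(u (Λ i s))⁻¹‖ ≤ C * Real.exp (A * s.re)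

/-- TUG: Picard. Proof. `φ = g ∘ Λ i` is holomorphic on `Re s > c` (local holomorphic extensions of `g`),
`κ`-periodic, omits `0, 1`: `H113G.end_growth` with `H113G.big_picard` and `H113G.schottky_all`
(files Helper113/Gorin/G_end_growth, G_big_picard, Schottky). The functions `1 / φ`, `1 - φ`,
`1 / (1 - φ)` omit `0, 1` as well. -/
def S_TUG : Prop := ∀ (m k : ℕ) (Y : Set (Fin m → ℂ)) (pr : (Fin m → ℂ) → (Fin k → ℂ))
  (δ : MvPolynomial (Fin k) ℂ) (e : ℕ) (v : Fin k → ℂ) (c : ℝ) (κ : ℕ)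
  (Λ : Fin e → ℂ → (Fin m → ℂ)), EndLift Y pr δ e v c κ Λ →
  ∀ g : (Fin m → ℂ) → ℂ, HolOn Y g → (∀ y ∈ Y, g y ≠ 0 ∧ g y ≠ 1) →
  TU Y Λ g ∧ TU Y Λ (fun y => 1 - g y)

/-- TUP: products of powers. -/
def S_TUP : Prop := ∀ (m e : ℕ) (Y : Set (Fin m → ℂ)) (Λ : Fin e → ℂ → (Fin m → ℂ)) (N : ℕ)
  (f : Fin N → (Fin m → ℂ) → ℂ), (∀ l, TU Y Λ (f l)) → ∀ a : Fin N → ℤ,
  TU Y Λ (fun y => ∏ l, f l y ^ a l)

/-- ORD: the order at an end. Proof. `f q = φ (- κ log q)` is well defined (periodicity) and holomorphic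
on a punctured disc, nowhere zero, `|f q|, |1 / f q| ≤ C |q|^(- A κ)`. So `q^M f q` extends
holomorphically (`M` large), is not identically zero, and is `q^j ψ q` with `ψ 0 ≠ 0`. -/
def S_ORD : Prop := ∀ (c : ℝ) (κ : ℕ) (φ : ℂ → ℂ), 0 < κ →
  DifferentiableOn ℂ φ {s : ℂ | c < s.re} → (∀ s : ℂ, c < s.re → φ s ≠ 0) →
  (∀ s : ℂ, c < s.re → φ (s + 2 * Real.pi * κ * Complex.I) = φ s) →
  (∃ A C c' : ℝ, ∀ s : ℂ, c' < s.re → ‖φ s‖ ≤ C * Real.exp (A * s.re) ∧
    ‖(φ s)⁻¹‖ ≤ C * Real.exp (A * s.re)) →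
  ∃ (n : ℤ) (r : ℝ) (ψ : ℂ → ℂ), 0 < r ∧ DifferentiableOn ℂ ψ (ball 0 r) ∧
    (∀ q ∈ ball (0 : ℂ) r, ψ q ≠ 0) ∧
    ∀ s : ℂ, c < s.re → ‖Complex.exp (-(s / κ))‖ < r →
      φ s = Complex.exp (-(s / κ)) ^ n * ψ (Complex.exp (-(s / κ)))

/-- BDD: bounded at the ends implies bounded on the line. Proof. `y ∈ Y`, `pr y = t v`. If `|t|` is
large, `t = exp s` with `Re s > max c c'` and `y = Λ i s` (`EndLift.fib`). Otherwise `y` is in the compact
set `{y ∈ Y | ‖pr y‖ ≤ T ‖v‖}` (`Cov.closed`, `Cov.proper`) and `u` is continuous on `Y`. -/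
def S_BDD : Prop := ∀ (m k : ℕ) (Y : Set (Fin m → ℂ)) (pr : (Fin m → ℂ) → (Fin k → ℂ))
  (δ : MvPolynomial (Fin k) ℂ) (e : ℕ), Cov Y pr δ e → ∀ (v : Fin k → ℂ) (c : ℝ) (κ : ℕ)
  (Λ : Fin e → ℂ → (Fin m → ℂ)), EndLift Y pr δ e v c κ Λ →
  ∀ u : (Fin m → ℂ) → ℂ, HolOn Y u →
  (∀ i, ∃ C c' : ℝ, ∀ s : ℂ, c' < s.re → ‖u (Λ i s)‖ ≤ C) →
  ∃ C : ℝ, ∀ y ∈ Y, (∃ t : ℂ, pr y = t • v) → ‖u y‖ ≤ C

/-- LIOU: Liouville. Proof. For `t` with `δ(t v) ≠ 0` put `P_j(t) = ∑ (u y)^j`, sum over the `e` points `y`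
of `Y` over `t v` (`Cov.sections`); holomorphic off the finite set of roots, bounded, so it extends to a
bounded entire function, a constant. So the power sums of the `e` values are constant, the
multiset of the values is constant (Newton identities, or: the polynomial
`∏ (T - u y)`, whose coefficients are bounded holomorphic functions of `t` as well, is
constant), `u` has finitely many values on `Ln`, and `Ln` is connected and `u` continuous. -/
def S_LIOU : Prop := ∀ (m k : ℕ) (Y : Set (Fin m → ℂ)) (pr : (Fin m → ℂ) → (Fin k → ℂ))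
  (δ : MvPolynomial (Fin k) ℂ) (e : ℕ), Cov Y pr δ e → ∀ v : Fin k → ℂ, v ≠ 0 →
  IsPreconnected (Ln Y pr δ v) → ∀ u : (Fin m → ℂ) → ℂ, HolOn Y u →
  (∃ C : ℝ, ∀ y ∈ Y, (∃ t : ℂ, pr y = t • v) → ‖u y‖ ≤ C) →
  ∀ y ∈ Ln Y pr δ v, ∀ y' ∈ Ln Y pr δ v, u y = u y'

/-- LOGC: a unit with a logarithm is constant. Proof. `h` the logarithm; for each `i` the function
`h ∘ Λ i` is a continuous `κ`-periodic logarithm of `u ∘ Λ i` on `Re s > c` (`Λ i s ∈ Ln` by
`EndLift.fib`, `EndLift.ne`), so `u ∘ Λ i` is bounded at the end by `H113G.end_bounded`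
(Helper113/Gorin/G_end_bounded). BDD, LIOU. -/
def S_LOGC : Prop := ∀ (m k : ℕ) (Y : Set (Fin m → ℂ)) (pr : (Fin m → ℂ) → (Fin k → ℂ))
  (δ : MvPolynomial (Fin k) ℂ) (e : ℕ), Cov Y pr δ e → ∀ (v : Fin k → ℂ) (c : ℝ) (κ : ℕ)
  (Λ : Fin e → ℂ → (Fin m → ℂ)), v ≠ 0 → EndLift Y pr δ e v c κ Λ →
  IsPreconnected (Ln Y pr δ v) → ∀ u : (Fin m → ℂ) → ℂ, TU Y Λ u → HasLog (Ln Y pr δ v) u →
  ∀ y ∈ Ln Y pr δ v, ∀ y' ∈ Ln Y pr δ v, u y = u y'

/-- BAS: bases in finitely generated torsion free abelian groups (`Subgroup.closure (range f)` as a free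
`ℤ`-module of finite rank; the rank is at most `s` because any `s + 1` elements are
dependent). -/
def S_BAS : Prop := ∀ (G : Type) [CommGroup G] (N s : ℕ) (f : Fin N → G),
  (∀ x ∈ Subgroup.closure (Set.range f), ∀ j : ℕ, 0 < j → x ^ j = 1 → x = 1) →
  (∀ w : Fin (s + 1) → G, (∀ i, w i ∈ Subgroup.closure (Set.range f)) →
    ∃ a : Fin (s + 1) → ℤ, a ≠ 0 ∧ ∏ i, w i ^ a i = 1) →
  ∃ n ≤ s, ∃ u : Fin n → G, (∀ i, u i ∈ Subgroup.closure (Set.range f)) ∧
    (∀ a : Fin n → ℤ, ∏ i, u i ^ a i = 1 → a = 0) ∧ ∀ l, ∃ b : Fin n → ℤ, f l = ∏ i, u i ^ b i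

/-- BF: basis of the group generated by the functions `f l` modulo constants on the line. Proof. BAS for
`G = (↥(Ln Y pr δ v) → ℂˣ) ⧸ (constants)` and the classes of the `f l`. Elements of the closure are
classes of `w y = ∏ l, f l y ^ b l`, units by TUP. Torsion free: if `w ^ j` is constant then `w`
has finitely many values and is constant (`Ln` preconnected). Rank: `FiniteRank Y s` gives
`a ≠ 0` and a logarithm of `∏ w i ^ a i` on `Y ⊇ Ln`; LOGC. -/
def S_BF : Prop := ∀ (m k : ℕ) (Y : Set (Fin m → ℂ)) (pr : (Fin m → ℂ) → (Fin k → ℂ))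
  (δ : MvPolynomial (Fin k) ℂ) (e : ℕ), Cov Y pr δ e → ∀ (v : Fin k → ℂ) (c : ℝ) (κ : ℕ)
  (Λ : Fin e → ℂ → (Fin m → ℂ)), v ≠ 0 → EndLift Y pr δ e v c κ Λ →
  IsConnected (Ln Y pr δ v) → ∀ s : ℕ, FiniteRank Y s → ∀ (N : ℕ) (f : Fin N → (Fin m → ℂ) → ℂ),
  (∀ l, TU Y Λ (f l)) →
  ∃ n ≤ s, ∃ b : Fin n → Fin N → ℤ,
    (∀ a : Fin n → ℤ, (∀ y ∈ Ln Y pr δ v, ∀ y' ∈ Ln Y pr δ v,
      ∏ j, (∏ l, f l y ^ b j l) ^ a j = ∏ j, (∏ l, f l y' ^ b j l) ^ a j) → a = 0) ∧
    ∀ l, ∃ (mm : Fin n → ℤ) (z : ℂ), z ≠ 0 ∧ ∀ y ∈ Ln Y pr δ v,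
      f l y = z * ∏ j, (∏ l', f l' y ^ b j l') ^ mm j

/-! ### the cubic equations -/

/-- the cubic relation -/
def EE {n : ℕ} (m₁ n₁ w w' : Fin n → ℂ) : ℂ :=
  (∑ j, n₁ j * w j) * (∑ j, m₁ j * w' j) - (∑ j, m₁ j * w j) * (∑ j, n₁ j * w' j) -
    (∑ j, m₁ j * w j) * (∑ j, n₁ j * w j) * ((∑ j, n₁ j * w j) - ∑ j, m₁ j * w j)

/-- logarithmic derivatives of functions of one variable -/
def lg {n : ℕ} (f : Fin n → ℂ → ℂ) (s : ℂ) : Fin n → ℂ := fun j => deriv (f j) s / f j s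

/-- and their derivatives -/
def lg' {n : ℕ} (f : Fin n → ℂ → ℂ) (s : ℂ) : Fin n → ℂ := fun j => deriv (fun x => lg f x j) s

/-- END: one end. Proof. `D = d/ds`, `X = ∑ mm w`, `Y = ∑ nn w`, `ξ = ∑ μ w`, `η = ∑ ν w`, `w = lg f`.
`γ' = γ X`, `(1 - γ)' = (1 - γ) Y`, so `γ X + (1 - γ) Y = 0`, `γ (Y - X) = Y`; differentiate:
`Y' = γ X (Y - X) + γ (Y' - X')`, and multiply by `Y - X`: the cubic relation
`Y X' - X Y' = X Y (Y - X)`. As functions of `q = exp(-s/κ)`, near `q = 0`: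
`w j = -(1/κ) (o j + q ψ_j'(q) / ψ_j(q))`, holomorphic in `q` also at `0`, with value `-(o j)/κ`.
`X, Y, Y - X` are not identically zero for small `q` (`γ`, `1 - γ`, `γ/(1-γ)` are not constant on the
half plane), so they have no zeros for `0 < |q| < r'`. Put `F = (Y ξ - X η) / (Y (Y - X))`, a
holomorphic function `Φ(q)` on the punctured disc. By the cubic relation
`F' - ξ = dE / (Y (Y - X))` (identity of rational functions: `field_simp; ring` after
replacing `Y X'` by `X Y' + X Y (Y - X)`), so `F' = ξ`, i.e. `-(q/κ) Φ'(q) = Ξ(q)` with `Ξ`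
holomorphic at `0`, `Ξ 0 = -(1/κ) ∑ μ j o j`. The integral of `Φ'` over a small circle is `0`, that of
`-κ Ξ(q)/q` is `-2 π i κ Ξ(0)`; so `Ξ 0 = 0`. For `ν` exchange `γ` and `1 - γ`
(`dE` changes sign). -/
def S_END : Prop := ∀ (c r : ℝ) (κ n : ℕ) (f ψ : Fin n → ℂ → ℂ) (γ : ℂ → ℂ) (o : Fin n → ℤ),
  0 < κ → 0 < r →
  (∀ j, DifferentiableOn ℂ (f j) {s : ℂ | c < s.re}) → (∀ j, ∀ s : ℂ, c < s.re → f j s ≠ 0) →
  (∀ j, DifferentiableOn ℂ (ψ j) (ball 0 r)) → (∀ j, ∀ q ∈ ball (0 : ℂ) r, ψ j q ≠ 0) →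
  (∀ j, ∀ s : ℂ, c < s.re → ‖Complex.exp (-(s / κ))‖ < r →
    f j s = Complex.exp (-(s / κ)) ^ o j * ψ j (Complex.exp (-(s / κ)))) →
  DifferentiableOn ℂ γ {s : ℂ | c < s.re} → (∀ s : ℂ, c < s.re → γ s ≠ 0 ∧ γ s ≠ 1) →
  (∀ a : ℂ, ∃ s : ℂ, c < s.re ∧ γ s ≠ a) →
  ∀ (mm nn : Fin n → ℤ) (c1 c2 : ℂ), (∀ s : ℂ, c < s.re → γ s = c1 * ∏ j, f j s ^ mm j) →
  (∀ s : ℂ, c < s.re → 1 - γ s = c2 * ∏ j, f j s ^ nn j) →
  (∀ s : ℂ, c < s.re → EE (fun j => (mm j : ℂ)) (fun j => (nn j : ℂ)) (lg f s) (lg' f s) = 0) ∧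
  ∀ μ ν : Fin n → ℂ, (∀ s : ℂ, c < s.re →
    dE (fun j => (mm j : ℂ)) (fun j => (nn j : ℂ)) μ ν (lg f s) (lg' f s) = 0) →
    ∑ j, μ j * (o j : ℂ) = 0 ∧ ∑ j, ν j * (o j : ℂ) = 0

/-- RAT: an integer matrix with trivial kernel on `ℤ^n` has trivial kernel on `ℂ^n`. -/
def S_RAT : Prop := ∀ (e n : ℕ) (M : Fin e → Fin n → ℤ),
  (∀ a : Fin n → ℤ, (∀ i, ∑ j, a j * M i j = 0) → a = 0) →
  ∀ μ : Fin n → ℂ, (∀ i, ∑ j, μ j * (M i j : ℂ) = 0) → μ = 0

/-- IDL: identity theorem on the line. Proof. The set of all `y ∈ Ln` such that `g = a` on a neighbourhood of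
`y` in `Ln` is open in `Ln`; closed: near a point over `t₀ v` the set `Ln` consists of the `e` disjoint
pieces `t ↦ s i (t v)` (`Cov.sections`), `g ∘ s i` is holomorphic in `t` on a disc and vanishes
identically as soon as it does on an open subset; nonempty: the points `Λ i s` (`t = exp s`; the values of
`t` with `g = a` on the sheet of `Λ i s` contain an open set). `Ln` is preconnected. -/
def S_IDL : Prop := ∀ (m k : ℕ) (Y : Set (Fin m → ℂ)) (pr : (Fin m → ℂ) → (Fin k → ℂ))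
  (δ : MvPolynomial (Fin k) ℂ) (e : ℕ), Cov Y pr δ e → ∀ (v : Fin k → ℂ) (c : ℝ) (κ : ℕ)
  (Λ : Fin e → ℂ → (Fin m → ℂ)), v ≠ 0 → EndLift Y pr δ e v c κ Λ →
  IsPreconnected (Ln Y pr δ v) → ∀ (g : (Fin m → ℂ) → ℂ) (a : ℂ) (i : Fin e), HolOn Y g →
  (∀ s : ℂ, c < s.re → g (Λ i s) = a) → ∀ y ∈ Ln Y pr δ v, g y = a

/-- ND: nondegeneracy. Proof. For each end `i` apply ORD to `f j = u j ∘ Λ i` (orders `o i j`,
common radius), IDL (so `g ∘ Λ i` is not constant) and END: the cubic relation, and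
`∑ μ j o i j = 0 = ∑ ν j o i j` for all `i`. If `a ∈ ℤ^n` and `∑ a j o i j = 0` for all `i` then
`∏ u j ^ a j` is bounded at every end (`= ∏ ψ_j(q)^(a j)`), so it is constant on `Ln` by
TUP, BDD, LIOU, and `a = 0`. RAT: `μ = ν = 0`. -/
def S_ND : Prop := ∀ (m k : ℕ) (Y : Set (Fin m → ℂ)) (pr : (Fin m → ℂ) → (Fin k → ℂ))
  (δ : MvPolynomial (Fin k) ℂ) (e : ℕ), Cov Y pr δ e → ∀ (v : Fin k → ℂ) (c : ℝ) (κ : ℕ)
  (Λ : Fin e → ℂ → (Fin m → ℂ)), v ≠ 0 → EndLift Y pr δ e v c κ Λ →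
  IsPreconnected (Ln Y pr δ v) → ∀ (n : ℕ) (u : Fin n → (Fin m → ℂ) → ℂ), (∀ j, TU Y Λ (u j)) →
  (∀ a : Fin n → ℤ, (∀ y ∈ Ln Y pr δ v, ∀ y' ∈ Ln Y pr δ v,
      ∏ j, u j y ^ a j = ∏ j, u j y' ^ a j) → a = 0) →
  ∀ g : (Fin m → ℂ) → ℂ, HolOn Y g → (∀ y ∈ Y, g y ≠ 0 ∧ g y ≠ 1) →
  (∃ y ∈ Ln Y pr δ v, ∃ y' ∈ Ln Y pr δ v, g y ≠ g y') →
  ∀ (mm nn : Fin n → ℤ) (c1 c2 : ℂ), (∀ y ∈ Ln Y pr δ v, g y = c1 * ∏ j, u j y ^ mm j) →
  (∀ y ∈ Ln Y pr δ v, 1 - g y = c2 * ∏ j, u j y ^ nn j) →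
  (∀ i, ∀ s : ℂ, c < s.re → EE (fun j => (mm j : ℂ)) (fun j => (nn j : ℂ))
    (lg (fun j x => u j (Λ i x)) s) (lg' (fun j x => u j (Λ i x)) s) = 0) ∧
  ∀ μ ν : Fin n → ℂ, (∀ i, ∀ s : ℂ, c < s.re →
    dE (fun j => (mm j : ℂ)) (fun j => (nn j : ℂ)) μ ν
      (lg (fun j x => u j (Λ i x)) s) (lg' (fun j x => u j (Λ i x)) s) = 0) → μ = 0 ∧ ν = 0

/-- EP: the cubic polynomial. Direct computation. -/
def S_EP : Prop := ∀ (n : ℕ) (w w' : Fin n → ℂ), (Epol w w').totalDegree ≤ 3 ∧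
  (∀ m₁ n₁ : Fin n → ℂ, MvPolynomial.eval (Sum.elim m₁ n₁) (Epol w w') = EE m₁ n₁ w w') ∧
  ∀ m₁ n₁ μ ν : Fin n → ℂ, ∑ j : Fin n ⊕ Fin n,
    MvPolynomial.eval (Sum.elim m₁ n₁) (MvPolynomial.pderiv j (Epol w w')) * Sum.elim μ ν j =
      dE m₁ n₁ μ ν w w'

/-- BZ1: nondegenerate zeros of square cubic systems. Proof. For small `ε ≠ 0` the system
`P i (z) + ε z_i^4 = 0` has a zero near each `z ∈ Z` (inverse function theorem for
`(z, ε) ↦ (P z + ε z^4, ε)`), distinct ones for distinct points. For fixed `ε` a system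
`z_i^4 = g i (z)`, `deg g i < 4`, has at most `4 ^ card ι` zeros: `Pool.Agent.H247R2.Warren.zero_count` is the
same statement over `ℝ`; its (linear algebra) proof works over `ℂ`, copy it. -/
def S_BZ1 : Prop := ∀ (ι : Type) [Fintype ι] [DecidableEq ι] (P : ι → MvPolynomial ι ℂ),
  (∀ i, (P i).totalDegree ≤ 3) → ∀ Z : Finset (ι → ℂ),
  (∀ z ∈ Z, (∀ i, MvPolynomial.eval z (P i) = 0) ∧
    (Matrix.of fun i j => MvPolynomial.eval z (MvPolynomial.pderiv j (P i))).det ≠ 0) →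
  Z.card ≤ 4 ^ Fintype.card ι

/-- BZ: nondegenerate zeros of overdetermined cubic systems. Proof. For each `z ∈ Z` the differentials of
the `P t` at `z` span the dual space, so finitely many `t` suffice for all `z ∈ Z`. Replace the `P t` by
`card ι` linear combinations with coefficient matrix `A`; for each `z` the determinant of the
Jacobian is a polynomial in the entries of `A` which is not identically zero, so is their product,
and there is an `A` for which all Jacobians are invertible. BZ1. -/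
def S_BZ : Prop := ∀ (ι T : Type) [Fintype ι] [DecidableEq ι] (P : T → MvPolynomial ι ℂ),
  (∀ t, (P t).totalDegree ≤ 3) → ∀ Z : Finset (ι → ℂ),
  (∀ z ∈ Z, (∀ t, MvPolynomial.eval z (P t) = 0) ∧ ∀ x : ι → ℂ,
    (∀ t, ∑ j, MvPolynomial.eval z (MvPolynomial.pderiv j (P t)) * x j = 0) → x = 0) →
  Z.card ≤ 4 ^ Fintype.card ι

/-- UNIT: the bound. Proof. COV; `Gen δ` (RS1, RS2). `k ≥ 1` if `N ≥ 1` (if `k = 0`, `Y` is the fibre over `0`,
finite and connected, a point, and has no nonconstant functions). Let `D` be the polynomial of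
`Gen`, `y₀ ∈ Y` over `0`. By GEN there is `y₁ ∈ Y` with `D (pr y₁) ≠ 0`, `δ (pr y₁) ≠ 0`, a coordinate of
`pr y₁` nonzero, `g i y₁ ≠ g i y₀`, `g i y₁ ≠ g j y₁` for `i ≠ j`. `v = pr y₁`, `y₀, y₁ ∈ Ln`; `Ln` is
connected by LCY, THIN. EL, TUG: `f` = the `2 N` functions `g i, 1 - g i`. BF: `n ≤ s`, `b`,
`u j = ∏ f ^ b j` (units by TUP), exponents `mm i, nn i`. The pairs `(mm i, nn i)` are distinct: if
`(mm i, nn i) = (mm j, nn j)` then `g i = a g j`, `1 - g i = a' (1 - g j)` on `Ln`, and `g j` is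
not constant on `Ln`, so `a = a' = 1` and `g i y₁ = g j y₁`, `i = j`. ND, EP: they are nondegenerate zeros
of the polynomials `Epol (lg ..) (lg' ..)`, indexed by `(i, s)`, `Re s > c`. BZ:
`N ≤ 4 ^ (2 n) ≤ 4 ^ (2 s)`. -/
def S_UNIT : Prop := ∀ (s m : ℕ) (Y : Set (Fin m → ℂ)), IsAlg Y → HasCharts Y → IsConnected Y →
  FiniteRank Y s → ∀ (N : ℕ) (g : Fin N → (Fin m → ℂ) → ℂ), (∀ i, HolOn Y (g i)) →
  (∀ i, ∀ y ∈ Y, g i y ≠ 0 ∧ g i y ≠ 1) → (∀ i, ∃ a ∈ Y, ∃ b ∈ Y, g i a ≠ g i b) →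
  (∀ i j, i ≠ j → ∃ y ∈ Y, g i y ≠ g j y) → N ≤ 4 ^ (2 * s)

end

end Pool.Agent.Q22.GO
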