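import Pool.Agent.Q22.GO.Stm

set_option autoImplicit false

/-!
# Project GO (helper22), job THIN (helper299)
-/

namespace Pool.Agent.Q22.GO

open H113G Metric Set Topology

namespace THIN

/-- a small piece of `Y` on which `u` vanishes or has a thin zero set -/
theorem piece (hball : S_BALL) {m : ℕ} {Y : Set (Fin m → ℂ)} (hY : HasCharts Y)
    {u : (Fin m → ℂ) → ℂ} (hu : HolOn Y u) {p : Fin m → ℂ} (hp : p ∈ Y) {N : Set (Fin m → ℂ)}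
    (hN : N ∈ 𝓝 p) :
    ∃ V : Set (Fin m → ℂ), V ⊆ N ∧ IsOpen V ∧ p ∈ V ∧ ((∀ y ∈ Y, y ∈ V → u y = 0) ∨
      ((∀ y ∈ Y, y ∈ V → ∀ M ∈ 𝓝 y, ∃ z ∈ Y, z ∈ V ∧ z ∈ M ∧ u z ≠ 0) ∧
        IsPreconnected {z | z ∈ Y ∧ z ∈ V ∧ u z ≠ 0})) := by
  obtain ⟨U, hU, hpU, h, hh, hhu⟩ := hu p hp
  obtain ⟨n, ψ, κ, V, hV, hpV, hVN, hψ, hψ0, himg, hκ, hκψ⟩ :=
    hY p hp (N ∩ U) (Filter.inter_mem hN (hU.mem_nhds hpU))
  have hmaps : ∀ x ∈ ball (0 : Fin n → ℂ) 1, ψ x ∈ Y ∧ ψ x ∈ V := by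
    intro x hx
    have : ψ x ∈ Y ∩ V := himg ▸ mem_image_of_mem ψ hx
    exact this
  have hfd : DifferentiableOn ℂ (fun x => h (ψ x)) (ball (0 : Fin n → ℂ) 1) :=
    hh.comp hψ fun x hx => (hVN (hmaps x hx).2).2
  have hfu : ∀ x ∈ ball (0 : Fin n → ℂ) 1, h (ψ x) = u (ψ x) := fun x hx =>
    hhu _ (hmaps x hx).1 (hVN (hmaps x hx).2).2
  have hsurj : ∀ y ∈ Y, y ∈ V → ∃ x ∈ ball (0 : Fin n → ℂ) 1, ψ x = y := by
    intro y hy hyV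
    have : y ∈ ψ '' ball (0 : Fin n → ℂ) 1 := himg ▸ (⟨hy, hyV⟩ : y ∈ Y ∩ V)
    exact this
  refine ⟨V, fun x hx => (hVN hx).1, hV, hpV, ?_⟩
  by_cases hex : ∃ x ∈ ball (0 : Fin n → ℂ) 1, h (ψ x) ≠ 0
  · right
    obtain ⟨h1, h2⟩ := hball n (fun x => h (ψ x)) 1 0 one_pos hfd hex
    constructor
    · intro y hy hyV M hM
      obtain ⟨x, hx, rfl⟩ := hsurj y hy hyV
      have hc : ContinuousAt ψ x := (hψ.differentiableAt (isOpen_ball.mem_nhds hx)).continuousAt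
      obtain ⟨ε, hε, hεM⟩ := Metric.mem_nhds_iff.1 (hc hM)
      obtain ⟨x', hx', hd, hne⟩ := h1 x hx ε hε
      refine ⟨ψ x', (hmaps x' hx').1, (hmaps x' hx').2, hεM hd, ?_⟩
      rw [← hfu x' hx']
      exact hne
    · have e : {z | z ∈ Y ∧ z ∈ V ∧ u z ≠ 0} =
          ψ '' {x | x ∈ ball (0 : Fin n → ℂ) 1 ∧ h (ψ x) ≠ 0} := by
        ext z
        constructor
        · rintro ⟨hz, hzV, hne⟩
          obtain ⟨x, hx, rfl⟩ := hsurj z hz hzV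
          exact ⟨x, ⟨hx, by rw [hfu x hx]; exact hne⟩, rfl⟩
        · rintro ⟨x, ⟨hx, hne⟩, rfl⟩
          exact ⟨(hmaps x hx).1, (hmaps x hx).2, by rw [← hfu x hx]; exact hne⟩
      rw [e]
      exact h2.image ψ (hψ.continuousOn.mono fun x hx => hx.1)
  · left
    push Not at hex
    intro y hy hyV
    obtain ⟨x, hx, rfl⟩ := hsurj y hy hyV
    rw [← hfu x hx]
    exact hex x hx

/-- density -/
theorem dense (hball : S_BALL) {m : ℕ} {Y : Set (Fin m → ℂ)} (hY : HasCharts Y)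
    (hc : IsPreconnected Y) {u : (Fin m → ℂ) → ℂ} (hu : HolOn Y u) (hex : ∃ y ∈ Y, u y ≠ 0) :
    ∀ p ∈ Y, ∀ N ∈ 𝓝 p, ∃ y ∈ Y, y ∈ N ∧ u y ≠ 0 := by
  set O1 : Set (Fin m → ℂ) := {x | ∃ W, IsOpen W ∧ x ∈ W ∧ ∀ y ∈ Y, y ∈ W → u y = 0} with hO1
  set O2 : Set (Fin m → ℂ) := {x | ∃ V, IsOpen V ∧ x ∈ V ∧ ∀ y ∈ Y, y ∈ V → ∀ M ∈ 𝓝 y,
    ∃ z ∈ Y, z ∈ V ∧ z ∈ M ∧ u z ≠ 0} with hO2
  have o1 : IsOpen O1 := by
    rw [isOpen_iff_mem_nhds]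
    rintro x ⟨W, hW, hxW, h⟩
    exact Filter.mem_of_superset (hW.mem_nhds hxW) fun y hy => ⟨W, hW, hy, h⟩
  have o2 : IsOpen O2 := by
    rw [isOpen_iff_mem_nhds]
    rintro x ⟨W, hW, hxW, h⟩
    exact Filter.mem_of_superset (hW.mem_nhds hxW) fun y hy => ⟨W, hW, hy, h⟩
  have hcov : Y ⊆ O1 ∪ O2 := by
    intro p hp
    obtain ⟨V, -, hV, hpV, h | h⟩ := piece hball hY hu hp Filter.univ_mem
    · exact Or.inl ⟨V, hV, hpV, h⟩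
    · exact Or.inr ⟨V, hV, hpV, h.1⟩
  have hdis : ∀ x ∈ Y, x ∈ O1 → x ∈ O2 → False := by
    rintro x hx ⟨W, hW, hxW, h⟩ ⟨V, hV, hxV, h'⟩
    obtain ⟨z, hz, _, hzW, hne⟩ := h' x hx hxV W (hW.mem_nhds hxW)
    exact hne (h z hz hzW)
  have hne1 : ∀ x ∈ Y, x ∉ O1 := by
    intro x hx hx1
    obtain ⟨y0, hy0, hu0⟩ := hex
    have hy1 : y0 ∉ O1 := by
      rintro ⟨W, _, hyW, h⟩
      exact hu0 (h y0 hy0 hyW)
    have hy2 : y0 ∈ O2 := (hcov hy0).resolve_left hy1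
    obtain ⟨z, hz, hz1, hz2⟩ := hc O1 O2 o1 o2 hcov ⟨x, hx, hx1⟩ ⟨y0, hy0, hy2⟩
    exact hdis z hz hz1 hz2
  intro p hp N hN
  obtain ⟨V, hV, hpV, h⟩ := (hcov hp).resolve_left (hne1 p hp)
  obtain ⟨z, hz, _, hzN, hne⟩ := h p hp hpV N hN
  exact ⟨z, hz, hzN, hne⟩

end THIN

theorem t_THIN (ball : S_BALL) (conn : S_CONN) : S_THIN := by
  intro m Y hY hc u hu hex
  have hdense := THIN.dense ball hY hc hu hex
  refine ⟨hdense, ?_⟩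
  set A : Set ↥Y := {y | u y.1 = 0} with hA
  have huniv : IsPreconnected (univ : Set ↥Y) :=
    (isPreconnected_iff_preconnectedSpace.1 hc).isPreconnected_univ
  have h := conn ↥Y A huniv (by
    intro x N hN
    rw [nhds_subtype_eq_comap, Filter.mem_comap] at hN
    obtain ⟨N', hN', hsub⟩ := hN
    obtain ⟨V, hVN, hV, hxV, hcase⟩ := THIN.piece ball hY hu x.2 hN'
    have hcase' : (∀ y ∈ Y, y ∈ V → ∀ M ∈ 𝓝 y, ∃ z ∈ Y, z ∈ V ∧ z ∈ M ∧ u z ≠ 0) ∧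
        IsPreconnected {z | z ∈ Y ∧ z ∈ V ∧ u z ≠ 0} := by
      rcases hcase with h0 | h1
      · obtain ⟨z, hz, hzV, hne⟩ := hdense x.1 x.2 V (hV.mem_nhds hxV)
        exact absurd (h0 z hz hzV) hne
      · exact h1
    refine ⟨Subtype.val ⁻¹' V, fun y hy => hsub (hVN hy), hV.preimage continuous_subtype_val, hxV,
      ?_, ?_⟩
    · obtain ⟨z, hz, hzV, _, hne⟩ := hcase'.1 x.1 x.2 hxV V (hV.mem_nhds hxV)
      exact ⟨⟨z, hz⟩, hzV, hne⟩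
    · rw [← Topology.IsInducing.subtypeVal.isPreconnected_image]
      have e : Subtype.val '' ((Subtype.val ⁻¹' V : Set ↥Y) \ A) =
          {z | z ∈ Y ∧ z ∈ V ∧ u z ≠ 0} := by
        ext z
        constructor
        · rintro ⟨y, ⟨hyV, hyA⟩, rfl⟩
          exact ⟨y.2, hyV, hyA⟩
        · rintro ⟨hz, hzV, hne⟩
          exact ⟨⟨z, hz⟩, ⟨hzV, hne⟩, rfl⟩
      rw [e]
      exact hcase'.2)
  have e : {y | y ∈ Y ∧ u y ≠ 0} = Subtype.val '' Aᶜ := by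
    ext z
    constructor
    · rintro ⟨hz, hne⟩
      exact ⟨⟨z, hz⟩, hne, rfl⟩
    · rintro ⟨y, hy, rfl⟩
      exact ⟨y.2, hy⟩
  rw [e]
  exact h.image _ continuous_subtype_val.continuousOn

end Pool.Agent.Q22.GO
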