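import Pool.Agent.Q22.GO.Stm
import Pool.Agent.Helper113.Gorin.G_big_picard
import Pool.Agent.Helper113.Gorin.G_end_growth
import Pool.Agent.Helper113.Gorin.Schottky

set_option autoImplicit false

/-!
Project GO (helper22), statement `S_TUG`: holomorphic functions on `Y` without the values `0, 1` have
moderate growth at the ends of the line (big Picard theorem).
-/

namespace Pool.Agent.Q22.GO

open H113G Metric Set Topology

namespace TUG

/-- one end: a periodic function without the values `0`, `1` on a half plane has moderate growth -/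
lemma gr {φ : ℂ → ℂ} {c : ℝ} {κ : ℕ} (hκ : 0 < κ) (hφ : DifferentiableOn ℂ φ {s : ℂ | c < s.re})
    (hper : ∀ s : ℂ, c < s.re → φ (s + 2 * Real.pi * κ * Complex.I) = φ s)
    (h0 : ∀ s : ℂ, c < s.re → φ s ≠ 0) (h1 : ∀ s : ℂ, c < s.re → φ s ≠ 1) :
    ∃ A C c' : ℝ, ∀ s : ℂ, c' < s.re → ‖φ s‖ ≤ C * Real.exp (A * s.re) :=
  end_growth (fun hr hf ha hb => big_picard schottky_all hr hf ha hb) hκ hφ hper h0 h1

/-- both bounds with the same constants -/
lemma gr2 {φ : ℂ → ℂ} {c : ℝ} {κ : ℕ} (hκ : 0 < κ) (hφ : DifferentiableOn ℂ φ {s : ℂ | c < s.re})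
    (hper : ∀ s : ℂ, c < s.re → φ (s + 2 * Real.pi * κ * Complex.I) = φ s)
    (h0 : ∀ s : ℂ, c < s.re → φ s ≠ 0) (h1 : ∀ s : ℂ, c < s.re → φ s ≠ 1) :
    ∃ A C c' : ℝ, ∀ s : ℂ, c' < s.re →
      ‖φ s‖ ≤ C * Real.exp (A * s.re) ∧ ‖(φ s)⁻¹‖ ≤ C * Real.exp (A * s.re) := by
  obtain ⟨A₁, C₁, c₁, H₁⟩ := gr hκ hφ hper h0 h1
  obtain ⟨A₂, C₂, c₂, H₂⟩ := gr (φ := fun s => (φ s)⁻¹) hκ (hφ.inv h0)
    (fun s hs => by simp only [hper s hs]) (fun s hs => inv_ne_zero (h0 s hs))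
    (fun s hs h => h1 s hs (inv_eq_one.1 h))
  refine ⟨max A₁ A₂, max (max C₁ C₂) 0, max (max c₁ c₂) 0, fun s hs => ?_⟩
  have hs1 : c₁ < s.re := lt_of_le_of_lt ((le_max_left _ _).trans (le_max_left _ _)) hs
  have hs2 : c₂ < s.re := lt_of_le_of_lt ((le_max_right _ _).trans (le_max_left _ _)) hs
  have hs0 : 0 < s.re := lt_of_le_of_lt (le_max_right _ _) hs
  have key : ∀ A' C' : ℝ, A' ≤ max A₁ A₂ → C' ≤ max (max C₁ C₂) 0 →
      C' * Real.exp (A' * s.re) ≤ max (max C₁ C₂) 0 * Real.exp (max A₁ A₂ * s.re) := by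
    intro A' C' hA hC
    refine mul_le_mul hC (Real.exp_le_exp.2 (mul_le_mul_of_nonneg_right hA hs0.le))
      (Real.exp_pos _).le (le_max_right _ _)
  exact ⟨(H₁ s hs1).trans (key _ _ (le_max_left _ _) ((le_max_left _ _).trans (le_max_left _ _))),
    (H₂ s hs2).trans (key _ _ (le_max_right _ _) ((le_max_right _ _).trans (le_max_left _ _)))⟩

/-- composition of a function holomorphic on `Y` with a holomorphic map into `Y` -/
lemma comp {m : ℕ} {Y : Set (Fin m → ℂ)} {g : (Fin m → ℂ) → ℂ} (hg : HolOn Y g)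
    {U : Set ℂ} (hU : IsOpen U) {σ : ℂ → (Fin m → ℂ)} (hσ : DifferentiableOn ℂ σ U)
    (hY : ∀ s ∈ U, σ s ∈ Y) : DifferentiableOn ℂ (fun s => g (σ s)) U := by
  intro s hs
  obtain ⟨V, hV, hpV, h, hh, hgh⟩ := hg (σ s) (hY s hs)
  have hσs : DifferentiableAt ℂ σ s := hσ.differentiableAt (hU.mem_nhds hs)
  have hd : DifferentiableAt ℂ (fun x => h (σ x)) s :=
    (hh.differentiableAt (hV.mem_nhds hpV)).comp s hσs
  have hev : (fun x => g (σ x)) =ᶠ[𝓝 s] (fun x => h (σ x)) := by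
    filter_upwards [hσs.continuousAt.preimage_mem_nhds (hV.mem_nhds hpV), hU.mem_nhds hs]
      with x hx hxU
    exact (hgh (σ x) (hY x hxU) hx).symm
  exact (hev.differentiableAt_iff.2 hd).differentiableWithinAt

end TUG

theorem t_TUG : S_TUG := by
  intro m k Y pr δ e v c κ Λ hE g hg hg01
  have hYs : ∀ i, ∀ s : ℂ, c < s.re → Λ i s ∈ Y := by
    intro i s hs
    have : Λ i s ∈ {y | y ∈ Y ∧ pr y = Complex.exp s • v} := by
      rw [hE.fib s hs]; exact ⟨i, rfl⟩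
    exact this.1
  have hopen : IsOpen {s : ℂ | c < s.re} := isOpen_lt continuous_const Complex.continuous_re
  have hdiff : ∀ i, DifferentiableOn ℂ (fun s => g (Λ i s)) {s : ℂ | c < s.re} := fun i =>
    TUG.comp hg hopen (hE.diff i) (fun s hs => hYs i s hs)
  have hg1 : HolOn Y (fun y => 1 - g y) := by
    intro p hp
    obtain ⟨U, hU, hpU, h, hh, hgh⟩ := hg p hp
    exact ⟨U, hU, hpU, fun y => 1 - h y, (differentiableOn_const _).sub hh,
      fun y hy hyU => by simp only [hgh y hy hyU]⟩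
  refine ⟨⟨hg, fun y hy => (hg01 y hy).1, fun i => ?_⟩,
    ⟨hg1, fun y hy => sub_ne_zero.2 (hg01 y hy).2.symm, fun i => ?_⟩⟩
  · exact TUG.gr2 hE.pos (hdiff i) (fun s hs => by simp only [hE.per i s hs])
      (fun s hs => (hg01 _ (hYs i s hs)).1) (fun s hs => (hg01 _ (hYs i s hs)).2)
  · exact TUG.gr2 (φ := fun s => 1 - g (Λ i s)) hE.pos
      ((differentiableOn_const _).sub (hdiff i)) (fun s hs => by simp only [hE.per i s hs])
      (fun s hs => sub_ne_zero.2 (hg01 _ (hYs i s hs)).2.symm)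
      (fun s hs h => (hg01 _ (hYs i s hs)).1 (by linear_combination -h))

end Pool.Agent.Q22.GO
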