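import Pool.Agent.Q22.GO.Stm

set_option autoImplicit false

/-! Project GO (helper22), job TUP (helper223): products of powers of units. -/

namespace Pool.Agent.Q22.GO

open H113G Metric Set Topology

namespace TUP

variable {m e : ℕ} {Y : Set (Fin m → ℂ)} {Λ : Fin e → ℂ → (Fin m → ℂ)}

theorem one : TU Y Λ (fun _ => 1) := by
  refine ⟨fun p _ => ⟨univ, isOpen_univ, mem_univ _, fun _ => 1, differentiableOn_const _,
    fun _ _ _ => rfl⟩, fun _ _ => one_ne_zero, fun i => ⟨0, 1, 0, fun s _ => ?_⟩⟩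
  simp

theorem mul {f g : (Fin m → ℂ) → ℂ} (hf : TU Y Λ f) (hg : TU Y Λ g) :
    TU Y Λ (fun y => f y * g y) := by
  obtain ⟨f1, f2, f3⟩ := hf
  obtain ⟨g1, g2, g3⟩ := hg
  refine ⟨fun p hp => ?_, fun y hy => mul_ne_zero (f2 y hy) (g2 y hy), fun i => ?_⟩
  · obtain ⟨U, hU, hpU, h, hh, he⟩ := f1 p hp
    obtain ⟨V, hV, hpV, k, hk, hke⟩ := g1 p hp
    refine ⟨U ∩ V, hU.inter hV, ⟨hpU, hpV⟩, fun y => h y * k y,
      (hh.mono inter_subset_left).mul (hk.mono inter_subset_right), fun y hy hyU => ?_⟩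
    simp only [he y hy hyU.1, hke y hy hyU.2]
  · obtain ⟨A, C, c', h⟩ := f3 i
    obtain ⟨B, D, d', k⟩ := g3 i
    refine ⟨A + B, C * D, max c' d', fun s hs => ?_⟩
    obtain ⟨h1, h2⟩ := h s (lt_of_le_of_lt (le_max_left _ _) hs)
    obtain ⟨k1, k2⟩ := k s (lt_of_le_of_lt (le_max_right _ _) hs)
    have e1 : C * D * Real.exp ((A + B) * s.re) =
        (C * Real.exp (A * s.re)) * (D * Real.exp (B * s.re)) := by
      rw [add_mul, Real.exp_add]
      ring
    rw [e1, norm_mul, mul_inv, norm_mul]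
    exact ⟨mul_le_mul h1 k1 (norm_nonneg _) (le_trans (norm_nonneg _) h1),
      mul_le_mul h2 k2 (norm_nonneg _) (le_trans (norm_nonneg _) h2)⟩

theorem inv {f : (Fin m → ℂ) → ℂ} (hf : TU Y Λ f) : TU Y Λ (fun y => (f y)⁻¹) := by
  obtain ⟨f1, f2, f3⟩ := hf
  refine ⟨fun p hp => ?_, fun y hy => inv_ne_zero (f2 y hy), fun i => ?_⟩
  · obtain ⟨U, hU, hpU, h, hh, he⟩ := f1 p hp
    have hhp : h p ≠ 0 := by rw [he p hp hpU]; exact f2 p hp
    have hV : IsOpen (U ∩ h ⁻¹' {0}ᶜ) := hh.continuousOn.isOpen_inter_preimage hU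
      isOpen_compl_singleton
    refine ⟨U ∩ h ⁻¹' {0}ᶜ, hV, ⟨hpU, hhp⟩, fun y => (h y)⁻¹, ?_, fun y hy hyU => ?_⟩
    · exact (hh.mono inter_subset_left).inv fun y hy => hy.2
    · simp only [he y hy hyU.1]
  · obtain ⟨A, C, c', h⟩ := f3 i
    refine ⟨A, C, c', fun s hs => ?_⟩
    obtain ⟨h1, h2⟩ := h s hs
    rw [inv_inv]
    exact ⟨h2, h1⟩

theorem pow {f : (Fin m → ℂ) → ℂ} (hf : TU Y Λ f) (n : ℕ) : TU Y Λ (fun y => f y ^ n) := by
  induction n with
  | zero => simpa using (one : TU Y Λ (fun _ => 1))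
  | succ n ih =>
    have := mul ih hf
    simpa only [pow_succ] using this

theorem zpow {f : (Fin m → ℂ) → ℂ} (hf : TU Y Λ f) (n : ℤ) : TU Y Λ (fun y => f y ^ n) := by
  obtain ⟨k, rfl | rfl⟩ := n.eq_nat_or_neg
  · simpa only [zpow_natCast] using pow hf k
  · simpa only [zpow_neg, zpow_natCast] using inv (pow hf k)

theorem prod {ι : Type*} (S : Finset ι) (f : ι → (Fin m → ℂ) → ℂ) (hf : ∀ i ∈ S, TU Y Λ (f i)) :
    TU Y Λ (fun y => ∏ i ∈ S, f i y) := by
  classical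
  induction S using Finset.induction_on with
  | empty => simpa using (one : TU Y Λ (fun _ => 1))
  | insert i S hi ih =>
    have := mul (hf i (Finset.mem_insert_self _ _))
      (ih fun j hj => hf j (Finset.mem_insert_of_mem hj))
    simpa only [Finset.prod_insert hi] using this

end TUP

theorem t_TUP : S_TUP := fun _ _ _ _ _ f hf a =>
  TUP.prod Finset.univ (fun l y => f l y ^ a l) fun l _ => TUP.zpow (hf l) (a l)

end Pool.Agent.Q22.GO
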