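import Pool.Agent.Q22.GO.Stm

set_option autoImplicit false

/-!
Project GO (helper22), job UNIT: the bound `N ≤ 4 ^ (2 s)` from the component statements.
Proof by helper150.
-/

namespace Pool.Agent.Q22.GO

open H113G Metric Set Topology

namespace UNIT

/-- an entire function is in `HolOn` -/
theorem hol_diff {m : ℕ} (Y : Set (Fin m → ℂ)) (u : (Fin m → ℂ) → ℂ) (hu : Differentiable ℂ u) :
    HolOn Y u := fun p _ =>
  ⟨univ, isOpen_univ, mem_univ p, u, hu.differentiableOn, fun _ _ _ => rfl⟩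

theorem hol_sub {m : ℕ} {Y : Set (Fin m → ℂ)} {u w : (Fin m → ℂ) → ℂ} (hu : HolOn Y u)
    (hw : HolOn Y w) : HolOn Y (fun y => u y - w y) := by
  intro p hp
  obtain ⟨U, hU, hpU, f, hf, hfu⟩ := hu p hp
  obtain ⟨V, hV, hpV, h, hh, hhw⟩ := hw p hp
  refine ⟨U ∩ V, hU.inter hV, ⟨hpU, hpV⟩, fun y => f y - h y,
    (hf.mono inter_subset_left).sub (hh.mono inter_subset_right), ?_⟩
  intro y hy hyUV
  show f y - h y = u y - w y
  rw [hfu y hy hyUV.1, hhw y hy hyUV.2]

theorem eval_diff {k : ℕ} (P : MvPolynomial (Fin k) ℂ) :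
    Differentiable ℂ (fun z : Fin k → ℂ => MvPolynomial.eval z P) := by
  induction P using MvPolynomial.induction_on with
  | C a =>
    simp only [MvPolynomial.eval_C]
    exact differentiable_const a
  | add p q hp hq =>
    simp only [map_add]
    exact hp.add hq
  | mul_X p i hp =>
    simp only [map_mul, MvPolynomial.eval_X]
    exact hp.mul (differentiable_apply i)

/-- GEN for a finite index type -/
theorem gen' (gen : S_GEN) {m : ℕ} {Y : Set (Fin m → ℂ)} (hC : HasCharts Y) (hY : IsConnected Y)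
    {ι : Type} [Fintype ι] (u : ι → (Fin m → ℂ) → ℂ) (hu : ∀ i, HolOn Y (u i))
    (hne : ∀ i, ∃ y ∈ Y, u i y ≠ 0) : ∃ y ∈ Y, ∀ i, u i y ≠ 0 := by
  obtain ⟨y, hy, h⟩ := gen m Y hC hY (Fintype.card ι) (fun l => u ((Fintype.equivFin ι).symm l))
    (fun l => hu _) (fun l => hne _)
  refine ⟨y, hy, fun i => ?_⟩
  have h2 := h (Fintype.equivFin ι i)
  simpa using h2

/-- two affine relations between nonconstant values force equality -/
theorem aff {g h g' h' a a' : ℂ} (h1 : g = a * h) (h2 : 1 - g = a' * (1 - h))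
    (h3 : g' = a * h') (h4 : 1 - g' = a' * (1 - h')) (hne : h ≠ h') : g = h := by
  have e1 : (a' - a) * (h - h') = 0 := by
    linear_combination h2 - h4 + h1 - h3
  have e2 : a' - a = 0 := by
    rcases mul_eq_zero.mp e1 with h5 | h5
    · exact h5
    · exact absurd (sub_eq_zero.mp h5) hne
  have e3 : a' = a := sub_eq_zero.mp e2
  have e4 : a = 1 := by
    subst e3
    linear_combination (-1 : ℂ) * h2 - h1
  rw [h1, e4, one_mul]

end UNIT

open UNIT in
theorem t_UNIT (cov : S_COV) (rs1 : S_RS1) (rs2 : S_RS2) (gen : S_GEN) (thin : S_THIN)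
    (lcy : S_LCY) (el : S_EL) (tug : S_TUG) (tup : S_TUP) (bf : S_BF) (nd : S_ND) (ep : S_EP)
    (bz : S_BZ) : S_UNIT := by
  intro s m Y hA hC hY hfr N g hhol h01 hnc hdist
  rcases Nat.eq_zero_or_pos N with hN0 | hNpos
  · subst hN0
    exact Nat.zero_le _
  obtain ⟨k, pr, δ, e, he, C⟩ := cov m Y hA hC hY
  obtain ⟨D, R, hD, hR⟩ := rs1 k δ C.base
  have hstab : ∀ v, MvPolynomial.eval v D ≠ 0 → RootStable δ v := rs2 k δ D R hR
  have hgen : Gen δ := ⟨D, hD, hstab⟩
  obtain ⟨r, hr, sec, -, hsec⟩ := C.sections 0 C.base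
  have hsec0 := (hsec 0 (mem_ball_self hr)).2.2
  obtain ⟨y₀, hy₀, hpr₀⟩ : ∃ y ∈ Y, pr y = 0 := by
    have h1 : sec ⟨0, he⟩ 0 ∈ Set.range (fun i => sec i 0) := ⟨⟨0, he⟩, rfl⟩
    rw [← hsec0] at h1
    exact ⟨_, h1.1, h1.2⟩
  -- the dimension is positive
  have hk : 0 < k := by
    rcases Nat.eq_zero_or_pos k with hk0 | hk0
    · exfalso
      subst hk0
      have hfin : Y.Finite := by
        have h1 : Y = Set.range (fun i => sec i 0) := by
          rw [← hsec0]
          ext y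
          constructor
          · intro hy
            exact ⟨hy, Subsingleton.elim _ _⟩
          · intro hy
            exact hy.1
        rw [h1]
        exact Set.finite_range _
      obtain ⟨a, ha, b, hb, hab⟩ := hnc ⟨0, hNpos⟩
      have hnt : Y.Nontrivial := ⟨a, ha, b, hb, fun h => hab (by rw [h])⟩
      exact hY.isPreconnected.infinite_of_nontrivial hnt hfin
    · exact hk0
  -- the generic point
  have hpd : ∀ P : MvPolynomial (Fin k) ℂ,
      HolOn Y (fun y => MvPolynomial.eval (pr y) P) := fun P =>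
    hol_diff Y _ ((eval_diff P).comp C.diff)
  obtain ⟨y₁, hy₁, hgp⟩ := gen' gen hC hY (ι := (Fin 3 ⊕ Fin N) ⊕ {p : Fin N × Fin N // p.1 ≠ p.2})
    (Sum.elim (Sum.elim ![fun y => MvPolynomial.eval (pr y) D, fun y => MvPolynomial.eval (pr y) δ,
      fun y => MvPolynomial.eval (pr y) (MvPolynomial.X ⟨0, hk⟩)]
      (fun i y => g i y - g i y₀)) (fun p y => g p.1.1 y - g p.1.2 y))
    (by
      rintro ((i | i) | p)
      · fin_cases i
        · exact hpd D
        · exact hpd δ
        · exact hpd _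
      · exact hol_sub (hhol i) (hol_diff Y (fun _ => g i y₀) (differentiable_const _))
      · exact hol_sub (hhol p.1.1) (hhol p.1.2))
    (by
      rintro ((i | i) | p)
      · fin_cases i
        · exact C.dominant D hD
        · exact ⟨y₀, hy₀, by
            show MvPolynomial.eval (pr y₀) δ ≠ 0
            rw [hpr₀]
            exact C.base⟩
        · exact C.dominant _ (MvPolynomial.X_ne_zero _)
      · obtain ⟨a, ha, b, hb, hab⟩ := hnc i
        by_cases h : g i a = g i y₀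
        · exact ⟨b, hb, fun h2 => hab (by
            rw [h]
            exact (sub_eq_zero.mp h2).symm)⟩
        · exact ⟨a, ha, fun h2 => h (sub_eq_zero.mp h2)⟩
      · obtain ⟨y, hy, h⟩ := hdist p.1.1 p.1.2 p.2
        exact ⟨y, hy, fun h2 => h (sub_eq_zero.mp h2)⟩)
  have hD1 : MvPolynomial.eval (pr y₁) D ≠ 0 := hgp (Sum.inl (Sum.inl 0))
  have hδ1 : MvPolynomial.eval (pr y₁) δ ≠ 0 := hgp (Sum.inl (Sum.inl 1))
  have hX1 : MvPolynomial.eval (pr y₁) (MvPolynomial.X (⟨0, hk⟩ : Fin k)) ≠ 0 :=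
    hgp (Sum.inl (Sum.inl 2))
  have hgne : ∀ i, g i y₁ ≠ g i y₀ := fun i h => hgp (Sum.inl (Sum.inr i)) (sub_eq_zero.mpr h)
  have hgij : ∀ i j, i ≠ j → g i y₁ ≠ g j y₁ := fun i j hij h =>
    hgp (Sum.inr ⟨(i, j), hij⟩) (sub_eq_zero.mpr h)
  have hv : pr y₁ ≠ 0 := by
    intro h
    apply hX1
    rw [h, MvPolynomial.eval_X]
    rfl
  have hL0 : y₀ ∈ Ln Y pr δ (pr y₁) := by
    refine ⟨hy₀, ⟨0, by rw [hpr₀, zero_smul]⟩, ?_⟩
    rw [hpr₀]
    exact C.base
  have hL1 : y₁ ∈ Ln Y pr δ (pr y₁) := ⟨hy₁, ⟨1, by rw [one_smul]⟩, hδ1⟩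
  have hpre : IsPreconnected {y | y ∈ Y ∧ MvPolynomial.eval (pr y) δ ≠ 0} :=
    (thin m Y hC hY.isPreconnected (fun y => MvPolynomial.eval (pr y) δ) (hpd δ)
      ⟨y₁, hy₁, hδ1⟩).2
  have hLn : IsPreconnected (Ln Y pr δ (pr y₁)) :=
    lcy m k Y pr δ e C he hgen hpre (pr y₁) hv (hstab _ hD1)
  obtain ⟨c, κ, Λ, E⟩ := el m k Y pr δ e C (pr y₁)
  -- the units
  set f : Fin (N + N) → (Fin m → ℂ) → ℂ := fun l =>
    Sum.elim (fun i y => g i y) (fun i y => 1 - g i y) (finSumFinEquiv.symm l) with hf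
  have hfl : ∀ (i : Fin N) (y : Fin m → ℂ), f (finSumFinEquiv (Sum.inl i)) y = g i y := by
    intro i y
    rw [hf]
    simp only [Equiv.symm_apply_apply, Sum.elim_inl]
  have hfr' : ∀ (i : Fin N) (y : Fin m → ℂ), f (finSumFinEquiv (Sum.inr i)) y = 1 - g i y := by
    intro i y
    rw [hf]
    simp only [Equiv.symm_apply_apply, Sum.elim_inr]
  have hTU : ∀ l, TU Y Λ (f l) := by
    intro l
    obtain ⟨x, rfl⟩ := finSumFinEquiv.surjective l
    rcases x with i | i
    · have h1 : f (finSumFinEquiv (Sum.inl i)) = g i := funext (hfl i)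
      rw [h1]
      exact (tug m k Y pr δ e (pr y₁) c κ Λ E (g i) (hhol i) (h01 i)).1
    · have h1 : f (finSumFinEquiv (Sum.inr i)) = fun y => 1 - g i y := funext (hfr' i)
      rw [h1]
      exact (tug m k Y pr δ e (pr y₁) c κ Λ E (g i) (hhol i) (h01 i)).2
  obtain ⟨n, hn, b, hind, hrep⟩ := bf m k Y pr δ e C (pr y₁) c κ Λ hv E ⟨⟨y₀, hL0⟩, hLn⟩ s hfr
    (N + N) f hTU
  set u : Fin n → (Fin m → ℂ) → ℂ := fun j y => ∏ l, f l y ^ b j l with hu
  have hTUu : ∀ j, TU Y Λ (u j) := fun j => tup m e Y Λ (N + N) f hTU (b j)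
  choose mm c1 hc1 h1 using fun i : Fin N => hrep (finSumFinEquiv (Sum.inl i))
  choose nn c2 hc2 h2 using fun i : Fin N => hrep (finSumFinEquiv (Sum.inr i))
  have h1' : ∀ i, ∀ y ∈ Ln Y pr δ (pr y₁), g i y = c1 i * ∏ j, u j y ^ mm i j := by
    intro i y hy
    rw [← hfl i y]
    exact h1 i y hy
  have h2' : ∀ i, ∀ y ∈ Ln Y pr δ (pr y₁), 1 - g i y = c2 i * ∏ j, u j y ^ nn i j := by
    intro i y hy
    rw [← hfr' i y]
    exact h2 i y hy
  have hND := fun i : Fin N => nd m k Y pr δ e C (pr y₁) c κ Λ hv E hLn n u hTUu hind (g i)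
    (hhol i) (h01 i) ⟨y₁, hL1, y₀, hL0, hgne i⟩ (mm i) (nn i) (c1 i) (c2 i) (h1' i) (h2' i)
  -- the exponents are distinct
  set Z : Fin N → (Fin n ⊕ Fin n → ℂ) := fun i =>
    Sum.elim (fun j => (mm i j : ℂ)) (fun j => (nn i j : ℂ)) with hZ
  have hinj : Function.Injective Z := by
    intro i j hij
    by_contra hne
    have hm : mm i = mm j := by
      funext l
      have h3 := congrFun hij (Sum.inl l)
      rw [hZ] at h3
      simp only [Sum.elim_inl] at h3
      exact_mod_cast h3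
    have hnn : nn i = nn j := by
      funext l
      have h3 := congrFun hij (Sum.inr l)
      rw [hZ] at h3
      simp only [Sum.elim_inr] at h3
      exact_mod_cast h3
    have key1 : ∀ y ∈ Ln Y pr δ (pr y₁), g i y = (c1 i / c1 j) * g j y := by
      intro y hy
      rw [h1' i y hy, h1' j y hy, hm]
      have := hc1 j
      field_simp
    have key2 : ∀ y ∈ Ln Y pr δ (pr y₁), 1 - g i y = (c2 i / c2 j) * (1 - g j y) := by
      intro y hy
      rw [h2' i y hy, h2' j y hy, hnn]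
      have := hc2 j
      field_simp
    exact hgij i j hne (aff (key1 y₁ hL1) (key2 y₁ hL1) (key1 y₀ hL0) (key2 y₀ hL0) (hgne j))
  -- Bezout
  have hB := bz (Fin n ⊕ Fin n) (Fin e × {s : ℂ // c < s.re})
    (fun t => Epol (lg (fun j x => u j (Λ t.1 x)) t.2.1) (lg' (fun j x => u j (Λ t.1 x)) t.2.1))
    (fun t => (ep n _ _).1) (Finset.univ.map ⟨Z, hinj⟩)
    (by
      intro z hz
      rw [Finset.mem_map] at hz
      obtain ⟨i, -, rfl⟩ := hz
      show (∀ t : Fin e × {s : ℂ // c < s.re}, MvPolynomial.eval (Z i) _ = 0) ∧ _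
      refine ⟨?_, ?_⟩
      · intro t
        rw [hZ]
        simp only
        rw [(ep n _ _).2.1]
        exact (hND i).1 t.1 t.2.1 t.2.2
      · intro x hx
        have h3 := (hND i).2 (fun j => x (Sum.inl j)) (fun j => x (Sum.inr j)) (by
          intro i' s' hs'
          have h4 := hx (i', ⟨s', hs'⟩)
          rw [← (ep n _ _).2.2]
          have h5 : Sum.elim (fun j => x (Sum.inl j)) (fun j => x (Sum.inr j)) = x := by
            funext j
            rcases j with j | j <;> rfl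
          rw [h5]
          exact h4)
        funext j
        rcases j with j | j
        · exact congrFun h3.1 j
        · exact congrFun h3.2 j)
  rw [Finset.card_map, Finset.card_univ, Fintype.card_fin, Fintype.card_sum, Fintype.card_fin]
    at hB
  refine hB.trans (Nat.pow_le_pow_right (by norm_num) (by omega))

end Pool.Agent.Q22.GO
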